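/-
Project TB (MP_d9e400_an): boundaries of bounded immediate attracting basins of entire functions.
Definitions only.
-/
import Mathlib

set_option autoImplicit false

open Set Filter Topology Metric

namespace Pool.Agent.TB

/-- the open unit disc -/
abbrev Dk : Set ℂ := Metric.ball (0 : ℂ) 1

/-- `f` is entire, `U` is a bounded domain with `f(U) ⊆ U`, `z₀ ∈ U` is an attracting fixed point,
and the iterates of `f` are unbounded near every frontier point of `U`. -/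
structure Basin (f : ℂ → ℂ) (U : Set ℂ) (z₀ : ℂ) : Prop where
  hf : Differentiable ℂ f
  isOpen : IsOpen U
  conn : IsConnected U
  bdd : Bornology.IsBounded U
  maps : Set.MapsTo f U U
  mem : z₀ ∈ U
  fix : f z₀ = z₀
  attr : ‖deriv f z₀‖ < 1
  esc : ∀ x ∈ frontier U, ∀ r : ℝ, 0 < r → ∀ M : ℝ, ∃ n : ℕ, ∃ y ∈ Metric.ball x r, M < ‖f^[n] y‖

/-- an open connected set `U` such that no compact subset of `U` surrounds a point outside `U` -/
structure SC (U : Set ℂ) : Prop where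
  isOpen : IsOpen U
  conn : IsConnected U
  hull : ∀ X : Set ℂ, X ⊆ U → IsCompact X → ∀ a ∉ U,
    ¬ Bornology.IsBounded (connectedComponentIn Xᶜ a)

/-- `φ` is a conformal map of the unit disc onto `U` -/
structure Conf (φ : ℂ → ℂ) (U : Set ℂ) : Prop where
  diff : DifferentiableOn ℂ φ Dk
  bij : Set.BijOn φ Dk U

/-- the radial limit of `φ` at the point `ζ` of the circle is `x` -/
def RadLim (φ : ℂ → ℂ) (ζ x : ℂ) : Prop :=
  Tendsto (fun r : ℝ => φ ((r : ℂ) * ζ)) (𝓝[<] (1 : ℝ)) (𝓝 x)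

/-- the point with angle `θ` on the unit circle -/
noncomputable def ee (θ : ℝ) : ℂ := Complex.exp ((θ : ℂ) * Complex.I)

/-- the unbounded part of the complement of `closure U` -/
def Vset (U : Set ℂ) : Set ℂ :=
  {z | z ∉ closure U ∧ ¬ Bornology.IsBounded (connectedComponentIn (closure U)ᶜ z)}

/-- the image of `Vset U ∪ {∞}` under `z ↦ 1 / (z - z₀)` -/
def Vstar (U : Set ℂ) (z₀ : ℂ) : Set ℂ := {u | u = 0 ∨ (u ≠ 0 ∧ z₀ + u⁻¹ ∈ Vset U)}

/-- `p` is accessible from `V` (some curve ends at `p` and is otherwise in `V`) -/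
def Acc (V : Set ℂ) (p : ℂ) : Prop :=
  ∃ κ : ℝ → ℂ, ContinuousOn κ (Icc 0 1) ∧ κ 0 = p ∧ ∀ t ∈ Ioc (0 : ℝ) 1, κ t ∈ V

/-- `Ψ` is a conformal map of the punctured disc onto `V`, the point `0` corresponding to `∞` -/
structure Ext (V : Set ℂ) (Ψ : ℂ → ℂ) : Prop where
  diff : DifferentiableOn ℂ Ψ (Dk \ {0})
  bij : Set.BijOn Ψ (Dk \ {0}) V
  far : ∀ ρ : ℝ, ρ < 1 → ∃ d : ℝ, 0 < d ∧ ∀ w : ℂ, w ≠ 0 → ‖w‖ ≤ ρ → d ≤ Metric.infDist (Ψ w) Vᶜ
  bd : ∀ R : ℝ, ∃ m : ℝ, 0 < m ∧ ∀ w ∈ Dk \ {0}, ‖Ψ w‖ ≤ R → m ≤ ‖w‖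
  out : ∃ R : ℝ, ∀ w ∈ Dk, 1 / 2 ≤ ‖w‖ → ‖Ψ w‖ ≤ R

/-- finite Blaschke product -/
noncomputable def Bl {d : ℕ} (c : ℂ) (a : Fin d → ℂ) (w : ℂ) : ℂ :=
  c * ∏ i, (w - a i) / (1 - (starRingEnd ℂ) (a i) * w)

/-- Blaschke products of degree at least two with a zero at the origin -/
structure BlData (d : ℕ) (c : ℂ) (a : Fin d → ℂ) : Prop where
  hd : 2 ≤ d
  hc : ‖c‖ = 1
  ha : ∀ i, ‖a i‖ < 1
  h0 : ∃ i, a i = 0

/-- the closed square number `q` of the grid of mesh `s` -/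
def sq (s : ℝ) (q : ℤ × ℤ) : Set ℂ :=
  {z | s * q.1 ≤ z.re ∧ z.re ≤ s * (q.1 + 1) ∧ s * q.2 ≤ z.im ∧ z.im ≤ s * (q.2 + 1)}

/-- the open strip `0 < Im u < π` -/
def strip : Set ℂ := {u | 0 < u.im ∧ u.im < Real.pi}

/-- the conformal map of the strip onto the disc; the left end goes to `ζ`, the right end to `-ζ` -/
noncomputable def ES (ζ u : ℂ) : ℂ :=
  ζ * ((Complex.I - Complex.exp u) / (Complex.I + Complex.exp u))

end Pool.Agent.TB
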