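/-
Project TB (MP_d9e400_an). Module RootLoc.
Local form of a holomorphic function: f = f(x) + (local coordinate)^m.

PROOF. f - f x is analytic at x, not eventually zero: finite order m ≥ 1, f z - f x = (z - x)^m g z near x with g
analytic at x, g x ≠ 0 (AnalyticAt.analyticOrderAt..., or exists_eventuallyEq_pow_smul_nonzero_iff). Let c^m = g x
(complex root, IsAlgClosed or exp(log/m)), g z / g x is near 1, so in the slit plane;
η z = (z - x) c exp(log(g z / g x)/m). η^m = f - f x near x, η x = 0, deriv η x = c ≠ 0, η analytic.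
-/
import Mathlib
import Pool.Agent.TB.Defs

set_option autoImplicit false

open Set Filter Topology Metric

namespace Pool.Agent.TB

theorem local_power {f : ℂ → ℂ} {x : ℂ} (hf : AnalyticAt ℂ f x)
    (hne : ¬ ∀ᶠ z in 𝓝 x, f z = f x) :
    ∃ (m : ℕ) (η : ℂ → ℂ), 1 ≤ m ∧ AnalyticAt ℂ η x ∧ η x = 0 ∧ deriv η x ≠ 0 ∧
      ∀ᶠ z in 𝓝 x, f z = f x + η z ^ m := by
  have hF : AnalyticAt ℂ (fun z => f z - f x) x := hf.sub analyticAt_const
  have hne' : ¬ ∀ᶠ z in 𝓝 x, (fun z => f z - f x) z = 0 := by
    intro h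
    exact hne (h.mono (fun z hz => sub_eq_zero.1 hz))
  obtain ⟨m, g, hg, hgx, hfg⟩ := hF.exists_eventuallyEq_pow_smul_nonzero_iff.2 hne'
  have hm : m ≠ 0 := by
    rintro rfl
    have := hfg.self_of_nhds
    simp only [sub_self, pow_zero, one_smul] at this
    exact hgx this.symm
  have hmpos : 0 < m := Nat.pos_of_ne_zero hm
  have hmC : (m : ℂ) ≠ 0 := by exact_mod_cast hm
  obtain ⟨c, hc⟩ := IsAlgClosed.exists_pow_nat_eq (g x) hmpos
  have hc0 : c ≠ 0 := by
    rintro rfl
    rw [zero_pow hm] at hc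
    exact hgx hc.symm
  set h : ℂ → ℂ := fun z => c * Complex.exp (Complex.log (g z / g x) / m) with hh
  have hquot : AnalyticAt ℂ (fun z => g z / g x) x := hg.div_const
  have hslit : (fun z => g z / g x) x ∈ Complex.slitPlane := by
    simp only
    rw [div_self hgx]
    exact Complex.one_mem_slitPlane
  have hhan : AnalyticAt ℂ h x :=
    analyticAt_const.mul ((hquot.clog hslit).div_const).cexp
  have hhx : h x = c := by
    simp only [hh]
    rw [div_self hgx, Complex.log_one, zero_div, Complex.exp_zero, mul_one]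
  refine ⟨m, fun z => (z - x) * h z, hmpos, (analyticAt_id.sub analyticAt_const).mul hhan,
    by simp, ?_, ?_⟩
  · have hd : HasDerivAt (fun z => (z - x) * h z) (1 * h x + (x - x) * deriv h x) x :=
      ((hasDerivAt_id x).sub_const x).mul hhan.differentiableAt.hasDerivAt
    rw [hd.deriv, hhx]
    simpa using hc0
  · have hgne : ∀ᶠ z in 𝓝 x, g z ≠ 0 := hg.continuousAt.eventually_ne hgx
    filter_upwards [hfg, hgne] with z hz hgz
    have hz' : f z = f x + (z - x) ^ m * g z := by
      rw [← smul_eq_mul, ← hz]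
      ring
    rw [hz']
    congr 1
    rw [mul_pow]
    congr 1
    simp only [hh]
    rw [mul_pow, hc, ← Complex.exp_nat_mul, mul_div_cancel₀ _ hmC, Complex.exp_log (div_ne_zero hgz hgx)]
    field_simp

end Pool.Agent.TB
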