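/-
Project TB (MP_d9e400_an). Module Injective.
Injective holomorphic functions have nonvanishing derivative and holomorphic inverse.

PROOFS. deriv_ne_zero_of_injOn: h is analytic at z, not eventually constant (injective on a ball). By local_power
h = h z + η^m near z, η z = 0, η' z ≠ 0; η is open at z. If m = 1 then h' z = η' z ≠ 0. If m ≥ 2: let ξ = exp(2πi/m) ≠ 1.
For small t ≠ 0 both t and ξ t are values of η at points w₁, w₂ near z (open at z, in the neighbourhood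
where the formula holds and inside Ω), w₁ ≠ w₂, but h w₁ = h w₂: contradiction.
isOpen_image_of_injOn: AnalyticAt.eventually_constant_or_nhds_le_map_nhds at each point.
exists_inverse: k = Function.invFunOn h Ω; k is continuous on h '' Ω because h maps open subsets of Ω
to open sets; HasDerivAt.of_local_left_inverse (with deriv ≠ 0) at each point.
-/
import Mathlib
import Pool.Agent.TB.Defs
import Pool.Agent.TB.RootLoc

set_option autoImplicit false

open Set Filter Topology Metric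

namespace Pool.Agent.TB

theorem deriv_ne_zero_of_injOn {Ω : Set ℂ} (hΩ : IsOpen Ω) {h : ℂ → ℂ}
    (hd : DifferentiableOn ℂ h Ω) (hi : InjOn h Ω) {z : ℂ} (hz : z ∈ Ω) : deriv h z ≠ 0 := by
  have han : AnalyticAt ℂ h z := hd.analyticAt (hΩ.mem_nhds hz)
  have hne : ¬ ∀ᶠ w in 𝓝 z, h w = h z := by
    intro hev
    have h1 : ∀ᶠ w in 𝓝 z, w = z := by
      filter_upwards [hev, hΩ.mem_nhds hz] with w hw hwΩ
      exact hi hwΩ hz hw
    have h2 : ∀ᶠ w in 𝓝[≠] z, w = z := h1.filter_mono nhdsWithin_le_nhds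
    obtain ⟨w, hw1, hw2⟩ := (h2.and self_mem_nhdsWithin).exists
    exact hw2 hw1
  obtain ⟨m, η, hm, hη, hη0, hη', hloc⟩ := local_power han hne
  rcases Nat.lt_or_ge m 2 with hm2 | hm2
  · have hm1 : m = 1 := by omega
    subst hm1
    have heq : h =ᶠ[𝓝 z] fun w => h z + η w := by
      filter_upwards [hloc] with w hw
      rw [hw, pow_one]
    rw [heq.deriv_eq, deriv_const_add]
    exact hη'
  · exfalso
    have hprim := Complex.isPrimitiveRoot_exp m (by omega)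
    set ξ : ℂ := Complex.exp (2 * Real.pi * Complex.I / m) with hξ
    have hξm : ξ ^ m = 1 := hprim.pow_eq_one
    have hξ1 : ξ ≠ 1 := hprim.ne_one (by omega)
    have hξn : ‖ξ‖ = 1 := hprim.norm'_eq_one (by omega)
    have hmap := hη.hasStrictDerivAt.map_nhds_eq hη'
    rw [hη0] at hmap
    have hN : η '' {w | w ∈ Ω ∧ h w = h z + η w ^ m} ∈ 𝓝 (0 : ℂ) := by
      rw [← hmap]
      exact image_mem_map ((hΩ.eventually_mem hz).and hloc)
    obtain ⟨r, hr, hball⟩ := Metric.mem_nhds_iff.1 hN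
    set t : ℂ := ((r / 2 : ℝ) : ℂ) with ht
    have htn : ‖t‖ = r / 2 := by
      rw [ht, Complex.norm_real, Real.norm_of_nonneg (by linarith)]
    have ht0 : t ≠ 0 := by
      rw [← norm_ne_zero_iff, htn]
      linarith
    obtain ⟨w₁, ⟨hw₁Ω, hw₁⟩, hw₁t⟩ := hball (show t ∈ ball (0 : ℂ) r by
      rw [mem_ball, dist_zero_right, htn]; linarith)
    obtain ⟨w₂, ⟨hw₂Ω, hw₂⟩, hw₂t⟩ := hball (show ξ * t ∈ ball (0 : ℂ) r by
      rw [mem_ball, dist_zero_right, norm_mul, hξn, one_mul, htn]; linarith)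
    have h12 : h w₁ = h w₂ := by
      rw [hw₁, hw₂, hw₁t, hw₂t, mul_pow, hξm, one_mul]
    have hw : w₁ = w₂ := hi hw₁Ω hw₂Ω h12
    rw [hw, hw₂t] at hw₁t
    exact hξ1 (mul_right_cancel₀ ht0 (by rw [hw₁t, one_mul]))

theorem isOpen_image_of_injOn {Ω : Set ℂ} (hΩ : IsOpen Ω) {h : ℂ → ℂ}
    (hd : DifferentiableOn ℂ h Ω) (hi : InjOn h Ω) : IsOpen (h '' Ω) := by
  rw [isOpen_iff_mem_nhds]
  rintro _ ⟨z, hz, rfl⟩
  have han : AnalyticAt ℂ h z := hd.analyticAt (hΩ.mem_nhds hz)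
  have hmap := han.hasStrictDerivAt.map_nhds_eq (deriv_ne_zero_of_injOn hΩ hd hi hz)
  rw [← hmap]
  exact image_mem_map (hΩ.mem_nhds hz)

theorem exists_inverse {Ω : Set ℂ} (hΩ : IsOpen Ω) {h : ℂ → ℂ}
    (hd : DifferentiableOn ℂ h Ω) (hi : InjOn h Ω) :
    ∃ k : ℂ → ℂ, DifferentiableOn ℂ k (h '' Ω) ∧ (∀ z ∈ Ω, k (h z) = z) ∧
      MapsTo k (h '' Ω) Ω ∧ ∀ y ∈ h '' Ω, h (k y) = y := by
  set k : ℂ → ℂ := Function.invFunOn h Ω with hk
  have hk1 : ∀ z ∈ Ω, k (h z) = z := fun z hz => hi.leftInvOn_invFunOn hz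
  have hk2 : MapsTo k (h '' Ω) Ω := by
    rintro _ ⟨z, hz, rfl⟩
    rw [hk1 z hz]
    exact hz
  have hk3 : ∀ y ∈ h '' Ω, h (k y) = y := by
    rintro _ ⟨z, hz, rfl⟩
    rw [hk1 z hz]
  refine ⟨k, ?_, hk1, hk2, hk3⟩
  have hopen := isOpen_image_of_injOn hΩ hd hi
  rintro _ ⟨z, hz, rfl⟩
  apply DifferentiableAt.differentiableWithinAt
  have hcont : ContinuousAt k (h z) := by
    rw [ContinuousAt, hk1 z hz]
    intro W hW
    obtain ⟨W', hW'W, hW'o, hzW'⟩ := _root_.mem_nhds_iff.1 hW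
    have ho : IsOpen (h '' (W' ∩ Ω)) := isOpen_image_of_injOn (hW'o.inter hΩ)
      (hd.mono inter_subset_right) (hi.mono inter_subset_right)
    have hmem : h z ∈ h '' (W' ∩ Ω) := ⟨z, ⟨hzW', hz⟩, rfl⟩
    rw [Filter.mem_map]
    refine Filter.mem_of_superset (ho.mem_nhds hmem) ?_
    rintro _ ⟨w, ⟨hwW, hwΩ⟩, rfl⟩
    rw [mem_preimage, hk1 w hwΩ]
    exact hW'W hwW
  have hder : HasDerivAt h (deriv h z) (k (h z)) := by
    rw [hk1 z hz]
    exact (hd.differentiableAt (hΩ.mem_nhds hz)).hasDerivAt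
  exact (hder.of_local_left_inverse hcont (deriv_ne_zero_of_injOn hΩ hd hi hz) (by
    filter_upwards [hopen.mem_nhds (mem_image_of_mem h hz)] with y hy
    exact hk3 y hy)).differentiableAt

end Pool.Agent.TB
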