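/-
Project TB (MP_d9e400_an). Module ConfA.
Conformal maps of the disc: inverse and boundary behaviour.

PROOFS. conf_inverse: exists_inverse and hφ.bij.image_eq. conf_isOpen: isOpen_image_of_injOn.
cluster_not_mem: if y ∈ U then k is continuous at y (U open), u_i = k (φ (u_i)) → k y ∈ Dk, so ‖u_i‖ → ‖k y‖ < 1,
contradiction (tendsto_nhds_unique). mapCluster_frontier: y ∈ closure U (φ maps Dk into U). y ∉ U: apply
cluster_not_mem with the filter l = 𝓝[Dk] ζ ⊓ comap φ (𝓝 y) (NeBot by MapClusterPt), u = id. U is open so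
frontier U = closure U \ U. radLim_mapCluster: r ↦ r ζ tends to 𝓝[Dk] ζ along 𝓝[<] 1 (‖rζ‖ = |r| < 1 eventually).
radLim_frontier: combine. exists_cluster: y ∈ closure U: z_n ∈ U → y; w_n = k z_n ∈ Dk has a subsequence
with limit ζ in the closed disc. If ‖ζ‖ < 1 then φ w_n → φ ζ ∈ U, y ∈ U, contradiction. So ‖ζ‖ = 1 and y is a
cluster value at ζ.
-/
import Mathlib
import Pool.Agent.TB.Defs
import Pool.Agent.TB.Injective

set_option autoImplicit false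

open Set Filter Topology Metric

namespace Pool.Agent.TB

variable {φ : ℂ → ℂ} {U : Set ℂ}

theorem conf_inverse (hφ : Conf φ U) :
    ∃ k : ℂ → ℂ, DifferentiableOn ℂ k U ∧ (∀ w ∈ Dk, k (φ w) = w) ∧ MapsTo k U Dk ∧
      ∀ z ∈ U, φ (k z) = z := by
  have h := exists_inverse isOpen_ball hφ.diff hφ.bij.injOn
  rwa [hφ.bij.image_eq] at h

theorem conf_isOpen (hφ : Conf φ U) : IsOpen U := by
  have h := isOpen_image_of_injOn isOpen_ball hφ.diff hφ.bij.injOn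
  rwa [hφ.bij.image_eq] at h

/-- boundary sequences are mapped to sequences with all limits outside `U` -/
theorem cluster_not_mem (hφ : Conf φ U) {ι : Type*} {l : Filter ι} [l.NeBot] {u : ι → ℂ}
    (hu : ∀ᶠ i in l, u i ∈ Dk) (h1 : Tendsto (fun i => ‖u i‖) l (𝓝 1)) {y : ℂ}
    (hy : Tendsto (fun i => φ (u i)) l (𝓝 y)) : y ∉ U := by
  intro hyU
  obtain ⟨k, hk, hk1, hk2, -⟩ := conf_inverse hφ
  have hc : ContinuousAt k y :=
    (hk.differentiableAt ((conf_isOpen hφ).mem_nhds hyU)).continuousAt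
  have h2 : Tendsto (fun i => k (φ (u i))) l (𝓝 (k y)) := hc.tendsto.comp hy
  have h3 : Tendsto u l (𝓝 (k y)) := by
    refine h2.congr' ?_
    filter_upwards [hu] with i hi
    exact hk1 _ hi
  have h4 := tendsto_nhds_unique h3.norm h1
  have h5 := hk2 hyU
  rw [mem_ball_zero_iff] at h5
  linarith

theorem mapCluster_frontier (hφ : Conf φ U) {ζ : ℂ} (hζ : ‖ζ‖ = 1) {y : ℂ}
    (hy : MapClusterPt y (𝓝[Dk] ζ) φ) : y ∈ frontier U := by
  rw [(conf_isOpen hφ).frontier_eq]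
  refine ⟨?_, ?_⟩
  · rw [mem_closure_iff_clusterPt]
    refine ClusterPt.mono (show ClusterPt y (map φ (𝓝[Dk] ζ)) from hy) ?_
    rw [le_principal_iff, mem_map]
    filter_upwards [self_mem_nhdsWithin] with w hw
    exact hφ.bij.mapsTo hw
  · have hne : (𝓝[Dk] ζ ⊓ comap φ (𝓝 y)).NeBot := by
      have h1 : (𝓝 y ⊓ map φ (𝓝[Dk] ζ)).NeBot := hy
      rw [inf_comm, ← Filter.push_pull] at h1
      exact (Filter.map_neBot_iff _).1 h1
    refine cluster_not_mem hφ (l := 𝓝[Dk] ζ ⊓ comap φ (𝓝 y)) (u := id) ?_ ?_ ?_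
    · have : ∀ᶠ i in 𝓝[Dk] ζ, i ∈ Dk := self_mem_nhdsWithin
      exact this.filter_mono inf_le_left
    · have h2 : Tendsto (fun i : ℂ => ‖i‖) (𝓝 ζ) (𝓝 ‖ζ‖) := continuous_norm.tendsto ζ
      rw [hζ] at h2
      exact h2.mono_left (inf_le_left.trans nhdsWithin_le_nhds)
    · exact tendsto_comap.mono_left inf_le_right

theorem ConfA_tendsto_radius {ζ : ℂ} (hζ : ‖ζ‖ = 1) :
    Tendsto (fun r : ℝ => (r : ℂ) * ζ) (𝓝[<] (1 : ℝ)) (𝓝[Dk] ζ) := by
  rw [tendsto_nhdsWithin_iff]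
  refine ⟨?_, ?_⟩
  · have h : Continuous (fun r : ℝ => (r : ℂ) * ζ) := by fun_prop
    have h2 := h.tendsto (1 : ℝ)
    simp only [Complex.ofReal_one, one_mul] at h2
    exact h2.mono_left nhdsWithin_le_nhds
  · have h1 : ∀ᶠ r : ℝ in 𝓝[<] (1 : ℝ), -1 < r :=
      (lt_mem_nhds (show (-1 : ℝ) < 1 by norm_num)).filter_mono nhdsWithin_le_nhds
    filter_upwards [h1, self_mem_nhdsWithin] with r hr hr1
    rw [mem_ball_zero_iff, norm_mul, hζ, mul_one, Complex.norm_real, Real.norm_eq_abs, abs_lt]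
    exact ⟨hr, hr1⟩

theorem radLim_mapCluster {ζ : ℂ} (hζ : ‖ζ‖ = 1) {y : ℂ}
    (hy : RadLim φ ζ y) : MapClusterPt y (𝓝[Dk] ζ) φ :=
  MapClusterPt.of_comp (ConfA_tendsto_radius hζ) (Tendsto.mapClusterPt hy)

theorem radLim_frontier (hφ : Conf φ U) {ζ : ℂ} (hζ : ‖ζ‖ = 1) {y : ℂ}
    (hy : RadLim φ ζ y) : y ∈ frontier U :=
  mapCluster_frontier hφ hζ (radLim_mapCluster hζ hy)

/-- every frontier point is a boundary value (bounded `U`) -/
theorem exists_cluster (hφ : Conf φ U) {y : ℂ} (hy : y ∈ frontier U) :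
    ∃ ζ : ℂ, ‖ζ‖ = 1 ∧ MapClusterPt y (𝓝[Dk] ζ) φ := by
  obtain ⟨k, hk, hk1, hk2, hk3⟩ := conf_inverse hφ
  rw [(conf_isOpen hφ).frontier_eq] at hy
  obtain ⟨hycl, hyU⟩ := hy
  obtain ⟨z, hz, hlim⟩ := mem_closure_iff_seq_limit.1 hycl
  have hw : ∀ n, k (z n) ∈ closedBall (0 : ℂ) 1 := fun n =>
    ball_subset_closedBall (hk2 (hz n))
  obtain ⟨ζ, hζ, ψ, hψ, hζlim⟩ := (isCompact_closedBall (0 : ℂ) 1).tendsto_subseq hw
  have hzlim : Tendsto (fun n => z (ψ n)) atTop (𝓝 y) := hlim.comp hψ.tendsto_atTop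
  have hφk : (fun n => φ ((k ∘ z ∘ ψ) n)) = fun n => z (ψ n) := by
    funext n; exact hk3 _ (hz _)
  have hζ1 : ‖ζ‖ = 1 := by
    rw [mem_closedBall_zero_iff] at hζ
    rcases lt_or_eq_of_le hζ with h | h
    · exfalso
      have hζD : ζ ∈ Dk := by rw [mem_ball_zero_iff]; exact h
      have hc : ContinuousAt φ ζ :=
        (hφ.diff.differentiableAt (isOpen_ball.mem_nhds hζD)).continuousAt
      have h2 : Tendsto (fun n => φ ((k ∘ z ∘ ψ) n)) atTop (𝓝 (φ ζ)) := hc.tendsto.comp hζlim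
      rw [hφk] at h2
      have h3 := tendsto_nhds_unique h2 hzlim
      exact hyU (h3 ▸ hφ.bij.mapsTo hζD)
    · exact h
  refine ⟨ζ, hζ1, ?_⟩
  have h4 : Tendsto (k ∘ z ∘ ψ) atTop (𝓝[Dk] ζ) := by
    rw [tendsto_nhdsWithin_iff]
    exact ⟨hζlim, Eventually.of_forall fun n => hk2 (hz _)⟩
  refine MapClusterPt.of_comp h4 (Tendsto.mapClusterPt ?_)
  have h5 : (φ ∘ (k ∘ z ∘ ψ)) = fun n => z (ψ n) := hφk
  rw [h5]
  exact hzlim

end Pool.Agent.TB
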