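/-
Project TB (MP_d9e400_an). Module LogCvx.
Continuous logarithms on convex sets, uniqueness, holomorphy.

PROOFS. log_convex: if S = ∅ trivial. The subtype S is contractible (Convex → StarConvex → contractible), locally
path connected (Convex.locallyPathConnectedSpace). Use Complex.exists_continuousOn_eqOn_exp_comp
(Mathlib.Analysis.Complex.BranchLogRoot) with X := S, U := univ, g := h ∘ Subtype.val (or
Complex.isCoveringMapOn_exp.existsUnique_continuousMap_lifts directly), and extend by 0 outside S.
log_unique: (L₁ - L₂)/(2πi) is continuous on S with values in the integers (Complex.exp_eq_exp_iff_exists_int),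
so constant on the preconnected S.
log_differentiableOn: near z ∈ U: exp has the local inverse; e.g. L z' = L z + Complex.log (h z' / h z) for z'
near z, because both sides are continuous logarithms of h on a ball and agree at z (h z'/h z is in the
slit plane). sqrt_convex: s = exp(L/2).
-/
import Mathlib
import Pool.Agent.TB.Defs

set_option autoImplicit false

open Set Filter Topology Metric

namespace Pool.Agent.TB

theorem log_convex {E : Type*} [NormedAddCommGroup E] [NormedSpace ℝ E] {S : Set E}
    (hS : Convex ℝ S) {h : E → ℂ} (hc : ContinuousOn h S) (h0 : ∀ z ∈ S, h z ≠ 0) :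
    ∃ L : E → ℂ, ContinuousOn L S ∧ ∀ z ∈ S, Complex.exp (L z) = h z := by
  classical
  rcases S.eq_empty_or_nonempty with rfl | hne
  · exact ⟨0, continuousOn_empty _, fun z hz => absurd hz (Set.notMem_empty z)⟩
  have hloc : LocallyPathConnectedSpace S := hS.locallyPathConnectedSpace
  have hcon : ContractibleSpace S := hS.contractibleSpace hne
  obtain ⟨x₀, hx₀⟩ := hne
  rcases Complex.isCoveringMapOn_exp.existsUnique_continuousMap_lifts
    ⟨fun x : S => h x, continuousOn_iff_continuous_domRestrict.mp hc⟩ (a₀ := ⟨x₀, hx₀⟩)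
    (Complex.exp_log (h0 x₀ hx₀)) (fun x => h0 x.1 x.2) with ⟨f, ⟨-, hf⟩, -⟩
  refine ⟨fun z => if hz : z ∈ S then f ⟨z, hz⟩ else 0, ?_, ?_⟩
  · rw [continuousOn_iff_continuous_domRestrict]
    have e : S.domRestrict (fun z => if hz : z ∈ S then f ⟨z, hz⟩ else 0) = f := by
      funext z
      simp [Set.domRestrict]
    rw [e]
    exact map_continuous f
  · intro z hz
    beta_reduce
    rw [dif_pos hz]
    exact congrFun hf ⟨z, hz⟩

/-- two continuous logarithms of the same function on a preconnected set differ by a constant -/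
theorem log_unique {E : Type*} [TopologicalSpace E] {S : Set E} (hS : IsPreconnected S)
    {L₁ L₂ : E → ℂ} (h1 : ContinuousOn L₁ S) (h2 : ContinuousOn L₂ S)
    (he : ∀ z ∈ S, Complex.exp (L₁ z) = Complex.exp (L₂ z)) :
    ∃ n : ℤ, ∀ z ∈ S, L₁ z = L₂ z + 2 * Real.pi * Complex.I * n := by
  classical
  rcases S.eq_empty_or_nonempty with rfl | ⟨x₀, hx₀⟩
  · exact ⟨0, fun z hz => absurd hz (Set.notMem_empty z)⟩
  have hex : ∀ z : E, ∃ n : ℤ, z ∈ S → L₁ z = L₂ z + n * (2 * Real.pi * Complex.I) := by
    intro z
    by_cases hz : z ∈ S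
    · obtain ⟨n, hn⟩ := Complex.exp_eq_exp_iff_exists_int.mp (he z hz)
      exact ⟨n, fun _ => hn⟩
    · exact ⟨0, fun h => absurd h hz⟩
  choose n hn using hex
  have hcont : ContinuousOn n S := by
    rw [Int.isClosedEmbedding_coe_real.isEmbedding.continuousOn_iff]
    have h3 : ContinuousOn (fun z => (L₁ z - L₂ z).im / (2 * Real.pi)) S :=
      (Complex.continuous_im.comp_continuousOn (h1.sub h2)).div_const _
    refine h3.congr fun z hz => ?_
    have h4 : L₁ z - L₂ z = n z * (2 * Real.pi * Complex.I) := by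
      rw [hn z hz]
      ring
    have h5 : (L₁ z - L₂ z).im = n z * (2 * Real.pi) := by
      rw [h4]
      have e : ((n z : ℂ) * (2 * Real.pi * Complex.I)) = (((n z : ℝ) * (2 * Real.pi) : ℝ) : ℂ) * Complex.I := by
        push_cast
        ring
      rw [e]
      simp
    have hpi : (2 * Real.pi) ≠ 0 := by positivity
    show (n z : ℝ) = (L₁ z - L₂ z).im / (2 * Real.pi)
    rw [h5]
    field_simp
  refine ⟨n x₀, fun z hz => ?_⟩
  rw [hn z hz, hS.constant hcont hz hx₀]
  ring

/-- a continuous logarithm of a holomorphic function is holomorphic -/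
theorem log_differentiableOn {U : Set ℂ} (hU : IsOpen U) {h L : ℂ → ℂ}
    (hh : DifferentiableOn ℂ h U) (hL : ContinuousOn L U)
    (he : ∀ z ∈ U, Complex.exp (L z) = h z) : DifferentiableOn ℂ L U := by
  intro z hz
  have hne : h z ≠ 0 := by
    rw [← he z hz]
    exact Complex.exp_ne_zero _
  have hUz : U ∈ 𝓝 z := hU.mem_nhds hz
  have hLc : ContinuousAt L z := (hL z hz).continuousAt hUz
  have hev : ∀ᶠ w in 𝓝 z, L w = L z + Complex.log (h w / h z) := by
    have h1 : ∀ᶠ w in 𝓝 z, ‖L w - L z‖ < 1 := by
      have h2 : Tendsto (fun w => ‖L w - L z‖) (𝓝 z) (𝓝 0) := by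
        have h3 := (hLc.tendsto.sub_const (L z)).norm
        simpa using h3
      exact h2.eventually (gt_mem_nhds one_pos)
    filter_upwards [h1, hUz] with w hw hwU
    have h2 : h w / h z = Complex.exp (L w - L z) := by
      rw [Complex.exp_sub, he w hwU, he z hz]
    have h3 := Complex.abs_im_le_norm (L w - L z)
    have h4 := abs_lt.mp (h3.trans_lt hw)
    have h5 := Real.pi_gt_three
    rw [h2, Complex.log_exp (by linarith [h4.1]) (by linarith [h4.2])]
    ring
  have hd : DifferentiableAt ℂ (fun w => L z + Complex.log (h w / h z)) z := by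
    refine (DifferentiableAt.clog (((hh z hz).differentiableAt hUz).div_const _) ?_).const_add _
    rw [div_self hne]
    exact Complex.one_mem_slitPlane
  exact (hd.congr_of_eventuallyEq hev).differentiableWithinAt

theorem sqrt_convex {S : Set ℂ} (hS : Convex ℝ S) (ho : IsOpen S) {h : ℂ → ℂ}
    (hd : DifferentiableOn ℂ h S) (h0 : ∀ z ∈ S, h z ≠ 0) :
    ∃ s : ℂ → ℂ, DifferentiableOn ℂ s S ∧ ∀ z ∈ S, s z ^ 2 = h z := by
  obtain ⟨L, hL, he⟩ := log_convex hS hd.continuousOn h0
  have hLd := log_differentiableOn ho hd hL he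
  refine ⟨fun z => Complex.exp (L z / 2), (hLd.div_const 2).cexp, fun z hz => ?_⟩
  rw [← Complex.exp_nat_mul, ← he z hz]
  congr 1
  push_cast
  ring

end Pool.Agent.TB
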