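/-
Project TB (MP_d9e400_an). Module Koebe.
A weak form of Koebe's one quarter theorem.

PROOF. Normalise: H z = h (w + r z) - h w on Dk, H injective holomorphic, H 0 = 0, H' 0 = r h' w ≠ 0. Let
δ = infDist 0 (H '' Dk)ᶜ. If (H '' Dk)ᶜ = ∅ done. It is closed (H '' Dk open), so there is a nearest point a ∉ H '' Dk,
‖a‖ = δ, ball 0 δ ⊆ H '' Dk, δ > 0. It is enough to show ‖a‖ ≥ ‖H' 0‖/32.
1 - H z / a has no zero on Dk: sqrt_convex: s holomorphic on Dk, s² = 1 - H/a, WLOG s 0 = 1 (replace s by -s).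
If s z = -s z' then H z = H z', z = z', s z = 0: impossible. Let u ∈ ball 1 (√2 - 1). ‖1 - u²‖ = ‖1-u‖‖1+u‖ <
(√2-1)(√2+1) = 1, so v = a (1-u²) has ‖v‖ < δ. Let k be the inverse of H on ball 0 δ (exists_inverse; continuous);
v' ↦ s (k v') is continuous on ball 0 δ with square 1 - v'/a, whose real part is positive, so it never is in
the imaginary axis, and s (k 0) = 1, so Re s(k v') > 0 on the connected ball. Since u² = s(k v)² and
Re u > 0, u = s (k v). So u is a value of s and -u is not. Hence ‖s z + 1‖ ≥ √2 - 1 for all z ∈ Dk. g = 1/(s+1) is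
holomorphic, ‖g‖ ≤ √2 + 1; Cauchy at 0 (radius ρ → 1, or radius 1/... any ρ<1): ‖g' 0‖ ≤ √2 + 1. g' 0 = -s' 0/4,
2 s' 0 = -H' 0/a. So ‖H' 0‖/(8‖a‖) ≤ √2 + 1 < 2.42, ‖a‖ ≥ ‖H' 0‖/19.4.
-/
import Mathlib
import Pool.Agent.TB.Defs
import Pool.Agent.TB.Injective
import Pool.Agent.TB.LogCvx

set_option autoImplicit false

open Set Filter Topology Metric

namespace Pool.Agent.TB

theorem Koebe_norm {H : ℂ → ℂ} (hd : DifferentiableOn ℂ H Dk) (hi : InjOn H Dk) (h0 : H 0 = 0) :
    Metric.ball 0 (‖deriv H 0‖ / 32) ⊆ H '' Dk := by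
  intro a₀ ha₀
  by_contra hna
  have h0Dk : (0 : ℂ) ∈ Dk := by simp [Dk]
  have hopen : IsOpen (H '' Dk) := isOpen_image_of_injOn isOpen_ball hd hi
  have hcl : IsClosed (H '' Dk)ᶜ := hopen.isClosed_compl
  have hne : ((H '' Dk)ᶜ).Nonempty := ⟨a₀, hna⟩
  obtain ⟨a, haS, ha⟩ := hcl.exists_infDist_eq_dist hne (0 : ℂ)
  rw [dist_comm, dist_zero_right] at ha
  have haa₀ : ‖a‖ ≤ ‖a₀‖ := by
    rw [← ha]
    have := Metric.infDist_le_dist_of_mem (x := (0 : ℂ)) (show a₀ ∈ (H '' Dk)ᶜ from hna)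
    rwa [dist_comm, dist_zero_right] at this
  rw [mem_ball, dist_zero_right] at ha₀
  have hasmall : ‖a‖ < ‖deriv H 0‖ / 32 := lt_of_le_of_lt haa₀ ha₀
  have ha0 : a ≠ 0 := by
    rintro rfl
    exact haS ⟨0, h0Dk, h0⟩
  have hap : 0 < ‖a‖ := norm_pos_iff.mpr ha0
  have hball : Metric.ball (0 : ℂ) ‖a‖ ⊆ H '' Dk := by
    intro v hv
    by_contra hvn
    have := Metric.infDist_le_dist_of_mem (x := (0 : ℂ)) (show v ∈ (H '' Dk)ᶜ from hvn)
    rw [ha, dist_comm, dist_zero_right] at this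
    rw [mem_ball, dist_zero_right] at hv
    linarith
  -- the square root
  have hne1 : ∀ z ∈ Dk, 1 - H z / a ≠ 0 := by
    intro z hz h1
    apply haS
    refine ⟨z, hz, ?_⟩
    have h2 : H z / a = 1 := by linear_combination -h1
    rw [div_eq_one_iff_eq ha0] at h2
    exact h2
  obtain ⟨s₀, hs₀d, hs₀⟩ := sqrt_convex (S := Dk) (convex_ball 0 1) isOpen_ball
    (h := fun z => 1 - H z / a) ((differentiableOn_const 1).sub (hd.div_const a)) hne1
  have hs₀0 : s₀ 0 ^ 2 = 1 := by
    rw [hs₀ 0 h0Dk, h0]; simp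
  set s : ℂ → ℂ := fun z => s₀ 0 * s₀ z with hs
  have hsd : DifferentiableOn ℂ s Dk := hs₀d.const_mul _
  have hsq : ∀ z ∈ Dk, s z ^ 2 = 1 - H z / a := by
    intro z hz
    rw [hs]
    simp only
    rw [mul_pow, hs₀0, one_mul, hs₀ z hz]
  have hs0 : s 0 = 1 := by
    rw [hs]
    simp only
    rw [← pow_two, hs₀0]
  have hnoneg : ∀ z ∈ Dk, ∀ z' ∈ Dk, s z ≠ -s z' := by
    intro z hz z' hz' h1
    have h2 : s z ^ 2 = s z' ^ 2 := by rw [h1]; ring
    rw [hsq z hz, hsq z' hz'] at h2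
    have h3 : H z / a = H z' / a := by linear_combination -h2
    have h4 : H z = H z' := by
      field_simp at h3
      exact h3
    have h5 := hi hz hz' h4
    rw [h5] at h1
    have h6 : s z' = 0 := by
      have : (2 : ℂ) * s z' = 0 := by linear_combination h1
      simpa using this
    have h7 := hsq z' hz'
    rw [h6] at h7
    apply hne1 z' hz'
    rw [← h7]; simp
  -- the inverse
  obtain ⟨k, hkd, hkl, hkm, hkr⟩ := exists_inverse isOpen_ball hd hi
  set q : ℂ → ℂ := fun v => s (k v) with hq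
  have hqc : ContinuousOn q (Metric.ball (0 : ℂ) ‖a‖) :=
    hsd.continuousOn.comp (hkd.continuousOn.mono hball) (fun v hv => hkm (hball hv))
  have hqsq : ∀ v ∈ Metric.ball (0 : ℂ) ‖a‖, q v ^ 2 = 1 - v / a := by
    intro v hv
    rw [hq]
    simp only
    rw [hsq _ (hkm (hball hv)), hkr v (hball hv)]
  have hre : ∀ v ∈ Metric.ball (0 : ℂ) ‖a‖, (q v).re ≠ 0 := by
    intro v hv h1
    have h2 := hqsq v hv
    have h3 : (q v ^ 2).re = - (q v).im ^ 2 := by
      rw [pow_two, Complex.mul_re, h1]; ring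
    have h4 : 0 < (1 - v / a).re := by
      rw [Complex.sub_re, Complex.one_re]
      have h5 : (v / a).re ≤ ‖v / a‖ := Complex.re_le_norm _
      have h6 : ‖v / a‖ < 1 := by
        rw [norm_div, div_lt_one hap]
        rw [mem_ball, dist_zero_right] at hv
        exact hv
      linarith
    rw [h2] at h3
    have := sq_nonneg (q v).im
    linarith
  have h0ball : (0 : ℂ) ∈ Metric.ball (0 : ℂ) ‖a‖ := mem_ball_self hap
  have hq0 : q 0 = 1 := by
    rw [hq]
    simp only
    have : k 0 = 0 := by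
      have := hkl 0 h0Dk
      rwa [h0] at this
    rw [this, hs0]
  have hrepos : ∀ v ∈ Metric.ball (0 : ℂ) ‖a‖, 0 < (q v).re := by
    intro v hv
    by_contra hneg
    push Not at hneg
    have hc : ContinuousOn (fun v => (q v).re) (Metric.ball (0 : ℂ) ‖a‖) :=
      Complex.continuous_re.comp_continuousOn hqc
    have hpre : IsPreconnected (Metric.ball (0 : ℂ) ‖a‖) := (convex_ball 0 ‖a‖).isPreconnected
    have hiv := hpre.intermediate_value hv h0ball hc
    have h1 : (0 : ℝ) ∈ Icc (q v).re (q 0).re := ⟨hneg, by rw [hq0]; simp⟩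
    obtain ⟨v', hv', hv'0⟩ := hiv h1
    exact hre v' hv' hv'0
  have hsqrt2 : Real.sqrt 2 ^ 2 = 2 := Real.sq_sqrt (by norm_num)
  have hsqrt1 : 1 < Real.sqrt 2 := by
    rw [Real.lt_sqrt (by norm_num)]; norm_num
  have hsqrt3 : Real.sqrt 2 < 1415 / 1000 := by
    rw [Real.sqrt_lt' (by norm_num)]; norm_num
  -- the omitted disc
  have hfar : ∀ z ∈ Dk, Real.sqrt 2 - 1 ≤ ‖s z + 1‖ := by
    intro z hz
    by_contra hlt
    push Not at hlt
    set u : ℂ := -s z with hu
    have hu1 : ‖u - 1‖ < Real.sqrt 2 - 1 := by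
      have : u - 1 = -(s z + 1) := by rw [hu]; ring
      rw [this, norm_neg]
      exact hlt
    set v : ℂ := a * (1 - u ^ 2) with hv
    have hvn : v ∈ Metric.ball (0 : ℂ) ‖a‖ := by
      rw [mem_ball, dist_zero_right, hv, norm_mul]
      have h1 : ‖1 - u ^ 2‖ < 1 := by
        have h2 : 1 - u ^ 2 = -((u - 1) * (u + 1)) := by ring
        rw [h2, norm_neg, norm_mul]
        have h3 : ‖u + 1‖ < Real.sqrt 2 + 1 := by
          have h4 : u + 1 = (u - 1) + 2 := by ring
          rw [h4]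
          refine lt_of_le_of_lt (norm_add_le _ _) ?_
          have : ‖(2 : ℂ)‖ = 2 := by simp
          rw [this]
          linarith
        have h5 : ‖u - 1‖ * ‖u + 1‖ ≤ ‖u - 1‖ * (Real.sqrt 2 + 1) :=
          mul_le_mul_of_nonneg_left h3.le (norm_nonneg _)
        have h6 : ‖u - 1‖ * (Real.sqrt 2 + 1) < (Real.sqrt 2 - 1) * (Real.sqrt 2 + 1) :=
          mul_lt_mul_of_pos_right hu1 (by linarith)
        nlinarith
      calc ‖a‖ * ‖1 - u ^ 2‖ < ‖a‖ * 1 := mul_lt_mul_of_pos_left h1 hap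
        _ = ‖a‖ := mul_one _
    have h7 := hqsq v hvn
    have h8 : 1 - v / a = u ^ 2 := by
      rw [hv]; field_simp; ring
    rw [h8] at h7
    rcases sq_eq_sq_iff_eq_or_eq_neg.mp h7 with h9 | h9
    · -- q v = u
      have h10 : s z = -s (k v) := by
        have : s (k v) = u := h9
        rw [this, hu, neg_neg]
      exact hnoneg z hz (k v) (hkm (hball hvn)) h10
    · -- q v = -u
      have h11 := hrepos v hvn
      rw [h9, Complex.neg_re] at h11
      have h12 : |(u - 1).re| ≤ ‖u - 1‖ := Complex.abs_re_le_norm _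
      rw [Complex.sub_re, Complex.one_re, abs_le] at h12
      linarith [h12.1]
  -- derivative estimates
  have hDk_nhds : Dk ∈ 𝓝 (0 : ℂ) := isOpen_ball.mem_nhds h0Dk
  have hsat : HasDerivAt s (deriv s 0) 0 := (hsd.differentiableAt hDk_nhds).hasDerivAt
  have hHat : HasDerivAt H (deriv H 0) 0 := (hd.differentiableAt hDk_nhds).hasDerivAt
  have hd1 : HasDerivAt (fun z => s z * s z) (-(deriv H 0 / a)) 0 := by
    have h1 : HasDerivAt (fun z => 1 - H z / a) (-(deriv H 0 / a)) 0 := by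
      have := (hHat.div_const a).const_sub 1
      exact this
    apply h1.congr_of_eventuallyEq
    filter_upwards [hDk_nhds] with z hz
    rw [← pow_two]
    exact hsq z hz
  have hd2 : HasDerivAt (fun z => s z * s z) (deriv s 0 * s 0 + s 0 * deriv s 0) 0 :=
    hsat.mul hsat
  have hds : deriv s 0 * s 0 + s 0 * deriv s 0 = -(deriv H 0 / a) := hd2.unique hd1
  rw [hs0] at hds
  have hden : ∀ z ∈ Dk, s z + 1 ≠ 0 := by
    intro z hz h1
    have := hfar z hz
    rw [h1, norm_zero] at this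
    linarith
  set g : ℂ → ℂ := fun z => (s z + 1)⁻¹ with hg
  have hgd : DifferentiableOn ℂ g Dk := (hsd.add_const 1).inv hden
  have hgder : HasDerivAt g (-(deriv s 0) / (s 0 + 1) ^ 2) 0 :=
    (hsat.add_const 1).inv (hden 0 h0Dk)
  have hsub : closedBall (0 : ℂ) (9 / 10) ⊆ Dk := closedBall_subset_ball (by norm_num)
  have hcauchy : ‖deriv g 0‖ ≤ (Real.sqrt 2 + 1) / (9 / 10) := by
    apply Complex.norm_deriv_le_of_forall_mem_sphere_norm_le (by norm_num)
    · exact (hgd.mono hsub).diffContOnCl_ball (le_refl _)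
    · intro z hz
      have hzD : z ∈ Dk := hsub (sphere_subset_closedBall hz)
      have h1 := hfar z hzD
      rw [hg]
      simp only
      rw [norm_inv]
      have h2 : 0 < Real.sqrt 2 - 1 := by linarith
      rw [inv_le_comm₀ (by linarith) (by linarith)]
      have h3 : (Real.sqrt 2 + 1)⁻¹ = Real.sqrt 2 - 1 :=
        inv_eq_of_mul_eq_one_right (by nlinarith)
      rw [h3]
      exact h1
  rw [hgder.deriv, hs0] at hcauchy
  have hnorm : ‖-(deriv s 0) / (1 + 1 : ℂ) ^ 2‖ = ‖deriv H 0‖ / (8 * ‖a‖) := by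
    have h1 : deriv s 0 = -(deriv H 0 / a) / 2 := by linear_combination hds / 2
    rw [h1]
    have h2 : -(-(deriv H 0 / a) / 2) / (1 + 1 : ℂ) ^ 2 = deriv H 0 / (8 * a) := by
      rw [show (1 + 1 : ℂ) ^ 2 = 4 by norm_num]
      field_simp
      ring
    rw [h2, norm_div, norm_mul]
    simp
  rw [hnorm, div_le_iff₀ (by positivity)] at hcauchy
  have h13 : (Real.sqrt 2 + 1) / (9 / 10) ≤ 27 / 10 := by
    rw [div_le_iff₀ (by norm_num)]; linarith
  have h14 : (Real.sqrt 2 + 1) / (9 / 10) * (8 * ‖a‖) ≤ 27 / 10 * (8 * ‖a‖) :=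
    mul_le_mul_of_nonneg_right h13 (by positivity)
  linarith

theorem koebe_lite {h : ℂ → ℂ} {w : ℂ} {r : ℝ} (hr : 0 < r)
    (hd : DifferentiableOn ℂ h (Metric.ball w r)) (hi : InjOn h (Metric.ball w r)) :
    Metric.ball (h w) (r * ‖deriv h w‖ / 32) ⊆ h '' Metric.ball w r := by
  set A : ℂ → ℂ := fun z => w + r * z with hA
  have hrc : (r : ℂ) ≠ 0 := by exact_mod_cast hr.ne'
  have hmap : MapsTo A Dk (Metric.ball w r) := by
    intro z hz
    rw [mem_ball, dist_zero_right] at hz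
    rw [mem_ball, dist_eq_norm, hA]
    simp only
    rw [add_sub_cancel_left, norm_mul, Complex.norm_real, Real.norm_eq_abs, abs_of_pos hr]
    calc r * ‖z‖ < r * 1 := mul_lt_mul_of_pos_left hz hr
      _ = r := mul_one r
  have hAd : Differentiable ℂ A := by
    rw [hA]; fun_prop
  set H : ℂ → ℂ := fun z => h (A z) - h w with hH
  have hHd : DifferentiableOn ℂ H Dk :=
    (hd.comp hAd.differentiableOn hmap).sub_const _
  have hHi : InjOn H Dk := by
    intro z hz z' hz' h1
    have h2 : h (A z) = h (A z') := by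
      have : h (A z) - h w = h (A z') - h w := h1
      linear_combination this
    have h3 := hi (hmap hz) (hmap hz') h2
    have h4 : w + r * z = w + r * z' := h3
    have h5 : (r : ℂ) * z = r * z' := by linear_combination h4
    exact mul_left_cancel₀ hrc h5
  have hH0 : H 0 = 0 := by
    simp [hH, hA]
  have hwat : HasDerivAt h (deriv h w) w :=
    (hd.differentiableAt (isOpen_ball.mem_nhds (mem_ball_self hr))).hasDerivAt
  have hHder : HasDerivAt H (deriv h w * r) 0 := by
    have h1 : HasDerivAt A (r : ℂ) 0 := by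
      have := ((hasDerivAt_id (0 : ℂ)).const_mul (r : ℂ)).const_add w
      simpa [hA] using this
    have hA0 : A 0 = w := by simp [hA]
    have h2 : HasDerivAt h (deriv h w) (A 0) := by rw [hA0]; exact hwat
    exact (h2.comp 0 h1).sub_const _
  have key := Koebe_norm hHd hHi hH0
  rw [hHder.deriv, norm_mul, Complex.norm_real, Real.norm_eq_abs, abs_of_pos hr] at key
  intro y hy
  have hy' : y - h w ∈ Metric.ball (0 : ℂ) (‖deriv h w‖ * r / 32) := by
    rw [mem_ball, dist_zero_right]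
    rw [mem_ball, dist_eq_norm] at hy
    rw [mul_comm ‖deriv h w‖ r]
    exact hy
  obtain ⟨z, hz, hzy⟩ := key hy'
  refine ⟨A z, hmap hz, ?_⟩
  have : h (A z) - h w = y - h w := hzy
  linear_combination this

end Pool.Agent.TB
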