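/-
Project TB (MP_d9e400_an). Module ConfB.
Conformal maps of the disc: decay of the derivative, limits in Stolz angles.

PROOFS. decay: Koebe on ball w (1-‖w‖) ⊆ Dk: ball (φ w) ((1-‖w‖)‖φ' w‖/32) ⊆ U. If decay fails for ε there are w_n,
‖w_n‖ → 1, (1-‖w_n‖)‖φ' w_n‖ ≥ ε, so ball (φ w_n) (ε/32) ⊆ U; U is bounded, a subsequence has φ w_n → y, and
ball y (ε/32) ∋ ... so y ∈ U (y ∈ ball (φ w_n) (ε/32) for large n); contradiction to cluster_not_mem.
difference: C ≥ 0 (otherwise the hypothesis is eventually false; l may be ⊥: then trivial). ‖u_i - w_i‖ ≤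
C (1 - ‖u_i‖) → 0. On the segment v ∈ [u_i, w_i]: ‖v‖ ≤ max(‖u_i‖,‖w_i‖) (convexity), so 1 - ‖v‖ ≥ min =: m_i, and
‖v‖ ≥ ‖u_i‖ - ‖u_i - w_i‖ → 1. Given ε, decay gives ρ; eventually all v have ‖v‖ > ρ, so ‖φ' v‖ ≤ ε/m_i and
‖φ u_i - φ w_i‖ ≤ ε ‖u_i - w_i‖/m_i ≤ C ε (Convex.norm_image_sub_le_of_norm_deriv_le on the segment).
stolz: v_i = ‖w_i‖ ζ. ‖w_i - v_i‖ ≤ ‖w_i - ζ‖ + (1-‖w_i‖) ≤ (C+1)(1-‖w_i‖), ‖v_i‖ = ‖w_i‖ → 1 (w_i → ζ); difference
gives φ w_i - φ v_i → 0, and φ v_i → x by RadLim (‖w_i‖ → 1 from below).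
-/
import Mathlib
import Pool.Agent.TB.Defs
import Pool.Agent.TB.ConfA
import Pool.Agent.TB.Koebe

set_option autoImplicit false

open Set Filter Topology Metric

namespace Pool.Agent.TB

variable {φ : ℂ → ℂ} {U : Set ℂ}

theorem decay (hφ : Conf φ U) (hb : Bornology.IsBounded U) :
    ∀ ε : ℝ, 0 < ε → ∃ ρ : ℝ, ρ < 1 ∧ ∀ w : ℂ, ρ < ‖w‖ → ‖w‖ < 1 →
      (1 - ‖w‖) * ‖deriv φ w‖ < ε := by
  intro ε hε
  by_contra hcon
  push Not at hcon
  have hex : ∀ n : ℕ, ∃ w : ℂ, 1 - 1 / ((n : ℝ) + 1) < ‖w‖ ∧ ‖w‖ < 1 ∧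
      ε ≤ (1 - ‖w‖) * ‖deriv φ w‖ := by
    intro n
    have hpos : (0 : ℝ) < 1 / ((n : ℝ) + 1) := by positivity
    obtain ⟨w, h1, h2, h3⟩ := hcon (1 - 1 / ((n : ℝ) + 1)) (by linarith)
    exact ⟨w, h1, h2, h3⟩
  choose w hw1 hw2 hw3 using hex
  have hmem : ∀ n, w n ∈ Dk := fun n => by
    rw [mem_ball_zero_iff]; exact hw2 n
  have hball : ∀ n, ball (φ (w n)) (ε / 32) ⊆ U := by
    intro n
    have hsub : ball (w n) (1 - ‖w n‖) ⊆ Dk := by
      intro z hz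
      rw [mem_ball_zero_iff]
      rw [mem_ball, dist_eq_norm] at hz
      have : ‖z‖ ≤ ‖z - w n‖ + ‖w n‖ := by
        have := norm_add_le (z - w n) (w n)
        simpa using this
      linarith
    have hk := koebe_lite (h := φ) (w := w n) (r := 1 - ‖w n‖) (by linarith [hw2 n])
      (hφ.diff.mono hsub) (hφ.bij.injOn.mono hsub)
    have hle : ε / 32 ≤ (1 - ‖w n‖) * ‖deriv φ (w n)‖ / 32 := by
      have := hw3 n
      linarith
    intro z hz
    have hz2 := hk (ball_subset_ball hle hz)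
    obtain ⟨v, hv, rfl⟩ := hz2
    exact hφ.bij.mapsTo (hsub hv)
  have hcomp : IsCompact (closure U) := hb.isCompact_closure
  have hφU : ∀ n, φ (w n) ∈ closure U := fun n => subset_closure (hφ.bij.mapsTo (hmem n))
  obtain ⟨y, _, ψ, hψ, hlim⟩ := hcomp.tendsto_subseq hφU
  have hnorm : Tendsto (fun n => ‖w (ψ n)‖) atTop (𝓝 1) := by
    have h1 : Tendsto (fun n : ℕ => 1 - 1 / ((n : ℝ) + 1)) atTop (𝓝 1) := by
      have := (tendsto_const_nhds (x := (1 : ℝ))).sub (tendsto_one_div_add_atTop_nhds_zero_nat (𝕜 := ℝ))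
      simpa using this
    have h2 : Tendsto (fun n => ‖w n‖) atTop (𝓝 1) :=
      tendsto_of_tendsto_of_tendsto_of_le_of_le h1 tendsto_const_nhds
        (fun n => (hw1 n).le) (fun n => (hw2 n).le)
    exact h2.comp hψ.tendsto_atTop
  have hy := cluster_not_mem hφ (l := atTop) (u := fun n => w (ψ n))
    (Eventually.of_forall fun n => hmem (ψ n)) hnorm hlim
  apply hy
  have hev : ∀ᶠ n in atTop, dist ((φ ∘ w ∘ ψ) n) y < ε / 32 :=
    hlim (Metric.ball_mem_nhds y (by positivity))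
  obtain ⟨n, hn⟩ := hev.exists
  apply hball (ψ n)
  rw [mem_ball, dist_comm]
  exact hn

/-- difference of values at two points whose distance is comparable to the distance to the circle -/
theorem difference (hφ : Conf φ U) (hb : Bornology.IsBounded U) {ι : Type*} {l : Filter ι}
    {u w : ι → ℂ} (hu : ∀ᶠ i in l, u i ∈ Dk) (hw : ∀ᶠ i in l, w i ∈ Dk)
    (h1 : Tendsto (fun i => ‖u i‖) l (𝓝 1)) {C : ℝ}
    (hC : ∀ᶠ i in l, ‖u i - w i‖ ≤ C * (1 - ‖u i‖) ∧ ‖u i - w i‖ ≤ C * (1 - ‖w i‖)) :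
    Tendsto (fun i => φ (u i) - φ (w i)) l (𝓝 0) := by
  rw [Metric.tendsto_nhds]
  intro ε hε
  set ε' : ℝ := ε / (|C| + 1) with hε'
  have hCpos : 0 < |C| + 1 := by positivity
  have hε'pos : 0 < ε' := by positivity
  obtain ⟨ρ, hρ1, hρ⟩ := decay hφ hb ε' hε'pos
  have h2 : Tendsto (fun i => ‖u i‖ - C * (1 - ‖u i‖)) l (𝓝 1) := by
    have := h1.sub ((tendsto_const_nhds (x := C)).mul ((tendsto_const_nhds (x := (1:ℝ))).sub h1))
    simpa using this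
  have h3 : ∀ᶠ i in l, ρ < ‖u i‖ - C * (1 - ‖u i‖) := h2.eventually (lt_mem_nhds hρ1)
  filter_upwards [hu, hw, hC, h3] with i hui hwi hCi h3i
  rw [mem_ball_zero_iff] at hui hwi
  have hseg : ∀ v ∈ segment ℝ (u i) (w i), ‖v‖ ≤ max ‖u i‖ ‖w i‖ := by
    intro v hv
    have hc : Convex ℝ (closedBall (0 : ℂ) (max ‖u i‖ ‖w i‖)) := convex_closedBall _ _
    have h5 := hc.segment_subset (x := u i) (y := w i) (by simp) (by simp) hv
    simpa using h5
  have hseg2 : ∀ v ∈ segment ℝ (u i) (w i), ‖v - u i‖ ≤ ‖u i - w i‖ := by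
    intro v hv
    have hc : Convex ℝ (closedBall (u i) (‖u i - w i‖)) := convex_closedBall _ _
    have h5 := hc.segment_subset (x := u i) (y := w i) (by simp)
      (by rw [mem_closedBall, dist_eq_norm, norm_sub_rev]) hv
    rwa [mem_closedBall, dist_eq_norm] at h5
  have hρv : ∀ v ∈ segment ℝ (u i) (w i), ρ < ‖v‖ := by
    intro v hv
    have h6 := hseg2 v hv
    have h7 : ‖u i‖ ≤ ‖v‖ + ‖v - u i‖ := by
      have := norm_sub_le v (v - u i)
      simpa using this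
    have := hCi.1
    linarith
  have hv1 : ∀ v ∈ segment ℝ (u i) (w i), ‖v‖ < 1 := fun v hv =>
    lt_of_le_of_lt (hseg v hv) (max_lt hui hwi)
  set m : ℝ := 1 - max ‖u i‖ ‖w i‖ with hm
  have hmpos : 0 < m := by
    have := max_lt hui hwi
    rw [hm]; linarith
  have hle : ‖u i - w i‖ ≤ |C| * m := by
    have habs : C * m ≤ |C| * m := mul_le_mul_of_nonneg_right (le_abs_self C) hmpos.le
    refine le_trans ?_ habs
    rcases max_choice ‖u i‖ ‖w i‖ with hmx | hmx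
    · rw [hm, hmx]; exact hCi.1
    · rw [hm, hmx]; exact hCi.2
  have hderiv : ∀ v ∈ segment ℝ (u i) (w i), ‖deriv φ v‖ ≤ ε' / m := by
    intro v hv
    have h8 := hρ v (hρv v hv) (hv1 v hv)
    have h9 : m ≤ 1 - ‖v‖ := by
      have := hseg v hv
      rw [hm]; linarith
    rw [le_div_iff₀ hmpos]
    have h10 : m * ‖deriv φ v‖ ≤ (1 - ‖v‖) * ‖deriv φ v‖ :=
      mul_le_mul_of_nonneg_right h9 (norm_nonneg _)
    linarith
  have hdiff : ∀ v ∈ segment ℝ (u i) (w i), DifferentiableAt ℂ φ v := by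
    intro v hv
    exact hφ.diff.differentiableAt (isOpen_ball.mem_nhds (by
      rw [mem_ball_zero_iff]; exact hv1 v hv))
  have hmv := (convex_segment (𝕜 := ℝ) (u i) (w i)).norm_image_sub_le_of_norm_deriv_le hdiff hderiv
    (right_mem_segment ℝ (u i) (w i)) (left_mem_segment ℝ (u i) (w i))
  rw [dist_zero_right]
  have h11 : ε' / m * ‖u i - w i‖ ≤ ε' / m * (|C| * m) :=
    mul_le_mul_of_nonneg_left hle (by positivity)
  have h12 : ε' / m * (|C| * m) = ε' * |C| := by field_simp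
  have h13 : ε' * |C| < ε := by
    have h14 : ε' * (|C| + 1) = ε := by
      rw [hε']; field_simp
    nlinarith
  linarith

/-- radial limits are limits in Stolz angles -/
theorem stolz (hφ : Conf φ U) (hb : Bornology.IsBounded U) {ζ x : ℂ}
    (hζ : ‖ζ‖ = 1) (hx : RadLim φ ζ x) {ι : Type*} {l : Filter ι} {w : ι → ℂ}
    (hw : ∀ᶠ i in l, w i ∈ Dk) (ht : Tendsto w l (𝓝 ζ)) {C : ℝ}
    (hC : ∀ᶠ i in l, ‖w i - ζ‖ ≤ C * (1 - ‖w i‖)) :
    Tendsto (fun i => φ (w i)) l (𝓝 x) := by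
  have hn : Tendsto (fun i => ‖w i‖) l (𝓝 1) := by
    have := ht.norm
    rwa [hζ] at this
  have hvn : ∀ i, ‖((‖w i‖ : ℝ) : ℂ) * ζ‖ = ‖w i‖ := by
    intro i
    rw [norm_mul, hζ, mul_one, Complex.norm_real, norm_norm]
  have hv : ∀ᶠ i in l, ((‖w i‖ : ℝ) : ℂ) * ζ ∈ Dk := by
    filter_upwards [hw] with i hi
    rw [mem_ball_zero_iff] at hi ⊢
    rw [hvn]; exact hi
  have hdist : ∀ᶠ i in l, ‖w i - ((‖w i‖ : ℝ) : ℂ) * ζ‖ ≤ (C + 1) * (1 - ‖w i‖) ∧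
      ‖w i - ((‖w i‖ : ℝ) : ℂ) * ζ‖ ≤ (C + 1) * (1 - ‖((‖w i‖ : ℝ) : ℂ) * ζ‖) := by
    filter_upwards [hw, hC] with i hi hCi
    rw [hvn, and_self]
    rw [mem_ball_zero_iff] at hi
    have h1 : w i - ((‖w i‖ : ℝ) : ℂ) * ζ = (w i - ζ) + ((1 - ‖w i‖ : ℝ) : ℂ) * ζ := by
      push_cast; ring
    rw [h1]
    refine (norm_add_le _ _).trans ?_
    have h2 : ‖((1 - ‖w i‖ : ℝ) : ℂ) * ζ‖ = 1 - ‖w i‖ := by
      rw [norm_mul, hζ, mul_one, Complex.norm_real, Real.norm_eq_abs, abs_of_pos (by linarith)]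
    rw [h2]
    linarith
  have hd := difference hφ hb hw hv hn hdist
  have hrad : Tendsto (fun i => φ (((‖w i‖ : ℝ) : ℂ) * ζ)) l (𝓝 x) := by
    have hlt : Tendsto (fun i => ‖w i‖) l (𝓝[<] (1 : ℝ)) := by
      rw [tendsto_nhdsWithin_iff]
      refine ⟨hn, ?_⟩
      filter_upwards [hw] with i hi
      rw [mem_ball_zero_iff] at hi
      exact hi
    exact hx.comp hlt
  have := hd.add hrad
  simpa using this

end Pool.Agent.TB
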