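/-
Project TB (MP_d9e400_an). Module Inc.
Increments of the logarithm along curves.

PROOFS. exists_lift: log_convex on Icc 0 1 for γ - z. inc_eq: log_unique on Icc 0 1. inc_of_branch: L = l ∘ γ. inc_closed: exp(L 1 - L 0) = 1.
inc_continuous: near z₁ ∉ image, L_z t = L_{z₁} t + log(1 - (z-z₁)/(γ t - z₁)) is a lift for z close to z₁, so
inc γ z = inc γ z₁ + log(1-(z-z₁)/(γ 1 - z₁)) - log(1-(z-z₁)/(γ 0 - z₁)): continuous at z₁.
inc_far: L t = log(-z) + log(1 - γ t/z), ‖γ t/z‖ < 1; γ 0 = γ 1. cat_*: ContinuousOn.if / images; inc_cat: lift L₁(2t) resp.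
L₂(2t-1) + const.
-/
import Mathlib
import Pool.Agent.TB.Defs
import Pool.Agent.TB.LogCvx

set_option autoImplicit false

open Set Filter Topology Metric

namespace Pool.Agent.TB

/-- `L` is a continuous logarithm of `γ - z` on `[0,1]` -/
def IsLift (γ : ℝ → ℂ) (z : ℂ) (L : ℝ → ℂ) : Prop :=
  ContinuousOn L (Icc 0 1) ∧ ∀ t ∈ Icc (0 : ℝ) 1, Complex.exp (L t) = γ t - z

open Classical in
/-- the increment of `log (· - z)` along `γ : [0,1] → ℂ` (zero if there is no lift) -/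
noncomputable def inc (γ : ℝ → ℂ) (z : ℂ) : ℂ :=
  if h : ∃ L, IsLift γ z L then (Classical.choose h) 1 - (Classical.choose h) 0 else 0

theorem exists_lift {γ : ℝ → ℂ} (hγ : ContinuousOn γ (Icc 0 1)) {z : ℂ}
    (hz : z ∉ γ '' Icc 0 1) : ∃ L, IsLift γ z L := by
  obtain ⟨L, hL, he⟩ := log_convex (convex_Icc (0 : ℝ) 1) (h := fun t => γ t - z)
    (hγ.sub continuousOn_const) (fun t ht h => hz ⟨t, ht, sub_eq_zero.1 h⟩)
  exact ⟨L, hL, he⟩

theorem inc_eq {γ : ℝ → ℂ} {z : ℂ} {L : ℝ → ℂ} (hL : IsLift γ z L) : inc γ z = L 1 - L 0 := by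
  have h : ∃ L, IsLift γ z L := ⟨L, hL⟩
  unfold inc
  rw [dif_pos h]
  obtain ⟨h1, h2⟩ := Classical.choose_spec h
  obtain ⟨n, hn⟩ := log_unique (isPreconnected_Icc (a := (0 : ℝ)) (b := 1)) h1 hL.1
    (fun t ht => by rw [h2 t ht, hL.2 t ht])
  rw [hn 1 (by simp), hn 0 (by simp)]
  ring

/-- if `log (u - z)` has a continuous branch `l` on a set containing the curve -/
theorem inc_of_branch {γ : ℝ → ℂ} (hγ : ContinuousOn γ (Icc 0 1)) {z : ℂ} {S : Set ℂ}
    (hS : MapsTo γ (Icc 0 1) S) {l : ℂ → ℂ} (hl : ContinuousOn l S)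
    (hle : ∀ u ∈ S, Complex.exp (l u) = u - z) : inc γ z = l (γ 1) - l (γ 0) := by
  have : IsLift γ z (l ∘ γ) := ⟨hl.comp hγ hS, fun t ht => hle _ (hS ht)⟩
  rw [inc_eq this]
  rfl

/-- a closed curve has increment in `2πiℤ` -/
theorem inc_closed {γ : ℝ → ℂ} (hγ : ContinuousOn γ (Icc 0 1)) {z : ℂ}
    (hz : z ∉ γ '' Icc 0 1) (h01 : γ 0 = γ 1) :
    ∃ n : ℤ, inc γ z = 2 * Real.pi * Complex.I * n := by
  obtain ⟨L, hL⟩ := exists_lift hγ hz
  have h1 := hL.2 1 (by simp)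
  have h0 := hL.2 0 (by simp)
  have : Complex.exp (L 1) = Complex.exp (L 0) := by rw [h1, h0, h01]
  obtain ⟨n, hn⟩ := Complex.exp_eq_exp_iff_exists_int.1 this
  refine ⟨n, ?_⟩
  rw [inc_eq hL, hn]
  ring

theorem inc_continuous {γ : ℝ → ℂ} (hγ : ContinuousOn γ (Icc 0 1)) :
    ContinuousOn (inc γ) (γ '' Icc 0 1)ᶜ := by
  intro z₁ hz₁
  apply ContinuousAt.continuousWithinAt
  have hcp : IsCompact (γ '' Icc 0 1) := isCompact_Icc.image_of_continuousOn hγ
  have hne : (γ '' Icc 0 1).Nonempty := ⟨γ 0, 0, by simp, rfl⟩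
  have hδ : 0 < infDist z₁ (γ '' Icc 0 1) := (hcp.isClosed.notMem_iff_infDist_pos hne).1 hz₁
  set δ := infDist z₁ (γ '' Icc 0 1) with hδd
  have hlow : ∀ t ∈ Icc (0 : ℝ) 1, δ ≤ ‖γ t - z₁‖ := by
    intro t ht
    have := infDist_le_dist_of_mem (x := z₁) (mem_image_of_mem γ ht)
    rwa [dist_eq_norm, norm_sub_rev] at this
  obtain ⟨L, hL⟩ := exists_lift hγ hz₁
  have hslit : ∀ z, ‖z - z₁‖ < δ → ∀ t ∈ Icc (0 : ℝ) 1,
      1 - (z - z₁) / (γ t - z₁) ∈ Complex.slitPlane := by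
    intro z hz t ht
    have h1 : ‖-((z - z₁) / (γ t - z₁))‖ < 1 := by
      rw [norm_neg, norm_div, div_lt_one (lt_of_lt_of_le hδ (hlow t ht))]
      exact lt_of_lt_of_le hz (hlow t ht)
    have h2 := Complex.mem_slitPlane_of_norm_lt_one h1
    rwa [← sub_eq_add_neg] at h2
  have hform : ∀ z, ‖z - z₁‖ < δ → inc γ z = inc γ z₁ +
      (Complex.log (1 - (z - z₁) / (γ 1 - z₁)) - Complex.log (1 - (z - z₁) / (γ 0 - z₁))) := by
    intro z hz
    have hlift : IsLift γ z (fun t => L t + Complex.log (1 - (z - z₁) / (γ t - z₁))) := by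
      refine ⟨hL.1.add ?_, ?_⟩
      · refine ContinuousOn.clog ?_ (fun t ht => hslit z hz t ht)
        refine continuousOn_const.sub (continuousOn_const.div (hγ.sub continuousOn_const) ?_)
        intro t ht h
        have := hlow t ht
        rw [h, norm_zero] at this
        linarith
      · intro t ht
        have hne : γ t - z₁ ≠ 0 := by
          intro h
          have := hlow t ht
          rw [h, norm_zero] at this
          linarith
        rw [Complex.exp_add, hL.2 t ht, Complex.exp_log (Complex.slitPlane_ne_zero (hslit z hz t ht))]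
        field_simp
        ring
    rw [inc_eq hlift, inc_eq hL]
    ring
  have hev : inc γ =ᶠ[𝓝 z₁] fun z => inc γ z₁ +
      (Complex.log (1 - (z - z₁) / (γ 1 - z₁)) - Complex.log (1 - (z - z₁) / (γ 0 - z₁))) := by
    filter_upwards [Metric.ball_mem_nhds z₁ hδ] with z hz
    rw [mem_ball, dist_eq_norm] at hz
    exact hform z hz
  refine ContinuousAt.congr ?_ hev.symm
  have hc : ∀ t ∈ Icc (0 : ℝ) 1, ContinuousAt
      (fun z => Complex.log (1 - (z - z₁) / (γ t - z₁))) z₁ := by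
    intro t ht
    refine ContinuousAt.clog ?_ (hslit z₁ (by simpa using hδ) t ht)
    exact continuousAt_const.sub ((continuousAt_id.sub continuousAt_const).div_const _)
  exact continuousAt_const.add ((hc 1 (by simp)).sub (hc 0 (by simp)))

/-- large `z` -/
theorem inc_far {γ : ℝ → ℂ} (hγ : ContinuousOn γ (Icc 0 1)) (h01 : γ 0 = γ 1) {R : ℝ}
    (hR : ∀ t ∈ Icc (0 : ℝ) 1, ‖γ t‖ ≤ R) {z : ℂ} (hz : R < ‖z‖) : inc γ z = 0 := by
  have hR0 : 0 ≤ R := (norm_nonneg _).trans (hR 0 (by simp))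
  have hz0 : z ≠ 0 := by
    intro h
    rw [h, norm_zero] at hz
    linarith
  have hzp : 0 < ‖z‖ := norm_pos_iff.2 hz0
  have hslit : ∀ t ∈ Icc (0 : ℝ) 1, 1 - γ t / z ∈ Complex.slitPlane := by
    intro t ht
    have h1 : ‖-(γ t / z)‖ < 1 := by
      rw [norm_neg, norm_div, div_lt_one hzp]
      exact lt_of_le_of_lt (hR t ht) hz
    have h2 := Complex.mem_slitPlane_of_norm_lt_one h1
    rwa [← sub_eq_add_neg] at h2
  have hlift : IsLift γ z (fun t => Complex.log (-z) + Complex.log (1 - γ t / z)) := by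
    refine ⟨continuousOn_const.add ?_, ?_⟩
    · exact ContinuousOn.clog (continuousOn_const.sub (hγ.div_const _)) hslit
    · intro t ht
      rw [Complex.exp_add, Complex.exp_log (neg_ne_zero.2 hz0),
        Complex.exp_log (Complex.slitPlane_ne_zero (hslit t ht))]
      field_simp
      ring
  rw [inc_eq hlift, h01]
  ring

/-- concatenation: first half `γ₁`, second half `γ₂` -/
noncomputable def cat (γ₁ γ₂ : ℝ → ℂ) (t : ℝ) : ℂ := if t ≤ 1 / 2 then γ₁ (2 * t) else γ₂ (2 * t - 1)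

theorem cat_continuous {γ₁ γ₂ : ℝ → ℂ} (h₁ : ContinuousOn γ₁ (Icc 0 1))
    (h₂ : ContinuousOn γ₂ (Icc 0 1)) (h : γ₁ 1 = γ₂ 0) : ContinuousOn (cat γ₁ γ₂) (Icc 0 1) := by
  have hu : Icc (0 : ℝ) 1 = Icc 0 (1 / 2) ∪ Icc (1 / 2) 1 :=
    (Icc_union_Icc_eq_Icc (by norm_num) (by norm_num)).symm
  rw [hu]
  refine ContinuousOn.union_of_isClosed ?_ ?_ isClosed_Icc isClosed_Icc
  · have h3 : ContinuousOn (fun t : ℝ => γ₁ (2 * t)) (Icc 0 (1 / 2)) :=
      h₁.comp (by fun_prop) (fun t ht => ⟨by linarith [ht.1], by linarith [ht.2]⟩)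
    refine h3.congr fun t ht => ?_
    unfold cat
    rw [if_pos ht.2]
  · have h3 : ContinuousOn (fun t : ℝ => γ₂ (2 * t - 1)) (Icc (1 / 2) 1) :=
      h₂.comp (by fun_prop) (fun t ht => ⟨by linarith [ht.1], by linarith [ht.2]⟩)
    refine h3.congr fun t ht => ?_
    unfold cat
    by_cases h4 : t ≤ 1 / 2
    · have h5 : t = 1 / 2 := le_antisymm h4 ht.1
      rw [if_pos h4, h5]
      norm_num [h]
    · rw [if_neg h4]

theorem cat_image {γ₁ γ₂ : ℝ → ℂ} (h : γ₁ 1 = γ₂ 0) :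
    cat γ₁ γ₂ '' Icc 0 1 = γ₁ '' Icc 0 1 ∪ γ₂ '' Icc 0 1 := by
  ext z
  constructor
  · rintro ⟨t, ht, rfl⟩
    unfold cat
    by_cases h4 : t ≤ 1 / 2
    · rw [if_pos h4]
      exact Or.inl ⟨2 * t, ⟨by linarith [ht.1], by linarith⟩, rfl⟩
    · rw [if_neg h4]
      push Not at h4
      exact Or.inr ⟨2 * t - 1, ⟨by linarith, by linarith [ht.2]⟩, rfl⟩
  · rintro (⟨t, ht, rfl⟩ | ⟨t, ht, rfl⟩)
    · refine ⟨t / 2, ⟨by linarith [ht.1], by linarith [ht.2]⟩, ?_⟩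
      unfold cat
      rw [if_pos (by linarith [ht.2])]
      congr 1
      ring
    · by_cases h5 : t = 0
      · refine ⟨1 / 2, ⟨by norm_num, by norm_num⟩, ?_⟩
        unfold cat
        rw [if_pos (le_refl _), h5, ← h]
        norm_num
      · have h6 : 0 < t := lt_of_le_of_ne ht.1 (Ne.symm h5)
        refine ⟨(t + 1) / 2, ⟨by linarith, by linarith [ht.2]⟩, ?_⟩
        unfold cat
        rw [if_neg (by linarith)]
        congr 1
        ring

theorem inc_cat {γ₁ γ₂ : ℝ → ℂ} (h₁ : ContinuousOn γ₁ (Icc 0 1))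
    (h₂ : ContinuousOn γ₂ (Icc 0 1)) (h : γ₁ 1 = γ₂ 0) {z : ℂ} (hz₁ : z ∉ γ₁ '' Icc 0 1)
    (hz₂ : z ∉ γ₂ '' Icc 0 1) : inc (cat γ₁ γ₂) z = inc γ₁ z + inc γ₂ z := by
  obtain ⟨L₁, hL₁⟩ := exists_lift h₁ hz₁
  obtain ⟨L₂, hL₂⟩ := exists_lift h₂ hz₂
  have e1 := hL₁.2 1 (by simp)
  have e2 := hL₂.2 0 (by simp)
  have hne : γ₂ 0 - z ≠ 0 := by
    rw [← e2]
    exact Complex.exp_ne_zero _
  have hlift : IsLift (cat γ₁ γ₂) z (cat L₁ (fun t => L₂ t + (L₁ 1 - L₂ 0))) := by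
    refine ⟨cat_continuous hL₁.1 (hL₂.1.add continuousOn_const) (by ring), ?_⟩
    intro t ht
    unfold cat
    by_cases h4 : t ≤ 1 / 2
    · rw [if_pos h4, if_pos h4]
      exact hL₁.2 _ ⟨by linarith [ht.1], by linarith⟩
    · rw [if_neg h4, if_neg h4]
      push Not at h4
      rw [Complex.exp_add, Complex.exp_sub, e1, e2, h,
        hL₂.2 _ ⟨by linarith, by linarith [ht.2]⟩, div_self hne, mul_one]
  rw [inc_eq hlift, inc_eq hL₁, inc_eq hL₂]
  unfold cat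
  rw [if_neg (by norm_num), if_pos (by norm_num)]
  norm_num
  ring

end Pool.Agent.TB
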