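/-
Project TB (MP_d9e400_an). Module DiscInc.
Increments for conformal images of a diameter and of the half circles.

PROOFS. q w = (h w - h α)/(w - α) for w ≠ α, q α = h' α (dslope h α w up to order): holomorphic and nonvanishing on ball c R
(injective, deriv_ne_zero_of_injOn). log_convex: ℓ with exp ℓ = q on ball c R. For a curve κ in ball c R avoiding α:
inc (h ∘ κ) (h α) = inc κ α + ℓ (κ 1) - ℓ (κ 0) (inc_eq with the lift L_κ + ℓ ∘ κ). The three curves have the same end
points c ∓ ρ i, so all reduces to h = id: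
inc_diam_right: both curves in {re ≤ c.re}, where l u = log(-(u-α)) + πi is a continuous branch: inc_of_branch.
inc_diam_left: {re ≥ c.re}, l u = log(u-α).
inc_right_sub_left: D α = inc right α - inc left α is continuous on ball c ρ (inc_continuous), values in 2πiℤ (exp of both =
(end-α)/(start-α)), so constant; at α = c explicit lifts: right: log ρ + i(t-1/2)π (inc = πi), left: log ρ + πi + i(1/2-t)π (inc = -πi).
-/
import Mathlib
import Pool.Agent.TB.Defs
import Pool.Agent.TB.Inc
import Pool.Agent.TB.Injective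
import Pool.Agent.TB.LogCvx

set_option autoImplicit false

open Set Filter Topology Metric

namespace Pool.Agent.TB

/-- Let `h` be holomorphic and injective near the closed disc of centre `c`, radius `ρ`. The three
curves from `h (c - ρ i)` to `h (c + ρ i)`: the image of the vertical diameter, of the left and of
the right half circle. For a point to the right of the diameter the diameter has the same increment
as the left half circle, for a point to the left the same as the right half circle, and right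
minus left is `2πi` for every inner point. -/
noncomputable def diam (c : ℂ) (ρ : ℝ) (t : ℝ) : ℂ := c + ρ * (2 * t - 1) * Complex.I
noncomputable def rightHalf (c : ℂ) (ρ : ℝ) (t : ℝ) : ℂ :=
  c + ρ * Complex.exp (((t - 1 / 2) * Real.pi : ℝ) * Complex.I)
noncomputable def leftHalf (c : ℂ) (ρ : ℝ) (t : ℝ) : ℂ :=
  c - ρ * Complex.exp (((1 / 2 - t) * Real.pi : ℝ) * Complex.I)

variable {h : ℂ → ℂ} {c : ℂ} {ρ R : ℝ}

theorem DiscInc_comp (hd : DifferentiableOn ℂ h (Metric.ball c R))
    (hi : InjOn h (Metric.ball c R)) {α : ℂ} (hα : α ∈ Metric.ball c R) :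
    ∃ ℓ : ℂ → ℂ, ∀ κ : ℝ → ℂ, ContinuousOn κ (Icc 0 1) → MapsTo κ (Icc 0 1) (Metric.ball c R) →
      α ∉ κ '' Icc 0 1 →
      inc (fun t => h (κ t)) (h α) = inc κ α + (ℓ (κ 1) - ℓ (κ 0)) := by
  have hnhds : Metric.ball c R ∈ 𝓝 α := Metric.isOpen_ball.mem_nhds hα
  have hq : DifferentiableOn ℂ (dslope h α) (Metric.ball c R) :=
    (Complex.differentiableOn_dslope hnhds).2 hd
  have hq0 : ∀ z ∈ Metric.ball c R, dslope h α z ≠ 0 := by
    intro z hz
    by_cases hza : z = α
    · subst hza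
      rw [dslope_same]
      exact deriv_ne_zero_of_injOn Metric.isOpen_ball hd hi hz
    · intro h0
      have h1 := sub_smul_dslope h α z
      rw [h0, smul_zero] at h1
      exact hza (hi hz hα (sub_eq_zero.1 h1.symm))
  obtain ⟨ℓ, hℓ, hℓe⟩ := log_convex (convex_ball c R) hq.continuousOn hq0
  refine ⟨ℓ, ?_⟩
  intro κ hκ hκm hκα
  obtain ⟨L, hL⟩ := exists_lift hκ hκα
  have hL' : IsLift (fun t => h (κ t)) (h α) (fun t => L t + ℓ (κ t)) := by
    refine ⟨hL.1.add (hℓ.comp hκ hκm), ?_⟩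
    intro t ht
    rw [Complex.exp_add, hL.2 t ht, hℓe _ (hκm ht)]
    have := sub_smul_dslope h α (κ t)
    rw [smul_eq_mul] at this
    exact this
  rw [inc_eq hL', inc_eq hL]
  ring

theorem DiscInc_diam_cont : Continuous (diam c ρ) := by
  unfold diam
  fun_prop

theorem DiscInc_right_cont : Continuous (rightHalf c ρ) := by
  unfold rightHalf
  fun_prop

theorem DiscInc_left_cont : Continuous (leftHalf c ρ) := by
  unfold leftHalf
  fun_prop

theorem DiscInc_right_norm (hρ : 0 < ρ) (t : ℝ) : ‖rightHalf c ρ t - c‖ = ρ := by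
  have h1 : rightHalf c ρ t - c = ρ * Complex.exp (((t - 1 / 2) * Real.pi : ℝ) * Complex.I) := by
    unfold rightHalf; ring
  rw [h1, norm_mul, Complex.norm_exp_ofReal_mul_I, Complex.norm_real, Real.norm_eq_abs,
    abs_of_pos hρ, mul_one]

theorem DiscInc_left_norm (hρ : 0 < ρ) (t : ℝ) : ‖leftHalf c ρ t - c‖ = ρ := by
  have h1 : leftHalf c ρ t - c = -(ρ * Complex.exp (((1 / 2 - t) * Real.pi : ℝ) * Complex.I)) := by
    unfold leftHalf; ring
  rw [h1, norm_neg, norm_mul, Complex.norm_exp_ofReal_mul_I, Complex.norm_real, Real.norm_eq_abs,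
    abs_of_pos hρ, mul_one]

theorem DiscInc_diam_norm (hρ : 0 < ρ) {t : ℝ} (ht : t ∈ Icc (0 : ℝ) 1) :
    ‖diam c ρ t - c‖ ≤ ρ := by
  have h1 : diam c ρ t - c = ((ρ * (2 * t - 1) : ℝ) : ℂ) * Complex.I := by
    unfold diam; push_cast; ring
  rw [h1, norm_mul, Complex.norm_real, Real.norm_eq_abs, Complex.norm_I, mul_one, abs_mul,
    abs_of_pos hρ]
  have h2 : |2 * t - 1| ≤ 1 := by
    rw [abs_le]; constructor <;> linarith [ht.1, ht.2]
  nlinarith

theorem DiscInc_diam_re (t : ℝ) : (diam c ρ t).re = c.re := by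
  have h1 : diam c ρ t = c + ((ρ * (2 * t - 1) : ℝ) : ℂ) * Complex.I := by
    unfold diam; push_cast; ring
  rw [h1]
  simp

theorem DiscInc_right_re (hρ : 0 < ρ) {t : ℝ} (ht : t ∈ Icc (0 : ℝ) 1) :
    c.re ≤ (rightHalf c ρ t).re := by
  have h1 : (rightHalf c ρ t).re = c.re + ρ * Real.cos ((t - 1 / 2) * Real.pi) := by
    unfold rightHalf
    rw [Complex.add_re, Complex.re_ofReal_mul, Complex.exp_ofReal_mul_I_re]
  have h2 : 0 ≤ Real.cos ((t - 1 / 2) * Real.pi) := by
    have := Real.pi_pos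
    apply Real.cos_nonneg_of_mem_Icc
    constructor <;> nlinarith [ht.1, ht.2]
  rw [h1]
  have := mul_nonneg hρ.le h2
  linarith

theorem DiscInc_left_re (hρ : 0 < ρ) {t : ℝ} (ht : t ∈ Icc (0 : ℝ) 1) :
    (leftHalf c ρ t).re ≤ c.re := by
  have h1 : (leftHalf c ρ t).re = c.re - ρ * Real.cos ((1 / 2 - t) * Real.pi) := by
    unfold leftHalf
    rw [Complex.sub_re, Complex.re_ofReal_mul, Complex.exp_ofReal_mul_I_re]
  have h2 : 0 ≤ Real.cos ((1 / 2 - t) * Real.pi) := by
    have := Real.pi_pos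
    apply Real.cos_nonneg_of_mem_Icc
    constructor <;> nlinarith [ht.1, ht.2]
  rw [h1]
  have := mul_nonneg hρ.le h2
  linarith

theorem DiscInc_exp_half : Complex.exp ((((1 : ℝ) - 1 / 2) * Real.pi : ℝ) * Complex.I) = Complex.I := by
  have : ((((1 : ℝ) - 1 / 2) * Real.pi : ℝ) : ℂ) * Complex.I = Real.pi / 2 * Complex.I := by
    push_cast; ring
  rw [this, Complex.exp_pi_div_two_mul_I]

theorem DiscInc_exp_neg_half :
    Complex.exp ((((0 : ℝ) - 1 / 2) * Real.pi : ℝ) * Complex.I) = -Complex.I := by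
  have : ((((0 : ℝ) - 1 / 2) * Real.pi : ℝ) : ℂ) * Complex.I = -Real.pi / 2 * Complex.I := by
    push_cast; ring
  rw [this, Complex.exp_neg_pi_div_two_mul_I]

theorem DiscInc_ends : diam c ρ 0 = c - ρ * Complex.I ∧ diam c ρ 1 = c + ρ * Complex.I ∧
    rightHalf c ρ 0 = c - ρ * Complex.I ∧ rightHalf c ρ 1 = c + ρ * Complex.I ∧
    leftHalf c ρ 0 = c - ρ * Complex.I ∧ leftHalf c ρ 1 = c + ρ * Complex.I := by
  refine ⟨?_, ?_, ?_, ?_, ?_, ?_⟩
  · unfold diam; push_cast; ring
  · unfold diam; push_cast; ring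
  · unfold rightHalf; rw [DiscInc_exp_neg_half]; ring
  · unfold rightHalf; rw [DiscInc_exp_half]
  · unfold leftHalf
    have h1 : (((1 : ℝ) / 2 - 0) * Real.pi : ℝ) = (((1 : ℝ) - 1 / 2) * Real.pi : ℝ) := by ring
    rw [h1, DiscInc_exp_half]
  · unfold leftHalf
    have h1 : (((1 : ℝ) / 2 - 1) * Real.pi : ℝ) = (((0 : ℝ) - 1 / 2) * Real.pi : ℝ) := by ring
    rw [h1, DiscInc_exp_neg_half]; ring

theorem DiscInc_left_mem (hρ : 0 < ρ) (hR : ρ < R) :
    MapsTo (leftHalf c ρ) (Icc 0 1) (Metric.ball c R) := by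
  intro t _
  rw [Metric.mem_ball, dist_eq_norm, DiscInc_left_norm hρ]
  exact hR

theorem DiscInc_right_mem (hρ : 0 < ρ) (hR : ρ < R) :
    MapsTo (rightHalf c ρ) (Icc 0 1) (Metric.ball c R) := by
  intro t _
  rw [Metric.mem_ball, dist_eq_norm, DiscInc_right_norm hρ]
  exact hR

theorem DiscInc_diam_mem (hρ : 0 < ρ) (hR : ρ < R) :
    MapsTo (diam c ρ) (Icc 0 1) (Metric.ball c R) := by
  intro t ht
  rw [Metric.mem_ball, dist_eq_norm]
  exact lt_of_le_of_lt (DiscInc_diam_norm hρ ht) hR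

theorem DiscInc_left_avoid (hρ : 0 < ρ) {α : ℂ} (hα : α ∈ Metric.ball c ρ) :
    α ∉ leftHalf c ρ '' Icc 0 1 := by
  rintro ⟨t, _, rfl⟩
  rw [Metric.mem_ball, dist_eq_norm, DiscInc_left_norm hρ] at hα
  exact lt_irrefl _ hα

theorem DiscInc_right_avoid (hρ : 0 < ρ) {α : ℂ} (hα : α ∈ Metric.ball c ρ) :
    α ∉ rightHalf c ρ '' Icc 0 1 := by
  rintro ⟨t, _, rfl⟩
  rw [Metric.mem_ball, dist_eq_norm, DiscInc_right_norm hρ] at hα
  exact lt_irrefl _ hα

theorem inc_diam_right (hρ : 0 < ρ) (hR : ρ < R) (hd : DifferentiableOn ℂ h (Metric.ball c R))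
    (hi : InjOn h (Metric.ball c R)) {α : ℂ} (hα : α ∈ Metric.ball c ρ) (hre : c.re < α.re) :
    inc (fun t => h (diam c ρ t)) (h α) = inc (fun t => h (leftHalf c ρ t)) (h α) := by
  obtain ⟨ℓ, hℓ⟩ := DiscInc_comp hd hi (Metric.ball_subset_ball hR.le hα)
  obtain ⟨e1, e2, -, -, e5, e6⟩ := DiscInc_ends (c := c) (ρ := ρ)
  have hav : α ∉ diam c ρ '' Icc 0 1 := by
    rintro ⟨t, _, rfl⟩
    rw [DiscInc_diam_re] at hre
    exact lt_irrefl _ hre
  rw [hℓ _ DiscInc_diam_cont.continuousOn (DiscInc_diam_mem hρ hR) hav,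
    hℓ _ DiscInc_left_cont.continuousOn (DiscInc_left_mem hρ hR) (DiscInc_left_avoid hρ hα),
    e1, e2, e5, e6]
  congr 1
  have hl : ContinuousOn (fun u : ℂ => Complex.log (-(u - α)) + Real.pi * Complex.I)
      {u : ℂ | u.re < α.re} := by
    apply ContinuousOn.add _ continuousOn_const
    apply ContinuousOn.clog (Continuous.continuousOn (by fun_prop))
    intro u hu
    left
    have hu' : u.re < α.re := hu
    simp only [Complex.neg_re, Complex.sub_re]
    linarith
  have hle : ∀ u ∈ {u : ℂ | u.re < α.re},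
      Complex.exp (Complex.log (-(u - α)) + Real.pi * Complex.I) = u - α := by
    intro u hu
    have hu' : u.re < α.re := hu
    have hne : -(u - α) ≠ 0 := by
      intro h0
      have := congrArg Complex.re h0
      simp only [Complex.neg_re, Complex.sub_re, Complex.zero_re] at this
      linarith
    rw [Complex.exp_add, Complex.exp_log hne, Complex.exp_pi_mul_I]
    ring
  rw [inc_of_branch (S := {u : ℂ | u.re < α.re}) DiscInc_diam_cont.continuousOn
      (fun t _ => by
        show (diam c ρ t).re < α.re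
        rw [DiscInc_diam_re]; exact hre) hl hle,
    inc_of_branch (S := {u : ℂ | u.re < α.re}) DiscInc_left_cont.continuousOn
      (fun t ht => lt_of_le_of_lt (DiscInc_left_re hρ ht) hre) hl hle, e1, e2, e5, e6]

theorem inc_diam_left (hρ : 0 < ρ) (hR : ρ < R) (hd : DifferentiableOn ℂ h (Metric.ball c R))
    (hi : InjOn h (Metric.ball c R)) {α : ℂ} (hα : α ∈ Metric.ball c ρ) (hre : α.re < c.re) :
    inc (fun t => h (diam c ρ t)) (h α) = inc (fun t => h (rightHalf c ρ t)) (h α) := by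
  obtain ⟨ℓ, hℓ⟩ := DiscInc_comp hd hi (Metric.ball_subset_ball hR.le hα)
  obtain ⟨e1, e2, e3, e4, -, -⟩ := DiscInc_ends (c := c) (ρ := ρ)
  have hav : α ∉ diam c ρ '' Icc 0 1 := by
    rintro ⟨t, _, rfl⟩
    rw [DiscInc_diam_re] at hre
    exact lt_irrefl _ hre
  rw [hℓ _ DiscInc_diam_cont.continuousOn (DiscInc_diam_mem hρ hR) hav,
    hℓ _ DiscInc_right_cont.continuousOn (DiscInc_right_mem hρ hR) (DiscInc_right_avoid hρ hα),
    e1, e2, e3, e4]
  congr 1
  have hl : ContinuousOn (fun u : ℂ => Complex.log (u - α)) {u : ℂ | α.re < u.re} := by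
    apply ContinuousOn.clog (Continuous.continuousOn (by fun_prop))
    intro u hu
    left
    have hu' : α.re < u.re := hu
    simp only [Complex.sub_re]
    linarith
  have hle : ∀ u ∈ {u : ℂ | α.re < u.re}, Complex.exp (Complex.log (u - α)) = u - α := by
    intro u hu
    have hu' : α.re < u.re := hu
    have hne : u - α ≠ 0 := by
      intro h0
      have := congrArg Complex.re h0
      simp only [Complex.sub_re, Complex.zero_re] at this
      linarith
    exact Complex.exp_log hne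
  rw [inc_of_branch (S := {u : ℂ | α.re < u.re}) DiscInc_diam_cont.continuousOn
      (fun t _ => by
        show α.re < (diam c ρ t).re
        rw [DiscInc_diam_re]; exact hre) hl hle,
    inc_of_branch (S := {u : ℂ | α.re < u.re}) DiscInc_right_cont.continuousOn
      (fun t ht => lt_of_lt_of_le hre (DiscInc_right_re hρ ht)) hl hle, e1, e2, e3, e4]

theorem DiscInc_slit {z : ℂ} (hz : ‖z‖ < 1) : 1 + z ∈ Complex.slitPlane := by
  left
  have h1 := Complex.abs_re_le_norm z
  have h2 := neg_abs_le z.re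
  simp only [Complex.add_re, Complex.one_re]
  linarith

theorem inc_right_sub_left (hρ : 0 < ρ) (hR : ρ < R)
    (hd : DifferentiableOn ℂ h (Metric.ball c R)) (hi : InjOn h (Metric.ball c R)) {α : ℂ}
    (hα : α ∈ Metric.ball c ρ) :
    inc (fun t => h (rightHalf c ρ t)) (h α) - inc (fun t => h (leftHalf c ρ t)) (h α) =
      2 * Real.pi * Complex.I := by
  obtain ⟨ℓ, hℓ⟩ := DiscInc_comp hd hi (Metric.ball_subset_ball hR.le hα)
  obtain ⟨-, -, e3, e4, e5, e6⟩ := DiscInc_ends (c := c) (ρ := ρ)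
  rw [hℓ _ DiscInc_left_cont.continuousOn (DiscInc_left_mem hρ hR) (DiscInc_left_avoid hρ hα),
    hℓ _ DiscInc_right_cont.continuousOn (DiscInc_right_mem hρ hR) (DiscInc_right_avoid hρ hα),
    e3, e4, e5, e6]
  have hρ0 : (ρ : ℂ) ≠ 0 := by exact_mod_cast hρ.ne'
  have hαρ : ‖α - c‖ < ρ := by
    rw [Metric.mem_ball, dist_eq_norm] at hα; exact hα
  have hexp : Complex.exp (Real.log ρ : ℝ) = (ρ : ℂ) := by
    rw [← Complex.ofReal_exp, Real.exp_log hρ]
  have hn1 : ∀ x : ℝ, ‖-((α - c) / ρ * Complex.exp (-((x : ℂ) * Complex.I)))‖ < 1 := by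
    intro x
    have h1 : -((x : ℂ) * Complex.I) = ((-x : ℝ) : ℂ) * Complex.I := by push_cast; ring
    rw [norm_neg, norm_mul, h1, Complex.norm_exp_ofReal_mul_I, norm_div, Complex.norm_real,
      Real.norm_eq_abs, abs_of_pos hρ, mul_one, div_lt_one hρ]
    exact hαρ
  have hn2 : ∀ x : ℝ, ‖(α - c) / ρ * Complex.exp (-((x : ℂ) * Complex.I))‖ < 1 := by
    intro x
    have := hn1 x
    rwa [norm_neg] at this
  -- right
  have hright : IsLift (rightHalf c ρ) α (fun t : ℝ => (Real.log ρ : ℝ) +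
      ((((t - 1 / 2) * Real.pi : ℝ) : ℂ) * Complex.I) +
      Complex.log (1 + -((α - c) / ρ *
        Complex.exp (-((((t - 1 / 2) * Real.pi : ℝ) : ℂ) * Complex.I))))) := by
    constructor
    · apply ContinuousOn.add (Continuous.continuousOn (by fun_prop))
      apply ContinuousOn.clog (Continuous.continuousOn (by fun_prop))
      intro t _
      exact DiscInc_slit (hn1 _)
    · intro t _
      rw [Complex.exp_add, Complex.exp_add, Complex.exp_log
        (Complex.slitPlane_ne_zero (DiscInc_slit (hn1 _))), hexp]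
      unfold rightHalf
      rw [Complex.exp_neg]
      field_simp
      ring
  have hleft : IsLift (leftHalf c ρ) α (fun t : ℝ => (Real.log ρ : ℝ) + Real.pi * Complex.I +
      ((((1 / 2 - t) * Real.pi : ℝ) : ℂ) * Complex.I) +
      Complex.log (1 + ((α - c) / ρ *
        Complex.exp (-((((1 / 2 - t) * Real.pi : ℝ) : ℂ) * Complex.I))))) := by
    constructor
    · apply ContinuousOn.add (Continuous.continuousOn (by fun_prop))
      apply ContinuousOn.clog (Continuous.continuousOn (by fun_prop))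
      intro t _
      exact DiscInc_slit (hn2 _)
    · intro t _
      rw [Complex.exp_add, Complex.exp_add, Complex.exp_add, Complex.exp_log
        (Complex.slitPlane_ne_zero (DiscInc_slit (hn2 _))), hexp, Complex.exp_pi_mul_I]
      unfold leftHalf
      rw [Complex.exp_neg]
      field_simp
      ring
  rw [inc_eq hright, inc_eq hleft]
  have a1 : (((1 : ℝ) / 2 - 0) * Real.pi : ℝ) = (((1 : ℝ) - 1 / 2) * Real.pi : ℝ) := by ring
  have a2 : (((1 : ℝ) / 2 - 1) * Real.pi : ℝ) = (((0 : ℝ) - 1 / 2) * Real.pi : ℝ) := by ring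
  have b1 : Complex.exp (-((((1 : ℝ) - 1 / 2) * Real.pi : ℝ) * Complex.I)) = -Complex.I := by
    rw [Complex.exp_neg, DiscInc_exp_half, Complex.inv_I]
  have b2 : Complex.exp (-((((0 : ℝ) - 1 / 2) * Real.pi : ℝ) * Complex.I)) = Complex.I := by
    rw [Complex.exp_neg, DiscInc_exp_neg_half, inv_neg, Complex.inv_I, neg_neg]
  simp only [a1, a2, b1, b2]
  have c1 : -((α - c) / (ρ : ℂ) * -Complex.I) = (α - c) / ρ * Complex.I := by ring
  have c2 : -((α - c) / (ρ : ℂ) * Complex.I) = (α - c) / ρ * -Complex.I := by ring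
  rw [c1, c2]
  push_cast
  ring

end Pool.Agent.TB
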