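/-
Project TB (MP_d9e400_an). Module SepA.
The increment of the closed curve through a disc jumps by 2 pi i at the diameter.

PROOF. For α ∈ ball c ρ let A α = inc κ₁ (hα) + inc κ₂ (hα) + inc β (hα), B_L α = A α + inc (h∘leftHalf) (hα), B_R α = A α +
inc (h∘rightHalf) (hα). By inc_cat (hα is on none of the curves when re α ≠ re c) the increment of the closed curve at hα is
A α + inc (h∘diam) (hα), which is B_L α if α is to the right (inc_diam_right), B_R α if α is to the left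
(inc_diam_left). B_R - B_L = 2πi (inc_right_sub_left). B_L is continuous on ball c ρ (inc_continuous; h∘leftHalf avoids
h(ball c ρ) by injectivity) and exp (B_L α) = 1 (exp (inc γ z) = (γ 1 - z)/(γ 0 - z), telescoping product), so it is
constant on the ball. So inc at hα minus inc at hα' = B_R α - B_L α' = B_R α - B_L α = 2πi.
-/
import Mathlib
import Pool.Agent.TB.Defs
import Pool.Agent.TB.DiscInc

set_option autoImplicit false

open Set Filter Topology Metric

namespace Pool.Agent.TB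

theorem SepA_leftHalf_norm {c : ℂ} {ρ : ℝ} (hρ : 0 < ρ) (t : ℝ) : ‖leftHalf c ρ t - c‖ = ρ := by
  have : leftHalf c ρ t - c = -(ρ * Complex.exp (((1 / 2 - t) * Real.pi : ℝ) * Complex.I)) := by
    unfold leftHalf; ring
  rw [this, norm_neg, norm_mul, Complex.norm_exp_ofReal_mul_I]
  simp [abs_of_pos hρ]

theorem SepA_rightHalf_norm {c : ℂ} {ρ : ℝ} (hρ : 0 < ρ) (t : ℝ) : ‖rightHalf c ρ t - c‖ = ρ := by
  have : rightHalf c ρ t - c = (ρ * Complex.exp (((t - 1 / 2) * Real.pi : ℝ) * Complex.I)) := by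
    unfold rightHalf; ring
  rw [this, norm_mul, Complex.norm_exp_ofReal_mul_I]
  simp [abs_of_pos hρ]

theorem SepA_diam_norm {c : ℂ} {ρ : ℝ} (hρ : 0 < ρ) {t : ℝ} (ht : t ∈ Icc (0 : ℝ) 1) :
    ‖diam c ρ t - c‖ ≤ ρ := by
  have : diam c ρ t - c = ((ρ * (2 * t - 1) : ℝ) : ℂ) * Complex.I := by
    unfold diam; push_cast; ring
  rw [this, norm_mul, Complex.norm_I, mul_one, Complex.norm_real, Real.norm_eq_abs, abs_mul,
    abs_of_pos hρ]
  have h1 : |2 * t - 1| ≤ 1 := by
    rw [abs_le]; constructor <;> linarith [ht.1, ht.2]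
  nlinarith

theorem SepA_diam_re {c : ℂ} {ρ : ℝ} (t : ℝ) : (diam c ρ t).re = c.re := by
  have : diam c ρ t = c + ((ρ * (2 * t - 1) : ℝ) : ℂ) * Complex.I := by
    unfold diam; push_cast; ring
  rw [this]; simp

theorem SepA_diam_zero {c : ℂ} {ρ : ℝ} : diam c ρ 0 = c - ρ * Complex.I := by
  unfold diam; push_cast; ring

theorem SepA_diam_one {c : ℂ} {ρ : ℝ} : diam c ρ 1 = c + ρ * Complex.I := by
  unfold diam; push_cast; ring

theorem SepA_left_zero {c : ℂ} {ρ : ℝ} : leftHalf c ρ 0 = c - ρ * Complex.I := by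
  unfold leftHalf
  have : Complex.exp ((((1 / 2 - 0) * Real.pi : ℝ) : ℂ) * Complex.I) = Complex.I := by
    rw [show (((1 / 2 - 0) * Real.pi : ℝ) : ℂ) * Complex.I = (Real.pi : ℂ) / 2 * Complex.I by
      push_cast; ring]
    exact Complex.exp_pi_div_two_mul_I
  rw [this]

theorem SepA_left_one {c : ℂ} {ρ : ℝ} : leftHalf c ρ 1 = c + ρ * Complex.I := by
  unfold leftHalf
  have : Complex.exp ((((1 / 2 - 1) * Real.pi : ℝ) : ℂ) * Complex.I) = -Complex.I := by
    rw [show (((1 / 2 - 1) * Real.pi : ℝ) : ℂ) * Complex.I = -((Real.pi : ℂ) / 2 * Complex.I) by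
      push_cast; ring, Complex.exp_neg, Complex.exp_pi_div_two_mul_I, Complex.inv_I]
  rw [this]; ring

theorem SepA_cat_zero (γ₁ γ₂ : ℝ → ℂ) : cat γ₁ γ₂ 0 = γ₁ 0 := by
  unfold cat; norm_num

theorem SepA_cat_one (γ₁ γ₂ : ℝ → ℂ) : cat γ₁ γ₂ 1 = γ₂ 1 := by
  unfold cat; norm_num

/-- a continuous function with values in `2πiℤ` on a preconnected set is constant -/
theorem SepA_const {S : Set ℂ} (hS : IsPreconnected S) {B : ℂ → ℂ} (hB : ContinuousOn B S)
    (hn : ∀ x ∈ S, ∃ n : ℤ, B x = 2 * Real.pi * Complex.I * n) {x y : ℂ} (hx : x ∈ S)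
    (hy : y ∈ S) : B x = B y := by
  classical
  have hpi : (2 * Real.pi * Complex.I : ℂ) ≠ 0 := by
    simp [Complex.ofReal_ne_zero, Real.pi_ne_zero]
  choose! n hn using hn
  have h1 : ContinuousOn (fun z => ((n z : ℤ) : ℝ)) S := by
    have h2 : ContinuousOn (fun z => (B z / (2 * Real.pi * Complex.I)).re) S :=
      Complex.continuous_re.comp_continuousOn (hB.div_const _)
    refine h2.congr ?_
    intro z hz
    have : B z / (2 * Real.pi * Complex.I) = (n z : ℂ) := by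
      rw [hn z hz]; field_simp
    simp only [this, Complex.intCast_re]
  have h3 : ContinuousOn n S := by
    rw [Int.isClosedEmbedding_coe_real.isInducing.continuousOn_iff]
    exact h1
  have h4 : n x = n y := hS.constant h3 hx hy
  rw [hn x hx, hn y hy, h4]

theorem half_turn {h : ℂ → ℂ} {c : ℂ} {ρ R : ℝ} (hρ : 0 < ρ) (hR : ρ < R)
    (hd : DifferentiableOn ℂ h (Metric.ball c R)) (hi : InjOn h (Metric.ball c R))
    {κ₁ κ₂ β : ℝ → ℂ} (h₁ : ContinuousOn κ₁ (Icc 0 1)) (h₂ : ContinuousOn κ₂ (Icc 0 1))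
    (hβ : ContinuousOn β (Icc 0 1)) (e₁ : κ₁ 1 = h (c - ρ * Complex.I))
    (e₂ : κ₂ 0 = h (c + ρ * Complex.I)) (e₃ : κ₂ 1 = β 0) (e₄ : β 1 = κ₁ 0)
    (d₁ : Disjoint (κ₁ '' Icc 0 1) (h '' Metric.ball c ρ))
    (d₂ : Disjoint (κ₂ '' Icc 0 1) (h '' Metric.ball c ρ))
    (d₃ : Disjoint (β '' Icc 0 1) (h '' Metric.ball c ρ)) {α α' : ℂ}
    (hα : α ∈ Metric.ball c ρ) (hα' : α' ∈ Metric.ball c ρ) (hl : α.re < c.re)
    (hr : c.re < α'.re) :
    inc (cat (cat κ₁ (fun t => h (diam c ρ t))) (cat κ₂ β)) (h α) -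
      inc (cat (cat κ₁ (fun t => h (diam c ρ t))) (cat κ₂ β)) (h α') =
      2 * Real.pi * Complex.I := by
  classical
  have hsub : closedBall c ρ ⊆ ball c R := closedBall_subset_ball hR
  have hsub' : ball c ρ ⊆ ball c R := ball_subset_ball hR.le
  have hcont : ContinuousOn h (ball c R) := hd.continuousOn
  have mdiam : MapsTo (diam c ρ) (Icc 0 1) (ball c R) := fun t ht =>
    hsub (by rw [mem_closedBall, dist_eq_norm]; exact SepA_diam_norm hρ ht)
  have mleft : MapsTo (leftHalf c ρ) (Icc 0 1) (ball c R) := fun t _ =>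
    hsub (by rw [mem_closedBall, dist_eq_norm]; exact (SepA_leftHalf_norm hρ t).le)
  have mright : MapsTo (rightHalf c ρ) (Icc 0 1) (ball c R) := fun t _ =>
    hsub (by rw [mem_closedBall, dist_eq_norm]; exact (SepA_rightHalf_norm hρ t).le)
  have cdiam : ContinuousOn (fun t => h (diam c ρ t)) (Icc 0 1) :=
    hcont.comp (by unfold diam; fun_prop) mdiam
  have cleft : ContinuousOn (fun t => h (leftHalf c ρ t)) (Icc 0 1) :=
    hcont.comp (by unfold leftHalf; fun_prop) mleft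
  have n₁ : ∀ a ∈ ball c ρ, h a ∉ κ₁ '' Icc 0 1 := fun a ha hx =>
    Set.disjoint_left.1 d₁ hx (mem_image_of_mem h ha)
  have n₂ : ∀ a ∈ ball c ρ, h a ∉ κ₂ '' Icc 0 1 := fun a ha hx =>
    Set.disjoint_left.1 d₂ hx (mem_image_of_mem h ha)
  have n₃ : ∀ a ∈ ball c ρ, h a ∉ β '' Icc 0 1 := fun a ha hx =>
    Set.disjoint_left.1 d₃ hx (mem_image_of_mem h ha)
  have nleft : ∀ a ∈ ball c ρ, h a ∉ (fun t => h (leftHalf c ρ t)) '' Icc 0 1 := by
    rintro a ha ⟨t, ht, hta⟩
    have := hi (mleft ht) (hsub' ha) hta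
    have h2 := SepA_leftHalf_norm (c := c) hρ t
    rw [this] at h2
    rw [mem_ball, dist_eq_norm] at ha
    linarith
  have ndiam : ∀ a ∈ ball c ρ, a.re ≠ c.re → h a ∉ (fun t => h (diam c ρ t)) '' Icc 0 1 := by
    rintro a ha hne ⟨t, ht, hta⟩
    have := hi (mdiam ht) (hsub' ha) hta
    exact hne (by rw [← this]; exact SepA_diam_re t)
  have g₁ : κ₁ 1 = (fun t => h (diam c ρ t)) 0 := by
    simp only [SepA_diam_zero]; exact e₁
  have g₁' : κ₁ 1 = (fun t => h (leftHalf c ρ t)) 0 := by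
    simp only [SepA_left_zero]; exact e₁
  have g₂ : (cat κ₁ (fun t => h (diam c ρ t))) 1 = (cat κ₂ β) 0 := by
    rw [SepA_cat_one, SepA_cat_zero, e₂]; simp only [SepA_diam_one]
  have g₂' : (cat κ₁ (fun t => h (leftHalf c ρ t))) 1 = (cat κ₂ β) 0 := by
    rw [SepA_cat_one, SepA_cat_zero, e₂]; simp only [SepA_left_one]
  have k₁ := cat_continuous h₁ cdiam g₁
  have k₁' := cat_continuous h₁ cleft g₁'
  have k₂ := cat_continuous h₂ hβ e₃
  -- the increment of the closed curve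
  have key : ∀ a ∈ ball c ρ, a.re ≠ c.re →
      inc (cat (cat κ₁ (fun t => h (diam c ρ t))) (cat κ₂ β)) (h a) =
        inc κ₁ (h a) + inc (fun t => h (diam c ρ t)) (h a) +
          (inc κ₂ (h a) + inc β (h a)) := by
    intro a ha hne
    have m₁ : h a ∉ cat κ₁ (fun t => h (diam c ρ t)) '' Icc 0 1 := by
      rw [cat_image g₁]; rintro (hx | hx)
      · exact n₁ a ha hx
      · exact ndiam a ha hne hx
    have m₂ : h a ∉ cat κ₂ β '' Icc 0 1 := by
      rw [cat_image e₃]; rintro (hx | hx)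
      · exact n₂ a ha hx
      · exact n₃ a ha hx
    rw [inc_cat k₁ k₂ g₂ m₁ m₂, inc_cat h₁ cdiam g₁ (n₁ a ha) (ndiam a ha hne),
      inc_cat h₂ hβ e₃ (n₂ a ha) (n₃ a ha)]
  set B : ℂ → ℂ := fun a => inc κ₁ (h a) + inc (fun t => h (leftHalf c ρ t)) (h a) +
      (inc κ₂ (h a) + inc β (h a)) with hBdef
  have hBcont : ContinuousOn B (ball c ρ) := by
    have hc' : ContinuousOn h (ball c ρ) := hcont.mono hsub'
    refine ((?_ : ContinuousOn (fun a => inc κ₁ (h a)) _).add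
      (?_ : ContinuousOn (fun a => inc (fun t => h (leftHalf c ρ t)) (h a)) _)).add
      ((?_ : ContinuousOn (fun a => inc κ₂ (h a)) _).add
      (?_ : ContinuousOn (fun a => inc β (h a)) _))
    · exact (inc_continuous h₁).comp hc' n₁
    · exact (inc_continuous cleft).comp hc' nleft
    · exact (inc_continuous h₂).comp hc' n₂
    · exact (inc_continuous hβ).comp hc' n₃
  have hBint : ∀ a ∈ ball c ρ, ∃ n : ℤ, B a = 2 * Real.pi * Complex.I * n := by
    intro a ha
    have m₁ : h a ∉ cat κ₁ (fun t => h (leftHalf c ρ t)) '' Icc 0 1 := by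
      rw [cat_image g₁']; rintro (hx | hx)
      · exact n₁ a ha hx
      · exact nleft a ha hx
    have m₂ : h a ∉ cat κ₂ β '' Icc 0 1 := by
      rw [cat_image e₃]; rintro (hx | hx)
      · exact n₂ a ha hx
      · exact n₃ a ha hx
    have hclosed : (cat (cat κ₁ (fun t => h (leftHalf c ρ t))) (cat κ₂ β)) 0 =
        (cat (cat κ₁ (fun t => h (leftHalf c ρ t))) (cat κ₂ β)) 1 := by
      rw [SepA_cat_zero, SepA_cat_one, SepA_cat_zero, SepA_cat_one, e₄]
    have m₃ : h a ∉ cat (cat κ₁ (fun t => h (leftHalf c ρ t))) (cat κ₂ β) '' Icc 0 1 := by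
      rw [cat_image g₂']; rintro (hx | hx)
      · exact m₁ hx
      · exact m₂ hx
    obtain ⟨n, hn⟩ := inc_closed (cat_continuous k₁' k₂ g₂') m₃ hclosed
    refine ⟨n, ?_⟩
    rw [← hn, inc_cat k₁' k₂ g₂' m₁ m₂, inc_cat h₁ cleft g₁' (n₁ a ha) (nleft a ha),
      inc_cat h₂ hβ e₃ (n₂ a ha) (n₃ a ha)]
  have hconst : B α = B α' :=
    SepA_const (convex_ball c ρ).isPreconnected hBcont hBint hα hα'
  rw [key α hα hl.ne, key α' hα' hr.ne', inc_diam_left hρ hR hd hi hα hl,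
    inc_diam_right hρ hR hd hi hα' hr]
  have hrl := inc_right_sub_left hρ hR hd hi hα
  simp only [hBdef] at hconst
  linear_combination hconst + hrl

end Pool.Agent.TB
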