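/-
Project TB (MP_d9e400_an). Module Sep.
Separation by a crosscut closed up outside the domain.

PROOF. c = τ + iπ/2, ρ = 1, R = 3/2 < π/2 (π > 3.1): ball c R ⊆ strip. κ₁ t = h(τ + i t (π/2-1)) for t > 0, κ₁ 0 = a (continuous on [0,1] by ha);
κ₂ t = h(τ + i(π/2+1+t(π/2-1))) for t < 1, κ₂ 1 = b. σ = cat (cat κ₁ (h ∘ diam c ρ)) (cat κ₂ β), closed. Image of σ is Γ
(a = β 1, b = β 0 ∈ image β; cat_image): Γ compact. n x = the integer with inc σ x = 2πi n x (inc_closed) for x ∈ Γᶜ.
(i) inc σ is continuous on Γᶜ with values in 2πiℤ: constant on preconnected subsets. (ii) an unbounded component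
contains a point with norm > bound of σ, where inc = 0 (inc_far). (iii) the sets h{u ∈ strip, re u < τ} and h{.. > τ}
are connected (strip parts are convex) and disjoint from Γ (h injective, hβd), so n is constant on each; half_turn
(h₁.., d₁, d₂, d₃ from injectivity and hβd; note a, b = β-points are not in h '' strip) for one α on each side gives values differing by 1.
-/
import Mathlib
import Pool.Agent.TB.Defs
import Pool.Agent.TB.SepA

set_option autoImplicit false

open Set Filter Topology Metric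

namespace Pool.Agent.TB

/-- affine images of the unit interval -/
theorem Sep_image_affine {G : ℝ → ℂ} {p q : ℝ} (hq : 0 < q) :
    (fun t : ℝ => G (p + t * q)) '' Icc 0 1 = G '' Icc p (p + q) := by
  ext z
  constructor
  · rintro ⟨t, ht, rfl⟩
    refine ⟨p + t * q, ⟨by nlinarith [ht.1], by nlinarith [ht.2]⟩, rfl⟩
  · rintro ⟨y, hy, rfl⟩
    refine ⟨(y - p) / q, ⟨div_nonneg (by linarith [hy.1]) hq.le, ?_⟩, ?_⟩
    · rw [div_le_one hq]; linarith [hy.2]
    · show G (p + (y - p) / q * q) = G y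
      congr 1
      field_simp
      ring

/-- integer valued functions -/
theorem Sep_const {S : Set ℂ} (hS : IsPreconnected S) {F : ℂ → ℂ} (hF : ContinuousOn F S)
    {n : ℂ → ℤ} (hn : ∀ x ∈ S, F x = 2 * Real.pi * Complex.I * n x) :
    ∀ x ∈ S, ∀ y ∈ S, n x = n y := by
  intro x hx y hy
  have h1 : ContinuousOn (fun x => (n x : ℝ)) S := by
    have h2 : ContinuousOn (fun x => (F x / (2 * Real.pi * Complex.I)).re) S :=
      Complex.continuous_re.comp_continuousOn (hF.div_const _)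
    refine h2.congr ?_
    intro x hx
    simp only
    rw [hn x hx, mul_div_cancel_left₀ _ (by
      simp [Complex.I_ne_zero, Real.pi_ne_zero])]
    simp
  have h3 : ContinuousOn n S := by
    rw [Int.isClosedEmbedding_coe_real.isEmbedding.isInducing.continuousOn_iff]
    exact h1
  exact hS.constant h3 hx hy

/-- `h` conformal on the strip, the vertical segment `Re u = τ` has image with end points `a`
(lower end) and `b` (upper end) outside the image, and `β` joins `b` to `a` outside the image of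
the strip. Then there is a locally constant integer function on the complement of the closed curve
that vanishes at all points not surrounded by it and takes different values on the two sides. -/
theorem sep {h : ℂ → ℂ} (hd : DifferentiableOn ℂ h strip) (hi : InjOn h strip) (τ : ℝ) {a b : ℂ}
    (ha : Tendsto (fun y : ℝ => h (τ + y * Complex.I)) (𝓝[>] (0 : ℝ)) (𝓝 a))
    (hb : Tendsto (fun y : ℝ => h (τ + y * Complex.I)) (𝓝[<] Real.pi) (𝓝 b))
    {β : ℝ → ℂ} (hβ : ContinuousOn β (Icc 0 1)) (hβ0 : β 0 = b) (hβ1 : β 1 = a)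
    (hβd : Disjoint (β '' Icc 0 1) (h '' strip)) {Γ : Set ℂ}
    (hΓ : Γ = β '' Icc 0 1 ∪ h '' {u | u ∈ strip ∧ u.re = τ}) :
    IsCompact Γ ∧ ∃ n : ℂ → ℤ,
      (∀ S : Set ℂ, S ⊆ Γᶜ → IsPreconnected S → ∀ x ∈ S, ∀ y ∈ S, n x = n y) ∧
      (∀ x ∈ Γᶜ, ¬ Bornology.IsBounded (connectedComponentIn Γᶜ x) → n x = 0) ∧
      ∀ u ∈ strip, ∀ v ∈ strip, u.re < τ → τ < v.re → n (h u) ≠ n (h v) := by
  -- the centre of the disc
  have hpi : (3.14 : ℝ) < Real.pi := Real.pi_gt_d2
  obtain ⟨c, hc⟩ : ∃ c : ℂ, c = (τ : ℂ) + ((Real.pi / 2 : ℝ) : ℂ) * Complex.I := ⟨_, rfl⟩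
  have hcre : c.re = τ := by rw [hc]; simp
  have hcim : c.im = Real.pi / 2 := by rw [hc]; simp
  have hq : 0 < Real.pi / 2 - 1 := by linarith
  have hta : ∀ t ∈ Icc (0 : ℝ) 1, 0 ≤ t * (Real.pi / 2 - 1) :=
    fun t ht => mul_nonneg ht.1 hq.le
  have htb : ∀ t ∈ Icc (0 : ℝ) 1, t * (Real.pi / 2 - 1) ≤ Real.pi / 2 - 1 :=
    fun t ht => mul_le_of_le_one_left hq.le ht.2
  -- balls in the strip
  have hball : Metric.ball c (3 / 2) ⊆ strip := by
    intro u hu
    rw [Metric.mem_ball, dist_eq_norm] at hu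
    have h1 := Complex.abs_im_le_norm (u - c)
    rw [Complex.sub_im, hcim] at h1
    have h2 := abs_le.mp h1
    constructor <;> linarith [h2.1, h2.2]
  have hball1 : Metric.ball c ((1 : ℝ)) ⊆ strip :=
    (Metric.ball_subset_ball (by norm_num)).trans hball
  have hso : IsOpen strip := by
    have : strip = {u : ℂ | 0 < u.im} ∩ {u : ℂ | u.im < Real.pi} := by
      ext u; rfl
    rw [this]
    exact (isOpen_lt continuous_const Complex.continuous_im).inter
      (isOpen_lt Complex.continuous_im continuous_const)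
  -- the extended segment
  obtain ⟨g, hg⟩ : ∃ g : ℝ → ℂ, ∀ y, g y = h (τ + y * Complex.I) := ⟨_, fun _ => rfl⟩
  have hgstrip : ∀ y ∈ Ioo (0 : ℝ) Real.pi, ((τ : ℂ) + (y : ℂ) * Complex.I) ∈ strip := by
    intro y hy
    constructor
    · simpa using hy.1
    · simpa using hy.2
  have hgc : ContinuousOn g (Ioo 0 Real.pi) := by
    have : ContinuousOn (fun y : ℝ => h (τ + y * Complex.I)) (Ioo 0 Real.pi) := by
      apply hd.continuousOn.comp (Continuous.continuousOn (by fun_prop))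
      intro y hy
      exact hgstrip y hy
    exact this.congr (fun y _ => hg y)
  have hga : Tendsto g (𝓝[>] (0 : ℝ)) (𝓝 a) := by
    have : g = fun y : ℝ => h (τ + y * Complex.I) := funext hg
    rw [this]; exact ha
  have hgb : Tendsto g (𝓝[<] Real.pi) (𝓝 b) := by
    have : g = fun y : ℝ => h (τ + y * Complex.I) := funext hg
    rw [this]; exact hb
  obtain ⟨G, hGdef⟩ : ∃ G : ℝ → ℂ, G = extendFrom (Ioo 0 Real.pi) g := ⟨_, rfl⟩
  have hGc : ContinuousOn G (Icc 0 Real.pi) := by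
    rw [hGdef]; exact continuousOn_Icc_extendFrom_Ioo hgc hga hgb
  have hG0 : G 0 = a := by
    rw [hGdef]; exact eq_lim_at_left_extendFrom_Ioo Real.pi_pos hga
  have hGpi : G Real.pi = b := by
    rw [hGdef]; exact eq_lim_at_right_extendFrom_Ioo Real.pi_pos hgb
  have hGg : ∀ y ∈ Ioo (0 : ℝ) Real.pi, G y = h (τ + y * Complex.I) := by
    intro y hy
    rw [hGdef, extendFrom_extends hgc y hy, hg]
  have haβ : a ∈ β '' Icc 0 1 := ⟨1, by simp, hβ1⟩
  have hbβ : b ∈ β '' Icc 0 1 := ⟨0, by simp, hβ0⟩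
  -- the image of the extended segment
  have hGim : β '' Icc 0 1 ∪ G '' Icc 0 Real.pi = Γ := by
    rw [hΓ]
    ext z
    constructor
    · rintro (hz | ⟨y, hy, rfl⟩)
      · exact Or.inl hz
      · rcases eq_or_lt_of_le hy.1 with h0 | h0
        · left; rw [← h0, hG0]; exact haβ
        · rcases eq_or_lt_of_le hy.2 with h1 | h1
          · left; rw [h1, hGpi]; exact hbβ
          · right
            refine ⟨(τ : ℂ) + (y : ℂ) * Complex.I, ⟨hgstrip y ⟨h0, h1⟩, by simp⟩, ?_⟩
            rw [hGg y ⟨h0, h1⟩]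
    · rintro (hz | ⟨u, ⟨hu, hur⟩, rfl⟩)
      · exact Or.inl hz
      · right
        refine ⟨u.im, ⟨hu.1.le, hu.2.le⟩, ?_⟩
        rw [hGg u.im ⟨hu.1, hu.2⟩]
        congr 1
        apply Complex.ext <;> simp [hur]
  have hcomp : IsCompact Γ := by
    rw [← hGim]
    exact (isCompact_Icc.image_of_continuousOn hβ).union (isCompact_Icc.image_of_continuousOn hGc)
  refine ⟨hcomp, ?_⟩
  -- the pieces
  obtain ⟨κ₁, hκ₁⟩ : ∃ κ : ℝ → ℂ, κ = fun t : ℝ => G (0 + t * (Real.pi / 2 - 1)) := ⟨_, rfl⟩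
  obtain ⟨κ₂, hκ₂⟩ : ∃ κ : ℝ → ℂ,
    κ = fun t : ℝ => G ((Real.pi / 2 + 1) + t * (Real.pi / 2 - 1)) := ⟨_, rfl⟩
  obtain ⟨δ, hδ⟩ : ∃ κ : ℝ → ℂ, κ = fun t : ℝ => h (diam c ((1 : ℝ)) t) := ⟨_, rfl⟩
  have hδG : ∀ t ∈ Icc (0 : ℝ) 1, δ t = G ((Real.pi / 2 - 1) + t * 2) := by
    intro t ht
    rw [hδ, hGg _ ⟨by linarith [ht.1], by linarith [ht.2]⟩]
    simp only [diam]
    congr 1
    rw [hc]
    push_cast
    ring
  have hκ₁c : ContinuousOn κ₁ (Icc 0 1) := by
    rw [hκ₁]
    apply hGc.comp (Continuous.continuousOn (by fun_prop))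
    intro t ht
    have h1 := hta t ht
    have h2 := htb t ht
    constructor
    · linarith
    · linarith
  have hκ₂c : ContinuousOn κ₂ (Icc 0 1) := by
    rw [hκ₂]
    apply hGc.comp (Continuous.continuousOn (by fun_prop))
    intro t ht
    have h1 := hta t ht
    have h2 := htb t ht
    constructor
    · linarith
    · linarith
  have hδc : ContinuousOn δ (Icc 0 1) := by
    have : ContinuousOn (fun t : ℝ => G ((Real.pi / 2 - 1) + t * 2)) (Icc 0 1) := by
      apply hGc.comp (Continuous.continuousOn (by fun_prop))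
      intro t ht
      constructor
      · linarith [ht.1]
      · linarith [ht.2]
    exact this.congr hδG
  have hκ₁0 : κ₁ 0 = a := by rw [hκ₁]; simp [hG0]
  have hκ₁1 : κ₁ 1 = h (c - ((1 : ℝ) : ℂ) * Complex.I) := by
    rw [hκ₁]
    simp only
    rw [hGg _ ⟨by linarith, by linarith⟩]
    congr 1
    rw [hc]
    push_cast
    ring
  have hκ₂0 : κ₂ 0 = h (c + ((1 : ℝ) : ℂ) * Complex.I) := by
    rw [hκ₂]
    simp only
    rw [hGg _ ⟨by linarith, by linarith⟩]
    congr 1
    rw [hc]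
    push_cast
    ring
  have hκ₂1 : κ₂ 1 = b := by
    rw [hκ₂]
    simp only
    rw [show (Real.pi / 2 + 1) + 1 * (Real.pi / 2 - 1) = Real.pi by ring, hGpi]
  have hδ0 : δ 0 = h (c - ((1 : ℝ) : ℂ) * Complex.I) := by
    rw [hδ]; simp only [diam]; congr 1; push_cast; ring
  have hδ1 : δ 1 = h (c + ((1 : ℝ) : ℂ) * Complex.I) := by
    rw [hδ]; simp only [diam]; congr 1; push_cast; ring
  have hκδ : κ₁ 1 = δ 0 := by rw [hκ₁1, hδ0]
  have hκβ : κ₂ 1 = β 0 := by rw [hκ₂1, hβ0]
  have hA1 : cat κ₁ δ 1 = δ 1 := by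
    simp only [cat]; norm_num
  have hB0 : cat κ₂ β 0 = κ₂ 0 := by
    simp only [cat]; norm_num
  have hAB : cat κ₁ δ 1 = cat κ₂ β 0 := by rw [hA1, hB0, hδ1, hκ₂0]
  have hAc : ContinuousOn (cat κ₁ δ) (Icc 0 1) := cat_continuous hκ₁c hδc hκδ
  have hBc : ContinuousOn (cat κ₂ β) (Icc 0 1) := cat_continuous hκ₂c hβ hκβ
  obtain ⟨σ, hσ⟩ : ∃ σ : ℝ → ℂ, σ = cat (cat κ₁ δ) (cat κ₂ β) := ⟨_, rfl⟩
  have hσc : ContinuousOn σ (Icc 0 1) := by rw [hσ]; exact cat_continuous hAc hBc hAB
  have hσ01 : σ 0 = σ 1 := by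
    rw [hσ]
    have e0 : cat (cat κ₁ δ) (cat κ₂ β) 0 = κ₁ 0 := by simp only [cat]; norm_num
    have e1 : cat (cat κ₁ δ) (cat κ₂ β) 1 = β 1 := by simp only [cat]; norm_num
    rw [e0, e1, hκ₁0, hβ1]
  have hσim : σ '' Icc 0 1 = Γ := by
    rw [hσ, cat_image hAB, cat_image hκδ, cat_image hκβ, ← hGim]
    have i1 : κ₁ '' Icc 0 1 = G '' Icc 0 (Real.pi / 2 - 1) := by
      rw [hκ₁, Sep_image_affine hq, zero_add]
    have i2 : δ '' Icc 0 1 = G '' Icc (Real.pi / 2 - 1) (Real.pi / 2 + 1) := by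
      rw [Set.image_congr hδG, Sep_image_affine (by norm_num : (0 : ℝ) < 2)]
      congr 2; ring
    have i3 : κ₂ '' Icc 0 1 = G '' Icc (Real.pi / 2 + 1) Real.pi := by
      rw [hκ₂, Sep_image_affine hq]
      congr 2; ring
    rw [i1, i2, i3, ← Set.image_union, Set.Icc_union_Icc_eq_Icc (by linarith) (by linarith),
      ← Set.union_assoc, ← Set.image_union, Set.Icc_union_Icc_eq_Icc (by linarith) (by linarith),
      Set.union_comm]
  -- the integers
  have hN : ∀ x, x ∈ Γᶜ → ∃ n : ℤ, inc σ x = 2 * Real.pi * Complex.I * n := by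
    intro x hx
    exact inc_closed hσc (by rw [hσim]; exact hx) hσ01
  choose! n hn using hN
  have hincc : ContinuousOn (inc σ) Γᶜ := by
    have := inc_continuous hσc
    rwa [hσim] at this
  have hconst : ∀ S : Set ℂ, S ⊆ Γᶜ → IsPreconnected S → ∀ x ∈ S, ∀ y ∈ S, n x = n y := by
    intro S hS hSp
    exact Sep_const hSp (hincc.mono hS) (fun x hx => hn x (hS hx))
  refine ⟨n, hconst, ?_, ?_⟩
  · -- far points
    intro x hx hub
    obtain ⟨M, hM⟩ : ∃ M, ∀ t ∈ Icc (0 : ℝ) 1, ‖σ t‖ ≤ M := by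
      have := (isCompact_Icc (a := (0 : ℝ)) (b := 1)).image_of_continuousOn hσc
      obtain ⟨M, hM⟩ := this.isBounded.exists_norm_le
      exact ⟨M, fun t ht => hM _ ⟨t, ht, rfl⟩⟩
    have hex : ∃ y ∈ connectedComponentIn Γᶜ x, M < ‖y‖ := by
      by_contra hcon
      push Not at hcon
      apply hub
      rw [isBounded_iff_forall_norm_le]
      exact ⟨M, hcon⟩
    obtain ⟨y, hy, hyM⟩ := hex
    have hxc : x ∈ connectedComponentIn Γᶜ x := mem_connectedComponentIn hx
    have hsub := connectedComponentIn_subset Γᶜ x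
    have h1 := hconst _ hsub isPreconnected_connectedComponentIn x hxc y hy
    have h2 : inc σ y = 0 := inc_far hσc hσ01 hM hyM
    rw [hn y (hsub hy)] at h2
    have h3 : ((n y : ℤ) : ℂ) = 0 := by
      rcases mul_eq_zero.mp h2 with h4 | h4
      · exfalso
        simp [Complex.I_ne_zero, Real.pi_ne_zero] at h4
      · exact h4
    rw [h1]
    exact_mod_cast h3
  · -- the two sides
    intro u hu v hv hut hvt
    have hβmem : ∀ w ∈ strip, h w ∉ β '' Icc 0 1 := by
      intro w hw hwβ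
      exact (Set.disjoint_left.mp hβd hwβ) ⟨w, hw, rfl⟩
    have hside : ∀ w ∈ strip, w.re ≠ τ → h w ∈ Γᶜ := by
      intro w hw hwt hwΓ
      rw [hΓ] at hwΓ
      rcases hwΓ with h1 | ⟨w', ⟨hw', hw't⟩, he⟩
      · exact hβmem w hw h1
      · have := hi hw' hw he
        rw [this] at hw't
        exact hwt hw't
    -- convex halves
    have hconvs : Convex ℝ strip := by
      have : strip = {u : ℂ | 0 < u.im} ∩ {u : ℂ | u.im < Real.pi} := by
        ext u; rfl
      rw [this]
      exact (convex_halfSpace_im_gt 0).inter (convex_halfSpace_im_lt _)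
    have hL : IsPreconnected (h '' (strip ∩ {w : ℂ | w.re < τ})) :=
      ((hconvs.inter (convex_halfSpace_re_lt τ)).isPreconnected).image h
        (hd.continuousOn.mono Set.inter_subset_left)
    have hRt : IsPreconnected (h '' (strip ∩ {w : ℂ | τ < w.re})) :=
      ((hconvs.inter (convex_halfSpace_re_gt τ)).isPreconnected).image h
        (hd.continuousOn.mono Set.inter_subset_left)
    have hLsub : h '' (strip ∩ {w : ℂ | w.re < τ}) ⊆ Γᶜ := by
      rintro _ ⟨w, ⟨hw, hwt⟩, rfl⟩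
      exact hside w hw (ne_of_lt hwt)
    have hRsub : h '' (strip ∩ {w : ℂ | τ < w.re}) ⊆ Γᶜ := by
      rintro _ ⟨w, ⟨hw, hwt⟩, rfl⟩
      exact hside w hw (ne_of_gt hwt)
    -- test points
    have hαb : c - ((1 / 2 : ℝ) : ℂ) ∈ Metric.ball c (1 : ℝ) := by
      rw [Metric.mem_ball, dist_eq_norm, sub_sub_cancel_left, norm_neg, Complex.norm_real]
      norm_num
    have hα'b : c + ((1 / 2 : ℝ) : ℂ) ∈ Metric.ball c (1 : ℝ) := by
      rw [Metric.mem_ball, dist_eq_norm, add_sub_cancel_left, Complex.norm_real]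
      norm_num
    have hαre : (c - ((1 / 2 : ℝ) : ℂ)).re < c.re := by
      rw [Complex.sub_re, Complex.ofReal_re]; linarith
    have hα're : c.re < (c + ((1 / 2 : ℝ) : ℂ)).re := by
      rw [Complex.add_re, Complex.ofReal_re]; linarith
    -- disjointness
    have hout : ∀ y : ℝ, y ∈ Icc (0 : ℝ) Real.pi → 1 ≤ |y - Real.pi / 2| →
        G y ∉ h '' Metric.ball c (1 : ℝ) := by
      rintro y hy hy1 ⟨w, hw, hwy⟩
      have hws := hball1 hw
      rcases eq_or_lt_of_le hy.1 with h0 | h0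
      · rw [← h0, hG0] at hwy
        exact hβmem w hws (hwy ▸ haβ)
      · rcases eq_or_lt_of_le hy.2 with h1 | h1
        · rw [h1, hGpi] at hwy
          exact hβmem w hws (hwy ▸ hbβ)
        · rw [hGg y ⟨h0, h1⟩] at hwy
          have := hi hws (hgstrip y ⟨h0, h1⟩) hwy
          rw [this, Metric.mem_ball, dist_eq_norm] at hw
          have h2 := Complex.abs_im_le_norm ((τ : ℂ) + (y : ℂ) * Complex.I - c)
          rw [Complex.sub_im, hcim] at h2
          simp only [Complex.add_im, Complex.ofReal_im, Complex.mul_im, Complex.ofReal_re,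
            Complex.I_im, Complex.I_re, mul_one, mul_zero, add_zero, zero_add] at h2
          linarith
    have d₁ : Disjoint (κ₁ '' Icc 0 1) (h '' Metric.ball c (1 : ℝ)) := by
      rw [Set.disjoint_left]
      rintro _ ⟨t, ht, rfl⟩
      rw [hκ₁]
      apply hout
      · have h1 := hta t ht
        have h2 := htb t ht
        constructor
        · linarith
        · linarith
      · have h1 := hta t ht
        have h2 := htb t ht
        rw [abs_of_nonpos (by linarith)]
        linarith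
    have d₂ : Disjoint (κ₂ '' Icc 0 1) (h '' Metric.ball c (1 : ℝ)) := by
      rw [Set.disjoint_left]
      rintro _ ⟨t, ht, rfl⟩
      rw [hκ₂]
      apply hout
      · have h1 := hta t ht
        have h2 := htb t ht
        constructor
        · linarith
        · linarith
      · have h1 := hta t ht
        have h2 := htb t ht
        rw [abs_of_nonneg (by linarith)]
        linarith
    have d₃ : Disjoint (β '' Icc 0 1) (h '' Metric.ball c (1 : ℝ)) :=
      hβd.mono_right (Set.image_mono hball1)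
    have hturn := half_turn (h := h) (c := c) (ρ := 1) (R := 3 / 2) (by norm_num) (by norm_num)
      (hd.mono hball) (hi.mono hball) hκ₁c hκ₂c hβ hκ₁1 hκ₂0 hκβ (by rw [hβ1, hκ₁0]) d₁ d₂ d₃
      hαb hα'b hαre hα're
    rw [← hδ, ← hσ] at hturn
    have hαmem : h (c - ((1 / 2 : ℝ) : ℂ)) ∈ h '' (strip ∩ {w : ℂ | w.re < τ}) :=
      ⟨_, ⟨hball1 hαb, by rw [← hcre]; exact hαre⟩, rfl⟩
    have hα'mem : h (c + ((1 / 2 : ℝ) : ℂ)) ∈ h '' (strip ∩ {w : ℂ | τ < w.re}) :=
      ⟨_, ⟨hball1 hα'b, by rw [← hcre]; exact hα're⟩, rfl⟩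
    have e1 := hconst _ hLsub hL (h u) ⟨u, ⟨hu, hut⟩, rfl⟩ _ hαmem
    have e2 := hconst _ hRsub hRt (h v) ⟨v, ⟨hv, hvt⟩, rfl⟩ _ hα'mem
    rw [e1, e2]
    intro he
    rw [hn _ (hLsub hαmem), hn _ (hRsub hα'mem), he, sub_self] at hturn
    simp [Complex.I_ne_zero, Real.pi_ne_zero] at hturn

end Pool.Agent.TB
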