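/-
Project TB (MP_d9e400_an). Module EE.
The points of the unit circle.

PROOFS. elementary (Complex.exp_eq_exp_iff_exists_int, toIcoMod, Complex.arg). exists_ee_near: ζ = ee θ · ξ with ξ near 1,
θ' = θ + arg ξ, arg is continuous at 1.
-/
import Mathlib
import Pool.Agent.TB.Defs

set_option autoImplicit false

open Set Filter Topology Metric

namespace Pool.Agent.TB

theorem norm_ee (θ : ℝ) : ‖ee θ‖ = 1 := by
  unfold ee; exact Complex.norm_exp_ofReal_mul_I θ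

theorem ee_add (θ θ' : ℝ) : ee (θ + θ') = ee θ * ee θ' := by
  unfold ee
  rw [← Complex.exp_add]
  congr 1
  push_cast
  ring

theorem continuous_ee : Continuous ee := by
  unfold ee
  fun_prop

theorem ee_eq_iff {θ θ' : ℝ} : ee θ = ee θ' ↔ ∃ k : ℤ, θ = θ' + 2 * Real.pi * k := by
  unfold ee
  rw [Complex.exp_eq_exp_iff_exists_int]
  constructor
  · rintro ⟨k, hk⟩
    refine ⟨k, ?_⟩
    have h : (θ : ℂ) = ((θ' + 2 * Real.pi * k : ℝ) : ℂ) := by
      apply mul_right_cancel₀ Complex.I_ne_zero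
      rw [hk]; push_cast; ring
    exact_mod_cast h
  · rintro ⟨k, hk⟩
    refine ⟨k, ?_⟩
    rw [hk]; push_cast; ring

theorem exists_ee {ζ : ℂ} (hζ : ‖ζ‖ = 1) (θ₀ : ℝ) :
    ∃ θ : ℝ, θ₀ ≤ θ ∧ θ < θ₀ + 2 * Real.pi ∧ ζ = ee θ := by
  have hmem := toIcoMod_mem_Ico Real.two_pi_pos θ₀ (Complex.arg ζ)
  refine ⟨toIcoMod Real.two_pi_pos θ₀ (Complex.arg ζ), hmem.1, hmem.2, ?_⟩
  have h2 := Complex.norm_mul_exp_arg_mul_I ζ
  rw [hζ, Complex.ofReal_one, one_mul] at h2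
  have h3 : ee (toIcoMod Real.two_pi_pos θ₀ (Complex.arg ζ)) = ee (Complex.arg ζ) := by
    rw [ee_eq_iff]
    refine ⟨-toIcoDiv Real.two_pi_pos θ₀ (Complex.arg ζ), ?_⟩
    rw [toIcoMod]
    simp only [zsmul_eq_mul]
    push_cast
    ring
  rw [h3]
  exact h2.symm

/-- `ee` is a local homeomorphism onto the circle: nearby points of the circle have nearby angles -/
theorem exists_ee_near (θ : ℝ) {ε : ℝ} (hε : 0 < ε) :
    ∃ δ : ℝ, 0 < δ ∧ ∀ ζ : ℂ, ‖ζ‖ = 1 → ‖ζ - ee θ‖ < δ → ∃ θ' : ℝ, |θ' - θ| < ε ∧ ζ = ee θ' := by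
  have hc : ContinuousAt Complex.arg 1 := Complex.continuousAt_arg (by simp [Complex.slitPlane])
  obtain ⟨δ, hδ, h⟩ := Metric.continuousAt_iff.1 hc ε hε
  refine ⟨δ, hδ, fun ζ hζ hd => ?_⟩
  have he : ee θ ≠ 0 := by
    intro h0; have := norm_ee θ; rw [h0, norm_zero] at this; exact zero_ne_one this
  have h1 : ‖ζ / ee θ - 1‖ < δ := by
    have : ζ / ee θ - 1 = (ζ - ee θ) / ee θ := by field_simp
    rw [this, norm_div, norm_ee, div_one]
    exact hd
  have h2 := h (x := ζ / ee θ) (by rw [dist_eq_norm]; exact h1)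
  rw [Complex.arg_one, dist_zero_right, Real.norm_eq_abs] at h2
  refine ⟨θ + Complex.arg (ζ / ee θ), by simpa using h2, ?_⟩
  rw [ee_add]
  have h3 := Complex.norm_mul_exp_arg_mul_I (ζ / ee θ)
  rw [norm_div, hζ, norm_ee, div_one, Complex.ofReal_one, one_mul] at h3
  have h4 : ee (Complex.arg (ζ / ee θ)) = ζ / ee θ := h3
  rw [h4]
  field_simp

end Pool.Agent.TB
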