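/-
Project TB (MP_d9e400_an). Module StripA.
The strip map ES is a conformal map onto the disc.

PROOFS. exp maps strip bijectively to the upper half plane {0 < im s} (inverse Complex.log, arg ∈ (0,π); Im exp u =
e^{re} sin(im)). s ↦ (i-s)/(i+s) maps the upper half plane bijectively to Dk: ‖i-s‖ < ‖i+s‖ ⟺ 0 < im s, inverse
w ↦ i(1-w)/(1+w). Multiplication by ζ is a bijection of Dk. i + exp u ≠ 0 on strip. exp(iπ/2) = i.
-/
import Mathlib
import Pool.Agent.TB.Defs
import Pool.Agent.TB.EE

set_option autoImplicit false

open Set Filter Topology Metric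

namespace Pool.Agent.TB

theorem isOpen_strip : IsOpen strip := by
  unfold strip
  exact (isOpen_lt continuous_const Complex.continuous_im).inter
    (isOpen_lt Complex.continuous_im continuous_const)

private lemma StripA_im {u : ℂ} (hu : u ∈ strip) : 0 < (Complex.exp u).im := by
  rw [Complex.exp_im]
  exact mul_pos (Real.exp_pos _) (Real.sin_pos_of_pos_of_lt_pi hu.1 hu.2)

private lemma StripA_ne {s : ℂ} (hs : 0 < s.im) : Complex.I + s ≠ 0 := by
  intro h
  have := congrArg Complex.im h
  simp at this
  linarith

private lemma StripA_norm {s : ℂ} (hs : 0 < s.im) : ‖(Complex.I - s) / (Complex.I + s)‖ < 1 := by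
  have hne := StripA_ne hs
  rw [norm_div, div_lt_one (norm_pos_iff.2 hne)]
  apply (sq_lt_sq₀ (norm_nonneg _) (norm_nonneg _)).1
  rw [← Complex.normSq_eq_norm_sq, ← Complex.normSq_eq_norm_sq, Complex.normSq_apply,
    Complex.normSq_apply]
  simp
  nlinarith

theorem ES_bijOn {ζ : ℂ} (hζ : ‖ζ‖ = 1) : BijOn (ES ζ) strip Dk := by
  have hζ0 : ζ ≠ 0 := by
    intro h; rw [h, norm_zero] at hζ; exact zero_ne_one hζ
  refine ⟨?_, ?_, ?_⟩
  · intro u hu
    rw [Metric.mem_ball, dist_zero_right]
    unfold ES
    rw [norm_mul, hζ, one_mul]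
    exact StripA_norm (StripA_im hu)
  · intro u hu v hv huv
    unfold ES at huv
    have h1 := mul_left_cancel₀ hζ0 huv
    have hu' := StripA_ne (StripA_im hu)
    have hv' := StripA_ne (StripA_im hv)
    rw [div_eq_div_iff hu' hv'] at h1
    have h2 : Complex.exp u = Complex.exp v := by
      have : 2 * Complex.I * (Complex.exp u - Complex.exp v) = 0 := by linear_combination -h1
      have h2I : (2 * Complex.I) ≠ 0 := by simp
      exact sub_eq_zero.1 ((mul_eq_zero.1 this).resolve_left h2I)
    have hul := Complex.log_exp (x := u) (by linarith [hu.1, Real.pi_pos]) hu.2.le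
    have hvl := Complex.log_exp (x := v) (by linarith [hv.1, Real.pi_pos]) hv.2.le
    rw [← hul, h2, hvl]
  · intro w hw
    rw [Metric.mem_ball, dist_zero_right] at hw
    set w' := w / ζ with hw'
    have hwn : ‖w'‖ < 1 := by rw [hw', norm_div, hζ, div_one]; exact hw
    have h1 : 1 + w' ≠ 0 := by
      intro h
      have : w' = -1 := by linear_combination h
      rw [this, norm_neg, norm_one] at hwn
      exact lt_irrefl _ hwn
    set s := Complex.I * ((1 - w') / (1 + w')) with hs
    have him : 0 < s.im := by
      rw [hs, Complex.I_mul_im, Complex.div_re]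
      have h2 : 0 < Complex.normSq (1 + w') := Complex.normSq_pos.2 h1
      have h3 : Complex.normSq w' < 1 := by
        rw [Complex.normSq_eq_norm_sq]; nlinarith [norm_nonneg w']
      rw [← add_div]
      apply div_pos _ h2
      rw [Complex.normSq_apply] at h3
      simp
      nlinarith
    have hs0 : s ≠ 0 := by
      intro h; rw [h] at him; simp at him
    refine ⟨Complex.log s, ⟨?_, ?_⟩, ?_⟩
    · rw [Complex.log_im]
      have h4 := Complex.arg_nonneg_iff.2 him.le
      rcases h4.lt_or_eq with h5 | h5
      · exact h5
      · exfalso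
        have := (Complex.arg_eq_zero_iff.1 h5.symm).2
        linarith
    · rw [Complex.log_im]
      have h4 := Complex.arg_le_pi s
      rcases h4.lt_or_eq with h5 | h5
      · exact h5
      · exfalso
        have := (Complex.arg_eq_pi_iff.1 h5).2
        linarith
    · unfold ES
      rw [Complex.exp_log hs0]
      have h6 : Complex.I + s ≠ 0 := StripA_ne him
      have h7 : Complex.I - s = w' * (Complex.I + s) := by
        rw [hs]; field_simp; ring
      rw [h7, mul_div_cancel_right₀ _ h6, hw']
      field_simp

theorem ES_diff {ζ : ℂ} : DifferentiableOn ℂ (ES ζ) strip := by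
  unfold ES
  intro u hu
  have h := StripA_ne (StripA_im hu)
  apply DifferentiableAt.differentiableWithinAt
  apply DifferentiableAt.const_mul
  refine DifferentiableAt.fun_div (c := fun y => Complex.I - Complex.exp y)
    (d := fun y => Complex.I + Complex.exp y) ?_ ?_ h
  · exact (differentiableAt_const _).sub Complex.differentiable_exp.differentiableAt
  · exact (differentiableAt_const _).add Complex.differentiable_exp.differentiableAt

theorem ES_center (ζ : ℂ) : ES ζ ((Real.pi / 2 : ℝ) * Complex.I) = 0 := by
  unfold ES
  have : Complex.exp ((Real.pi / 2 : ℝ) * Complex.I) = Complex.I := by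
    push_cast
    exact Complex.exp_pi_div_two_mul_I
  rw [this]
  simp

end Pool.Agent.TB
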