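/-
Project TB (MP_d9e400_an). Module StripB.
The ends of vertical segments under the strip map.

PROOFS. s = exp(τ + iy) = e^τ e^{iy}, s₀ = e^τ. (i-s₀)/(i+s₀) = (1+is₀)/(1-is₀) = ee(2 arctan s₀). (i-s)/(i+s) - (i-s₀)/(i+s₀) =
-2i(s-s₀)/((i+s)(i+s₀)), |i+s| ≥ 1 for im s ≥ 0, so ‖ES - limit‖ ≤ 2|s-s₀| ≤ 2e^τ y. 1 - ‖ES‖² = 4 im s/|i+s|² ≥ 4 e^τ sin y/(1+e^τ)²,
1 - ‖ES‖ ≥ (1-‖ES‖²)/2 ≥ 2e^τ sin y/(1+e^τ)², sin y ≥ 2y/π on (0,π/2]. C = (π/2)(1+e^τ)².
ES_upper: y = π - y', exp(τ+iy) = -e^τ e^{-iy'}, limit -e^τ, (i+s₀)/(i-s₀) = ee(-2 arctan s₀); same estimates.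
-/
import Mathlib
import Pool.Agent.TB.Defs
import Pool.Agent.TB.StripA

set_option autoImplicit false

open Set Filter Topology Metric

namespace Pool.Agent.TB

private lemma StripB_ne {s : ℂ} (hs : 0 ≤ s.im) : 1 ≤ ‖Complex.I + s‖ := by
  have h1 : |(Complex.I + s).im| ≤ ‖Complex.I + s‖ := Complex.abs_im_le_norm _
  have h2 : (Complex.I + s).im = 1 + s.im := by simp
  rw [h2, abs_of_nonneg (by linarith)] at h1
  linarith

private lemma StripB_diff {s s₀ : ℂ} (hs : 0 ≤ s.im) (hs₀ : 0 ≤ s₀.im) :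
    ‖(Complex.I - s) / (Complex.I + s) - (Complex.I - s₀) / (Complex.I + s₀)‖ ≤ 2 * ‖s - s₀‖ := by
  have h1 := StripB_ne hs
  have h2 := StripB_ne hs₀
  have n1 : Complex.I + s ≠ 0 := norm_pos_iff.1 (by linarith)
  have n2 : Complex.I + s₀ ≠ 0 := norm_pos_iff.1 (by linarith)
  have e : (Complex.I - s) / (Complex.I + s) - (Complex.I - s₀) / (Complex.I + s₀) =
      -2 * Complex.I * (s - s₀) / ((Complex.I + s) * (Complex.I + s₀)) := by
    rw [div_sub_div _ _ n1 n2]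
    congr 1
    ring
  rw [e, norm_div, norm_mul, norm_mul, norm_mul, norm_neg, Complex.norm_I, Complex.norm_ofNat,
    mul_one]
  rw [div_le_iff₀ (by positivity)]
  have h3 : 1 ≤ ‖Complex.I + s‖ * ‖Complex.I + s₀‖ := by nlinarith
  nlinarith [norm_nonneg (s - s₀)]

/-- `1 - ‖w‖ ≥ 2 im s / |i+s|²` -/
private lemma StripB_gap {s : ℂ} (hs : 0 < s.im) :
    2 * s.im / ‖Complex.I + s‖ ^ 2 ≤ 1 - ‖(Complex.I - s) / (Complex.I + s)‖ := by
  have h1 := StripB_ne hs.le
  have hpos : 0 < ‖Complex.I + s‖ := by linarith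
  set W := ‖(Complex.I - s) / (Complex.I + s)‖ with hW
  have hW2 : 1 - W ^ 2 = 4 * s.im / ‖Complex.I + s‖ ^ 2 := by
    rw [hW, norm_div, div_pow, eq_div_iff (by positivity), sub_mul,
      div_mul_cancel₀ _ (by positivity), ← Complex.normSq_eq_norm_sq,
      ← Complex.normSq_eq_norm_sq, Complex.normSq_apply, Complex.normSq_apply]
    simp
    ring
  have hW0 : 0 ≤ W := norm_nonneg _
  have hW1 : W ≤ 1 := by
    have : 0 ≤ 4 * s.im / ‖Complex.I + s‖ ^ 2 := by positivity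
    nlinarith
  have : 2 * s.im / ‖Complex.I + s‖ ^ 2 = (1 - W ^ 2) / 2 := by rw [hW2]; ring
  rw [this]
  nlinarith

private lemma StripB_ee (x : ℝ) :
    (Complex.I - (x : ℂ)) / (Complex.I + x) = ee (2 * Real.arctan x) := by
  have hx : (0 : ℝ) < 1 + x ^ 2 := by positivity
  have hs := Real.sq_sqrt hx.le
  have hsp := Real.sqrt_pos.2 hx
  have h1 : ee (Real.arctan x) = (1 + x * Complex.I) / (Real.sqrt (1 + x ^ 2) : ℂ) := by
    unfold ee
    rw [Complex.exp_mul_I, ← Complex.ofReal_cos, ← Complex.ofReal_sin, Real.cos_arctan,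
      Real.sin_arctan]
    push_cast
    field_simp
  have h2 : ee (2 * Real.arctan x) = ee (Real.arctan x) ^ 2 := by
    rw [two_mul, ee_add, pow_two]
  rw [h2, h1, div_pow]
  have h3 : ((Real.sqrt (1 + x ^ 2) : ℝ) : ℂ) ^ 2 = 1 + (x : ℂ) ^ 2 := by
    rw [← Complex.ofReal_pow, hs]; push_cast; rfl
  rw [h3]
  have h4 : Complex.I + (x : ℂ) ≠ 0 := by
    intro h
    have := congrArg Complex.im h
    simp at this
  have h5 : (1 : ℂ) + (x : ℂ) ^ 2 ≠ 0 := by
    have : ((1 + x ^ 2 : ℝ) : ℂ) ≠ 0 := by exact_mod_cast hx.ne'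
    push_cast at this
    exact this
  rw [div_eq_div_iff h4 h5]
  have hI := Complex.I_sq
  linear_combination (-(2 * (x:ℂ)) - (x:ℂ)^3 - (x:ℂ)^2 * Complex.I) * hI


private lemma StripB_main {ζ : ℂ} (hζ : ‖ζ‖ = 1) {w s₀ : ℂ} (hw : 0 < (Complex.exp w).im)
    (hs₀ : 0 ≤ s₀.im) {K c y : ℝ} (hc : 0 < c) (hy : 0 ≤ y) (hK : ‖Complex.exp w - s₀‖ ≤ K * y)
    (hK0 : 0 ≤ K)
    (hlow : c * y ≤ 2 * (Complex.exp w).im / ‖Complex.I + Complex.exp w‖ ^ 2) :
    ‖ES ζ w - ζ * ((Complex.I - s₀) / (Complex.I + s₀))‖ ≤ 2 * K * y ∧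
      ‖ES ζ w - ζ * ((Complex.I - s₀) / (Complex.I + s₀))‖ ≤ (2 * K / c) * (1 - ‖ES ζ w‖) := by
  have h1 : ‖ES ζ w - ζ * ((Complex.I - s₀) / (Complex.I + s₀))‖ ≤ 2 * K * y := by
    unfold ES
    rw [← mul_sub, norm_mul, hζ, one_mul]
    have := StripB_diff hw.le hs₀
    linarith
  refine ⟨h1, h1.trans ?_⟩
  have h2 := StripB_gap hw
  have h3 : ‖ES ζ w‖ = ‖(Complex.I - Complex.exp w) / (Complex.I + Complex.exp w)‖ := by
    unfold ES
    rw [norm_mul, hζ, one_mul]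
  rw [h3]
  have h4 : c * y ≤ 1 - ‖(Complex.I - Complex.exp w) / (Complex.I + Complex.exp w)‖ := hlow.trans h2
  have h5 : 2 * K * y = 2 * K / c * (c * y) := by field_simp
  rw [h5]
  exact mul_le_mul_of_nonneg_left h4 (by positivity)

private lemma StripB_normle {τ : ℝ} {s : ℂ} (hs : ‖s‖ = Real.exp τ) :
    ‖Complex.I + s‖ ≤ 1 + Real.exp τ := by
  have := norm_add_le Complex.I s
  rw [Complex.norm_I, hs] at this
  exact this

private lemma StripB_exp_norm (τ y : ℝ) : ‖Complex.exp (τ + y * Complex.I)‖ = Real.exp τ := by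
  rw [Complex.norm_exp]; simp

private lemma StripB_exp_im (τ y : ℝ) :
    (Complex.exp (τ + y * Complex.I)).im = Real.exp τ * Real.sin y := by
  rw [Complex.exp_im]; simp

/-- lower end of a vertical segment: tends to `ζ * ee (2 arctan (exp τ))`, in a Stolz angle -/
theorem ES_lower {ζ : ℂ} (hζ : ‖ζ‖ = 1) (τ : ℝ) :
    Tendsto (fun y : ℝ => ES ζ (τ + y * Complex.I)) (𝓝[>] (0 : ℝ))
      (𝓝 (ζ * ee (2 * Real.arctan (Real.exp τ)))) ∧
    ∃ C : ℝ, ∀ᶠ y : ℝ in 𝓝[>] (0 : ℝ), ‖ES ζ (τ + y * Complex.I) -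
      ζ * ee (2 * Real.arctan (Real.exp τ))‖ ≤ C * (1 - ‖ES ζ (τ + y * Complex.I)‖) := by
  have hpi := Real.pi_pos
  have he := Real.exp_pos τ
  set c : ℝ := 4 * Real.exp τ / (Real.pi * (1 + Real.exp τ) ^ 2) with hcdef
  have hc : 0 < c := by positivity
  have hmain : ∀ᶠ y : ℝ in 𝓝[>] (0 : ℝ), ‖ES ζ (τ + y * Complex.I) -
      ζ * ee (2 * Real.arctan (Real.exp τ))‖ ≤ 2 * Real.exp τ * y ∧
      ‖ES ζ (τ + y * Complex.I) -
      ζ * ee (2 * Real.arctan (Real.exp τ))‖ ≤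
        (2 * Real.exp τ / c) * (1 - ‖ES ζ (τ + y * Complex.I)‖) := by
    filter_upwards [Ioo_mem_nhdsGT (show (0:ℝ) < Real.pi / 2 by positivity)] with y hy
    rw [← StripB_ee]
    have hsin : 0 < Real.sin y := Real.sin_pos_of_pos_of_lt_pi hy.1 (by linarith [hy.2])
    apply StripB_main hζ _ _ hc hy.1.le _ he.le
    · rw [StripB_exp_im]
      have h1 := Real.mul_le_sin hy.1.le hy.2.le
      have h2 := StripB_normle (StripB_exp_norm τ y)
      have h3 : 0 < ‖Complex.I + Complex.exp (τ + y * Complex.I)‖ := by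
        have := StripB_ne (s := Complex.exp (τ + y * Complex.I)) (by
          rw [StripB_exp_im]; positivity)
        linarith
      calc c * y = 2 * (Real.exp τ * (2 / Real.pi * y)) / (1 + Real.exp τ) ^ 2 := by
            rw [hcdef]; field_simp; ring
        _ ≤ 2 * (Real.exp τ * Real.sin y) / (1 + Real.exp τ) ^ 2 := by gcongr
        _ ≤ 2 * (Real.exp τ * Real.sin y) / ‖Complex.I + Complex.exp (τ + y * Complex.I)‖ ^ 2 := by
            gcongr
    · rw [StripB_exp_im]; positivity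
    · show (0:ℝ) ≤ ((Real.exp τ : ℝ) : ℂ).im
      simp
    · rw [Complex.exp_add, Complex.ofReal_exp, ← mul_sub_one, norm_mul, ← Complex.ofReal_exp,
        Complex.norm_real, Real.norm_of_nonneg he.le]
      apply mul_le_mul_of_nonneg_left _ he.le
      have := Real.norm_exp_I_mul_ofReal_sub_one_le (x := y)
      rw [mul_comm] at this
      rwa [Real.norm_of_nonneg hy.1.le] at this
  refine ⟨?_, 2 * Real.exp τ / c, hmain.mono fun y hy => hy.2⟩
  rw [tendsto_iff_norm_sub_tendsto_zero]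
  refine squeeze_zero' (Eventually.of_forall fun _ => norm_nonneg _)
    (hmain.mono fun y hy => hy.1) ?_
  have : Tendsto (fun y : ℝ => 2 * Real.exp τ * y) (𝓝 0) (𝓝 (2 * Real.exp τ * 0)) :=
    tendsto_id.const_mul _
  rw [mul_zero] at this
  exact this.mono_left nhdsWithin_le_nhds

theorem ES_upper {ζ : ℂ} (hζ : ‖ζ‖ = 1) (τ : ℝ) :
    Tendsto (fun y : ℝ => ES ζ (τ + y * Complex.I)) (𝓝[<] Real.pi)
      (𝓝 (ζ * ee (-(2 * Real.arctan (Real.exp τ))))) ∧
    ∃ C : ℝ, ∀ᶠ y : ℝ in 𝓝[<] Real.pi, ‖ES ζ (τ + y * Complex.I) -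
      ζ * ee (-(2 * Real.arctan (Real.exp τ)))‖ ≤ C * (1 - ‖ES ζ (τ + y * Complex.I)‖) := by
  have hpi := Real.pi_pos
  have he := Real.exp_pos τ
  set c : ℝ := 4 * Real.exp τ / (Real.pi * (1 + Real.exp τ) ^ 2) with hcdef
  have hc : 0 < c := by positivity
  have hee : ζ * ee (-(2 * Real.arctan (Real.exp τ))) =
      ζ * ((Complex.I - ((-Real.exp τ : ℝ) : ℂ)) / (Complex.I + ((-Real.exp τ : ℝ) : ℂ))) := by
    rw [StripB_ee, Real.arctan_neg, mul_neg]
  have hmain : ∀ᶠ y : ℝ in 𝓝[<] Real.pi, ‖ES ζ (τ + y * Complex.I) -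
      ζ * ee (-(2 * Real.arctan (Real.exp τ)))‖ ≤ 2 * Real.exp τ * (Real.pi - y) ∧
      ‖ES ζ (τ + y * Complex.I) -
      ζ * ee (-(2 * Real.arctan (Real.exp τ)))‖ ≤
        (2 * Real.exp τ / c) * (1 - ‖ES ζ (τ + y * Complex.I)‖) := by
    filter_upwards [Ioo_mem_nhdsLT (show Real.pi / 2 < Real.pi by linarith)] with y hy
    rw [hee]
    have hy1 : 0 < Real.pi - y := by linarith [hy.2]
    have hy2 : Real.pi - y ≤ Real.pi / 2 := by linarith [hy.1]
    have hsin : 0 < Real.sin y :=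
      Real.sin_pos_of_pos_of_lt_pi (by linarith [hy.1]) hy.2
    apply StripB_main hζ _ _ hc hy1.le _ he.le
    · rw [StripB_exp_im]
      have h1 := Real.mul_le_sin hy1.le hy2
      rw [Real.sin_pi_sub] at h1
      have h2 := StripB_normle (StripB_exp_norm τ y)
      have h3 : 0 < ‖Complex.I + Complex.exp (τ + y * Complex.I)‖ := by
        have := StripB_ne (s := Complex.exp (τ + y * Complex.I)) (by
          rw [StripB_exp_im]; positivity)
        linarith
      calc c * (Real.pi - y) =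
            2 * (Real.exp τ * (2 / Real.pi * (Real.pi - y))) / (1 + Real.exp τ) ^ 2 := by
            rw [hcdef]; field_simp; ring
        _ ≤ 2 * (Real.exp τ * Real.sin y) / (1 + Real.exp τ) ^ 2 := by gcongr
        _ ≤ 2 * (Real.exp τ * Real.sin y) / ‖Complex.I + Complex.exp (τ + y * Complex.I)‖ ^ 2 := by
            gcongr
    · rw [StripB_exp_im]; positivity
    · rw [Complex.ofReal_im]
    · have h1 : Complex.exp (τ + y * Complex.I) - ((-Real.exp τ : ℝ) : ℂ) =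
          -((Real.exp τ : ℝ) : ℂ) * (Complex.exp (Complex.I * ((y - Real.pi : ℝ) : ℂ)) - 1) := by
        have h2 : Complex.exp (Complex.I * ((y - Real.pi : ℝ) : ℂ)) =
            -Complex.exp (y * Complex.I) := by
          have : Complex.I * ((y - Real.pi : ℝ) : ℂ) = y * Complex.I - Real.pi * Complex.I := by
            push_cast; ring
          rw [this, Complex.exp_sub, Complex.exp_pi_mul_I]
          ring
        rw [h2, Complex.exp_add, ← Complex.ofReal_exp]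
        push_cast
        ring
      rw [h1, norm_mul, norm_neg, Complex.norm_real, Real.norm_of_nonneg he.le]
      apply mul_le_mul_of_nonneg_left _ he.le
      have := Real.norm_exp_I_mul_ofReal_sub_one_le (x := y - Real.pi)
      rw [Real.norm_eq_abs, abs_sub_comm, abs_of_nonneg hy1.le] at this
      exact this
  refine ⟨?_, 2 * Real.exp τ / c, hmain.mono fun y hy => hy.2⟩
  rw [tendsto_iff_norm_sub_tendsto_zero]
  refine squeeze_zero' (Eventually.of_forall fun _ => norm_nonneg _)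
    (hmain.mono fun y hy => hy.1) ?_
  have : Tendsto (fun y : ℝ => 2 * Real.exp τ * (Real.pi - y)) (𝓝 Real.pi)
      (𝓝 (2 * Real.exp τ * (Real.pi - Real.pi))) :=
    (tendsto_const_nhds.sub tendsto_id).const_mul _
  rw [sub_self, mul_zero] at this
  exact this.mono_left nhdsWithin_le_nhds

end Pool.Agent.TB
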