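/-
Project TB (MP_d9e400_an). Module StripC.
The two sides of a vertical segment under the strip map.

PROOFS. w = ES ζ u with s = exp u: w' = w/ζ = (i-s)/(i+s), s = i(1-w')/(1+w'), e^{re u}·‖1+w'‖ = ‖1-w'‖. Let w → ζ·ee α, w' → ee α,
‖1-ee α‖ = 2|sin(α/2)|, ‖1+ee α‖ = 2|cos(α/2)|.
ES_left: |α|/2 < arctan e^τ < π/2, so |sin(α/2)| < e^τ |cos(α/2)|; so eventually ‖1-w'‖ < e^τ‖1+w'‖, i.e. re u < τ. u from ES_bijOn.
ES_right: α/2 ∈ (arctan e^τ, π - arctan e^τ): |sin(α/2)| > e^τ|cos(α/2)|: eventually re u > τ.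
exists_center: τ = log (tan ((θ₂-θ₁)/4)), (θ₂-θ₁)/4 ∈ (0,π/2); ee_add.
-/
import Mathlib
import Pool.Agent.TB.Defs
import Pool.Agent.TB.StripA

set_option autoImplicit false

open Set Filter Topology Metric

namespace Pool.Agent.TB

private lemma StripC_arctan (t : ℝ) : Real.sin (Real.arctan t) = t * Real.cos (Real.arctan t) := by
  rw [Real.sin_arctan, Real.cos_arctan]; ring

private lemma StripC_lt {t x : ℝ} (ht : 0 < t) (hx0 : 0 ≤ x) (hx : x < Real.arctan t) :
    |Real.sin x| < t * |Real.cos x| := by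
  have hpi := Real.pi_pos
  have h1 := Real.arctan_lt_pi_div_two t
  have h2 := Real.sin_lt_sin_of_lt_of_le_pi_div_two (by linarith) h1.le hx
  have h3 := Real.cos_lt_cos_of_nonneg_of_le_pi hx0 (by linarith) hx
  have h4 := StripC_arctan t
  have h5 : 0 ≤ Real.sin x := Real.sin_nonneg_of_nonneg_of_le_pi hx0 (by linarith)
  have h6 : 0 < Real.cos (Real.arctan t) := Real.cos_arctan_pos t
  rw [abs_of_nonneg h5, abs_of_nonneg (by linarith)]
  nlinarith

private lemma StripC_gt {t x : ℝ} (ht : 0 < t) (hx : Real.arctan t < x) (hx1 : x ≤ Real.pi / 2) :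
    t * |Real.cos x| < |Real.sin x| := by
  have hpi := Real.pi_pos
  have h0 : 0 < Real.arctan t := Real.arctan_pos.2 ht
  have h2 := Real.sin_lt_sin_of_lt_of_le_pi_div_two (by linarith) hx1 hx
  have h3 := Real.cos_lt_cos_of_nonneg_of_le_pi h0.le (by linarith) hx
  have h4 := StripC_arctan t
  have h5 : 0 ≤ Real.sin x := Real.sin_nonneg_of_nonneg_of_le_pi (by linarith) (by linarith)
  have h6 : 0 ≤ Real.cos x := Real.cos_nonneg_of_mem_Icc ⟨by linarith, hx1⟩
  rw [abs_of_nonneg h5, abs_of_nonneg h6]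
  nlinarith

private lemma StripC_gt' {t x : ℝ} (ht : 0 < t) (hx : Real.arctan t < x)
    (hx1 : x < Real.pi - Real.arctan t) : t * |Real.cos x| < |Real.sin x| := by
  rcases le_total x (Real.pi / 2) with h | h
  · exact StripC_gt ht hx h
  · have := StripC_gt ht (x := Real.pi - x) (by linarith) (by linarith)
    rwa [Real.sin_pi_sub, Real.cos_pi_sub, abs_neg] at this

private lemma StripC_norm_sub (α : ℝ) : ‖1 - ee α‖ = 2 * |Real.sin (α / 2)| := by
  apply (sq_eq_sq₀ (norm_nonneg _) (by positivity)).1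
  rw [mul_pow, sq_abs, ← Complex.normSq_eq_norm_sq, Complex.normSq_apply]
  have h1 : (ee α).re = Real.cos α := by unfold ee; exact Complex.exp_ofReal_mul_I_re α
  have h2 : (ee α).im = Real.sin α := by unfold ee; exact Complex.exp_ofReal_mul_I_im α
  rw [Complex.sub_re, Complex.sub_im, Complex.one_re, Complex.one_im, h1, h2]
  have h3 : Real.cos α = 1 - 2 * Real.sin (α / 2) ^ 2 := by
    have := Real.cos_two_mul (α / 2)
    have h4 := Real.sin_sq_add_cos_sq (α / 2)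
    rw [show 2 * (α / 2) = α by ring] at this
    linarith
  have h5 := Real.sin_sq_add_cos_sq α
  nlinarith

private lemma StripC_norm_add (α : ℝ) : ‖1 + ee α‖ = 2 * |Real.cos (α / 2)| := by
  apply (sq_eq_sq₀ (norm_nonneg _) (by positivity)).1
  rw [mul_pow, sq_abs, ← Complex.normSq_eq_norm_sq, Complex.normSq_apply]
  have h1 : (ee α).re = Real.cos α := by unfold ee; exact Complex.exp_ofReal_mul_I_re α
  have h2 : (ee α).im = Real.sin α := by unfold ee; exact Complex.exp_ofReal_mul_I_im α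
  rw [Complex.add_re, Complex.add_im, Complex.one_re, Complex.one_im, h1, h2]
  have h3 : Real.cos α = 2 * Real.cos (α / 2) ^ 2 - 1 := by
    have := Real.cos_two_mul (α / 2)
    rw [show 2 * (α / 2) = α by ring] at this
    linarith
  have h5 := Real.sin_sq_add_cos_sq α
  nlinarith

private lemma StripC_u {ζ : ℂ} (hζ : ‖ζ‖ = 1) {w : ℂ} (hw : w ∈ Dk) :
    ∃ u ∈ strip, ES ζ u = w ∧ Real.exp u.re * ‖1 + w / ζ‖ = ‖1 - w / ζ‖ := by
  have hζ0 : ζ ≠ 0 := by
    intro h; rw [h, norm_zero] at hζ; exact zero_ne_one hζ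
  obtain ⟨u, hu, rfl⟩ := (ES_bijOn hζ).surjOn hw
  refine ⟨u, hu, rfl, ?_⟩
  have him : 0 < (Complex.exp u).im := by
    rw [Complex.exp_im]
    exact mul_pos (Real.exp_pos _) (Real.sin_pos_of_pos_of_lt_pi hu.1 hu.2)
  have hne : Complex.I + Complex.exp u ≠ 0 := by
    intro h
    have := congrArg Complex.im h
    simp only [Complex.add_im, Complex.I_im, Complex.zero_im] at this
    linarith
  have h1 : ES ζ u / ζ = (Complex.I - Complex.exp u) / (Complex.I + Complex.exp u) := by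
    unfold ES; field_simp
  rw [h1, ← Complex.norm_exp, ← norm_mul]
  have h2 : Complex.exp u * (1 + (Complex.I - Complex.exp u) / (Complex.I + Complex.exp u)) =
      Complex.I * (1 - (Complex.I - Complex.exp u) / (Complex.I + Complex.exp u)) := by
    field_simp
    ring
  rw [h2, norm_mul, Complex.norm_I, one_mul]

private lemma StripC_cont (ζ : ℂ) (c : ℝ) :
    Continuous fun w : ℂ => c * ‖1 + w / ζ‖ - ‖1 - w / ζ‖ := by
  simp only [div_eq_mul_inv]
  fun_prop

private lemma StripC_div {ζ : ℂ} (hζ : ‖ζ‖ = 1) (α : ℝ) : ζ * ee α / ζ = ee α := by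
  have hζ0 : ζ ≠ 0 := by
    intro h; rw [h, norm_zero] at hζ; exact zero_ne_one hζ
  field_simp

/-- near the boundary points at angle `|α| < 2 arctan (exp τ)` from `ζ` the disc is covered by
the part `Re u < τ` of the strip -/
theorem ES_left {ζ : ℂ} (hζ : ‖ζ‖ = 1) (τ : ℝ) {α : ℝ} (hα : |α| < 2 * Real.arctan (Real.exp τ)) :
    ∀ᶠ w in 𝓝[Dk] (ζ * ee α), ∃ u ∈ strip, ES ζ u = w ∧ u.re < τ := by
  have hpos : 0 < Real.exp τ * ‖1 + ζ * ee α / ζ‖ - ‖1 - ζ * ee α / ζ‖ := by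
    rw [StripC_div hζ, StripC_norm_sub, StripC_norm_add]
    have h1 := StripC_lt (Real.exp_pos τ) (x := |α| / 2) (by positivity) (by linarith)
    have h2 : |Real.sin (|α| / 2)| = |Real.sin (α / 2)| := by
      rcases abs_cases α with ⟨h, _⟩ | ⟨h, _⟩ <;> rw [h]
      rw [neg_div, Real.sin_neg, abs_neg]
    have h3 : |Real.cos (|α| / 2)| = |Real.cos (α / 2)| := by
      rcases abs_cases α with ⟨h, _⟩ | ⟨h, _⟩ <;> rw [h]
      rw [neg_div, Real.cos_neg]
    rw [h2, h3] at h1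
    linarith
  have hev := (StripC_cont ζ (Real.exp τ)).continuousAt.eventually (lt_mem_nhds hpos)
  filter_upwards [self_mem_nhdsWithin, hev.filter_mono nhdsWithin_le_nhds] with w hw hw2
  obtain ⟨u, hu, hES, h⟩ := StripC_u hζ hw
  refine ⟨u, hu, hES, ?_⟩
  rw [← h] at hw2
  have h4 : 0 < (Real.exp τ - Real.exp u.re) * ‖1 + w / ζ‖ := by linarith
  have h5 : 0 < Real.exp τ - Real.exp u.re := by
    by_contra hc
    rw [not_lt] at hc
    nlinarith [norm_nonneg (1 + w / ζ)]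
  exact Real.exp_lt_exp.1 (by linarith)

theorem ES_right {ζ : ℂ} (hζ : ‖ζ‖ = 1) (τ : ℝ) {α : ℝ} (hα : 2 * Real.arctan (Real.exp τ) < α)
    (hα' : α < 2 * Real.pi - 2 * Real.arctan (Real.exp τ)) :
    ∀ᶠ w in 𝓝[Dk] (ζ * ee α), ∃ u ∈ strip, ES ζ u = w ∧ τ < u.re := by
  have hpos : Real.exp τ * ‖1 + ζ * ee α / ζ‖ - ‖1 - ζ * ee α / ζ‖ < 0 := by
    rw [StripC_div hζ, StripC_norm_sub, StripC_norm_add]
    have h1 := StripC_gt' (Real.exp_pos τ) (x := α / 2) (by linarith) (by linarith)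
    linarith
  have hev := (StripC_cont ζ (Real.exp τ)).continuousAt.eventually (gt_mem_nhds hpos)
  filter_upwards [self_mem_nhdsWithin, hev.filter_mono nhdsWithin_le_nhds] with w hw hw2
  obtain ⟨u, hu, hES, h⟩ := StripC_u hζ hw
  refine ⟨u, hu, hES, ?_⟩
  rw [← h] at hw2
  have h4 : 0 < (Real.exp u.re - Real.exp τ) * ‖1 + w / ζ‖ := by linarith
  have h5 : 0 < Real.exp u.re - Real.exp τ := by
    by_contra hc
    rw [not_lt] at hc
    nlinarith [norm_nonneg (1 + w / ζ)]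
  exact Real.exp_lt_exp.1 (by linarith)

/-- any two points of the circle are the ends of a vertical segment -/
theorem exists_center {θ₁ θ₂ : ℝ} (h : θ₁ < θ₂) (h' : θ₂ < θ₁ + 2 * Real.pi) :
    ∃ τ : ℝ, ee θ₂ = ee ((θ₁ + θ₂) / 2) * ee (2 * Real.arctan (Real.exp τ)) ∧
      ee θ₁ = ee ((θ₁ + θ₂) / 2) * ee (-(2 * Real.arctan (Real.exp τ))) ∧
      2 * Real.arctan (Real.exp τ) = (θ₂ - θ₁) / 2 := by
  have hx0 : 0 < (θ₂ - θ₁) / 4 := by linarith
  have hx1 : (θ₂ - θ₁) / 4 < Real.pi / 2 := by linarith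
  have ht : 0 < Real.tan ((θ₂ - θ₁) / 4) := Real.tan_pos_of_pos_of_lt_pi_div_two hx0 hx1
  have hτ : 2 * Real.arctan (Real.exp (Real.log (Real.tan ((θ₂ - θ₁) / 4)))) = (θ₂ - θ₁) / 2 := by
    rw [Real.exp_log ht, Real.arctan_tan (by linarith) hx1]
    ring
  refine ⟨Real.log (Real.tan ((θ₂ - θ₁) / 4)), ?_, ?_, hτ⟩
  · rw [hτ, ← ee_add]
    congr 1
    ring
  · rw [hτ, ← ee_add]
    congr 1
    ring

end Pool.Agent.TB
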