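/-
Project TB (MP_d9e400_an). Module CrossCut.
The separation lemma in the disc, with boundary points at two angles.

PROOF. ζ = ee((θ₁+θ₂)/2), τ from exists_center, h = φ ∘ ES ζ: differentiable and injective on strip, h '' strip = U
(ES_bijOn). Lower end: ES ζ (τ+iy) → ζ·ee(2 arctan e^τ) = ee θ₂ in a Stolz angle (ES_lower), so h(τ+iy) → x₂ by `stolz`
(l = 𝓝[>] 0); upper end → x₁. Apply sep with a = x₂, b = x₁, β (β 0 = x₁ = b, β 1 = x₂ = a). Γ ⊆ U ∪ β''. S_L = h{re u < τ} is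
connected, ⊆ Γᶜ (h injective, β disjoint from U): n = m₁ on it; n = m₂ on S_R = h{re u > τ}; m₁ ≠ m₂.
θ ∈ Ioo θ₁ θ₂: ee θ = ζ ee α, α = θ-(θ₁+θ₂)/2, |α| < (θ₂-θ₁)/2 = 2 arctan e^τ. ES_left: for w ∈ Dk close to ee θ, φ w ∈ S_L. y ∈ Γᶜ a
cluster value: a ball around y is contained in Γᶜ (closed) and contains some φ w ∈ S_L: n y = m₁ (n constant on the ball).
θ ∈ Ioo θ₂ (θ₁+2π): α ∈ (2 arctan e^τ, 2π - 2 arctan e^τ), ES_right.
-/
import Mathlib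
import Pool.Agent.TB.Defs
import Pool.Agent.TB.Sep
import Pool.Agent.TB.StripB
import Pool.Agent.TB.StripC
import Pool.Agent.TB.ConfB

set_option autoImplicit false

open Set Filter Topology Metric

namespace Pool.Agent.TB

private lemma CrossCut_norm_ee (θ : ℝ) : ‖ee θ‖ = 1 := by
  unfold ee; exact Complex.norm_exp_ofReal_mul_I θ

private lemma CrossCut_ee_add (a b : ℝ) : ee (a + b) = ee a * ee b := by
  unfold ee
  rw [← Complex.exp_add]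
  congr 1
  push_cast
  ring

private lemma CrossCut_convL (τ : ℝ) : Convex ℝ {u : ℂ | u ∈ strip ∧ u.re < τ} := by
  have h1 : Convex ℝ {u : ℂ | 0 < u.im} := convex_halfSpace_im_gt 0
  have h2 : Convex ℝ {u : ℂ | u.im < Real.pi} := convex_halfSpace_im_lt Real.pi
  have h3 : Convex ℝ {u : ℂ | u.re < τ} := convex_halfSpace_re_lt τ
  exact (h1.inter h2).inter h3

private lemma CrossCut_convR (τ : ℝ) : Convex ℝ {u : ℂ | u ∈ strip ∧ τ < u.re} := by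
  have h1 : Convex ℝ {u : ℂ | 0 < u.im} := convex_halfSpace_im_gt 0
  have h2 : Convex ℝ {u : ℂ | u.im < Real.pi} := convex_halfSpace_im_lt Real.pi
  have h3 : Convex ℝ {u : ℂ | τ < u.re} := convex_halfSpace_re_gt τ
  exact (h1.inter h2).inter h3

/-- `x₁`, `x₂` radial limits at the angles `θ₁ < θ₂ < θ₁ + 2π`, `β` a curve from `x₁` to `x₂`
outside `U`. There is a compact set `Γ ⊆ U ∪ β` with the stated properties. -/
theorem crosscut {U : Set ℂ} {φ : ℂ → ℂ} (hφ : Conf φ U) (hb : Bornology.IsBounded U)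
    {θ₁ θ₂ : ℝ} (h12 : θ₁ < θ₂)
    (h21 : θ₂ < θ₁ + 2 * Real.pi) {x₁ x₂ : ℂ} (hx₁ : RadLim φ (ee θ₁) x₁)
    (hx₂ : RadLim φ (ee θ₂) x₂) {β : ℝ → ℂ} (hβ : ContinuousOn β (Icc 0 1)) (hβ0 : β 0 = x₁)
    (hβ1 : β 1 = x₂) (hβd : Disjoint (β '' Icc 0 1) U) :
    ∃ Γ : Set ℂ, IsCompact Γ ∧ Γ ⊆ U ∪ β '' Icc 0 1 ∧ ∃ n : ℂ → ℤ,
      (∀ S : Set ℂ, S ⊆ Γᶜ → IsPreconnected S → ∀ x ∈ S, ∀ y ∈ S, n x = n y) ∧
      (∀ x ∈ Γᶜ, ¬ Bornology.IsBounded (connectedComponentIn Γᶜ x) → n x = 0) ∧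
      ∃ m₁ m₂ : ℤ, m₁ ≠ m₂ ∧
        (∀ θ ∈ Ioo θ₁ θ₂, ∀ y ∈ Γᶜ, MapClusterPt y (𝓝[Dk] (ee θ)) φ → n y = m₁) ∧
        (∀ θ ∈ Ioo θ₂ (θ₁ + 2 * Real.pi), ∀ y ∈ Γᶜ,
          MapClusterPt y (𝓝[Dk] (ee θ)) φ → n y = m₂) := by
  have hpi := Real.pi_pos
  set ζ := ee ((θ₁ + θ₂) / 2) with hζdef
  have hζ : ‖ζ‖ = 1 := CrossCut_norm_ee _
  obtain ⟨τ, e2, e1, hτ⟩ := exists_center h12 h21
  rw [← hζdef] at e1 e2
  have hES := ES_bijOn hζ
  set h : ℂ → ℂ := fun u => φ (ES ζ u) with hh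
  have hd : DifferentiableOn ℂ h strip := hφ.diff.comp ES_diff hES.mapsTo
  have hi : InjOn h strip := hφ.bij.injOn.comp hES.injOn hES.mapsTo
  have himg : h '' strip = U := by
    have : h '' strip = φ '' (ES ζ '' strip) := by rw [Set.image_image]
    rw [this, hES.image_eq, hφ.bij.image_eq]
  have hlow : ∀ᶠ y : ℝ in 𝓝[>] (0 : ℝ), ES ζ (τ + y * Complex.I) ∈ Dk := by
    filter_upwards [Ioo_mem_nhdsGT hpi] with y hy
    apply hES.mapsTo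
    constructor
    · simpa using hy.1
    · simpa using hy.2
  have hupp : ∀ᶠ y : ℝ in 𝓝[<] Real.pi, ES ζ (τ + y * Complex.I) ∈ Dk := by
    filter_upwards [Ioo_mem_nhdsLT hpi] with y hy
    apply hES.mapsTo
    constructor
    · simpa using hy.1
    · simpa using hy.2
  have ha : Tendsto (fun y : ℝ => h (τ + y * Complex.I)) (𝓝[>] (0 : ℝ)) (𝓝 x₂) := by
    obtain ⟨h1, C, hC⟩ := ES_lower hζ τ
    rw [← e2] at h1 hC
    exact stolz hφ hb (CrossCut_norm_ee θ₂) hx₂ hlow h1 hC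
  have hb' : Tendsto (fun y : ℝ => h (τ + y * Complex.I)) (𝓝[<] Real.pi) (𝓝 x₁) := by
    obtain ⟨h1, C, hC⟩ := ES_upper hζ τ
    rw [← e1] at h1 hC
    exact stolz hφ hb (CrossCut_norm_ee θ₁) hx₁ hupp h1 hC
  set Γ : Set ℂ := β '' Icc 0 1 ∪ h '' {u | u ∈ strip ∧ u.re = τ} with hΓdef
  obtain ⟨hΓc, n, hn1, hn2, hn3⟩ := sep hd hi τ ha hb' hβ hβ0 hβ1 (by rw [himg]; exact hβd) hΓdef
  have hcont : ContinuousOn h strip := hd.continuousOn
  have hnotin : ∀ u ∈ strip, u.re ≠ τ → h u ∈ Γᶜ := by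
    intro u hu hre hmem
    rcases hmem with hm | ⟨v, ⟨hv, hvre⟩, hvu⟩
    · exact Set.disjoint_left.1 hβd hm (by rw [← himg]; exact Set.mem_image_of_mem _ hu)
    · exact hre (by rw [← hi hv hu hvu]; exact hvre)
  have hL : ∀ u ∈ {u : ℂ | u ∈ strip ∧ u.re < τ}, ∀ v ∈ {u : ℂ | u ∈ strip ∧ u.re < τ},
      n (h u) = n (h v) := by
    intro u hu v hv
    refine hn1 (h '' {u : ℂ | u ∈ strip ∧ u.re < τ}) ?_
      ((CrossCut_convL τ).isPreconnected.image h (hcont.mono fun u hu => hu.1)) _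
      (Set.mem_image_of_mem _ hu) _ (Set.mem_image_of_mem _ hv)
    rintro _ ⟨w, hw, rfl⟩
    exact hnotin w hw.1 hw.2.ne
  have hR : ∀ u ∈ {u : ℂ | u ∈ strip ∧ τ < u.re}, ∀ v ∈ {u : ℂ | u ∈ strip ∧ τ < u.re},
      n (h u) = n (h v) := by
    intro u hu v hv
    refine hn1 (h '' {u : ℂ | u ∈ strip ∧ τ < u.re}) ?_
      ((CrossCut_convR τ).isPreconnected.image h (hcont.mono fun u hu => hu.1)) _
      (Set.mem_image_of_mem _ hu) _ (Set.mem_image_of_mem _ hv)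
    rintro _ ⟨w, hw, rfl⟩
    exact hnotin w hw.1 hw.2.ne'
  have hopen : IsOpen Γᶜ := hΓc.isClosed.isOpen_compl
  set uL : ℂ := ⟨τ - 1, Real.pi / 2⟩ with huL
  set uR : ℂ := ⟨τ + 1, Real.pi / 2⟩ with huR
  have huL' : uL ∈ strip := ⟨by show 0 < Real.pi / 2; linarith, by show Real.pi / 2 < Real.pi; linarith⟩
  have huR' : uR ∈ strip := ⟨by show 0 < Real.pi / 2; linarith, by show Real.pi / 2 < Real.pi; linarith⟩
  have huLre : uL.re < τ := by show τ - 1 < τ; linarith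
  have huRre : τ < uR.re := by show τ < τ + 1; linarith
  have key : ∀ θ y, y ∈ Γᶜ → MapClusterPt y (𝓝[Dk] (ee θ)) φ → ∀ P : ℂ → Prop,
      (∀ᶠ w in 𝓝[Dk] (ee θ), ∃ u ∈ strip, ES ζ u = w ∧ P u) → ∃ u ∈ strip, P u ∧ n y = n (h u) := by
    intro θ y hy hcl P hP
    obtain ⟨r, hr, hball⟩ := Metric.isOpen_iff.1 hopen y hy
    have hfr := hcl.frequently (Metric.ball_mem_nhds y hr)
    obtain ⟨w, hw1, u, hu, hES', hPu⟩ := (hfr.and_eventually hP).exists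
    refine ⟨u, hu, hPu, ?_⟩
    have hhu : h u = φ w := by rw [hh]; simp only [hES']
    refine hn1 (Metric.ball y r) hball (convex_ball y r).isPreconnected y
      (Metric.mem_ball_self hr) (h u) ?_
    rw [hhu]
    exact hw1
  refine ⟨Γ, hΓc, ?_, n, hn1, hn2, n (h uL), n (h uR), hn3 uL huL' uR huR' huLre huRre, ?_, ?_⟩
  · rintro z (hz | ⟨v, ⟨hv, _⟩, rfl⟩)
    · exact Or.inr hz
    · left; rw [← himg]; exact Set.mem_image_of_mem _ hv
  · intro θ hθ y hy hcl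
    have hee : ee θ = ζ * ee (θ - (θ₁ + θ₂) / 2) := by
      rw [hζdef, ← CrossCut_ee_add]; congr 1; ring
    have hev := ES_left hζ τ (α := θ - (θ₁ + θ₂) / 2) (by
      rw [hτ, abs_lt]; constructor <;> linarith [hθ.1, hθ.2])
    rw [← hee] at hev
    obtain ⟨u, hu, hre, hnu⟩ := key θ y hy hcl (fun u => u.re < τ) hev
    rw [hnu]
    exact hL u ⟨hu, hre⟩ uL ⟨huL', huLre⟩
  · intro θ hθ y hy hcl
    have hee : ee θ = ζ * ee (θ - (θ₁ + θ₂) / 2) := by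
      rw [hζdef, ← CrossCut_ee_add]; congr 1; ring
    have hev := ES_right hζ τ (α := θ - (θ₁ + θ₂) / 2) (by
      rw [hτ]; linarith [hθ.1]) (by rw [hτ]; linarith [hθ.2])
    rw [← hee] at hev
    obtain ⟨u, hu, hre, hnu⟩ := key θ y hy hcl (fun u => τ < u.re) hev
    rw [hnu]
    exact hR u ⟨hu, hre⟩ uR ⟨huR', huRre⟩

end Pool.Agent.TB
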