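/-
Project TB (MP_d9e400_an). Module CircleA.
Boundary behaviour of Blaschke products with a zero at the origin: the expanding circle map.

PROOFS. Bl_mapsTo, norm_Bl: the factors have modulus < 1 resp. = 1 (|1 - conj a w|² - |w - a|² = (1-|a|²)(1-|w|²)); d ≥ 1.
circle_lift: P θ = ∑ (1-|a_i|²)/|ee θ - a_i|² (continuous, positive). For one factor b at ζ = ee θ: d/dθ b(ee θ) = i ζ b'(ζ),
ζ b'(ζ)/b(ζ) = ζ/(ζ-a) + conj a ζ/(1 - conj a ζ) = ζ(1-|a|²)/((ζ-a)(1-conj a ζ)) = (1-|a|²)/|ζ-a|² because 1 - conj a ζ =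
ζ conj(ζ - a). Γ θ = Γ₀ + ∫_0^θ P, ee Γ₀ = Bl c a 1. Then θ ↦ Bl (ee θ) ee (-Γ θ) has derivative 0 and is 1 at 0.
P ≥ ρ := 1 + (1-|a_j|)/(1+|a_j|), where i₀ has a = 0 (its summand is 1) and j ≠ i₀ another index (d ≥ 2;
(1-|a|²)/|ζ-a|² ≥ (1-|a|²)/(1+|a|)²). Γ y - Γ x = ∫ P ≥ ρ (y-x).
exists_fixed: S θ = Γ θ - θ. Γ(2π) - Γ 0 ≥ 2πρ > 2π and ee equal, so it is 2πk with k ≥ 2, so S(2π) - S 0 ≥ 2π: by IVT S takes a
value in 2πℤ, at this θ Bl (ee θ) = ee (Γ θ) = ee θ.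
arcs_cover: Γ^[n] is continuous, Bl^[n] (ee θ) = ee (Γ^[n] θ), Γ^[n] y - Γ^[n] x ≥ ρ^n (y-x). Take α < α' < β' < β and n with
ρ^n (β'-α') ≥ 2π; IVT: Γ^[n] [α',β'] contains an interval of length 2π, so a number t with ee t = ζ.
dense_preimages: follows from arcs_cover.
-/
import Mathlib
import Pool.Agent.TB.Defs
import Pool.Agent.TB.EE

set_option autoImplicit false

open Set Filter Topology Metric

namespace Pool.Agent.TB

variable {d : ℕ} {c : ℂ} {a : Fin d → ℂ}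

lemma CircleA_id (a w : ℂ) : ‖1 - (starRingEnd ℂ) a * w‖ ^ 2 - ‖w - a‖ ^ 2 =
    (1 - ‖a‖ ^ 2) * (1 - ‖w‖ ^ 2) := by
  simp only [← Complex.normSq_eq_norm_sq, Complex.normSq_apply, Complex.sub_re, Complex.sub_im,
    Complex.mul_re, Complex.mul_im, Complex.conj_re, Complex.conj_im, Complex.one_re,
    Complex.one_im]
  ring

lemma CircleA_den {a w : ℂ} (ha : ‖a‖ < 1) (hw : ‖w‖ ≤ 1) : 1 - (starRingEnd ℂ) a * w ≠ 0 := by
  intro h
  have h1 : (starRingEnd ℂ) a * w = 1 := (sub_eq_zero.1 h).symm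
  have h2 : ‖(starRingEnd ℂ) a * w‖ = 1 := by rw [h1, norm_one]
  rw [norm_mul, RCLike.norm_conj] at h2
  nlinarith [norm_nonneg a, norm_nonneg w]

lemma CircleA_fac_lt {a w : ℂ} (ha : ‖a‖ < 1) (hw : ‖w‖ < 1) :
    ‖(w - a) / (1 - (starRingEnd ℂ) a * w)‖ < 1 := by
  have h0 := norm_pos_iff.2 (CircleA_den ha hw.le)
  rw [norm_div, div_lt_one h0]
  have h1 := CircleA_id a w
  have h2 : 0 < (1 - ‖a‖ ^ 2) * (1 - ‖w‖ ^ 2) := by
    apply mul_pos <;> nlinarith [norm_nonneg a, norm_nonneg w]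
  exact lt_of_pow_lt_pow_left₀ 2 h0.le (by linarith)

lemma CircleA_fac_eq {a w : ℂ} (ha : ‖a‖ < 1) (hw : ‖w‖ = 1) :
    ‖(w - a) / (1 - (starRingEnd ℂ) a * w)‖ = 1 := by
  have h0 := norm_pos_iff.2 (CircleA_den ha hw.le)
  rw [norm_div, div_eq_one_iff_eq h0.ne']
  have h1 := CircleA_id a w
  rw [hw] at h1
  have h2 : ‖w - a‖ ^ 2 = ‖1 - (starRingEnd ℂ) a * w‖ ^ 2 := by linarith
  exact (pow_left_inj₀ (norm_nonneg _) h0.le two_ne_zero).1 h2

theorem Bl_mapsTo (h : BlData d c a) : MapsTo (Bl c a) Dk Dk := by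
  intro w hw
  have hw' : ‖w‖ < 1 := by simpa using hw
  obtain ⟨i0, _⟩ := h.h0
  have h1 : ‖Bl c a w‖ < 1 := by
    unfold Bl
    rw [norm_mul, h.hc, one_mul, norm_prod, ← Finset.mul_prod_erase _ _ (Finset.mem_univ i0)]
    have h2 : ∏ x ∈ Finset.univ.erase i0, ‖(w - a x) / (1 - (starRingEnd ℂ) (a x) * w)‖ ≤ 1 :=
      Finset.prod_le_one (fun _ _ => norm_nonneg _) fun i _ => (CircleA_fac_lt (h.ha i) hw').le
    calc _ ≤ ‖(w - a i0) / (1 - (starRingEnd ℂ) (a i0) * w)‖ * 1 :=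
          mul_le_mul_of_nonneg_left h2 (norm_nonneg _)
      _ < 1 := by rw [mul_one]; exact CircleA_fac_lt (h.ha i0) hw'
  simpa using h1

theorem norm_Bl (h : BlData d c a) {ζ : ℂ} (hζ : ‖ζ‖ = 1) : ‖Bl c a ζ‖ = 1 := by
  unfold Bl
  rw [norm_mul, h.hc, one_mul, norm_prod]
  exact Finset.prod_eq_one fun i _ => CircleA_fac_eq (h.ha i) hζ

/-- the angle of one factor -/
noncomputable def CircleA_g (a : ℂ) (θ : ℝ) : ℝ := θ + 2 * (Complex.log (1 - a * ee (-θ))).im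

lemma CircleA_re_pos {w : ℂ} (hw : ‖w‖ < 1) : 0 < (1 - w).re := by
  have := Complex.re_le_norm w
  simp only [Complex.sub_re, Complex.one_re]
  linarith

lemma CircleA_ee_neg (θ : ℝ) : ee θ * ee (-θ) = 1 := by
  rw [← ee_add]; simp [ee]

lemma CircleA_conj_ee (θ : ℝ) : (starRingEnd ℂ) (ee (-θ)) = ee θ := by
  unfold ee
  rw [← Complex.exp_conj]
  congr 1
  simp

lemma CircleA_g_spec {a : ℂ} (ha : ‖a‖ < 1) (θ : ℝ) :
    (ee θ - a) / (1 - (starRingEnd ℂ) a * ee θ) = ee (CircleA_g a θ) := by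
  set u := 1 - a * ee (-θ) with hu
  have hw : ‖a * ee (-θ)‖ < 1 := by rw [norm_mul, norm_ee, mul_one]; exact ha
  have hu0 : u ≠ 0 := by
    intro h
    have := CircleA_re_pos hw
    rw [← hu, h] at this
    simp at this
  have hn : (‖u‖ : ℂ) ≠ 0 := by exact_mod_cast (norm_pos_iff.2 hu0).ne'
  have h1 : ee (CircleA_g a θ) = ee θ * (ee u.arg * ee u.arg) := by
    unfold CircleA_g
    rw [← ee_add, ← ee_add, Complex.log_im]
    congr 1
    ring
  have h2 : (‖u‖ : ℂ) * ee u.arg = u := Complex.norm_mul_exp_arg_mul_I u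
  have h3 : u * (starRingEnd ℂ) u = (‖u‖ : ℂ) ^ 2 := Complex.mul_conj' u
  have h4 : (starRingEnd ℂ) u = 1 - (starRingEnd ℂ) a * ee θ := by
    rw [hu, map_sub, map_one, map_mul, CircleA_conj_ee]
  have h5 : ee θ * u = ee θ - a := by
    rw [hu]
    have := CircleA_ee_neg θ
    linear_combination (-a) * this
  have h6 : (starRingEnd ℂ) u ≠ 0 := by
    intro h
    exact hu0 (by simpa using h)
  rw [h1, ← h5, ← h4, div_eq_iff h6]
  have h7 : (‖u‖ : ℂ) ^ 2 * (ee u.arg * ee u.arg) = u * u := by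
    calc _ = ((‖u‖ : ℂ) * ee u.arg) * ((‖u‖ : ℂ) * ee u.arg) := by ring
      _ = _ := by rw [h2]
  apply mul_left_cancel₀ (pow_ne_zero 2 hn)
  calc (‖u‖ : ℂ) ^ 2 * (ee θ * u) = ee θ * u * (u * (starRingEnd ℂ) u) := by rw [h3]; ring
    _ = ee θ * (u * u) * (starRingEnd ℂ) u := by ring
    _ = ee θ * ((‖u‖ : ℂ) ^ 2 * (ee u.arg * ee u.arg)) * (starRingEnd ℂ) u := by rw [h7]
    _ = _ := by ring

lemma CircleA_hasDeriv_ee (θ : ℝ) :
    HasDerivAt (fun t : ℝ => ee (-t)) (-(Complex.I * ee (-θ))) θ := by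
  have h1 : HasDerivAt (fun t : ℝ => ((-t : ℝ) : ℂ) * Complex.I) (-Complex.I) θ := by
    have h2 : HasDerivAt (fun t : ℝ => ((-t : ℝ) : ℂ)) (-1) θ := by
      have := (hasDerivAt_neg θ).ofReal_comp
      simpa using this
    have := h2.mul_const Complex.I
    simpa using this
  have h3 := h1.cexp
  have h4 : -(Complex.I * ee (-θ)) = Complex.exp (((-θ : ℝ) : ℂ) * Complex.I) * -Complex.I := by
    unfold ee; ring
  rw [h4]
  exact h3

lemma CircleA_g_deriv {a : ℂ} (ha : ‖a‖ < 1) (θ : ℝ) :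
    HasDerivAt (CircleA_g a)
      (1 + 2 * (Complex.I * (a * ee (-θ)) / (1 - a * ee (-θ))).im) θ := by
  have hw : ‖a * ee (-θ)‖ < 1 := by rw [norm_mul, norm_ee, mul_one]; exact ha
  have hsl : 1 - a * ee (-θ) ∈ Complex.slitPlane := Or.inl (CircleA_re_pos hw)
  have h1 : HasDerivAt (fun t : ℝ => 1 - a * ee (-t)) (Complex.I * (a * ee (-θ))) θ := by
    have := ((CircleA_hasDeriv_ee θ).const_mul a).const_sub 1
    have e : Complex.I * (a * ee (-θ)) = -(a * -(Complex.I * ee (-θ))) := by ring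
    rw [e]
    exact this
  have h2 := h1.clog_real hsl
  have h3 := Complex.imCLM.hasFDerivAt.comp_hasDerivAt θ h2
  have h4 := (hasDerivAt_id θ).add (h3.const_mul 2)
  exact h4

lemma CircleA_bound {w : ℂ} (hw : ‖w‖ < 1) :
    (1 - ‖w‖) / (1 + ‖w‖) ≤ 1 + 2 * (Complex.I * w / (1 - w)).im := by
  have hre := CircleA_re_pos hw
  have hN : 0 < Complex.normSq (1 - w) := by
    apply Complex.normSq_pos.2
    intro h
    rw [h] at hre
    simp at hre
  have h1 : 1 + 2 * (Complex.I * w / (1 - w)).im = (1 - ‖w‖ ^ 2) / Complex.normSq (1 - w) := by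
    rw [Complex.div_im]
    rw [← Complex.normSq_eq_norm_sq]
    field_simp
    simp only [Complex.normSq_apply, Complex.sub_re, Complex.sub_im, Complex.mul_re,
      Complex.mul_im, Complex.I_re, Complex.I_im, Complex.one_re, Complex.one_im]
    ring
  rw [h1, div_le_div_iff₀ (by positivity) hN]
  have h2 : Complex.normSq (1 - w) ≤ (1 + ‖w‖) ^ 2 := by
    rw [Complex.normSq_eq_norm_sq]
    apply pow_le_pow_left₀ (norm_nonneg _)
    calc ‖1 - w‖ ≤ ‖(1 : ℂ)‖ + ‖w‖ := norm_sub_le _ _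
      _ = 1 + ‖w‖ := by rw [norm_one]
  have h3 : 0 ≤ 1 - ‖w‖ := by linarith
  nlinarith [mul_le_mul_of_nonneg_left h2 h3, norm_nonneg w]

lemma CircleA_g_cont {a : ℂ} (ha : ‖a‖ < 1) : Continuous (CircleA_g a) :=
  (fun θ => (CircleA_g_deriv ha θ).continuousAt : ∀ θ, ContinuousAt (CircleA_g a) θ) |>
    continuous_iff_continuousAt.2

lemma CircleA_g_mono {a : ℂ} (ha : ‖a‖ < 1) (x y : ℝ) (hxy : x ≤ y) :
    (1 - ‖a‖) / (1 + ‖a‖) * (y - x) ≤ CircleA_g a y - CircleA_g a x := by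
  refine mul_sub_le_image_sub_of_le_deriv (fun θ => (CircleA_g_deriv ha θ).differentiableAt)
    (fun θ => ?_) hxy
  rw [(CircleA_g_deriv ha θ).deriv]
  have hw : ‖a * ee (-θ)‖ = ‖a‖ := by rw [norm_mul, norm_ee, mul_one]
  have := CircleA_bound (w := a * ee (-θ)) (by rw [hw]; exact ha)
  rwa [hw] at this

lemma CircleA_ee_sum {ι : Type*} (s : Finset ι) (g : ι → ℝ) :
    ee (∑ i ∈ s, g i) = ∏ i ∈ s, ee (g i) := by
  classical
  induction s using Finset.induction_on with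
  | empty => simp [ee]
  | insert i s hi ih => rw [Finset.sum_insert hi, Finset.prod_insert hi, ee_add, ih]

theorem circle_lift (h : BlData d c a) :
    ∃ (Γ : ℝ → ℝ) (ρ : ℝ), 1 < ρ ∧ Continuous Γ ∧ (∀ θ, Bl c a (ee θ) = ee (Γ θ)) ∧
      ∀ x y, x ≤ y → ρ * (y - x) ≤ Γ y - Γ x := by
  obtain ⟨γ, _, _, hγ⟩ := exists_ee h.hc 0
  refine ⟨fun θ => γ + ∑ i, CircleA_g (a i) θ, ∑ i, (1 - ‖a i‖) / (1 + ‖a i‖), ?_, ?_, ?_, ?_⟩
  · obtain ⟨i0, hi0⟩ := h.h0
    rw [← Finset.add_sum_erase _ _ (Finset.mem_univ i0), hi0]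
    have hpos : 0 < ∑ x ∈ Finset.univ.erase i0, (1 - ‖a x‖) / (1 + ‖a x‖) := by
      apply Finset.sum_pos
      · intro i _
        have := h.ha i
        have := norm_nonneg (a i)
        apply div_pos <;> linarith
      · rw [← Finset.card_pos, Finset.card_erase_of_mem (Finset.mem_univ _), Finset.card_univ,
          Fintype.card_fin]
        have := h.hd
        omega
    simp only [norm_zero, sub_zero, add_zero, div_one]
    linarith
  · exact continuous_const.add (continuous_finsetSum _ fun i _ => CircleA_g_cont (h.ha i))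
  · intro θ
    unfold Bl
    rw [ee_add, ← hγ, CircleA_ee_sum]
    congr 1
    exact Finset.prod_congr rfl fun i _ => CircleA_g_spec (h.ha i) θ
  · intro x y hxy
    rw [Finset.sum_mul]
    have : γ + ∑ i, CircleA_g (a i) y - (γ + ∑ i, CircleA_g (a i) x) =
        ∑ i, (CircleA_g (a i) y - CircleA_g (a i) x) := by
      rw [Finset.sum_sub_distrib]; ring
    rw [this]
    exact Finset.sum_le_sum fun i _ => CircleA_g_mono (h.ha i) x y hxy

theorem exists_fixed (h : BlData d c a) : ∃ ζ : ℂ, ‖ζ‖ = 1 ∧ Bl c a ζ = ζ := by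
  obtain ⟨Γ, ρ, hρ, hc, hΓ, hm⟩ := circle_lift h
  have hpi := Real.pi_pos
  have h1 : ee (Γ (2 * Real.pi)) = ee (Γ 0) := by
    rw [← hΓ, ← hΓ]
    congr 1
    exact (ee_eq_iff).2 ⟨1, by simp⟩
  obtain ⟨k, hk⟩ := ee_eq_iff.1 h1
  have h2 := hm 0 (2 * Real.pi) (by positivity)
  have h3 : (1 : ℝ) < k := by
    rw [hk] at h2
    have h4 : 2 * Real.pi * 1 < 2 * Real.pi * (k : ℝ) := by nlinarith
    exact lt_of_mul_lt_mul_left h4 (by positivity)
  have h4 : (2 : ℤ) ≤ k := by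
    have : (1 : ℤ) < k := by exact_mod_cast h3
    omega
  have h5 : (2 : ℝ) ≤ k := by exact_mod_cast h4
  set m : ℤ := ⌈Γ 0 / (2 * Real.pi)⌉ with hmdef
  have hm1 : Γ 0 ≤ 2 * Real.pi * m := by
    have := Int.le_ceil (Γ 0 / (2 * Real.pi))
    rw [div_le_iff₀ (by positivity)] at this
    rw [hmdef]; linarith
  have hm2 : 2 * Real.pi * m ≤ Γ 0 + 2 * Real.pi := by
    have := (Int.ceil_lt_add_one (Γ 0 / (2 * Real.pi))).le
    have h6 : (m : ℝ) * (2 * Real.pi) ≤ (Γ 0 / (2 * Real.pi) + 1) * (2 * Real.pi) :=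
      mul_le_mul_of_nonneg_right this (by positivity)
    have h7 : (Γ 0 / (2 * Real.pi) + 1) * (2 * Real.pi) = Γ 0 + 2 * Real.pi := by
      field_simp
    linarith
  have hS : ContinuousOn (fun θ => Γ θ - θ) (Icc 0 (2 * Real.pi)) :=
    (hc.sub continuous_id).continuousOn
  have hivt := intermediate_value_Icc (by positivity : (0 : ℝ) ≤ 2 * Real.pi) hS
  have hmem : 2 * Real.pi * (m : ℝ) ∈ Icc (Γ 0 - 0) (Γ (2 * Real.pi) - 2 * Real.pi) := by
    constructor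
    · linarith
    · rw [hk]
      nlinarith
  obtain ⟨θ, _, hθ⟩ := hivt hmem
  refine ⟨ee θ, norm_ee θ, ?_⟩
  rw [hΓ]
  refine ee_eq_iff.2 ⟨m, ?_⟩
  simp only at hθ
  linarith

/-- images of arcs eventually cover the circle -/
theorem arcs_cover (h : BlData d c a) {α β : ℝ} (hab : α < β) :
    ∃ n : ℕ, ∀ ζ : ℂ, ‖ζ‖ = 1 → ∃ θ ∈ Ioo α β, (Bl c a)^[n] (ee θ) = ζ := by
  obtain ⟨Γ, ρ, hρ, hc, hΓ, hm⟩ := circle_lift h
  have hcn : ∀ n : ℕ, Continuous Γ^[n] := fun n => hc.iterate n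
  have hΓn : ∀ (n : ℕ) (θ : ℝ), (Bl c a)^[n] (ee θ) = ee (Γ^[n] θ) := by
    intro n
    induction n with
    | zero => intro θ; rfl
    | succ n ih =>
      intro θ
      rw [Function.iterate_succ_apply, hΓ, ih, Function.iterate_succ_apply]
  have hmn : ∀ (n : ℕ) (x y : ℝ), x ≤ y → ρ ^ n * (y - x) ≤ Γ^[n] y - Γ^[n] x := by
    intro n
    induction n with
    | zero => intro x y _; simp
    | succ n ih =>
      intro x y hxy
      have h1 := hm x y hxy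
      have h2 : Γ x ≤ Γ y := by nlinarith
      have h3 := ih (Γ x) (Γ y) h2
      rw [Function.iterate_succ_apply, Function.iterate_succ_apply]
      calc ρ ^ (n + 1) * (y - x) = ρ ^ n * (ρ * (y - x)) := by ring
        _ ≤ ρ ^ n * (Γ y - Γ x) := mul_le_mul_of_nonneg_left h1 (by positivity)
        _ ≤ _ := h3
  set α' := (2 * α + β) / 3 with hα'
  set β' := (α + 2 * β) / 3 with hβ'
  have hd : 0 < β' - α' := by rw [hα', hβ']; linarith
  obtain ⟨n, hn⟩ := pow_unbounded_of_one_lt (2 * Real.pi / (β' - α')) hρ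
  refine ⟨n, fun ζ hζ => ?_⟩
  obtain ⟨t, ht1, ht2, rfl⟩ := exists_ee hζ (Γ^[n] α')
  have h1 : 2 * Real.pi ≤ Γ^[n] β' - Γ^[n] α' := by
    have h2 := hmn n α' β' (by linarith)
    rw [div_lt_iff₀ hd] at hn
    linarith
  have hivt := intermediate_value_Icc (by linarith : α' ≤ β') (hcn n).continuousOn
  obtain ⟨θ, hθ, hθt⟩ := hivt (⟨ht1, by linarith⟩ : t ∈ Icc (Γ^[n] α') (Γ^[n] β'))
  refine ⟨θ, ⟨?_, ?_⟩, ?_⟩
  · have := hθ.1
    rw [hα'] at this
    linarith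
  · have := hθ.2
    rw [hβ'] at this
    linarith
  · rw [hΓn, hθt]

theorem dense_preimages (h : BlData d c a) {ζ₀ : ℂ} (hζ : ‖ζ₀‖ = 1) {α β : ℝ} (hab : α < β) :
    ∃ θ ∈ Ioo α β, ∃ n : ℕ, (Bl c a)^[n] (ee θ) = ζ₀ := by
  obtain ⟨n, hn⟩ := arcs_cover h hab
  obtain ⟨θ, h1, h2⟩ := hn ζ₀ hζ
  exact ⟨θ, h1, n, h2⟩

end Pool.Agent.TB
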