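/-
Project TB (MP_d9e400_an). Module Converge.
A bounded curve with finitely many cluster values converges.

PROOF. The image is in a compact ball, so some y₀ is a cluster point along 𝓝[<] 1 (NeBot), y₀ ∈ S. Suppose γ does not tend
to y₀: there is ε > 0 with ‖y - y₀‖ > ε for all y ∈ S \ {y₀} and frequently ‖γ t - y₀‖ ≥ ε. Also frequently ‖γ t - y₀‖ < ε/2. By
continuity (IVT for t ↦ ‖γ t - y₀‖ between such times) frequently ‖γ t - y₀‖ = 3ε/4. By compactness of the sphere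
there is a cluster point y with ‖y - y₀‖ = 3ε/4: y ∈ S, contradiction.
-/
import Mathlib
import Pool.Agent.TB.Defs

set_option autoImplicit false

open Set Filter Topology Metric

namespace Pool.Agent.TB

theorem converge_of_finite {γ : ℝ → ℂ} {a : ℝ} (ha : a < 1) (hc : ContinuousOn γ (Ico a 1))
    {M : ℝ} (hM : ∀ t ∈ Ico a 1, ‖γ t‖ ≤ M) {S : Set ℂ} (hS : S.Finite)
    (hcl : ∀ y, MapClusterPt y (𝓝[<] (1 : ℝ)) γ → y ∈ S) :
    ∃ y ∈ S, Tendsto γ (𝓝[<] (1 : ℝ)) (𝓝 y) := by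
  have hmem : Ico a 1 ∈ 𝓝[<] (1 : ℝ) := Ico_mem_nhdsLT ha
  have hK : Tendsto γ (𝓝[<] (1 : ℝ)) (𝓟 (closedBall 0 M)) := by
    rw [tendsto_principal]
    filter_upwards [hmem] with t ht
    exact mem_closedBall_zero_iff.2 (hM t ht)
  obtain ⟨y₀, -, hy₀⟩ := (isCompact_closedBall (0 : ℂ) M).exists_mapClusterPt hK
  refine ⟨y₀, hcl y₀ hy₀, ?_⟩
  by_contra hnt
  -- frequently far away
  obtain ⟨ε, hε, hfar⟩ : ∃ ε : ℝ, 0 < ε ∧ ∃ᶠ t in 𝓝[<] (1 : ℝ), ε ≤ dist (γ t) y₀ := by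
    by_contra hcon
    push Not at hcon
    apply hnt
    rw [Metric.tendsto_nhds]
    intro ε hε
    have := hcon ε hε
    filter_upwards [this] with t ht using ht
  -- isolation in `S`
  have hcl2 : IsClosed (S \ {y₀}) := (hS.subset sdiff_subset).isClosed
  obtain ⟨ε₁, hε₁, hball⟩ := Metric.isOpen_iff.1 hcl2.isOpen_compl y₀ (fun h => h.2 rfl)
  set δ : ℝ := min ε ε₁ / 2 with hδ
  have hm : 0 < min ε ε₁ := lt_min hε hε₁
  have hδ0 : 0 < δ := by positivity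
  have hδε : δ < ε := by
    have := min_le_left ε ε₁
    linarith
  have hδε₁ : δ < ε₁ := by
    have := min_le_right ε ε₁
    linarith
  have hnear : ∃ᶠ t in 𝓝[<] (1 : ℝ), dist (γ t) y₀ < δ := by
    have := mapClusterPt_iff_frequently.1 hy₀ (ball y₀ δ) (ball_mem_nhds y₀ hδ0)
    exact this
  have hbasis := nhdsLT_basis (1 : ℝ)
  have hmid : ∃ᶠ t in 𝓝[<] (1 : ℝ), γ t ∈ sphere y₀ δ := by
    rw [hbasis.frequently_iff]
    intro s hs
    have hs' : max s a < 1 := max_lt hs ha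
    obtain ⟨t₁, ht₁, h1⟩ := hbasis.frequently_iff.1 hnear (max s a) hs'
    obtain ⟨t₂, ht₂, h2⟩ := hbasis.frequently_iff.1 hfar (max s a) hs'
    have hsub : uIcc t₁ t₂ ⊆ Ioo (max s a) 1 := by
      intro t ht
      rw [mem_uIcc] at ht
      rcases ht with ht | ht
      · exact ⟨ht₁.1.trans_le ht.1, ht.2.trans_lt ht₂.2⟩
      · exact ⟨ht₂.1.trans_le ht.1, ht.2.trans_lt ht₁.2⟩
    have hsub2 : uIcc t₁ t₂ ⊆ Ico a 1 := by
      intro t ht
      exact ⟨(le_max_right s a).trans (hsub ht).1.le, (hsub ht).2⟩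
    have hcon : ContinuousOn (fun t => dist (γ t) y₀) (uIcc t₁ t₂) :=
      continuous_dist.comp_continuousOn ((hc.mono hsub2).prodMk continuousOn_const)
    have hivt := intermediate_value_uIcc hcon
    have hd : δ ∈ uIcc (dist (γ t₁) y₀) (dist (γ t₂) y₀) := by
      rw [mem_uIcc]
      left
      exact ⟨h1.le, hδε.le.trans h2⟩
    obtain ⟨t, ht, h3⟩ := hivt hd
    exact ⟨t, ⟨(le_max_left s a).trans_lt (hsub ht).1, (hsub ht).2⟩, h3⟩
  obtain ⟨y, hy, hy2⟩ := (isCompact_sphere y₀ δ).exists_mapClusterPt_of_frequently hmid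
  have hyS := hcl y hy2
  have hyne : y ≠ y₀ := by
    rintro rfl
    rw [mem_sphere, dist_self] at hy
    linarith
  have h5 : y ∈ ball y₀ ε₁ := by
    rw [mem_ball, mem_sphere.1 hy]
    exact hδε₁
  exact hball h5 ⟨hyS, hyne⟩

end Pool.Agent.TB
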