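/-
Project TB (MP_d9e400_an). Module Landing.
Landing of the fixed ray and of the preimages of landing rays.

PROOFS. ray_image: u_r = Bl (rζ), w_r = (1-μ(1-r)) Bl ζ. ‖u_r - w_r‖ ≤ C(1-r)², 1-‖w_r‖ = μ(1-r), 1-‖u_r‖ ≥ μ(1-r) - C(1-r)²
≥ (1-r)/2 for r near 1, ‖u_r‖ → 1. `difference` gives φ u_r - φ w_r → 0 and φ u_r = f (φ (rζ)).
landing_fix: μ, C, r₁ from `radial`. γ r = φ (rζ). By `difference` (points rζ and (1-μ(1-r))ζ, distance (μ-1)(1-r)) and ray_image with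
Bl ζ = ζ: f (γ r) - γ r → 0. So every cluster point y of γ at 1 satisfies f y = y, and y ∈ closure U: finite set (finite_fixed). γ is
continuous and bounded: converge_of_finite gives the limit p, f p = p.
landing_pre: f (γ r) - φ((1-μ(1-r)) Bl ζ) → 0 and φ((1-μ(1-r)) Bl ζ) → x, so cluster points y of γ satisfy f y = x, y ∈ closure U: finite
(finite_fibre). converge_of_finite.
-/
import Mathlib
import Pool.Agent.TB.Defs
import Pool.Agent.TB.ConfB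
import Pool.Agent.TB.Top1
import Pool.Agent.TB.CircleA
import Pool.Agent.TB.CircleB
import Pool.Agent.TB.Converge

set_option autoImplicit false

open Set Filter Topology Metric

namespace Pool.Agent.TB

variable {f : ℂ → ℂ} {U : Set ℂ} {z₀ : ℂ} {φ : ℂ → ℂ} {d : ℕ} {c : ℂ} {a : Fin d → ℂ}

theorem Landing_eq {ι : Type*} {l : Filter ι} {u : ι → ℂ} {y z : ℂ} (h : MapClusterPt y l u)
    (ht : Tendsto u l (𝓝 z)) : y = z := by
  have h1 : ClusterPt y (map u l) := h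
  have h2 : ClusterPt y (𝓝 z) := h1.mono ht
  exact @eq_of_nhds_neBot ℂ _ _ y z h2

theorem Landing_closure {ι : Type*} {l : Filter ι} {u : ι → ℂ} {y : ℂ} {U : Set ℂ}
    (h : MapClusterPt y l u) (hu : ∀ᶠ i in l, u i ∈ U) : y ∈ closure U := by
  have h1 : ClusterPt y (map u l) := h
  have h2 : ClusterPt y (𝓟 U) := h1.mono (le_principal_iff.2 (mem_map.2 hu))
  exact mem_closure_iff_clusterPt.2 h2

theorem Landing_Ico (r₁ : ℝ) (h : r₁ < 1) : ∀ᶠ r : ℝ in 𝓝[<] (1 : ℝ), r₁ ≤ r ∧ r < 1 := by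
  have h1 : Ico r₁ 1 ∈ 𝓝[<] (1 : ℝ) := Ico_mem_nhdsLT h
  exact h1

theorem Landing_norm {ζ : ℂ} (hζ : ‖ζ‖ = 1) {t : ℝ} (ht : 0 ≤ t) : ‖(t : ℂ) * ζ‖ = t := by
  rw [norm_mul, hζ, mul_one, Complex.norm_real, Real.norm_of_nonneg ht]

theorem Landing_tend (μ : ℝ) : Tendsto (fun r : ℝ => 1 - μ * (1 - r)) (𝓝[<] (1 : ℝ)) (𝓝 1) := by
  have h1 : ContinuousAt (fun r : ℝ => 1 - μ * (1 - r)) 1 := by fun_prop
  have h2 : Tendsto (fun r : ℝ => 1 - μ * (1 - r)) (𝓝 (1 : ℝ)) (𝓝 1) := by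
    have := h1.tendsto
    simpa using this
  exact h2.mono_left nhdsWithin_le_nhds

/-- along the radius at `ζ`, `f ∘ φ` is asymptotic to `φ` along the radius at the image of `ζ` -/
theorem ray_image (B : Basin f U z₀) (hφ : Conf φ U) (hd : BlData d c a)
    (hconj : ∀ w ∈ Dk, φ (Bl c a w) = f (φ w)) {ζ : ℂ} (hζ : ‖ζ‖ = 1) {μ C r₁ : ℝ} (hμ : 1 < μ)
    (hr₁ : 0 ≤ r₁) (hr₁' : r₁ < 1)
    (hrad : ∀ r : ℝ, r₁ ≤ r → r < 1 → 0 ≤ 1 - μ * (1 - r) ∧
      ‖Bl c a ((r : ℂ) * ζ) - ((1 - μ * (1 - r) : ℝ) : ℂ) * Bl c a ζ‖ ≤ C * (1 - r) ^ 2) :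
    Tendsto (fun r : ℝ => f (φ ((r : ℂ) * ζ)) - φ (((1 - μ * (1 - r) : ℝ) : ℂ) * Bl c a ζ))
      (𝓝[<] (1 : ℝ)) (𝓝 0) := by
  have hB := norm_Bl hd hζ
  have hrw : ∀ r : ℝ, r₁ ≤ r → r < 1 →
      ‖((1 - μ * (1 - r) : ℝ) : ℂ) * Bl c a ζ‖ = 1 - μ * (1 - r) := fun r h1 h2 =>
    Landing_norm hB (hrad r h1 h2).1
  have hDk : ∀ r : ℝ, r₁ ≤ r → r < 1 → (r : ℂ) * ζ ∈ Dk := by
    intro r h1 h2
    rw [mem_ball_zero_iff, Landing_norm hζ (hr₁.trans h1)]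
    exact h2
  have key : Tendsto (fun r : ℝ => φ (Bl c a ((r : ℂ) * ζ)) -
      φ (((1 - μ * (1 - r) : ℝ) : ℂ) * Bl c a ζ)) (𝓝[<] (1 : ℝ)) (𝓝 0) := by
    refine difference hφ B.bdd (C := 2 * |C|) ?_ ?_ ?_ ?_
    · filter_upwards [Landing_Ico r₁ hr₁'] with r hr
      exact Bl_mapsTo hd (hDk r hr.1 hr.2)
    · filter_upwards [Landing_Ico r₁ hr₁'] with r hr
      rw [mem_ball_zero_iff, hrw r hr.1 hr.2]
      nlinarith [hr.1, hr.2]
    · have h1 : Tendsto (fun r : ℝ => C * (1 - r) ^ 2) (𝓝[<] (1 : ℝ)) (𝓝 0) := by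
        have h2 : ContinuousAt (fun r : ℝ => C * (1 - r) ^ 2) 1 := by fun_prop
        have h3 := h2.tendsto
        simp only [sub_self, ne_eq, OfNat.ofNat_ne_zero, not_false_eq_true, zero_pow, mul_zero] at h3
        exact h3.mono_left nhdsWithin_le_nhds
      have h4 : Tendsto (fun r : ℝ => ‖Bl c a ((r : ℂ) * ζ)‖ - (1 - μ * (1 - r)))
          (𝓝[<] (1 : ℝ)) (𝓝 0) := by
        refine squeeze_zero_norm' ?_ h1
        filter_upwards [Landing_Ico r₁ hr₁'] with r hr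
        rw [← hrw r hr.1 hr.2, Real.norm_eq_abs]
        exact (abs_norm_sub_norm_le _ _).trans (hrad r hr.1 hr.2).2
      have h5 := h4.add (Landing_tend μ)
      simpa using h5
    · have h1 : ∀ᶠ r : ℝ in 𝓝[<] (1 : ℝ), |C| * (1 - r) ≤ 1 / 2 := by
        have h2 : ContinuousAt (fun r : ℝ => |C| * (1 - r)) 1 := by fun_prop
        have h3 : Tendsto (fun r : ℝ => |C| * (1 - r)) (𝓝 (1 : ℝ)) (𝓝 0) := by
          have := h2.tendsto
          simpa using this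
        exact (h3.mono_left nhdsWithin_le_nhds).eventually_le_const (by norm_num)
      filter_upwards [Landing_Ico r₁ hr₁', h1] with r hr hr2
      have e1 := hrw r hr.1 hr.2
      have e2 := (hrad r hr.1 hr.2).2
      have e3 := norm_sub_norm_le (Bl c a ((r : ℂ) * ζ)) (((1 - μ * (1 - r) : ℝ) : ℂ) * Bl c a ζ)
      have hr0 : 0 < 1 - r := by linarith [hr.2]
      have e4 : C * (1 - r) ^ 2 ≤ |C| * (1 - r) ^ 2 :=
        mul_le_mul_of_nonneg_right (le_abs_self C) (by positivity)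
      have hC0 := abs_nonneg C
      have e5 : |C| * (1 - r) ^ 2 ≤ (1 - r) / 2 := by nlinarith
      have e6 : |C| * (1 - r) ^ 2 ≤ |C| * (1 - r) := by
        have : (1 - r) ^ 2 ≤ 1 - r := by nlinarith [hr₁, hr.1]
        exact mul_le_mul_of_nonneg_left this hC0
      constructor
      · have e7 : (1 - r) / 2 ≤ 1 - ‖Bl c a ((r : ℂ) * ζ)‖ := by
          rw [e1] at e3
          nlinarith
        calc _ ≤ |C| * (1 - r) := e2.trans (e4.trans e6)
          _ = 2 * |C| * ((1 - r) / 2) := by ring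
          _ ≤ _ := mul_le_mul_of_nonneg_left e7 (by positivity)
      · rw [e1]
        calc _ ≤ |C| * (1 - r) := e2.trans (e4.trans e6)
          _ ≤ 2 * |C| * (1 - (1 - μ * (1 - r))) := by
            have : 1 - r ≤ μ * (1 - r) := by nlinarith
            nlinarith
  refine key.congr' ?_
  filter_upwards [Landing_Ico r₁ hr₁'] with r hr
  rw [hconj _ (hDk r hr.1 hr.2)]

/-- the curve along a radius converges when its cluster values form a finite set -/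
theorem Landing_conv (B : Basin f U z₀) (hφ : Conf φ U) {ζ : ℂ} (hζ : ‖ζ‖ = 1) {S : Set ℂ}
    (hS : S.Finite)
    (hcl : ∀ y, MapClusterPt y (𝓝[<] (1 : ℝ)) (fun r : ℝ => φ ((r : ℂ) * ζ)) → y ∈ closure U → y ∈ S) :
    ∃ y ∈ S, RadLim φ ζ y := by
  have hDk : ∀ r : ℝ, 0 ≤ r → r < 1 → (r : ℂ) * ζ ∈ Dk := by
    intro r h1 h2
    rw [mem_ball_zero_iff, Landing_norm hζ h1]
    exact h2
  obtain ⟨M, hM⟩ := B.bdd.exists_norm_le
  have hc : ContinuousOn (fun r : ℝ => φ ((r : ℂ) * ζ)) (Ico 0 1) := by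
    refine hφ.diff.continuousOn.comp (by fun_prop) fun r hr => hDk r hr.1 hr.2
  obtain ⟨y, hy, ht⟩ := converge_of_finite (a := 0) (by norm_num) hc (M := M)
    (fun t ht => hM _ (hφ.bij.mapsTo (hDk t ht.1 ht.2))) hS fun y hy => hcl y hy (by
      refine Landing_closure hy ?_
      filter_upwards [Landing_Ico 0 (by norm_num)] with r hr
      exact hφ.bij.mapsTo (hDk r hr.1 hr.2))
  exact ⟨y, hy, ht⟩

theorem landing_fix (B : Basin f U z₀) (hφ : Conf φ U) (hd : BlData d c a)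
    (hconj : ∀ w ∈ Dk, φ (Bl c a w) = f (φ w)) {ζ : ℂ} (hζ : ‖ζ‖ = 1) (hfix : Bl c a ζ = ζ) :
    ∃ p, RadLim φ ζ p ∧ f p = p := by
  obtain ⟨μ, C, r₁, hμ, hr₁, hr₁', hrad⟩ := radial hd hζ
  have h1 := ray_image B hφ hd hconj hζ hμ hr₁ hr₁' hrad
  rw [hfix] at h1
  have h2 : Tendsto (fun r : ℝ => φ (((1 - μ * (1 - r) : ℝ) : ℂ) * ζ) - φ ((r : ℂ) * ζ))
      (𝓝[<] (1 : ℝ)) (𝓝 0) := by
    refine difference hφ B.bdd (C := μ - 1) ?_ ?_ ?_ ?_
    · filter_upwards [Landing_Ico r₁ hr₁'] with r hr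
      rw [mem_ball_zero_iff, Landing_norm hζ (hrad r hr.1 hr.2).1]
      nlinarith [hr.1, hr.2]
    · filter_upwards [Landing_Ico r₁ hr₁'] with r hr
      rw [mem_ball_zero_iff, Landing_norm hζ (hr₁.trans hr.1)]
      exact hr.2
    · refine (Landing_tend μ).congr' ?_
      filter_upwards [Landing_Ico r₁ hr₁'] with r hr
      rw [Landing_norm hζ (hrad r hr.1 hr.2).1]
    · filter_upwards [Landing_Ico r₁ hr₁'] with r hr
      have hr0 : 0 < 1 - r := by linarith [hr.2]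
      have e0 : ((1 - μ * (1 - r) : ℝ) : ℂ) * ζ - (r : ℂ) * ζ = ((1 - μ * (1 - r) - r : ℝ) : ℂ) * ζ := by
        push_cast; ring
      have e1 : ‖((1 - μ * (1 - r) : ℝ) : ℂ) * ζ - (r : ℂ) * ζ‖ = (μ - 1) * (1 - r) := by
        rw [e0, norm_mul, hζ, mul_one, Complex.norm_real, Real.norm_eq_abs]
        have : 1 - μ * (1 - r) - r = -((μ - 1) * (1 - r)) := by ring
        rw [this, abs_neg, abs_of_nonneg]
        exact mul_nonneg (by linarith) hr0.le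
      rw [e1, Landing_norm hζ (hrad r hr.1 hr.2).1, Landing_norm hζ (hr₁.trans hr.1)]
      refine ⟨?_, le_rfl⟩
      have : 1 - r ≤ 1 - (1 - μ * (1 - r)) := by nlinarith
      exact mul_le_mul_of_nonneg_left this (by linarith)
  have h3 : Tendsto (fun r : ℝ => f (φ ((r : ℂ) * ζ)) - φ ((r : ℂ) * ζ)) (𝓝[<] (1 : ℝ)) (𝓝 0) := by
    have := h1.add h2
    simpa using this
  obtain ⟨y, hy, ht⟩ := Landing_conv B hφ hζ (finite_fixed B) fun y hy hyU => by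
    refine ⟨hyU, ?_⟩
    have h4 : ContinuousAt (fun z => f z - z) y :=
      (B.hf.continuous.sub continuous_id).continuousAt
    have h5 := hy.continuousAt_comp h4
    have h6 := Landing_eq h5 h3
    exact sub_eq_zero.1 h6
  exact ⟨y, ht, hy.2⟩

theorem landing_pre (B : Basin f U z₀) (hφ : Conf φ U) (hd : BlData d c a)
    (hconj : ∀ w ∈ Dk, φ (Bl c a w) = f (φ w)) {ζ : ℂ} (hζ : ‖ζ‖ = 1) {x : ℂ}
    (hx : RadLim φ (Bl c a ζ) x) : ∃ y, RadLim φ ζ y ∧ f y = x := by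
  obtain ⟨μ, C, r₁, hμ, hr₁, hr₁', hrad⟩ := radial hd hζ
  have h1 := ray_image B hφ hd hconj hζ hμ hr₁ hr₁' hrad
  have h2 : Tendsto (fun r : ℝ => 1 - μ * (1 - r)) (𝓝[<] (1 : ℝ)) (𝓝[<] (1 : ℝ)) := by
    rw [tendsto_nhdsWithin_iff]
    refine ⟨Landing_tend μ, ?_⟩
    filter_upwards [Landing_Ico 0 (by norm_num)] with r hr
    change 1 - μ * (1 - r) < 1
    nlinarith [hr.2]
  have h3 : Tendsto (fun r : ℝ => φ (((1 - μ * (1 - r) : ℝ) : ℂ) * Bl c a ζ)) (𝓝[<] (1 : ℝ)) (𝓝 x) :=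
    Tendsto.comp (g := fun r : ℝ => φ ((r : ℂ) * Bl c a ζ)) hx h2
  have h4 : Tendsto (fun r : ℝ => f (φ ((r : ℂ) * ζ))) (𝓝[<] (1 : ℝ)) (𝓝 x) := by
    have := h1.add h3
    simpa using this
  obtain ⟨y, hy, ht⟩ := Landing_conv B hφ hζ (finite_fibre B x) fun y hy hyU => by
    refine ⟨hyU, ?_⟩
    have h5 := hy.continuousAt_comp B.hf.continuous.continuousAt
    exact Landing_eq h5 h4
  exact ⟨y, ht, hy.2⟩

end Pool.Agent.TB
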