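/-
Project TB (MP_d9e400_an). Module Lift.
Lifting an access through f (also at critical points).

PROOF. local_power at x: f z = f x + η z ^ m near x, η a local homeomorphism at x (deriv ≠ 0): local inverse ξ, continuous at 0,
ξ 0 = x, η (ξ s) = s, f (ξ s) = f x + s^m for ‖s‖ < r. κ the curve: κ 0 = f x, κ t ∈ V for t ∈ (0,1], so κ t ≠ f x. log_convex on the
convex set Ioc 0 1 ⊆ ℝ: l continuous with exp (l t) = κ t - f x. ν t = exp (l t/m) for t ∈ (0,1], ν 0 = 0: ν^m = κ - f x, ‖ν t‖ =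
‖κ t - f x‖^{1/m} → 0, so ν is continuous on [0,1]. Choose t₀ with ‖ν t‖ < r on [0,t₀]; κ' t = ξ (ν (t₀ t)): κ' 0 = x,
f (κ' t) = κ (t₀ t) ∈ V for t > 0, so κ' t ∈ V (hV).
-/
import Mathlib
import Pool.Agent.TB.Defs
import Pool.Agent.TB.RootLoc
import Pool.Agent.TB.LogCvx

set_option autoImplicit false

open Set Filter Topology Metric

namespace Pool.Agent.TB

theorem lift_access {f : ℂ → ℂ} (hf : Differentiable ℂ f) {V : Set ℂ}
    (hV : ∀ z, f z ∈ V → z ∈ V) {x : ℂ} (hne : ¬ ∀ᶠ z in 𝓝 x, f z = f x) (hx : f x ∉ V)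
    (hacc : Acc V (f x)) : Acc V x := by
  obtain ⟨κ, hκc, hκ0, hκV⟩ := hacc
  have han : AnalyticAt ℂ f x := hf.analyticAt x
  obtain ⟨m, η, hm, hη, hη0, hη', hloc⟩ := local_power han hne
  have hmC : (m : ℂ) ≠ 0 := by
    have : m ≠ 0 := by omega
    exact_mod_cast this
  have hmR : (0 : ℝ) < (m : ℝ) := by exact_mod_cast hm
  -- local inverse of η
  set e := HasStrictFDerivAt.toOpenPartialHomeomorph η
    (hη.hasStrictDerivAt.hasStrictFDerivAt_equiv hη') with he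
  have hecoe : ∀ z, e z = η z := fun z => rfl
  have hxs : x ∈ e.source := HasStrictFDerivAt.mem_toOpenPartialHomeomorph_source _
  have h0t : (0 : ℂ) ∈ e.target := by
    have := e.map_source hxs
    rwa [hecoe, hη0] at this
  have hsymm0 : e.symm 0 = x := by
    have := e.left_inv hxs
    rwa [hecoe, hη0] at this
  have hcont0 : ContinuousAt e.symm 0 := e.symm.continuousAt h0t
  have hev : ∀ᶠ s in 𝓝 (0 : ℂ), s ∈ e.target ∧ f (e.symm s) = f x + s ^ m := by
    have h1 : ∀ᶠ s in 𝓝 (0 : ℂ), f (e.symm s) = f x + η (e.symm s) ^ m := by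
      have h3 : Tendsto e.symm (𝓝 0) (𝓝 x) := by
        have h4 := hcont0.tendsto
        rwa [hsymm0] at h4
      exact h3.eventually hloc
    filter_upwards [h1, e.open_target.mem_nhds h0t] with s hs1 hs2
    refine ⟨hs2, ?_⟩
    have h2 := e.right_inv hs2
    rw [hecoe] at h2
    rw [hs1, h2]
  obtain ⟨r, hr, hball⟩ := Metric.eventually_nhds_iff.1 hev
  -- logarithm
  have hκsub : ContinuousOn (fun t : ℝ => κ t - f x) (Ioc (0 : ℝ) 1) :=
    (hκc.mono Ioc_subset_Icc_self).sub continuousOn_const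
  obtain ⟨l, hlc, hl⟩ := log_convex (convex_Ioc (0 : ℝ) 1) hκsub (by
    intro t ht h0
    apply hx
    rw [← sub_eq_zero.1 h0]
    exact hκV t ht)
  set ν : ℝ → ℂ := fun t => if t ≤ 0 then 0 else Complex.exp (l t / m) with hν
  have hν0 : ν 0 = 0 := by simp [hν]
  have hνpos : ∀ t, 0 < t → ν t = Complex.exp (l t / m) := by
    intro t ht
    simp only [hν]
    rw [if_neg (not_le.2 ht)]
  have hνm : ∀ t ∈ Icc (0 : ℝ) 1, ν t ^ m = κ t - f x := by
    intro t ht
    rcases ht.1.eq_or_lt with h | h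
    · rw [← h, hν0, hκ0, sub_self, zero_pow (by omega)]
    · rw [hνpos t h, ← Complex.exp_nat_mul, mul_div_cancel₀ _ hmC, hl t ⟨h, ht.2⟩]
  have hνc : ContinuousOn ν (Icc (0 : ℝ) 1) := by
    intro t ht
    rcases ht.1.eq_or_lt with h | h
    · rw [← h]
      rw [Metric.continuousWithinAt_iff]
      intro ε hε
      have hκ0' : ContinuousWithinAt κ (Icc (0 : ℝ) 1) 0 := hκc 0 ⟨le_refl _, zero_le_one⟩
      rw [Metric.continuousWithinAt_iff] at hκ0'
      obtain ⟨δ, hδ, hd⟩ := hκ0' (ε ^ m) (by positivity)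
      refine ⟨δ, hδ, fun s hs hsd => ?_⟩
      have h1 := hd hs hsd
      rw [hκ0, dist_eq_norm, ← hνm s hs, norm_pow] at h1
      rw [hν0, dist_zero_right]
      exact lt_of_pow_lt_pow_left₀ m hε.le h1
    · have h1 : ContinuousWithinAt (fun t => Complex.exp (l t / m)) (Icc (0 : ℝ) 1) t := by
        have h2 : ContinuousWithinAt l (Icc (0 : ℝ) 1) t := by
          have h3 := hlc t ⟨h, ht.2⟩
          apply h3.mono_of_mem_nhdsWithin
          have h4 : Ioi (0 : ℝ) ∈ 𝓝 t := Ioi_mem_nhds h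
          filter_upwards [nhdsWithin_le_nhds h4, self_mem_nhdsWithin] with s hs1 hs2
          exact ⟨hs1, hs2.2⟩
        exact (h2.div_const _).cexp
      apply h1.congr_of_eventuallyEq
      · have h4 : Ioi (0 : ℝ) ∈ 𝓝 t := Ioi_mem_nhds h
        filter_upwards [nhdsWithin_le_nhds h4] with s hs
        exact hνpos s hs
      · exact hνpos t h
  -- choose t₀
  have hν0c : ContinuousWithinAt ν (Icc (0 : ℝ) 1) 0 := hνc 0 ⟨le_refl _, zero_le_one⟩
  rw [Metric.continuousWithinAt_iff] at hν0c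
  obtain ⟨δ, hδ, hd⟩ := hν0c r hr
  set t₀ : ℝ := min (δ / 2) 1 with ht₀
  have ht₀pos : 0 < t₀ := lt_min (by positivity) one_pos
  have ht₀1 : t₀ ≤ 1 := min_le_right _ _
  have ht₀δ : t₀ < δ := lt_of_le_of_lt (min_le_left _ _) (by linarith)
  have hmem : ∀ t ∈ Icc (0 : ℝ) 1, t₀ * t ∈ Icc (0 : ℝ) 1 := by
    intro t ht
    refine ⟨mul_nonneg ht₀pos.le ht.1, ?_⟩
    calc t₀ * t ≤ 1 * 1 := mul_le_mul ht₀1 ht.2 ht.1 zero_le_one
      _ = 1 := one_mul 1
  have hsmall : ∀ t ∈ Icc (0 : ℝ) 1, dist (ν (t₀ * t)) 0 < r := by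
    intro t ht
    have h1 := hd (hmem t ht) (by
      rw [Real.dist_0_eq_abs, abs_of_nonneg (hmem t ht).1]
      calc t₀ * t ≤ t₀ * 1 := mul_le_mul_of_nonneg_left ht.2 ht₀pos.le
        _ < δ := by rw [mul_one]; exact ht₀δ)
    rwa [hν0] at h1
  refine ⟨fun t => e.symm (ν (t₀ * t)), ?_, ?_, ?_⟩
  · have h1 : ContinuousOn (fun t : ℝ => ν (t₀ * t)) (Icc (0 : ℝ) 1) :=
      hνc.comp (continuous_const.mul continuous_id).continuousOn hmem
    exact e.continuousOn_symm.comp h1 (fun t ht => (hball (hsmall t ht)).1)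
  · simp only [mul_zero, hν0, hsymm0]
  · intro t ht
    have ht' : t ∈ Icc (0 : ℝ) 1 := Ioc_subset_Icc_self ht
    apply hV
    rw [(hball (hsmall t ht')).2, hνm _ (hmem t ht'), add_sub_cancel]
    exact hκV _ ⟨mul_pos ht₀pos ht.1, (hmem t ht').2⟩

end Pool.Agent.TB
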