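/-
Project TB (MP_d9e400_an). Module Discrete.
A discrete Poincare lemma on the square grid (no topology).

PROOF. For (ωh, ωv) let curl q = ωh q.1 q.2 + ωv (q.1+1) q.2 - ωh q.1 (q.2+1) - ωv q.1 q.2.
Step 1 (transport): for every chain q → q' as in hesc (all squares outside P) and v : A there are
(δh, δv) that vanish on all edges of squares of P, with curl δ = v·[q'] - v·[q] (as a function of
squares: (if · = q' then v else 0) - (if · = q then v else 0)). Induction on the chain; one step: the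
single common edge of two adjacent squares u, w ∉ P, with value ±v (a common edge of u and w is an
edge of no other square).
Step 2: add to ω the δ's with v = curl q for all q in the box with q ∉ P (a finite sum), q' outside the
box. The new ω' has curl zero on ALL squares of the box (on P by hz, transport does not change the edges
of P), and ω' = ω on all edges of squares of P.
Step 3: F x y = ∑_{i ∈ Ico (-N) x} ω'h i (-N) + ∑_{j ∈ Ico (-N) y} ω'v x j. For -N ≤ x ≤ N, -N ≤ y < N: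
F x (y+1) - F x y = ω'v x y. For -N ≤ x < N, -N ≤ y ≤ N: F (x+1) y - F x y = ω'h x (-N) +
∑_{j ∈ Ico (-N) y} (ω'v (x+1) j - ω'v x j) = ω'h x (-N) + ∑_j (ω'h x (j+1) - ω'h x j) = ω'h x y (curl = 0).
All edges of squares of P are of this kind.
-/
import Mathlib
import Pool.Agent.TB.Defs

set_option autoImplicit false

open Set Filter Topology Metric

namespace Pool.Agent.TB

/-- the sum round the square `q` -/
def Discrete_curl {A : Type*} [AddCommGroup A] (ωh ωv : ℤ → ℤ → A) (q : ℤ × ℤ) : A :=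
  ωh q.1 q.2 + ωv (q.1 + 1) q.2 - ωh q.1 (q.2 + 1) - ωv q.1 q.2

/-- values on edges vanishing on the edges of squares of `P` which move `v` from `q` to `q'` -/
def Discrete_T {A : Type*} [AddCommGroup A] (P : Set (ℤ × ℤ)) (v : A) (q q' : ℤ × ℤ) : Prop :=
  ∃ δh δv : ℤ → ℤ → A,
    (∀ x y, ((x, y) ∈ P ∨ (x, y - 1) ∈ P) → δh x y = 0) ∧
    (∀ x y, ((x, y) ∈ P ∨ (x - 1, y) ∈ P) → δv x y = 0) ∧
    ∀ p, Discrete_curl δh δv p = (if p = q' then v else 0) - (if p = q then v else 0)

theorem Discrete_T_refl {A : Type*} [AddCommGroup A] (P : Set (ℤ × ℤ)) (v : A) (q : ℤ × ℤ) :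
    Discrete_T P v q q :=
  ⟨fun _ _ => 0, fun _ _ => 0, fun _ _ _ => rfl, fun _ _ _ => rfl, fun p => by
    simp [Discrete_curl]⟩

theorem Discrete_T_trans {A : Type*} [AddCommGroup A] {P : Set (ℤ × ℤ)} {v : A}
    {q q' q'' : ℤ × ℤ} (h1 : Discrete_T P v q q') (h2 : Discrete_T P v q' q'') :
    Discrete_T P v q q'' := by
  obtain ⟨a, b, ha, hb, hab⟩ := h1
  obtain ⟨c, d, hc, hd, hcd⟩ := h2
  refine ⟨fun x y => a x y + c x y, fun x y => b x y + d x y, ?_, ?_, ?_⟩
  · intro x y h
    show a x y + c x y = 0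
    rw [ha x y h, hc x y h, add_zero]
  · intro x y h
    show b x y + d x y = 0
    rw [hb x y h, hd x y h, add_zero]
  · intro p
    have h3 := hab p
    have h4 := hcd p
    have e : Discrete_curl (fun x y => a x y + c x y) (fun x y => b x y + d x y) p =
        Discrete_curl a b p + Discrete_curl c d p := by
      simp only [Discrete_curl]
      abel
    rw [e, h3, h4]
    abel

theorem Discrete_T_symm {A : Type*} [AddCommGroup A] {P : Set (ℤ × ℤ)} {v : A}
    {q q' : ℤ × ℤ} (h1 : Discrete_T P v q q') : Discrete_T P v q' q := by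
  obtain ⟨a, b, ha, hb, hab⟩ := h1
  refine ⟨fun x y => -a x y, fun x y => -b x y, ?_, ?_, ?_⟩
  · intro x y h
    show -a x y = 0
    rw [ha x y h, neg_zero]
  · intro x y h
    show -b x y = 0
    rw [hb x y h, neg_zero]
  · intro p
    have h3 := hab p
    have e : Discrete_curl (fun x y => -a x y) (fun x y => -b x y) p =
        -Discrete_curl a b p := by
      simp only [Discrete_curl]
      abel
    rw [e, h3]
    abel

theorem Discrete_T_h {A : Type*} [AddCommGroup A] (P : Set (ℤ × ℤ)) (v : A) (a b : ℤ)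
    (h1 : (a, b - 1) ∉ P) (h2 : (a, b) ∉ P) : Discrete_T P v (a, b - 1) (a, b) := by
  refine ⟨fun x y => if x = a ∧ y = b then v else 0, fun _ _ => 0, ?_, fun _ _ _ => rfl, ?_⟩
  · intro x y h
    show (if x = a ∧ y = b then v else 0) = 0
    rw [if_neg]
    rintro ⟨rfl, rfl⟩
    rcases h with h | h
    · exact h2 h
    · exact h1 h
  · rintro ⟨x, y⟩
    simp only [Discrete_curl, Prod.mk.injEq, add_zero, sub_zero]
    have e : (x = a ∧ y + 1 = b) ↔ (x = a ∧ y = b - 1) := by
      constructor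
      · rintro ⟨rfl, rfl⟩
        exact ⟨rfl, by ring⟩
      · rintro ⟨rfl, rfl⟩
        exact ⟨rfl, by ring⟩
    simp only [e]

theorem Discrete_T_v {A : Type*} [AddCommGroup A] (P : Set (ℤ × ℤ)) (v : A) (a b : ℤ)
    (h1 : (a - 1, b) ∉ P) (h2 : (a, b) ∉ P) : Discrete_T P v (a, b) (a - 1, b) := by
  refine ⟨fun _ _ => 0, fun x y => if x = a ∧ y = b then v else 0, fun _ _ _ => rfl, ?_, ?_⟩
  · intro x y h
    show (if x = a ∧ y = b then v else 0) = 0
    rw [if_neg]
    rintro ⟨rfl, rfl⟩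
    rcases h with h | h
    · exact h2 h
    · exact h1 h
  · rintro ⟨x, y⟩
    simp only [Discrete_curl, Prod.mk.injEq, zero_add, sub_zero]
    have e : (x + 1 = a ∧ y = b) ↔ (x = a - 1 ∧ y = b) := by
      constructor
      · rintro ⟨rfl, rfl⟩
        exact ⟨by ring, rfl⟩
      · rintro ⟨rfl, rfl⟩
        exact ⟨by ring, rfl⟩
    simp only [e]

theorem Discrete_chain {A : Type*} [AddCommGroup A] (P : Set (ℤ × ℤ)) (v : A) {q q' : ℤ × ℤ}
    (hq : q ∉ P)
    (h : Relation.ReflTransGen (fun u v : ℤ × ℤ => v ∉ P ∧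
        ((v.1 = u.1 ∧ (v.2 = u.2 + 1 ∨ v.2 = u.2 - 1)) ∨
         (v.2 = u.2 ∧ (v.1 = u.1 + 1 ∨ v.1 = u.1 - 1)))) q q') :
    q' ∉ P ∧ Discrete_T P v q q' := by
  induction h with
  | refl => exact ⟨hq, Discrete_T_refl P v q⟩
  | @tail b c _ hs ih =>
    obtain ⟨hb, ht⟩ := ih
    obtain ⟨hc, hadj⟩ := hs
    refine ⟨hc, Discrete_T_trans ht ?_⟩
    obtain ⟨b1, b2⟩ := b
    obtain ⟨c1, c2⟩ := c
    simp only at hadj
    rcases hadj with ⟨rfl, rfl | rfl⟩ | ⟨rfl, rfl | rfl⟩
    · have := Discrete_T_h P v c1 (b2 + 1) (by simpa using hb) hc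
      simpa using this
    · exact Discrete_T_symm (Discrete_T_h P v c1 b2 hc hb)
    · have := Discrete_T_symm (Discrete_T_v P v (b1 + 1) c2 (by simpa using hb) hc)
      simpa using this
    · exact Discrete_T_v P v b1 c2 hc hb

theorem Discrete_curl_sum {A : Type*} [AddCommGroup A] {ι : Type*} (B : Finset ι)
    (a b : ℤ → ℤ → A) (c d : ι → ℤ → ℤ → A) (p : ℤ × ℤ) :
    Discrete_curl (fun x y => a x y + ∑ i ∈ B, c i x y) (fun x y => b x y + ∑ i ∈ B, d i x y) p =
      Discrete_curl a b p + ∑ i ∈ B, Discrete_curl (c i) (d i) p := by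
  simp only [Discrete_curl, Finset.sum_sub_distrib, Finset.sum_add_distrib]
  abel

theorem Discrete_pot {A : Type*} [AddCommGroup A] (N : ℤ) (a b : ℤ → ℤ → A)
    (hz : ∀ p : ℤ × ℤ, (-N ≤ p.1 ∧ p.1 < N ∧ -N ≤ p.2 ∧ p.2 < N) → Discrete_curl a b p = 0) :
    ∃ F : ℤ → ℤ → A,
      (∀ x y, -N ≤ x → x < N → -N ≤ y → y ≤ N → F (x + 1) y - F x y = a x y) ∧
      (∀ x y, -N ≤ y → F x (y + 1) - F x y = b x y) := by
  refine ⟨fun x y => ∑ i ∈ Finset.range (x + N).toNat, a (-N + i) (-N) +
    ∑ j ∈ Finset.range (y + N).toNat, b x (-N + j), ?_, ?_⟩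
  · intro x y hx1 hx2 hy1 hy2
    have e1 : (x + 1 + N).toNat = (x + N).toNat + 1 := by omega
    have e2 : (-N + ((x + N).toNat : ℤ)) = x := by omega
    have e3 : (-N + ((y + N).toNat : ℤ)) = y := by omega
    simp only [e1, Finset.sum_range_succ, e2]
    have e4 : ∑ j ∈ Finset.range (y + N).toNat, b (x + 1) (-N + j) -
        ∑ j ∈ Finset.range (y + N).toNat, b x (-N + j) = a x y - a x (-N) := by
      rw [← Finset.sum_sub_distrib]
      have e5 : ∀ j ∈ Finset.range (y + N).toNat, b (x + 1) (-N + j) - b x (-N + j) =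
          (fun j : ℕ => a x (-N + j)) (j + 1) - (fun j : ℕ => a x (-N + j)) j := by
        intro j hj
        rw [Finset.mem_range] at hj
        have h := hz (x, -N + j) ⟨hx1, hx2, by
          show -N ≤ -N + (j : ℤ)
          omega, by
          show -N + (j : ℤ) < N
          omega⟩
        simp only [Discrete_curl] at h
        have e6 : (-N + ((j + 1 : ℕ) : ℤ)) = -N + j + 1 := by push_cast; ring
        simp only [e6]
        have h7 : b (x + 1) (-N + j) - b x (-N + j) - (a x (-N + j + 1) - a x (-N + j)) = 0 := by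
          rw [← h]
          abel
        exact sub_eq_zero.1 h7
      rw [Finset.sum_congr rfl e5, Finset.sum_range_sub (fun j : ℕ => a x (-N + j))]
      simp only [Nat.cast_zero, add_zero, e3]
    have e8 : ∑ j ∈ Finset.range (y + N).toNat, b (x + 1) (-N + j) =
        a x y - a x (-N) + ∑ j ∈ Finset.range (y + N).toNat, b x (-N + j) := by
      rw [← e4]
      abel
    rw [e8]
    abel
  · intro x y hy1
    have e1 : (y + 1 + N).toNat = (y + N).toNat + 1 := by omega
    have e2 : (-N + ((y + N).toNat : ℤ)) = y := by omega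
    simp only [e1, Finset.sum_range_succ, e2]
    abel

/-- `P` is a finite set of unit squares of the integer grid (named by lower left corners), every
other square can be joined to a square outside the box `[-N, N)²` through squares outside `P`,
consecutive ones having a common edge. `ωh x y` and `ωv x y` are values on the horizontal edge
from `(x,y)` to `(x+1,y)` and on the vertical edge from `(x,y)` to `(x,y+1)`; the sum round each
square of `P` is zero. Then there is a potential. -/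
theorem discrete_primitive {A : Type*} [AddCommGroup A] (P : Set (ℤ × ℤ)) (N : ℤ)
    (hP : ∀ q ∈ P, -N ≤ q.1 ∧ q.1 < N ∧ -N ≤ q.2 ∧ q.2 < N)
    (hesc : ∀ q ∉ P, ∃ q' : ℤ × ℤ, ¬ (-N ≤ q'.1 ∧ q'.1 < N ∧ -N ≤ q'.2 ∧ q'.2 < N) ∧
      Relation.ReflTransGen (fun u v : ℤ × ℤ => v ∉ P ∧
        ((v.1 = u.1 ∧ (v.2 = u.2 + 1 ∨ v.2 = u.2 - 1)) ∨
         (v.2 = u.2 ∧ (v.1 = u.1 + 1 ∨ v.1 = u.1 - 1)))) q q')
    (ωh ωv : ℤ → ℤ → A)
    (hz : ∀ q ∈ P, ωh q.1 q.2 + ωv (q.1 + 1) q.2 - ωh q.1 (q.2 + 1) - ωv q.1 q.2 = 0) :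
    ∃ F : ℤ → ℤ → A,
      (∀ x y, ((x, y) ∈ P ∨ (x, y - 1) ∈ P) → F (x + 1) y - F x y = ωh x y) ∧
      (∀ x y, ((x, y) ∈ P ∨ (x - 1, y) ∈ P) → F x (y + 1) - F x y = ωv x y) := by
  classical
  have key : ∀ q : ℤ × ℤ, ∃ δh δv : ℤ → ℤ → A,
      (∀ x y, ((x, y) ∈ P ∨ (x, y - 1) ∈ P) → δh x y = 0) ∧
      (∀ x y, ((x, y) ∈ P ∨ (x - 1, y) ∈ P) → δv x y = 0) ∧
      ∀ p : ℤ × ℤ, (-N ≤ p.1 ∧ p.1 < N ∧ -N ≤ p.2 ∧ p.2 < N) →
        Discrete_curl δh δv p = -(if p = q then (if q ∈ P then 0 else Discrete_curl ωh ωv q)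
          else 0) := by
    intro q
    by_cases hq : q ∈ P
    · refine ⟨fun _ _ => 0, fun _ _ => 0, fun _ _ _ => rfl, fun _ _ _ => rfl, fun p _ => ?_⟩
      simp [Discrete_curl, hq]
    · obtain ⟨q', hq', hch⟩ := hesc q hq
      obtain ⟨_, δh, δv, h1, h2, h3⟩ := Discrete_chain P (Discrete_curl ωh ωv q) hq hch
      refine ⟨δh, δv, h1, h2, fun p hp => ?_⟩
      have hne : p ≠ q' := by
        rintro rfl
        exact hq' hp
      rw [h3, if_neg hne, zero_sub, if_neg hq]
  choose δh δv h1 h2 h3 using key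
  obtain ⟨F, hF1, hF2⟩ := Discrete_pot N
    (fun x y => ωh x y + ∑ q ∈ Finset.Ico (-N) N ×ˢ Finset.Ico (-N) N, δh q x y)
    (fun x y => ωv x y + ∑ q ∈ Finset.Ico (-N) N ×ˢ Finset.Ico (-N) N, δv q x y) (by
      intro p hp
      rw [Discrete_curl_sum, Finset.sum_congr rfl fun q _ => h3 q p hp, Finset.sum_neg_distrib]
      have hmem : p ∈ Finset.Ico (-N) N ×ˢ Finset.Ico (-N) N := by
        rw [Finset.mem_product, Finset.mem_Ico, Finset.mem_Ico]
        exact ⟨⟨hp.1, hp.2.1⟩, hp.2.2.1, hp.2.2.2⟩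
      rw [Finset.sum_ite_eq, if_pos hmem]
      by_cases hpP : p ∈ P
      · rw [if_pos hpP, neg_zero, add_zero]
        exact hz p hpP
      · rw [if_neg hpP, add_neg_cancel])
  refine ⟨F, ?_, ?_⟩
  · intro x y hxy
    have hb : -N ≤ x ∧ x < N ∧ -N ≤ y ∧ y ≤ N := by
      rcases hxy with h | h
      · have := hP _ h
        simp only at this
        omega
      · have := hP _ h
        simp only at this
        omega
    rw [hF1 x y hb.1 hb.2.1 hb.2.2.1 hb.2.2.2]
    rw [Finset.sum_eq_zero fun q _ => h1 q x y hxy, add_zero]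
  · intro x y hxy
    have hb : -N ≤ y := by
      rcases hxy with h | h
      · have := hP _ h
        simp only at this
        omega
      · have := hP _ h
        simp only at this
        omega
    rw [hF2 x y hb]
    rw [Finset.sum_eq_zero fun q _ => h2 q x y hxy, add_zero]

end Pool.Agent.TB
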