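/-
Project TB (MP_d9e400_an). Module LogX.
Continuous logarithms on compact subsets of a domain without holes.

PROOF. X ⊆ U compact. Choose s > 0 with every closed square of side s meeting X contained in U (infDist to Uᶜ
has a positive minimum on X; if U = univ any s) and N with X inside the open box of half side s N. P = squares q
of the box with sq s q ⊆ U. X ⊆ ⋃_P sq s q =: X'. Every closed square Q = sq s q, q ∈ P, is convex, so there is a
continuous logarithm ℓ_q of h on Q (log_convex). At a grid vertex v = (x,y) put λ(v) = Complex.log (h (s x + i s y)).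
For an edge e (a segment) contained in U with end points v, v' (v' right of / above v) let ℓ_e be a continuous log on
it (log_convex) and define the integer k(e) by ℓ_e(v') - ℓ_e(v) = λ(v') - λ(v) + 2πi k(e); for edges not in U put 0.
Any other continuous log on e gives the same k(e) (log_unique). For q ∈ P using ℓ_q on its four edges the sum
of hz is zero. discrete_primitive (A = ℤ, hesc from grid_escape) gives F with F(v') - F(v) = k(e) on the edges of
squares of P. So on Q the function L_q = ℓ_q + (constant in 2πiℤ) with L_q(v) = λ(v) + 2πi F(v) at one vertex has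
this property at all four vertices, and exp L_q = h on Q. Two squares of P that meet have a common
vertex, their intersection is a segment or a point (connected), so L_q = L_q' on Q ∩ Q' (log_unique).
So there is a well defined L on X' with L = L_q on Q, continuous because it is a finite closed cover
(LocallyFinite.continuousOn... or ContinuousOn.union / continuousOn of finite unions of closed sets).
-/
import Mathlib
import Pool.Agent.TB.Defs
import Pool.Agent.TB.Discrete
import Pool.Agent.TB.Grid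
import Pool.Agent.TB.LogCvx

set_option autoImplicit false

open Set Filter Topology Metric

namespace Pool.Agent.TB

private theorem LogX_sq_convex (s : ℝ) (q : ℤ × ℤ) : Convex ℝ (sq s q) := by
  intro z hz w hw a b ha hb hab
  simp only [sq, Set.mem_setOf_eq] at hz hw ⊢
  obtain ⟨h1, h2, h3, h4⟩ := hz
  obtain ⟨k1, k2, k3, k4⟩ := hw
  have ere : (a • z + b • w).re = a * z.re + b * w.re := by simp
  have eim : (a • z + b • w).im = a * z.im + b * w.im := by simp
  rw [ere, eim]
  obtain rfl : b = 1 - a := by linarith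
  refine ⟨?_, ?_, ?_, ?_⟩
  · nlinarith [mul_nonneg ha (sub_nonneg.2 h1), mul_nonneg hb (sub_nonneg.2 k1)]
  · nlinarith [mul_nonneg ha (sub_nonneg.2 h2), mul_nonneg hb (sub_nonneg.2 k2)]
  · nlinarith [mul_nonneg ha (sub_nonneg.2 h3), mul_nonneg hb (sub_nonneg.2 k3)]
  · nlinarith [mul_nonneg ha (sub_nonneg.2 h4), mul_nonneg hb (sub_nonneg.2 k4)]

private theorem LogX_sq_closed (s : ℝ) (q : ℤ × ℤ) : IsClosed (sq s q) := by
  have e : sq s q = {z : ℂ | s * q.1 ≤ z.re} ∩ {z | z.re ≤ s * (q.1 + 1)} ∩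
      {z | s * q.2 ≤ z.im} ∩ {z | z.im ≤ s * (q.2 + 1)} := by
    ext z
    simp only [sq, Set.mem_setOf_eq, Set.mem_inter_iff]
    tauto
  rw [e]
  exact (((isClosed_le continuous_const Complex.continuous_re).inter
    (isClosed_le Complex.continuous_re continuous_const)).inter
    (isClosed_le continuous_const Complex.continuous_im)).inter
    (isClosed_le Complex.continuous_im continuous_const)

private theorem LogX_pt_mem {s : ℝ} (hs : 0 < s) {a b x y : ℤ} (h1 : a ≤ x) (h2 : x ≤ a + 1)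
    (h3 : b ≤ y) (h4 : y ≤ b + 1) : (⟨s * x, s * y⟩ : ℂ) ∈ sq s (a, b) := by
  have h1' : (a : ℝ) ≤ x := by exact_mod_cast h1
  have h2' : (x : ℝ) ≤ a + 1 := by exact_mod_cast h2
  have h3' : (b : ℝ) ≤ y := by exact_mod_cast h3
  have h4' : (y : ℝ) ≤ b + 1 := by exact_mod_cast h4
  exact ⟨mul_le_mul_of_nonneg_left h1' hs.le, mul_le_mul_of_nonneg_left h2' hs.le,
    mul_le_mul_of_nonneg_left h3' hs.le, mul_le_mul_of_nonneg_left h4' hs.le⟩

private theorem LogX_int_cancel {a b : ℂ} {m n : ℤ} (h : a = b)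
    (h2 : a + m * (2 * Real.pi * Complex.I) = b + n * (2 * Real.pi * Complex.I)) : m = n := by
  have h3 : (m : ℂ) * (2 * Real.pi * Complex.I) = n * (2 * Real.pi * Complex.I) := by
    rw [h] at h2
    exact add_left_cancel h2
  have h4 := mul_right_cancel₀ Complex.two_pi_I_ne_zero h3
  exact_mod_cast h4

theorem log_on_compact {U : Set ℂ} (hU : SC U) {h : ℂ → ℂ} (hc : ContinuousOn h U)
    (h0 : ∀ z ∈ U, h z ≠ 0) {X : Set ℂ} (hX : IsCompact X) (hXU : X ⊆ U) :
    ∃ L : ℂ → ℂ, ContinuousOn L X ∧ ∀ z ∈ X, Complex.exp (L z) = h z := by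
  classical
  obtain ⟨δ, hδ, hδU⟩ := hX.exists_thickening_subset_open hU.isOpen hXU
  set s : ℝ := δ / 3 with hsdef
  have hs : 0 < s := by positivity
  obtain ⟨R, hR⟩ := hX.isBounded.exists_norm_le
  obtain ⟨N, hN⟩ := exists_int_gt (|R| / s + 1)
  set P : Set (ℤ × ℤ) := {q : ℤ × ℤ | (-N ≤ q.1 ∧ q.1 < N ∧ -N ≤ q.2 ∧ q.2 < N) ∧ sq s q ⊆ U} with hP
  -- every point of X lies in a square of P
  have hfl : ∀ t : ℝ, |t| ≤ R → s * (⌊t / s⌋ : ℝ) ≤ t ∧ t ≤ s * ((⌊t / s⌋ : ℝ) + 1) ∧
      -N ≤ ⌊t / s⌋ ∧ ⌊t / s⌋ < N := by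
    intro t ht
    have h1 := Int.floor_le (t / s)
    have h2 := Int.lt_floor_add_one (t / s)
    have h3 : t = s * (t / s) := by field_simp
    have h4 : |t / s| ≤ |R| / s := by
      rw [abs_div, abs_of_pos hs]
      exact div_le_div_of_nonneg_right (ht.trans (le_abs_self R)) hs.le
    have h5 := abs_le.mp h4
    refine ⟨?_, ?_, ?_, ?_⟩
    · calc s * (⌊t / s⌋ : ℝ) ≤ s * (t / s) := mul_le_mul_of_nonneg_left h1 hs.le
        _ = t := h3.symm
    · calc t = s * (t / s) := h3
        _ ≤ s * ((⌊t / s⌋ : ℝ) + 1) := mul_le_mul_of_nonneg_left h2.le hs.le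
    · have h6 : ((-N : ℤ) : ℝ) ≤ ((⌊t / s⌋ : ℤ) : ℝ) := by
        push_cast
        linarith [h5.1]
      exact_mod_cast h6
    · have h6 : ((⌊t / s⌋ : ℤ) : ℝ) < ((N : ℤ) : ℝ) := by
        linarith [h5.2]
      exact_mod_cast h6
  have hcov : ∀ x ∈ X, ∃ q ∈ P, x ∈ sq s q := by
    intro x hx
    have hre := hfl x.re ((Complex.abs_re_le_norm x).trans (hR x hx))
    have him := hfl x.im ((Complex.abs_im_le_norm x).trans (hR x hx))
    have hmem : x ∈ sq s (⌊x.re / s⌋, ⌊x.im / s⌋) := ⟨hre.1, hre.2.1, him.1, him.2.1⟩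
    refine ⟨(⌊x.re / s⌋, ⌊x.im / s⌋), ⟨⟨hre.2.2.1, hre.2.2.2, him.2.2.1, him.2.2.2⟩, ?_⟩, hmem⟩
    intro z hz
    apply hδU
    rw [Metric.mem_thickening_iff]
    refine ⟨x, hx, ?_⟩
    obtain ⟨a1, a2, a3, a4⟩ := hmem
    obtain ⟨b1, b2, b3, b4⟩ := hz
    simp only at a1 a2 a3 a4 b1 b2 b3 b4
    rw [dist_eq_norm]
    have c1 : |(z - x).re| ≤ s := by
      rw [Complex.sub_re, abs_le]
      constructor <;> linarith
    have c2 : |(z - x).im| ≤ s := by
      rw [Complex.sub_im, abs_le]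
      constructor <;> linarith
    have c3 := Complex.norm_le_abs_re_add_abs_im (z - x)
    have c4 : δ = 3 * s := by rw [hsdef]; ring
    linarith
  -- logarithms on the squares
  have hell : ∀ q : ℤ × ℤ, ∃ ℓ : ℂ → ℂ, q ∈ P → (ContinuousOn ℓ (sq s q) ∧
      ∀ z ∈ sq s q, Complex.exp (ℓ z) = h z) := by
    intro q
    by_cases hq : q ∈ P
    · obtain ⟨ℓ, h1, h2⟩ := log_convex (LogX_sq_convex s q) (hc.mono hq.2)
        (fun z hz => h0 z (hq.2 hz))
      exact ⟨ℓ, fun _ => ⟨h1, h2⟩⟩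
    · exact ⟨0, fun h' => absurd h' hq⟩
  choose ℓ hℓ using hell
  -- comparison on intersections
  have hA : ∀ q ∈ P, ∀ q' ∈ P, ∃ n : ℤ, ∀ z ∈ sq s q ∩ sq s q',
      ℓ q z = ℓ q' z + 2 * Real.pi * Complex.I * n := by
    intro q hq q' hq'
    refine log_unique ((LogX_sq_convex s q).inter (LogX_sq_convex s q')).isPreconnected
      ((hℓ q hq).1.mono inter_subset_left) ((hℓ q' hq').1.mono inter_subset_right) ?_
    intro z hz
    rw [(hℓ q hq).2 z hz.1, (hℓ q' hq').2 z hz.2]
  set pt : ℤ → ℤ → ℂ := fun x y => ⟨s * x, s * y⟩ with hpt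
  have hm : ∀ (q : ℤ × ℤ) (x y : ℤ), ∃ m : ℤ, q ∈ P → pt x y ∈ sq s q →
      ℓ q (pt x y) = Complex.log (h (pt x y)) + m * (2 * Real.pi * Complex.I) := by
    intro q x y
    by_cases hq : q ∈ P ∧ pt x y ∈ sq s q
    · have h1 : Complex.exp (ℓ q (pt x y)) = Complex.exp (Complex.log (h (pt x y))) := by
        rw [(hℓ q hq.1).2 _ hq.2, Complex.exp_log (h0 _ (hq.1.2 hq.2))]
      obtain ⟨n, hn⟩ := Complex.exp_eq_exp_iff_exists_int.mp h1
      exact ⟨n, fun _ _ => hn⟩
    · exact ⟨0, fun h1 h2 => absurd ⟨h1, h2⟩ hq⟩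
  choose m hm using hm
  -- two vertices in two squares
  have hcons1 : ∀ q ∈ P, ∀ q' ∈ P, ∃ n : ℤ, (∀ z ∈ sq s q ∩ sq s q',
      ℓ q z = ℓ q' z + 2 * Real.pi * Complex.I * n) ∧
      ∀ x y, pt x y ∈ sq s q → pt x y ∈ sq s q' → m q x y = m q' x y + n := by
    intro q hq q' hq'
    obtain ⟨n, hn⟩ := hA q hq q' hq'
    refine ⟨n, hn, fun x y h1 h2 => ?_⟩
    have h3 := hn _ ⟨h1, h2⟩
    rw [hm q x y hq h1, hm q' x y hq' h2] at h3
    refine LogX_int_cancel (a := Complex.log (h (pt x y))) rfl ?_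
    rw [h3]
    push_cast
    ring
  have hcons : ∀ q ∈ P, ∀ q' ∈ P, ∀ x y x' y', pt x y ∈ sq s q → pt x y ∈ sq s q' →
      pt x' y' ∈ sq s q → pt x' y' ∈ sq s q' →
      m q x' y' - m q x y = m q' x' y' - m q' x y := by
    intro q hq q' hq' x y x' y' h1 h2 h3 h4
    obtain ⟨n, _, hn⟩ := hcons1 q hq q' hq'
    rw [hn x y h1 h2, hn x' y' h3 h4]
    ring
  set ωh : ℤ → ℤ → ℤ := fun x y => if (x, y) ∈ P then m (x, y) (x + 1) y - m (x, y) x y
    else m (x, y - 1) (x + 1) y - m (x, y - 1) x y with hωh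
  set ωv : ℤ → ℤ → ℤ := fun x y => if (x, y) ∈ P then m (x, y) x (y + 1) - m (x, y) x y
    else m (x - 1, y) x (y + 1) - m (x - 1, y) x y with hωv
  have hbot : ∀ a b, (a, b) ∈ P → ωh a b = m (a, b) (a + 1) b - m (a, b) a b := by
    intro a b hq
    simp only [hωh, if_pos hq]
  have hlef : ∀ a b, (a, b) ∈ P → ωv a b = m (a, b) a (b + 1) - m (a, b) a b := by
    intro a b hq
    simp only [hωv, if_pos hq]
  have htop : ∀ a b, (a, b) ∈ P → ωh a (b + 1) = m (a, b) (a + 1) (b + 1) - m (a, b) a (b + 1) := by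
    intro a b hq
    simp only [hωh]
    split_ifs with h1
    · exact hcons _ h1 _ hq _ _ _ _ (LogX_pt_mem hs (by omega) (by omega) (by omega) (by omega))
        (LogX_pt_mem hs (by omega) (by omega) (by omega) (by omega))
        (LogX_pt_mem hs (by omega) (by omega) (by omega) (by omega))
        (LogX_pt_mem hs (by omega) (by omega) (by omega) (by omega))
    · rw [add_sub_cancel_right]
  have hrig : ∀ a b, (a, b) ∈ P → ωv (a + 1) b = m (a, b) (a + 1) (b + 1) - m (a, b) (a + 1) b := by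
    intro a b hq
    simp only [hωv]
    split_ifs with h1
    · exact hcons _ h1 _ hq _ _ _ _ (LogX_pt_mem hs (by omega) (by omega) (by omega) (by omega))
        (LogX_pt_mem hs (by omega) (by omega) (by omega) (by omega))
        (LogX_pt_mem hs (by omega) (by omega) (by omega) (by omega))
        (LogX_pt_mem hs (by omega) (by omega) (by omega) (by omega))
    · rw [add_sub_cancel_right]
  obtain ⟨F, hF1, hF2⟩ := discrete_primitive P N (fun q hq => hq.1) (grid_escape hU hs N hP) ωh ωv (by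
    rintro ⟨a, b⟩ hq
    simp only
    rw [hbot a b hq, hlef a b hq, htop a b hq, hrig a b hq]
    ring)
  -- the constant of a square
  have hFc : ∀ a b, (a, b) ∈ P → ∀ x y, a ≤ x → x ≤ a + 1 → b ≤ y → y ≤ b + 1 →
      F x y = m (a, b) x y + (F a b - m (a, b) a b) := by
    intro a b hq x y h1 h2 h3 h4
    have e1 := hF1 a b (Or.inl hq)
    have e2 := hF1 a (b + 1) (Or.inr (by rw [add_sub_cancel_right]; exact hq))
    have e3 := hF2 a b (Or.inl hq)
    rw [hbot a b hq] at e1
    rw [htop a b hq] at e2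
    rw [hlef a b hq] at e3
    have hx : x = a ∨ x = a + 1 := by omega
    have hy : y = b ∨ y = b + 1 := by omega
    rcases hx with rfl | rfl <;> rcases hy with rfl | rfl <;> linarith
  set c : ℤ × ℤ → ℤ := fun q => F q.1 q.2 - m q q.1 q.2 with hcdef
  set Lq : ℤ × ℤ → ℂ → ℂ := fun q z => ℓ q z + c q * (2 * Real.pi * Complex.I) with hLq
  have hLexp : ∀ q ∈ P, ∀ z ∈ sq s q, Complex.exp (Lq q z) = h z := by
    intro q hq z hz
    rw [hLq]
    simp only
    rw [Complex.exp_add, (hℓ q hq).2 z hz, Complex.exp_int_mul_two_pi_mul_I, mul_one]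
  have hagree : ∀ q ∈ P, ∀ q' ∈ P, ∀ z, z ∈ sq s q → z ∈ sq s q' → Lq q z = Lq q' z := by
    rintro ⟨a, b⟩ hq ⟨a', b'⟩ hq' z hz hz'
    obtain ⟨n, hn1, hn2⟩ := hcons1 _ hq _ hq'
    have e1 := hn1 z ⟨hz, hz'⟩
    obtain ⟨u1, u2, u3, u4⟩ := hz
    obtain ⟨w1, w2, w3, w4⟩ := hz'
    simp only at u1 u2 u3 u4 w1 w2 w3 w4
    have v1 : a ≤ a' + 1 := by
      have := le_of_mul_le_mul_left (u1.trans w2) hs
      exact_mod_cast this
    have v2 : a' ≤ a + 1 := by
      have := le_of_mul_le_mul_left (w1.trans u2) hs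
      exact_mod_cast this
    have v3 : b ≤ b' + 1 := by
      have := le_of_mul_le_mul_left (u3.trans w4) hs
      exact_mod_cast this
    have v4 : b' ≤ b + 1 := by
      have := le_of_mul_le_mul_left (w3.trans u4) hs
      exact_mod_cast this
    have f1 := hFc a b hq (max a a') (max b b') (le_max_left _ _) (by omega) (le_max_left _ _) (by omega)
    have f2 := hFc a' b' hq' (max a a') (max b b') (le_max_right _ _) (by omega) (le_max_right _ _) (by omega)
    have f3 := hn2 (max a a') (max b b')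
      (LogX_pt_mem hs (le_max_left _ _) (by omega) (le_max_left _ _) (by omega))
      (LogX_pt_mem hs (le_max_right _ _) (by omega) (le_max_right _ _) (by omega))
    have f4 : c (a', b') = n + c (a, b) := by
      simp only [hcdef]
      linarith
    simp only [hLq]
    rw [e1, f4]
    push_cast
    ring
  set L : ℂ → ℂ := fun z => if hz : ∃ q, q ∈ P ∧ z ∈ sq s q then Lq hz.choose z else 0 with hL
  have hLeq : ∀ q ∈ P, ∀ z ∈ sq s q, L z = Lq q z := by
    intro q hq z hz
    have hex : ∃ q, q ∈ P ∧ z ∈ sq s q := ⟨q, hq, hz⟩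
    simp only [hL, dif_pos hex]
    exact hagree _ hex.choose_spec.1 _ hq z hex.choose_spec.2 hz
  have hPfin : P.Finite := by
    refine ((Set.finite_Icc (-N) N).prod (Set.finite_Icc (-N) N)).subset ?_
    rintro ⟨a, b⟩ hq
    have h1 := hq.1
    simp only at h1
    exact ⟨⟨h1.1, h1.2.1.le⟩, ⟨h1.2.2.1, h1.2.2.2.le⟩⟩
  have hcont : ContinuousOn L (⋃ q : P, sq s q) := by
    haveI : Finite P := hPfin
    refine (locallyFinite_of_finite _).continuousOn_iUnion (fun q => LogX_sq_closed s q) ?_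
    rintro ⟨q, hq⟩
    have h1 : ContinuousOn (Lq q) (sq s q) := (hℓ q hq).1.add continuousOn_const
    exact h1.congr fun z hz => hLeq q hq z hz
  refine ⟨L, hcont.mono fun x hx => ?_, fun x hx => ?_⟩
  · obtain ⟨q, hq, hxq⟩ := hcov x hx
    exact Set.mem_iUnion.mpr ⟨⟨q, hq⟩, hxq⟩
  · obtain ⟨q, hq, hxq⟩ := hcov x hx
    rw [hLeq q hq x hxq]
    exact hLexp q hq x hxq

end Pool.Agent.TB
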