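/-
Project TB (MP_d9e400_an). Module LogSC.
Continuous logarithms on domains without holes (uses discrete_primitive).

PROOFS. exists_log: base point z₀ ∈ U, c₀ = Complex.log (h z₀). For z ∈ U: there is a path γ : [0,1] → U from z₀
to z (IsOpen.isConnected_iff_isPathConnected) and a continuous l with exp (l t) = h (γ t), l 0 = c₀
(log_convex on Icc 0 1, add an integer multiple of 2πi). The value l 1 depends on z only: for two paths γ₁, γ₂ let
X = both images, L_X from log_on_compact; l_i - L_X ∘ γ_i is constant (log_unique), equal to c₀ - L_X z₀.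
Define L z = l 1. exp (L z) = h z. Continuity at z: ball z r ⊆ U with a continuous log ℓ of h (log_convex); for
z' ∈ ball z r extend the path by the segment [z,z']: L z' = L z + ℓ z' - ℓ z.
(Simplest formal way: for z' ∈ ball z r use the compact set X = image of γ ∪ segment; or show that
for every compact connected X with z₀, z ∈ X ⊆ U: L z = L_X z + c₀ - L_X z₀, and apply it to
X = image γ ∪ closedBall z (r/2).)
exists_log_holo: log_differentiableOn. exists_sqrt_holo: exp (L/2).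
-/
import Mathlib
import Pool.Agent.TB.Defs
import Pool.Agent.TB.LogX
import Pool.Agent.TB.LogCvx

set_option autoImplicit false

open Set Filter Topology Metric

namespace Pool.Agent.TB

theorem exists_log {U : Set ℂ} (hU : SC U) {h : ℂ → ℂ} (hc : ContinuousOn h U)
    (h0 : ∀ z ∈ U, h z ≠ 0) : ∃ L : ℂ → ℂ, ContinuousOn L U ∧ ∀ z ∈ U, Complex.exp (L z) = h z := by
  obtain ⟨z₀, hz₀⟩ := hU.conn.nonempty
  let G : Set ℂ → Prop := fun X => IsCompact X ∧ IsConnected X ∧ X ⊆ U ∧ z₀ ∈ X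
  have H : ∀ X, G X → ∃ L : ℂ → ℂ, ContinuousOn L X ∧ (∀ z ∈ X, Complex.exp (L z) = h z) ∧
      L z₀ = Complex.log (h z₀) := by
    rintro X ⟨h1, h2, h3, h4⟩
    obtain ⟨L, hL, he⟩ := log_on_compact hU hc h0 h1 h3
    refine ⟨fun z => L z + (Complex.log (h z₀) - L z₀), hL.add continuousOn_const, ?_, by ring⟩
    intro z hz
    rw [Complex.exp_add, Complex.exp_sub, he z hz, he z₀ h4, Complex.exp_log (h0 z₀ hz₀),
      div_self (h0 z₀ hz₀), mul_one]
  choose! Lf hLf using H
  have uniq : ∀ X X', G X → G X' → X ⊆ X' → ∀ z ∈ X, Lf X z = Lf X' z := by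
    intro X X' hX hX' hsub z hz
    obtain ⟨n, hn⟩ := log_unique hX.2.1.isPreconnected (hLf X hX).1 ((hLf X' hX').1.mono hsub)
      (fun y hy => by rw [(hLf X hX).2.1 y hy, (hLf X' hX').2.1 y (hsub hy)])
    have h1 := hn z₀ hX.2.2.2
    rw [(hLf X hX).2.2, (hLf X' hX').2.2] at h1
    have h2 : (2 * Real.pi * Complex.I * n : ℂ) = 0 := by linear_combination -h1
    rw [hn z hz, h2, add_zero]
  have uni : ∀ X X', G X → G X' → G (X ∪ X') := by
    intro X X' hX hX'
    exact ⟨hX.1.union hX'.1, IsConnected.union ⟨z₀, hX.2.2.2, hX'.2.2.2⟩ hX.2.1 hX'.2.1,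
      union_subset hX.2.2.1 hX'.2.2.1, Or.inl hX.2.2.2⟩
  have exX : ∀ z, z ∈ U → ∃ X, G X ∧ z ∈ X := by
    intro z hz
    have hpc := (hU.isOpen.isConnected_iff_isPathConnected).1 hU.conn
    have hj : JoinedIn U z₀ z := hpc.joinedIn z₀ hz₀ z hz
    refine ⟨range hj.somePath, ⟨isCompact_range hj.somePath.continuous,
      isConnected_range hj.somePath.continuous, ?_, ⟨0, by simp⟩⟩, ⟨1, by simp⟩⟩
    rintro _ ⟨t, rfl⟩
    exact hj.somePath_mem t
  choose! XX hXX using exX
  have key : ∀ X z, G X → z ∈ X → Lf (XX z) z = Lf X z := by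
    intro X z hX hz
    have hzU := hX.2.2.1 hz
    have h1 := uniq (XX z) (XX z ∪ X) (hXX z hzU).1 (uni _ _ (hXX z hzU).1 hX)
      subset_union_left z (hXX z hzU).2
    have h2 := uniq X (XX z ∪ X) hX (uni _ _ (hXX z hzU).1 hX) subset_union_right z hz
    rw [h1, h2]
  refine ⟨fun z => Lf (XX z) z, ?_, fun z hz => (hLf _ (hXX z hz).1).2.1 z (hXX z hz).2⟩
  intro z hz
  apply ContinuousAt.continuousWithinAt
  obtain ⟨ρ, hρ, hball⟩ := Metric.nhds_basis_closedBall.mem_iff.1 (hU.isOpen.mem_nhds hz)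
  have hcb : IsConnected (closedBall z ρ) :=
    ((convex_closedBall z ρ).isConnected ⟨z, mem_closedBall_self hρ.le⟩)
  have hG : G (XX z ∪ closedBall z ρ) := by
    refine ⟨(hXX z hz).1.1.union (isCompact_closedBall z ρ), ?_,
      union_subset (hXX z hz).1.2.2.1 hball, Or.inl (hXX z hz).1.2.2.2⟩
    exact IsConnected.union ⟨z, (hXX z hz).2, mem_closedBall_self hρ.le⟩ (hXX z hz).1.2.1 hcb
  have hc1 : ContinuousAt (Lf (XX z ∪ closedBall z ρ)) z :=
    ((hLf _ hG).1.mono subset_union_right).continuousAt (closedBall_mem_nhds z hρ)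
  refine hc1.congr ?_
  filter_upwards [closedBall_mem_nhds z hρ] with y hy
  exact (key _ y hG (Or.inr hy)).symm

/-- the holomorphic version -/
theorem exists_log_holo {U : Set ℂ} (hU : SC U) {h : ℂ → ℂ} (hc : DifferentiableOn ℂ h U)
    (h0 : ∀ z ∈ U, h z ≠ 0) :
    ∃ L : ℂ → ℂ, DifferentiableOn ℂ L U ∧ ∀ z ∈ U, Complex.exp (L z) = h z := by
  obtain ⟨L, hL, he⟩ := exists_log hU hc.continuousOn h0
  exact ⟨L, log_differentiableOn hU.isOpen hc hL he, he⟩

theorem exists_sqrt_holo {U : Set ℂ} (hU : SC U) {h : ℂ → ℂ} (hc : DifferentiableOn ℂ h U)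
    (h0 : ∀ z ∈ U, h z ≠ 0) :
    ∃ s : ℂ → ℂ, DifferentiableOn ℂ s U ∧ ∀ z ∈ U, s z ^ 2 = h z := by
  obtain ⟨L, hL, he⟩ := exists_log_holo hU hc h0
  refine ⟨fun z => Complex.exp (L z / 2), (hL.div_const 2).cexp, ?_⟩
  intro z hz
  rw [← he z hz, ← Complex.exp_nat_mul]
  congr 1
  push_cast
  ring

end Pool.Agent.TB
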