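/-
Project TB (MP_d9e400_an). Module Mobius.
The automorphisms of the unit disc.

PROOFS. elementary algebra: |conj a * w| < 1; identity |1 - conj a w|² - |w - a|² = (1-|a|²)(1-|w|²); mob (-a) is the
inverse of mob a; quotient rule.
-/
import Mathlib
import Pool.Agent.TB.Defs

set_option autoImplicit false

open Set Filter Topology Metric

namespace Pool.Agent.TB

/-- the disc automorphism that sends `a` to `0` -/
noncomputable def mob (a w : ℂ) : ℂ := (w - a) / (1 - (starRingEnd ℂ) a * w)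

theorem mob_den {a w : ℂ} (ha : ‖a‖ < 1) (hw : ‖w‖ ≤ 1) : 1 - (starRingEnd ℂ) a * w ≠ 0 := by
  intro h
  have h1 : (starRingEnd ℂ) a * w = 1 := (sub_eq_zero.1 h).symm
  have h2 : ‖(starRingEnd ℂ) a * w‖ = 1 := by rw [h1, norm_one]
  rw [norm_mul, RCLike.norm_conj] at h2
  have h3 : ‖a‖ * ‖w‖ ≤ ‖a‖ * 1 := mul_le_mul_of_nonneg_left hw (norm_nonneg a)
  linarith

theorem one_sub_normSq_mob {a w : ℂ} (h : 1 - (starRingEnd ℂ) a * w ≠ 0) :
    1 - ‖mob a w‖ ^ 2 = (1 - ‖a‖ ^ 2) * (1 - ‖w‖ ^ 2) / ‖1 - (starRingEnd ℂ) a * w‖ ^ 2 := by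
  have h1 : ‖1 - (starRingEnd ℂ) a * w‖ ^ 2 ≠ 0 := pow_ne_zero 2 (norm_ne_zero_iff.2 h)
  have h2 : ‖1 - (starRingEnd ℂ) a * w‖ ^ 2 - ‖w - a‖ ^ 2 = (1 - ‖a‖ ^ 2) * (1 - ‖w‖ ^ 2) := by
    simp only [Complex.sq_norm, Complex.normSq_apply, Complex.sub_re, Complex.sub_im,
      Complex.mul_re, Complex.mul_im, Complex.conj_re, Complex.conj_im, Complex.one_re,
      Complex.one_im]
    ring
  rw [mob, norm_div, div_pow, eq_div_iff h1, sub_mul, div_mul_cancel₀ _ h1, one_mul]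
  exact h2

theorem Mobius_maps {a : ℂ} (ha : ‖a‖ < 1) : MapsTo (mob a) Dk Dk := by
  intro w hw
  rw [mem_ball_zero_iff] at hw ⊢
  have h := mob_den ha hw.le
  have h1 := one_sub_normSq_mob h
  have h2 : 0 < (1 - ‖a‖ ^ 2) * (1 - ‖w‖ ^ 2) / ‖1 - (starRingEnd ℂ) a * w‖ ^ 2 := by
    have e1 : 0 < 1 - ‖a‖ ^ 2 := by nlinarith [norm_nonneg a]
    have e2 : 0 < 1 - ‖w‖ ^ 2 := by nlinarith [norm_nonneg w]
    have e3 : 0 < ‖1 - (starRingEnd ℂ) a * w‖ := norm_pos_iff.2 h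
    positivity
  rw [← h1] at h2
  nlinarith [norm_nonneg (mob a w)]

theorem mob_inv {a w : ℂ} (ha : ‖a‖ < 1) (hw : ‖w‖ < 1) : mob (-a) (mob a w) = w := by
  have h := mob_den ha hw.le
  have h0 := mob_den ha ha.le
  have hm : mob a w ∈ Dk := Mobius_maps ha (mem_ball_zero_iff.2 hw)
  rw [mem_ball_zero_iff] at hm
  have h1 := mob_den (a := -a) (by rwa [norm_neg]) hm.le
  rw [mob, div_eq_iff h1, mob, map_neg]
  generalize (starRingEnd ℂ) a = b at h ⊢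
  have e1 : (w - a) / (1 - b * w) * (1 - b * w) = w - a := div_mul_cancel₀ _ h
  have e2 : ((w - a) / (1 - b * w) - -a - w * (1 - -b * ((w - a) / (1 - b * w)))) * (1 - b * w) = 0 := by
    linear_combination (1 - w * b) * e1
  rcases mul_eq_zero.1 e2 with h2 | h2
  · exact sub_eq_zero.1 h2
  · exact absurd h2 h

theorem mob_bijOn {a : ℂ} (ha : ‖a‖ < 1) : BijOn (mob a) Dk Dk := by
  have ha' : ‖-a‖ < 1 := by rwa [norm_neg]
  refine ⟨Mobius_maps ha, ?_, ?_⟩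
  · intro w hw w' hw' h
    rw [← mob_inv ha (mem_ball_zero_iff.1 hw), ← mob_inv ha (mem_ball_zero_iff.1 hw'), h]
  · intro w hw
    refine ⟨mob (-a) w, Mobius_maps ha' hw, ?_⟩
    have := mob_inv ha' (mem_ball_zero_iff.1 hw)
    rwa [neg_neg] at this

theorem mob_self (a : ℂ) : mob a a = 0 := by
  simp [mob]

theorem hasDerivAt_mob {a w : ℂ} (h : 1 - (starRingEnd ℂ) a * w ≠ 0) :
    HasDerivAt (mob a) (((1 - ‖a‖ ^ 2 : ℝ) : ℂ) / (1 - (starRingEnd ℂ) a * w) ^ 2) w := by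
  have h1 : HasDerivAt (fun w : ℂ => w - a) 1 w := (hasDerivAt_id w).sub_const a
  have h2 : HasDerivAt (fun w : ℂ => 1 - (starRingEnd ℂ) a * w) (-(starRingEnd ℂ) a) w := by
    have h3 : HasDerivAt (fun w : ℂ => (starRingEnd ℂ) a * w) ((starRingEnd ℂ) a) w := by
      simpa using (hasDerivAt_id w).const_mul ((starRingEnd ℂ) a)
    exact h3.const_sub 1
  have h3 := h1.div h2 h
  refine h3.congr_deriv ?_
  have h4 : (starRingEnd ℂ) a * a = ((‖a‖ ^ 2 : ℝ) : ℂ) := by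
    rw [mul_comm, Complex.mul_conj, Complex.normSq_eq_norm_sq]
  congr 1
  push_cast at h4 ⊢
  rw [← h4]
  ring

theorem mob_diff {a : ℂ} (ha : ‖a‖ < 1) : DifferentiableOn ℂ (mob a) Dk := by
  intro w hw
  exact (hasDerivAt_mob (mob_den ha (mem_ball_zero_iff.1 hw).le)).differentiableAt.differentiableWithinAt

end Pool.Agent.TB
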