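/-
Project TB (MP_d9e400_an). Module Hurwitz.
Hurwitz's theorem on limits of injective functions.

PROOF. g is holomorphic (TendstoLocallyUniformlyOn.differentiableOn; F n are). Suppose g is not constant on Ω and
g a = g b, a ≠ b in Ω. By the identity theorem (g - g a analytic on the preconnected Ω, not identically
zero) b is an isolated zero of g - g a, so there is r > 0 with closedBall b r ⊆ Ω \ {a} and ‖g - g a‖ ≥ m > 0
on sphere b r. H_n z = F n z - F n a has no zero on closedBall b r (injectivity). For large n ‖H_n‖ ≥ m/2 on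
the sphere (uniform convergence on the compact sphere, F n a → g a) while H_n b → g b - g a = 0. Maximum
principle for 1/H_n on the ball: 1/‖H_n b‖ ≤ 2/m, contradiction for large n.
-/
import Mathlib
import Pool.Agent.TB.Defs

set_option autoImplicit false

open Set Filter Topology Metric

namespace Pool.Agent.TB

theorem hurwitz_injOn {Ω : Set ℂ} (hΩ : IsOpen Ω) (hc : IsPreconnected Ω) {F : ℕ → ℂ → ℂ}
    {g : ℂ → ℂ} (hF : ∀ n, DifferentiableOn ℂ (F n) Ω) (hi : ∀ n, InjOn (F n) Ω)
    (hlim : TendstoLocallyUniformlyOn F g atTop Ω) :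
    InjOn g Ω ∨ ∃ c, ∀ z ∈ Ω, g z = c := by
  by_contra hcon
  push Not at hcon
  obtain ⟨hni, hnc⟩ := hcon
  have hg : DifferentiableOn ℂ g Ω := hlim.differentiableOn (Eventually.of_forall hF) hΩ
  have : ∃ a ∈ Ω, ∃ b ∈ Ω, g a = g b ∧ a ≠ b := by
    by_contra h
    push Not at h
    exact hni fun a ha b hb hab => h a ha b hb hab
  obtain ⟨a, ha, b, hb, hab, hne⟩ := this
  have hga : AnalyticOnNhd ℂ g Ω := hg.analyticOnNhd hΩ
  have hev : ∀ᶠ z in 𝓝[≠] b, g z ≠ g a := by
    rcases (hga b hb).eventually_eq_or_eventually_ne (g := fun _ => g a) analyticAt_const with h | h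
    · exfalso
      have h2 : EqOn g (fun _ => g a) Ω :=
        hga.eqOn_of_preconnected_of_eventuallyEq analyticOnNhd_const hc hb h
      obtain ⟨z, hz, hz2⟩ := hnc (g a)
      exact hz2 (h2 hz)
    · exact h
  have hU : ∀ᶠ z in 𝓝 b, z ∈ Ω ∧ z ≠ a ∧ (z ≠ b → g z ≠ g a) := by
    have h1 : ∀ᶠ z in 𝓝 b, z ∈ Ω := hΩ.mem_nhds hb
    have h2 : ∀ᶠ z in 𝓝 b, z ≠ a := isOpen_ne.mem_nhds hne.symm
    have h3 : ∀ᶠ z in 𝓝 b, z ≠ b → g z ≠ g a := eventually_nhdsWithin_iff.1 hev
    exact h1.and (h2.and h3)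
  obtain ⟨r, hr, hball⟩ := Metric.nhds_basis_closedBall.eventually_iff.1 hU
  have hsub : closedBall b r ⊆ Ω := fun z hz => (hball hz).1
  have hsph : sphere b r ⊆ Ω := sphere_subset_closedBall.trans hsub
  have hcs : IsCompact (sphere b r) := isCompact_sphere b r
  have hcont : ContinuousOn (fun z => ‖g z - g a‖) (sphere b r) :=
    ((hg.continuousOn.mono hsph).sub continuousOn_const).norm
  have hnes : (sphere b r).Nonempty := NormedSpace.sphere_nonempty.2 hr.le
  obtain ⟨z0, hz0, hmin⟩ := hcs.exists_isMinOn hnes hcont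
  have hm : 0 < ‖g z0 - g a‖ := by
    rw [norm_pos_iff, sub_ne_zero]
    refine (hball (sphere_subset_closedBall hz0)).2.2 ?_
    intro h
    rw [h, mem_sphere, dist_self] at hz0
    exact hr.ne hz0
  set m := ‖g z0 - g a‖ with hmdef
  have hunif : TendstoUniformlyOn F g atTop (sphere b r) :=
    (tendstoLocallyUniformlyOn_iff_tendstoUniformlyOn_of_compact hcs).1 (hlim.mono hsph)
  have e1 : ∀ᶠ n in atTop, ∀ z ∈ sphere b r, dist (g z) (F n z) < m / 4 :=
    (Metric.tendstoUniformlyOn_iff.1 hunif) (m / 4) (by linarith)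
  have ta : Tendsto (fun n => F n a) atTop (𝓝 (g a)) := hlim.tendsto_at ha
  have tb : Tendsto (fun n => F n b) atTop (𝓝 (g b)) := hlim.tendsto_at hb
  have e2 : ∀ᶠ n in atTop, dist (F n a) (g a) < m / 4 :=
    (Metric.tendsto_nhds.1 ta) (m / 4) (by linarith)
  have e3 : ∀ᶠ n in atTop, dist (F n b) (g b) < m / 8 :=
    (Metric.tendsto_nhds.1 tb) (m / 8) (by linarith)
  have e4 : ∀ᶠ n in atTop, dist (F n a) (g a) < m / 8 :=
    (Metric.tendsto_nhds.1 ta) (m / 8) (by linarith)
  obtain ⟨n, h1, h2, h3, h4⟩ := (e1.and (e2.and (e3.and e4))).exists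
  have hnz : ∀ z ∈ closedBall b r, F n z - F n a ≠ 0 := by
    intro z hz h
    exact (hball hz).2.1 (hi n (hsub hz) ha (sub_eq_zero.1 h))
  have hd : DifferentiableOn ℂ (fun z => (F n z - F n a)⁻¹) (closedBall b r) :=
    (((hF n).mono hsub).sub (differentiableOn_const _)).inv hnz
  have hdc : DiffContOnCl ℂ (fun z => (F n z - F n a)⁻¹) (ball b r) := by
    refine ⟨hd.mono ball_subset_closedBall, ?_⟩
    rw [closure_ball b hr.ne']
    exact hd.continuousOn
  have hfr : ∀ z ∈ frontier (ball b r), ‖(F n z - F n a)⁻¹‖ ≤ 2 / m := by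
    intro z hz
    rw [frontier_ball b hr.ne'] at hz
    have h5 := h1 z hz
    have h6 : m ≤ ‖g z - g a‖ := hmin hz
    have h7 : m / 2 ≤ ‖F n z - F n a‖ := by
      rw [dist_eq_norm] at h5 h2
      have : g z - g a = (g z - F n z) + (F n z - F n a) + (F n a - g a) := by ring
      have h8 : ‖g z - g a‖ ≤ ‖g z - F n z‖ + ‖F n z - F n a‖ + ‖F n a - g a‖ := by
        rw [this]
        exact (norm_add_le _ _).trans (add_le_add (norm_add_le _ _) le_rfl)
      linarith
    rw [norm_inv, inv_le_comm₀ (lt_of_lt_of_le (by linarith) h7) (by positivity)]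
    rw [inv_div]
    exact h7
  have hfin := Complex.norm_le_of_forall_mem_frontier_norm_le isBounded_ball hdc hfr
    (subset_closure (mem_ball_self hr))
  have hb0 : 0 < ‖F n b - F n a‖ := norm_pos_iff.2 (hnz b (mem_closedBall_self hr.le))
  have h9 : ‖F n b - F n a‖ < m / 2 := by
    rw [dist_eq_norm] at h3 h4
    have : F n b - F n a = (F n b - g b) - (F n a - g a) := by rw [hab]; ring
    rw [this]
    have := norm_sub_le (F n b - g b) (F n a - g a)
    linarith
  rw [norm_inv, inv_le_comm₀ hb0 (by positivity), inv_div] at hfin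
  linarith

end Pool.Agent.TB
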