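/-
Project TB (MP_d9e400_an). Module Montel.
Montel's theorem for uniformly bounded sequences.

PROOF. (1) If closedBall x (2r) ⊆ Ω then all F n are (M/r)-Lipschitz on closedBall x r (Cauchy:
Complex.norm_deriv_le_of_forall_mem_sphere_norm_le, then the mean value inequality on a convex set).
(2) D a countable dense subset of Ω. The points (F n restricted to D) lie in the compact metrizable
space D → closedBall 0 M, so there is a subsequence φ with F (φ k) d convergent for each d ∈ D.
(3) By (1) F (φ k) z is Cauchy for each z ∈ Ω, and the convergence is uniform on each closedBall x r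
as in (1) (finite r-net of points of D), so it is locally uniform on Ω (Ω locally compact, open).
(4) the limit is holomorphic: TendstoLocallyUniformlyOn.differentiableOn.
(M may be negative: then Ω is empty.) You may instead use an Arzela-Ascoli theorem of Mathlib.
-/
import Mathlib
import Pool.Agent.TB.Defs

set_option autoImplicit false

open Set Filter Topology Metric

namespace Pool.Agent.TB

private theorem Montel_lip {Ω : Set ℂ} (hΩ : IsOpen Ω) (F : ℕ → ℂ → ℂ)
    (hF : ∀ n, DifferentiableOn ℂ (F n) Ω) {M : ℝ} (hM : ∀ n, ∀ z ∈ Ω, ‖F n z‖ ≤ M)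
    {x : ℂ} (hx : x ∈ Ω) :
    ∃ r : ℝ, 0 < r ∧ ball x r ⊆ Ω ∧ ∃ L : ℝ, 0 ≤ L ∧
      ∀ n, ∀ y ∈ ball x r, ∀ z ∈ ball x r, dist (F n y) (F n z) ≤ L * dist y z := by
  obtain ⟨R, hR, hRΩ⟩ := Metric.isOpen_iff.1 hΩ x hx
  have hM0 : 0 ≤ M := (norm_nonneg _).trans (hM 0 x hx)
  refine ⟨R / 3, by positivity, (ball_subset_ball (by linarith)).trans hRΩ, M / (R / 3),
    by positivity, ?_⟩
  intro n y hy z hz
  have hderiv : ∀ w ∈ ball x (R / 3), ‖deriv (F n) w‖ ≤ M / (R / 3) := by
    intro w hw
    have hsub : closedBall w (R / 3) ⊆ Ω := by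
      intro v hv
      apply hRΩ
      rw [mem_ball] at hw ⊢
      rw [mem_closedBall] at hv
      calc dist v x ≤ dist v w + dist w x := dist_triangle _ _ _
        _ < R := by linarith
    apply Complex.norm_deriv_le_of_forall_mem_sphere_norm_le (by positivity)
    · refine DifferentiableOn.diffContOnCl ?_
      refine (hF n).mono ?_
      exact closure_ball_subset_closedBall.trans hsub
    · intro v hv
      exact hM n v (hsub (sphere_subset_closedBall hv))
  have h := Convex.norm_image_sub_le_of_norm_deriv_le (f := F n) (s := ball x (R / 3))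
    (fun w hw => (hF n).differentiableAt (hΩ.mem_nhds
      ((ball_subset_ball (by linarith : R / 3 ≤ R)).trans hRΩ hw))) hderiv (convex_ball x (R / 3))
    hz hy
  rw [dist_eq_norm, dist_eq_norm]
  exact h

theorem montel {Ω : Set ℂ} (hΩ : IsOpen Ω) (F : ℕ → ℂ → ℂ)
    (hF : ∀ n, DifferentiableOn ℂ (F n) Ω) {M : ℝ} (hM : ∀ n, ∀ z ∈ Ω, ‖F n z‖ ≤ M) :
    ∃ φ : ℕ → ℕ, StrictMono φ ∧ ∃ g : ℂ → ℂ, DifferentiableOn ℂ g Ω ∧
      TendstoLocallyUniformlyOn (fun k => F (φ k)) g atTop Ω := by
  obtain ⟨Q, hQc, hQd⟩ := TopologicalSpace.exists_countable_dense ℂ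
  set D : Set ℂ := Q ∩ Ω with hD
  have hDc : D.Countable := hQc.mono inter_subset_left
  have : Countable D := hDc.to_subtype
  -- the subsequence
  have hK : IsCompact (Set.pi univ (fun _ : D => closedBall (0 : ℂ) M)) :=
    isCompact_univ_pi (fun _ => isCompact_closedBall 0 M)
  obtain ⟨a, -, φ, hφ, hlim⟩ := hK.tendsto_subseq (x := fun n (d : D) => F n d) (by
    intro n d _
    rw [mem_closedBall, dist_zero_right]
    exact hM n d d.2.2)
  have hlimD : ∀ d : D, Tendsto (fun k => F (φ k) d) atTop (𝓝 (a d)) := by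
    intro d
    exact (tendsto_pi_nhds.1 hlim) d
  -- pointwise convergence
  have hpt : ∀ x ∈ Ω, ∃ b, Tendsto (fun k => F (φ k) x) atTop (𝓝 b) := by
    intro x hx
    apply cauchySeq_tendsto_of_complete
    rw [Metric.cauchySeq_iff]
    intro ε hε
    obtain ⟨r, hr, hrΩ, L, hL, hlip⟩ := Montel_lip hΩ F hF hM hx
    set δ : ℝ := min r (ε / (3 * (L + 1))) with hδ
    have hδpos : 0 < δ := lt_min hr (by positivity)
    obtain ⟨d, hdQ, hdx⟩ := hQd.exists_dist_lt x hδpos
    have hdr : d ∈ ball x r := by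
      rw [mem_ball, dist_comm]
      exact lt_of_lt_of_le hdx (min_le_left _ _)
    have hdD : d ∈ D := ⟨hdQ, hrΩ hdr⟩
    have hdist : L * dist x d ≤ ε / 3 := by
      have h1 : dist x d ≤ ε / (3 * (L + 1)) := (lt_of_lt_of_le hdx (min_le_right _ _)).le
      calc L * dist x d ≤ (L + 1) * (ε / (3 * (L + 1))) := by
            apply mul_le_mul (by linarith) h1 dist_nonneg (by linarith)
        _ = ε / 3 := by field_simp
    have hc := (hlimD ⟨d, hdD⟩).cauchySeq
    rw [Metric.cauchySeq_iff] at hc
    obtain ⟨N, hN⟩ := hc (ε / 3) (by positivity)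
    refine ⟨N, fun m hm n hn => ?_⟩
    have h1 := hN m hm n hn
    have h2 := hlip (φ m) x (mem_ball_self hr) d hdr
    have h3 := hlip (φ n) d hdr x (mem_ball_self hr)
    rw [dist_comm d x] at h3
    calc dist (F (φ m) x) (F (φ n) x)
        ≤ dist (F (φ m) x) (F (φ m) d) + dist (F (φ m) d) (F (φ n) d)
          + dist (F (φ n) d) (F (φ n) x) := dist_triangle4 _ _ _ _
      _ < ε / 3 + ε / 3 + ε / 3 := by
          simp only at h1
          linarith
      _ = ε := by ring
  have hpt' : ∀ x, ∃ b, x ∈ Ω → Tendsto (fun k => F (φ k) x) atTop (𝓝 b) := by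
    intro x
    by_cases hx : x ∈ Ω
    · obtain ⟨b, hb⟩ := hpt x hx
      exact ⟨b, fun _ => hb⟩
    · exact ⟨0, fun h => absurd h hx⟩
  choose g hg using hpt'
  -- locally uniform convergence
  have hunif : TendstoLocallyUniformlyOn (fun k => F (φ k)) g atTop Ω := by
    rw [tendstoLocallyUniformlyOn_iff_forall_isCompact hΩ]
    intro K hKΩ hKc
    have heq : ∀ K' ∈ ({K} : Set (Set ℂ)), EquicontinuousOn (fun k => F (φ k)) K' := by
      intro K' hK' x hx
      rw [mem_singleton_iff] at hK'
      subst hK'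
      apply EquicontinuousAt.equicontinuousWithinAt
      rw [Metric.equicontinuousAt_iff]
      intro ε hε
      obtain ⟨r, hr, hrΩ, L, hL, hlip⟩ := Montel_lip hΩ F hF hM (hKΩ hx)
      refine ⟨min r (ε / (L + 1)), lt_min hr (by positivity), ?_⟩
      intro y hy k
      have hyr : y ∈ ball x r := lt_of_lt_of_le hy (min_le_left _ _)
      have h1 : dist y x < ε / (L + 1) := lt_of_lt_of_le hy (min_le_right _ _)
      have h2 := hlip (φ k) x (mem_ball_self hr) y hyr
      rw [dist_comm x y] at h2
      have h3 : L * dist y x < ε := by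
        rw [lt_div_iff₀ (by linarith)] at h1
        nlinarith [dist_nonneg (x := y) (y := x)]
      exact lt_of_le_of_lt h2 h3
    have h := (EquicontinuousOn.tendsto_uniformOnFun_iff_pi' (𝔖 := ({K} : Set (Set ℂ)))
      (by intro K' hK'; rw [mem_singleton_iff] at hK'; rw [hK']; exact hKc) heq atTop g).2 (by
        rw [tendsto_pi_nhds]
        rintro ⟨x, hx⟩
        have hxK : x ∈ K := by simpa using hx
        exact hg x (hKΩ hxK))
    rw [UniformOnFun.tendsto_iff_tendstoUniformlyOn] at h
    exact h K rfl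
  refine ⟨φ, hφ, g, ?_, hunif⟩
  exact hunif.differentiableOn (Eventually.of_forall (fun k => hF (φ k))) hΩ

end Pool.Agent.TB
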