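/-
Project TB (MP_d9e400_an). Module RiemMax.
The extremal problem of the Riemann mapping theorem.

PROOF. U ⊆ ball z₀ R; h₀ z = (z - z₀)/R is a competitor, deriv = 1/R > 0. Cauchy's estimate on ball z₀ r ⊆ U
bounds ‖deriv h z₀‖ by 1/r for all competitors. Let s = sSup; choose competitors h_n with ‖h_n' z₀‖ → s. montel:
a subsequence converges locally uniformly to g, deriv h_n z₀ → deriv g z₀
(TendstoLocallyUniformlyOn.deriv), so ‖deriv g z₀‖ = s ≥ 1/R > 0. g is not constant (if constant on the open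
U the derivative vanishes), injective by hurwitz_injOn. ‖g‖ ≤ 1 on U, and < 1 by the maximum modulus principle
(g not constant on the connected open U), g z₀ = 0. So g is a competitor.
-/
import Mathlib
import Pool.Agent.TB.Defs
import Pool.Agent.TB.Montel
import Pool.Agent.TB.Hurwitz

set_option autoImplicit false

open Set Filter Topology Metric

namespace Pool.Agent.TB

/-- competitors in the extremal problem -/
structure Comp (U : Set ℂ) (z₀ : ℂ) (h : ℂ → ℂ) : Prop where
  diff : DifferentiableOn ℂ h U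
  inj : InjOn h U
  maps : MapsTo h U Dk
  zero : h z₀ = 0

theorem RiemMax_start {U : Set ℂ} {z₀ : ℂ} {R : ℝ} (hR : 0 < R) (hUR : U ⊆ ball z₀ R) :
    Comp U z₀ (fun z => (z - z₀) / R) ∧ ‖deriv (fun z : ℂ => (z - z₀) / R) z₀‖ = 1 / R := by
  have hRc : (R : ℂ) ≠ 0 := by exact_mod_cast hR.ne'
  refine ⟨⟨?_, ?_, ?_, ?_⟩, ?_⟩
  · exact ((differentiable_id.sub_const z₀).div_const (R : ℂ)).differentiableOn
  · intro x _ y _ hxy
    have h1 : (x - z₀) / R = (y - z₀) / R := hxy
    rw [div_left_inj' hRc] at h1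
    exact sub_left_injective h1
  · intro z hz
    have h1 : ‖z - z₀‖ < R := by simpa [dist_eq_norm] using hUR hz
    have : ‖(z - z₀) / R‖ < 1 := by
      rw [norm_div, Complex.norm_real, Real.norm_of_nonneg hR.le, div_lt_one hR]
      exact h1
    simpa [Dk] using this
  · simp
  · have h1 : HasDerivAt (fun z : ℂ => (z - z₀) / R) (1 / R) z₀ :=
      ((hasDerivAt_id z₀).sub_const z₀).div_const (R : ℂ)
    rw [h1.deriv, norm_div, norm_one, Complex.norm_real, Real.norm_of_nonneg hR.le]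

theorem exists_max {U : Set ℂ} (ho : IsOpen U) (hc : IsConnected U)
    (hb : Bornology.IsBounded U) {z₀ : ℂ} (hz : z₀ ∈ U) :
    ∃ g : ℂ → ℂ, Comp U z₀ g ∧ 0 < ‖deriv g z₀‖ ∧ ∀ h, Comp U z₀ h → ‖deriv h z₀‖ ≤ ‖deriv g z₀‖ := by
  obtain ⟨R, hR, hUR⟩ := hb.subset_ball_lt 0 z₀
  obtain ⟨hC0, hd0⟩ := RiemMax_start hR hUR
  obtain ⟨r, hr, hrU⟩ := Metric.isOpen_iff.mp ho z₀ hz
  have hcl : closedBall z₀ (r / 2) ⊆ U :=
    (closedBall_subset_ball (by linarith)).trans hrU
  -- the set of values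
  set S : Set ℝ := {x | ∃ h, Comp U z₀ h ∧ x = ‖deriv h z₀‖} with hS
  have hSb : ∀ x ∈ S, x ≤ 1 / (r / 2) := by
    rintro x ⟨h, hh, rfl⟩
    refine Complex.norm_deriv_le_of_forall_mem_sphere_norm_le (by linarith) ?_ ?_
    · apply DifferentiableOn.diffContOnCl
      rw [closure_ball _ (by linarith : r / 2 ≠ 0)]
      exact hh.diff.mono hcl
    · intro z hz'
      have := hh.maps (hcl (sphere_subset_closedBall hz'))
      have h2 : ‖h z‖ < 1 := by simpa [Dk] using this
      exact h2.le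
  have hSB : BddAbove S := ⟨1 / (r / 2), hSb⟩
  have hSne : S.Nonempty := ⟨_, _, hC0, rfl⟩
  obtain ⟨u, -, hu, huS⟩ := exists_seq_tendsto_sSup hSne hSB
  choose F hF huF using huS
  obtain ⟨φ, hφ, g, hg, hlim⟩ := montel ho F (fun n => (hF n).diff) (M := 1) (fun n z hz' => by
    have h2 : ‖F n z‖ < 1 := by simpa [Dk] using (hF n).maps hz'
    exact h2.le)
  have hder := (hlim.deriv (Eventually.of_forall fun n => (hF (φ n)).diff) ho).tendsto_at hz
  have hder' : Tendsto (fun k => ‖deriv (F (φ k)) z₀‖) atTop (𝓝 ‖deriv g z₀‖) := hder.norm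
  have hu' : Tendsto (fun k => ‖deriv (F (φ k)) z₀‖) atTop (𝓝 (sSup S)) := by
    have := hu.comp hφ.tendsto_atTop
    refine this.congr fun k => ?_
    exact huF (φ k)
  have hs : ‖deriv g z₀‖ = sSup S := tendsto_nhds_unique hder' hu'
  have hle : ∀ h, Comp U z₀ h → ‖deriv h z₀‖ ≤ ‖deriv g z₀‖ := by
    intro h hh
    rw [hs]
    exact le_csSup hSB ⟨h, hh, rfl⟩
  have hpos : 0 < ‖deriv g z₀‖ := by
    have h1 := hle _ hC0
    rw [hd0] at h1
    have : 0 < 1 / R := by positivity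
    linarith
  have hnc : ¬ ∃ c, ∀ z ∈ U, g z = c := by
    rintro ⟨c, hc'⟩
    have h1 : g =ᶠ[𝓝 z₀] fun _ => c := by
      filter_upwards [ho.mem_nhds hz] with z hz'
      exact hc' z hz'
    rw [h1.deriv_eq, deriv_const, norm_zero] at hpos
    exact lt_irrefl _ hpos
  have hinj : InjOn g U :=
    (hurwitz_injOn ho hc.isPreconnected (fun n => (hF (φ n)).diff) (fun n => (hF (φ n)).inj)
      hlim).resolve_right hnc
  have hle1 : ∀ z ∈ U, ‖g z‖ ≤ 1 := by
    intro z hz'
    refine le_of_tendsto (hlim.tendsto_at hz').norm (Eventually.of_forall fun n => ?_)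
    have h2 : ‖F (φ n) z‖ < 1 := by simpa [Dk] using (hF (φ n)).maps hz'
    exact h2.le
  have hlt1 : ∀ z ∈ U, ‖g z‖ < 1 := by
    intro z hz'
    refine lt_of_le_of_ne (hle1 z hz') fun h1 => hnc ?_
    have hm : IsMaxOn (norm ∘ g) U z := by
      intro w hw
      simp only [Function.comp_apply, mem_ofPred_eq, h1]
      exact hle1 w hw
    have := Complex.eqOn_of_isPreconnected_of_isMaxOn_norm hc.isPreconnected ho hg hz' hm
    exact ⟨g z, fun w hw => this hw⟩
  have hg0 : g z₀ = 0 := by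
    have h1 := hlim.tendsto_at hz
    have h2 : Tendsto (fun n => F (φ n) z₀) atTop (𝓝 0) := by
      simp only [(hF _).zero]
      exact tendsto_const_nhds
    exact tendsto_nhds_unique h1 h2
  exact ⟨g, ⟨hg, hinj, fun z hz' => by simpa [Dk] using hlt1 z hz', hg0⟩, hpos, hle⟩

end Pool.Agent.TB
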