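/-
Project TB (MP_d9e400_an). Module Riemann.
The Riemann mapping theorem for bounded domains without holes.

PROOF. g from exists_max. Claim g '' U = Dk. Suppose a ∈ Dk, a ∉ g '' U. a ≠ 0 since g z₀ = 0. mob a ∘ g has no zero in U;
exists_sqrt_holo: q holomorphic on U, q² = mob a ∘ g, ‖q‖ < 1, q injective (q x = q y → mob a (g x) = mob a (g y)).
b = q z₀, ‖b‖² = ‖a‖, 0 < ‖b‖ < 1. G = mob b ∘ q is a competitor (Comp). Derivatives at z₀ (chain rule,
hasDerivAt_mob): ‖(mob a ∘ g)'‖ = (1-|a|²)‖g'‖; 2 q q' = this, ‖q'‖ = (1-|a|²)‖g'‖/(2√|a|); ‖G'‖ = ‖q'‖/(1-|b|²) =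
‖q'‖/(1-|a|) = ‖g'‖ (1+|a|)/(2√|a|) > ‖g'‖ since 0 < |a| < 1. Contradiction with maximality.
So g : U → Dk is bijective; φ = its inverse (exists_inverse), φ 0 = z₀.
-/
import Mathlib
import Pool.Agent.TB.Defs
import Pool.Agent.TB.Mobius
import Pool.Agent.TB.RiemMax
import Pool.Agent.TB.LogSC
import Pool.Agent.TB.Injective

set_option autoImplicit false

open Set Filter Topology Metric

namespace Pool.Agent.TB

theorem riemann {U : Set ℂ} (hU : SC U) (hb : Bornology.IsBounded U) {z₀ : ℂ} (hz : z₀ ∈ U) :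
    ∃ φ : ℂ → ℂ, Conf φ U ∧ φ 0 = z₀ := by
  obtain ⟨g, hg, hgpos, hmax⟩ := exists_max hU.isOpen hU.conn hb hz
  have hUz : U ∈ 𝓝 z₀ := hU.isOpen.mem_nhds hz
  have himg : g '' U = Dk := by
    refine Subset.antisymm (mapsTo_iff_image_subset.mp hg.maps) ?_
    intro a ha
    by_contra hna
    have ha1 : ‖a‖ < 1 := mem_ball_zero_iff.mp ha
    have ha0 : a ≠ 0 := by
      rintro rfl
      exact hna ⟨z₀, hz, hg.zero⟩
    have hw1 : ∀ z ∈ U, ‖g z‖ < 1 := fun z hzU => mem_ball_zero_iff.mp (hg.maps hzU)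
    have hpd : DifferentiableOn ℂ (fun z => mob a (g z)) U := (mob_diff ha1).comp hg.diff hg.maps
    have hp0 : ∀ z ∈ U, mob a (g z) ≠ 0 := by
      intro z hzU h0
      unfold mob at h0
      rw [div_eq_zero_iff] at h0
      rcases h0 with h0 | h0
      · exact hna ⟨z, hzU, sub_eq_zero.mp h0⟩
      · exact mob_den ha1 (hw1 z hzU).le h0
    obtain ⟨q, hqd, hq⟩ := exists_sqrt_holo hU hpd hp0
    have hq1 : ∀ z ∈ U, ‖q z‖ < 1 := by
      intro z hzU
      have h1 : ‖mob a (g z)‖ < 1 := mem_ball_zero_iff.mp ((mob_bijOn ha1).mapsTo (hg.maps hzU))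
      rw [← hq z hzU, norm_pow] at h1
      by_contra h2
      have h3 : (1 : ℝ) ≤ ‖q z‖ ^ 2 := one_le_pow₀ (not_lt.mp h2)
      linarith
    have hqi : InjOn q U := by
      intro x hx y hy hxy
      have h1 : mob a (g x) = mob a (g y) := by
        rw [← hq x hx, ← hq y hy, hxy]
      exact hg.inj hx hy ((mob_bijOn ha1).injOn (hg.maps hx) (hg.maps hy) h1)
    have hqm : MapsTo q U Dk := fun z hzU => mem_ball_zero_iff.mpr (hq1 z hzU)
    have hb1 : ‖q z₀‖ < 1 := hq1 z₀ hz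
    have hG : Comp U z₀ (fun z => mob (q z₀) (q z)) :=
      ⟨(mob_diff hb1).comp hqd hqm, fun x hx y hy hxy =>
        hqi hx hy ((mob_bijOn hb1).injOn (hqm hx) (hqm hy) hxy),
        fun z hzU => (mob_bijOn hb1).mapsTo (hqm hzU), mob_self _⟩
    -- derivatives
    have hgd : HasDerivAt g (deriv g z₀) z₀ := ((hg.diff z₀ hz).differentiableAt hUz).hasDerivAt
    have hqD : HasDerivAt q (deriv q z₀) z₀ := ((hqd z₀ hz).differentiableAt hUz).hasDerivAt
    have hsq : (q z₀) ^ 2 = -a := by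
      rw [hq z₀ hz, hg.zero]
      unfold mob
      simp
    have hta : ‖q z₀‖ ^ 2 = ‖a‖ := by
      rw [← norm_pow, hsq, norm_neg]
    set t := ‖q z₀‖ with ht
    have ht0 : 0 < t := by
      rw [ht, norm_pos_iff]
      intro h0
      rw [h0] at hsq
      apply ha0
      have : a = -(0 ^ 2) := by rw [hsq, neg_neg]
      simpa using this
    have hpD : HasDerivAt (fun z => mob a (g z)) (((1 - ‖a‖ ^ 2 : ℝ) : ℂ) * deriv g z₀) z₀ := by
      have h1 : 1 - (starRingEnd ℂ) a * g z₀ ≠ 0 := mob_den ha1 (hw1 z₀ hz).le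
      have h2 := HasDerivAt.comp (h₂ := mob a) (h := g) z₀ (hasDerivAt_mob h1) hgd
      rw [hg.zero, mul_zero, sub_zero, one_pow, div_one] at h2
      exact h2
    have hpD2 : HasDerivAt (fun z => mob a (g z)) (2 * q z₀ * deriv q z₀) z₀ := by
      have h1 := hqD.pow 2
      have e1 : ((2 : ℕ) : ℂ) * q z₀ ^ (2 - 1) * deriv q z₀ = 2 * q z₀ * deriv q z₀ := by
        norm_num
      rw [e1] at h1
      have h2 : HasDerivAt (fun z => q z ^ 2) (2 * q z₀ * deriv q z₀) z₀ := h1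
      refine h2.congr_of_eventuallyEq ?_
      filter_upwards [hUz] with z hzU
      exact (hq z hzU).symm
    have heq := hpD.unique hpD2
    have hGD : HasDerivAt (fun z => mob (q z₀) (q z))
        (((1 - t ^ 2 : ℝ) : ℂ) / (1 - (starRingEnd ℂ) (q z₀) * q z₀) ^ 2 * deriv q z₀) z₀ := by
      have h1 : 1 - (starRingEnd ℂ) (q z₀) * q z₀ ≠ 0 := mob_den hb1 hb1.le
      exact HasDerivAt.comp (h₂ := mob (q z₀)) (h := q) z₀ (hasDerivAt_mob h1) hqD
    have hcc : 1 - (starRingEnd ℂ) (q z₀) * q z₀ = ((1 - t ^ 2 : ℝ) : ℂ) := by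
      rw [mul_comm, Complex.mul_conj, Complex.normSq_eq_norm_sq, ← ht]
      push_cast
      ring
    have hle := hmax _ hG
    rw [hGD.deriv, hcc] at hle
    have ht1 : 0 < 1 - t ^ 2 := by nlinarith [hb1]
    have hn1 : ‖((1 - t ^ 2 : ℝ) : ℂ) / ((1 - t ^ 2 : ℝ) : ℂ) ^ 2 * deriv q z₀‖ =
        ‖deriv q z₀‖ / (1 - t ^ 2) := by
      rw [norm_mul, norm_div, norm_pow, Complex.norm_real, Real.norm_eq_abs, abs_of_pos ht1]
      field_simp
    rw [hn1, div_le_iff₀ ht1] at hle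
    have hn2 := congrArg norm heq
    rw [norm_mul, norm_mul, norm_mul, Complex.norm_real, Real.norm_eq_abs, ← ht, ← hta] at hn2
    have h5 : |1 - (t ^ 2) ^ 2| = (1 - t ^ 2) * (1 + t ^ 2) := by
      rw [abs_of_pos]
      · ring
      · nlinarith
    have h6 : ‖(2 : ℂ)‖ = 2 := by simp
    rw [h5, h6] at hn2
    -- (1 - t²)(1 + t²) D = 2 t Q,  Q ≤ D (1 - t²)
    have h7 : (1 - t ^ 2) * (1 + t ^ 2) * ‖deriv g z₀‖ ≤ 2 * t * (‖deriv g z₀‖ * (1 - t ^ 2)) := by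
      rw [hn2]
      exact mul_le_mul_of_nonneg_left hle (by positivity)
    have h8 : 0 < (1 - t ^ 2) * ‖deriv g z₀‖ := mul_pos ht1 hgpos
    have h9 : (1 + t ^ 2) * ((1 - t ^ 2) * ‖deriv g z₀‖) ≤ (2 * t) * ((1 - t ^ 2) * ‖deriv g z₀‖) := by
      linarith
    have h10 := le_of_mul_le_mul_right h9 h8
    have h11 : 0 < (1 - t) ^ 2 := by
      have : 0 < 1 - t := by linarith
      positivity
    nlinarith
  obtain ⟨k, hkd, hkl, hkm, hkr⟩ := exists_inverse hU.isOpen hg.diff hg.inj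
  rw [himg] at hkd hkm hkr
  refine ⟨k, ⟨hkd, hkm, ?_, ?_⟩, ?_⟩
  · intro x hx y hy hxy
    rw [← hkr x hx, ← hkr y hy, hxy]
  · intro z hzU
    exact ⟨g z, hg.maps hzU, hkl z hzU⟩
  · rw [← hg.zero]
    exact hkl z₀ hz

end Pool.Agent.TB
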