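/-
Project TB (MP_d9e400_an). Module Top3.
U and the inverted V have no holes.

PROOFS. sc_U: open, connected. hull: X ⊆ U compact, a ∉ U, suppose C = connectedComponentIn Xᶜ a bounded.
C is open, a ∈ C, frontier C ⊆ X ⊆ U ⊆ K, so iterates are bounded on C (iterK, iter_bdd_inside), so C does
not meet frontier U (not_bdd_nhds). C is connected, contained in U ∪ (closure U)ᶜ and a ∉ U, so
C ∩ closure U = ∅. But frontier C is nonempty and contained in the open set U, so C meets U. Contradiction.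
sc_Vstar: recall z₀ ∈ U, so z₀ ∉ V. Write K = Vᶜ (compact, connected). Vstar is open: near u ≠ 0 by continuity
of u ↦ z₀ + u⁻¹; near 0: if V ⊇ {R < ‖z‖} then u ≠ 0, ‖u‖ < 1/(|R| + ‖z₀‖ + 1) gives ‖z₀ + u⁻¹‖ > R.
Connected: Vstar \ {0} is the image of V under z ↦ (z - z₀)⁻¹, and 0 is in its closure
(IsConnected.subset_closure). hull: let X ⊆ Vstar be compact, a ∉ Vstar, C = connectedComponentIn Xᶜ a, suppose
C ⊆ closedBall 0 R. a ≠ 0 and z₀ + a⁻¹ ∈ K. Let A = {z ∈ K | z ≠ z₀, (z - z₀)⁻¹ ∈ C}. It is nonempty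
(contains z₀ + a⁻¹), relatively open in K (C open). It is closed: frontier C ⊆ X ⊆ Vstar; if z_n ∈ A tends to z
then ‖z_n - z₀‖ ≥ 1/R, so z ≠ z₀, z ∈ K and u = (z - z₀)⁻¹ ∈ closure C; u ∉ Vstar (as z ∈ K), so u ∉ frontier C,
u ∈ C. K is connected, so A = K; but z₀ ∈ K \ A. Contradiction.
bdd_Vstar: ball z₀ δ ⊆ U is disjoint from V, so u ∈ Vstar, u ≠ 0 gives ‖u⁻¹‖ ≥ δ, ‖u‖ ≤ 1/δ.
-/
import Mathlib
import Pool.Agent.TB.Defs
import Pool.Agent.TB.Top2

set_option autoImplicit false

open Set Filter Topology Metric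

namespace Pool.Agent.TB

variable {f : ℂ → ℂ} {U : Set ℂ} {z₀ : ℂ}

theorem Top3_comp_aux {X : Set ℂ} (hX : IsClosed X) (a : ℂ) :
    IsOpen (connectedComponentIn Xᶜ a) ∧ frontier (connectedComponentIn Xᶜ a) ⊆ X := by
  have hO : IsOpen (connectedComponentIn Xᶜ a) := hX.isOpen_compl.connectedComponentIn
  refine ⟨hO, ?_⟩
  intro y hy
  by_contra hyX
  rw [hO.frontier_eq] at hy
  have hD : IsOpen (connectedComponentIn Xᶜ y) := hX.isOpen_compl.connectedComponentIn
  have hyD : y ∈ connectedComponentIn Xᶜ y := mem_connectedComponentIn hyX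
  obtain ⟨z, hz1, hz2⟩ := mem_closure_iff.1 hy.1 _ hD hyD
  have h1 := connectedComponentIn_eq hz1
  have h2 := connectedComponentIn_eq hz2
  apply hy.2
  rw [h2, ← h1]
  exact hyD

theorem sc_U (B : Basin f U z₀) : SC U := by
  refine ⟨B.isOpen, B.conn, ?_⟩
  intro X hXU hX a ha hbd
  obtain ⟨hO, hfr⟩ := Top3_comp_aux hX.isClosed a
  set C := connectedComponentIn Xᶜ a with hC
  have haX : a ∈ Xᶜ := fun h => ha (hXU h)
  have haC : a ∈ C := mem_connectedComponentIn haX
  obtain ⟨M, hM⟩ := iterK B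
  have hUK : U ⊆ (Vset U)ᶜ := subset_closure.trans (closure_subset_K B)
  have h1 : ∀ n : ℕ, ∀ z ∈ C, ‖f^[n] z‖ ≤ M :=
    iter_bdd_inside B hO hbd (fun n z hz => hM n z (hUK (hXU (hfr hz))))
  have hdis : Disjoint C (frontier U) := not_bdd_nhds B hO h1
  have hfrU : frontier U = closure U \ U := B.isOpen.frontier_eq
  have hcl : ∀ z ∈ C, z ∉ U → z ∉ closure U := by
    intro z hz hzU hzc
    exact (Set.disjoint_left.1 hdis) hz (by rw [hfrU]; exact ⟨hzc, hzU⟩)
  have hCpre : IsPreconnected C := isPreconnected_connectedComponentIn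
  have hsub : C ⊆ (closure U)ᶜ := by
    apply hCpre.subset_right_of_subset_union B.isOpen isClosed_closure.isOpen_compl
    · exact disjoint_compl_right.mono_left subset_closure
    · intro z hz
      by_cases hzU : z ∈ U
      · exact Or.inl hzU
      · exact Or.inr (hcl z hz hzU)
    · exact ⟨a, haC, hcl a haC ha⟩
  have hne : (frontier C).Nonempty := by
    rw [nonempty_frontier_iff]
    refine ⟨⟨a, haC⟩, ?_⟩
    intro h
    rw [h] at hbd
    exact NormedSpace.unbounded_univ ℝ ℂ hbd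
  obtain ⟨y, hy⟩ := hne
  have hyU : y ∈ U := hXU (hfr hy)
  obtain ⟨z, hz1, hz2⟩ := mem_closure_iff.1 (frontier_subset_closure hy) _ B.isOpen hyU
  exact hsub hz2 (subset_closure hz1)

theorem sc_Vstar (B : Basin f U z₀) : SC (Vstar U z₀) := by
  have hVo : IsOpen (Vset U) := isOpen_V B
  obtain ⟨R, hR⟩ := exists_large B
  have hz₀V : z₀ ∉ Vset U := closure_subset_K B (subset_closure B.mem)
  refine ⟨?_, ?_, ?_⟩
  · rw [isOpen_iff_mem_nhds]
    rintro u (rfl | ⟨hu0, hu⟩)
    · have hε : 0 < 1 / (|R| + ‖z₀‖ + 1) := by positivity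
      filter_upwards [Metric.ball_mem_nhds (0 : ℂ) hε] with v hv
      by_cases hv0 : v = 0
      · exact Or.inl hv0
      · right
        refine ⟨hv0, hR _ ?_⟩
        rw [mem_ball_zero_iff] at hv
        have hvn : 0 < ‖v‖ := norm_pos_iff.2 hv0
        have h1 : |R| + ‖z₀‖ + 1 < ‖v⁻¹‖ := by
          rw [norm_inv]
          rw [lt_div_iff₀ (by positivity)] at hv
          rw [lt_inv_comm₀ (by positivity) hvn]
          rw [lt_inv_comm₀ hvn (by positivity), inv_eq_one_div, lt_div_iff₀ hvn]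
          linarith [mul_comm ‖v‖ (|R| + ‖z₀‖ + 1)]
        have h2 : ‖v⁻¹‖ ≤ ‖z₀ + v⁻¹‖ + ‖z₀‖ := by
          calc ‖v⁻¹‖ = ‖(z₀ + v⁻¹) - z₀‖ := by congr 1; ring
            _ ≤ _ := norm_sub_le _ _
        have h3 := le_abs_self R
        linarith
    · have hc : ContinuousAt (fun u : ℂ => z₀ + u⁻¹) u :=
        continuousAt_const.add (continuousAt_inv₀ hu0)
      filter_upwards [isOpen_ne.mem_nhds hu0, hc.preimage_mem_nhds (hVo.mem_nhds hu)]
        with v hv0 hv
      exact Or.inr ⟨hv0, hv⟩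
  · set T : Set ℂ := (fun z => (z - z₀)⁻¹) '' (Vset U) with hT
    have hne : ∀ z ∈ Vset U, z - z₀ ≠ 0 := by
      intro z hz h
      rw [sub_eq_zero] at h
      exact hz₀V (h ▸ hz)
    have hTc : IsConnected T := by
      apply (isConnected_V B).image
      apply ContinuousOn.inv₀ (continuousOn_id.sub continuousOn_const)
      exact hne
    apply hTc.subset_closure
    · rintro _ ⟨z, hz, rfl⟩
      right
      refine ⟨inv_ne_zero (hne z hz), ?_⟩
      simpa using hz
    · rintro u (rfl | ⟨hu0, hu⟩)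
      · rw [Metric.mem_closure_iff]
        intro ε hε
        set r : ℝ := |R| + ‖z₀‖ + 1 / ε + 1 with hr
        have hrpos : 0 < 1 / ε := by positivity
        have hr0 : 0 < r := by positivity
        have hrn : ‖(r : ℂ)‖ = r := by
          rw [Complex.norm_real, Real.norm_eq_abs, abs_of_pos hr0]
        have hrV : (r : ℂ) ∈ Vset U := by
          apply hR
          rw [hrn]
          have h3 := le_abs_self R
          have := norm_nonneg z₀
          linarith
        refine ⟨((r : ℂ) - z₀)⁻¹, ⟨(r : ℂ), hrV, rfl⟩, ?_⟩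
        rw [dist_zero_left, norm_inv]
        have h1 : 1 / ε < ‖(r : ℂ) - z₀‖ := by
          have h2 := norm_sub_norm_le (r : ℂ) z₀
          rw [hrn] at h2
          have := abs_nonneg R
          linarith
        have h0 : 0 < ‖(r : ℂ) - z₀‖ := hrpos.trans h1
        rw [inv_lt_comm₀ h0 hε, inv_eq_one_div]
        exact h1
      · apply subset_closure
        exact ⟨z₀ + u⁻¹, hu, by simp⟩
  · intro X hXV hX a ha hbd
    obtain ⟨hO, hfr⟩ := Top3_comp_aux hX.isClosed a
    set C := connectedComponentIn Xᶜ a with hC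
    have haX : a ∈ Xᶜ := fun h => ha (hXV h)
    have haC : a ∈ C := mem_connectedComponentIn haX
    have ha0 : a ≠ 0 := fun h => ha (Or.inl h)
    have haV : z₀ + a⁻¹ ∉ Vset U := fun h => ha (Or.inr ⟨ha0, h⟩)
    obtain ⟨r, hr0, hr⟩ : ∃ r : ℝ, 0 < r ∧ ∀ u ∈ C, ‖u‖ ≤ r := by
      obtain ⟨r, hr⟩ := hbd.exists_norm_le
      exact ⟨max r 1, by positivity, fun u hu => (hr u hu).trans (le_max_left _ _)⟩
    set O : Set ℂ := {z | z ≠ z₀ ∧ (z - z₀)⁻¹ ∈ C} with hOdef
    have hcz : ∀ z : ℂ, z ≠ z₀ → ContinuousAt (fun z : ℂ => (z - z₀)⁻¹) z := by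
      intro z hz
      exact (continuousAt_id.sub continuousAt_const).inv₀ (sub_ne_zero.2 hz)
    have hOo : IsOpen O := by
      rw [isOpen_iff_mem_nhds]
      rintro z ⟨hz, hzC⟩
      filter_upwards [isOpen_ne.mem_nhds hz, (hcz z hz).preimage_mem_nhds (hO.mem_nhds hzC)]
        with v hv0 hv
      exact ⟨hv0, hv⟩
    have hOfar : closure O ⊆ {z : ℂ | 1 / r ≤ ‖z - z₀‖} := by
      apply closure_minimal
      · rintro z ⟨hz, hzC⟩
        have h1 := hr _ hzC
        have h0 : 0 < ‖z - z₀‖ := norm_pos_iff.2 (sub_ne_zero.2 hz)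
        rw [norm_inv, inv_le_comm₀ h0 hr0] at h1
        show 1 / r ≤ ‖z - z₀‖
        rw [one_div]
        exact h1
      · exact isClosed_le continuous_const (continuous_id.sub continuous_const).norm
    have hK : IsPreconnected (Vset U)ᶜ := (isConnected_K B).isPreconnected
    have hsub : (Vset U)ᶜ ⊆ O := by
      apply hK.subset_of_closure_inter_subset hOo
      · refine ⟨z₀ + a⁻¹, haV, ?_, ?_⟩
        · intro h
          have : a⁻¹ = 0 := by simpa using h
          exact ha0 (inv_eq_zero.1 this)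
        · simpa using haC
      · rintro z ⟨hzO, hzK⟩
        have h1 := hOfar hzO
        have hz : z ≠ z₀ := by
          rintro rfl
          have h2 : 1 / r ≤ ‖z - z‖ := h1
          rw [sub_self, norm_zero] at h2
          have : 0 < 1 / r := by positivity
          linarith
        refine ⟨hz, ?_⟩
        have h2 : (z - z₀)⁻¹ ∈ closure C :=
          (hcz z hz).continuousWithinAt.mem_closure hzO (fun w hw => hw.2)
        by_contra h3
        have h4 : (z - z₀)⁻¹ ∈ frontier C := by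
          rw [hO.frontier_eq]
          exact ⟨h2, h3⟩
        rcases hXV (hfr h4) with h5 | ⟨h5, h6⟩
        · exact (sub_ne_zero.2 hz) (inv_eq_zero.1 h5)
        · apply hzK
          simpa using h6
    exact (hsub hz₀V).1 rfl

theorem bdd_Vstar (B : Basin f U z₀) : Bornology.IsBounded (Vstar U z₀) := by
  obtain ⟨δ, hδ, hball⟩ := Metric.isOpen_iff.1 B.isOpen z₀ B.mem
  have hUK : U ⊆ (Vset U)ᶜ := subset_closure.trans (closure_subset_K B)
  apply (Metric.isBounded_closedBall (x := (0 : ℂ)) (r := 1 / δ)).subset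
  rintro u (rfl | ⟨hu0, hu⟩)
  · simp [hδ.le]
  · rw [mem_closedBall_zero_iff]
    by_contra hcon
    push Not at hcon
    have hun : 0 < ‖u‖ := norm_pos_iff.2 hu0
    refine hUK (hball ?_) hu
    rw [mem_ball, dist_eq_norm]
    have : z₀ + u⁻¹ - z₀ = u⁻¹ := by ring
    rw [this, norm_inv, inv_lt_comm₀ hun hδ, inv_eq_one_div]
    exact hcon

end Pool.Agent.TB
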