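/-
Project TB (MP_d9e400_an). Module ExtMap.
The conformal map of the punctured disc onto V.

PROOF. riemann (sc_Vstar B) (bdd_Vstar B) (0 ∈ Vstar): χ conformal Dk → Vstar U z₀, χ 0 = 0. Ψ w = z₀ + (χ w)⁻¹. For w ∈ Dk \ {0}:
χ w ≠ 0 (injective), χ w ∈ Vstar so Ψ w ∈ V. bij: injective; for z ∈ V, z ≠ z₀ (z₀ ∈ U), u = (z-z₀)⁻¹ ∈ Vstar \ {0}, u = χ w, w ≠ 0.
far: suppose not for ρ: w_n ≠ 0, ‖w_n‖ ≤ ρ, infDist (Ψ w_n) Vᶜ < 1/n. Vᶜ = K compact, so Ψ w_n is bounded; subsequence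
w_n → w, ‖w‖ ≤ ρ; χ w_n = (Ψ w_n - z₀)⁻¹ is bounded away from 0, so χ w ≠ 0, w ≠ 0, Ψ w_n → Ψ w ∈ V open, infDist > 0:
contradiction. bd: ‖χ w‖ = 1/‖Ψ w - z₀‖ ≥ 1/(R+‖z₀‖+1) if ‖Ψ w‖ ≤ R (Ψ w ≠ z₀), and χ is continuous at 0, χ 0 = 0: so ‖w‖ ≥ m.
out: χ(ball 0 (1/2)) is open (isOpen_image_of_injOn) and contains 0, so it contains ball 0 δ; for 1/2 ≤ ‖w‖ < 1, χ w ∉ ball 0 δ by
injectivity, ‖Ψ w‖ ≤ ‖z₀‖ + 1/δ.
-/
import Mathlib
import Pool.Agent.TB.Defs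
import Pool.Agent.TB.Riemann
import Pool.Agent.TB.ConfA
import Pool.Agent.TB.Top3

set_option autoImplicit false

open Set Filter Topology Metric

namespace Pool.Agent.TB

theorem exists_ext {f : ℂ → ℂ} {U : Set ℂ} {z₀ : ℂ} (B : Basin f U z₀) :
    ∃ Ψ : ℂ → ℂ, Ext (Vset U) Ψ := by
  obtain ⟨χ, hχ, hχ0⟩ := riemann (sc_Vstar B) (bdd_Vstar B) (z₀ := 0) (Or.inl rfl)
  have h0 : (0 : ℂ) ∈ Dk := by simp
  have hne : ∀ w ∈ Dk \ {0}, χ w ≠ 0 := by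
    intro w hw h
    exact hw.2 (hχ.bij.injOn hw.1 h0 (h.trans hχ0.symm))
  have hz₀ : z₀ ∉ Vset U := closure_subset_K B (subset_closure B.mem)
  have hcont : ContinuousAt χ 0 := (hχ.diff.continuousOn 0 h0).continuousAt (isOpen_ball.mem_nhds h0)
  have hsmall : ∀ δ : ℝ, 0 < δ → ∃ η : ℝ, 0 < η ∧ ∀ w : ℂ, ‖w‖ < η → ‖χ w‖ < δ := by
    intro δ hδ
    obtain ⟨η, hη, h⟩ := Metric.continuousAt_iff.1 hcont δ hδ
    refine ⟨η, hη, fun w hw => ?_⟩
    have := h (x := w) (by simpa using hw)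
    simpa [hχ0] using this
  have hbig : ∀ M : ℝ, ∃ η : ℝ, 0 < η ∧ ∀ w ∈ Dk \ {0}, ‖w‖ < η → M < ‖z₀ + (χ w)⁻¹‖ := by
    intro M
    have hpos : 0 < |M| + ‖z₀‖ + 1 := by positivity
    obtain ⟨η, hη, h⟩ := hsmall (1 / (|M| + ‖z₀‖ + 1)) (by positivity)
    refine ⟨η, hη, fun w hw hw2 => ?_⟩
    have h1 := h w hw2
    have h2 : 0 < ‖χ w‖ := norm_pos_iff.2 (hne w hw)
    have h3 : |M| + ‖z₀‖ + 1 < ‖(χ w)⁻¹‖ := by
      rw [norm_inv, lt_inv_comm₀ hpos h2, ← one_div]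
      exact h1
    have h4 : ‖(χ w)⁻¹‖ - ‖z₀‖ ≤ ‖z₀ + (χ w)⁻¹‖ := by
      have := norm_sub_norm_le ((χ w)⁻¹) (-z₀)
      rw [norm_neg, sub_neg_eq_add, add_comm] at this
      exact this
    have h5 := le_abs_self M
    linarith
  have hdiff : DifferentiableOn ℂ (fun w => z₀ + (χ w)⁻¹) (Dk \ {0}) :=
    (differentiableOn_const z₀).add ((hχ.diff.mono sdiff_subset).inv hne)
  have hmaps : MapsTo (fun w => z₀ + (χ w)⁻¹) (Dk \ {0}) (Vset U) := by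
    intro w hw
    rcases hχ.bij.mapsTo hw.1 with h | h
    · exact absurd h (hne w hw)
    · exact h.2
  obtain ⟨R, hR⟩ := (isCompact_K B).isBounded.exists_norm_le
  have hKne : ((Vset U)ᶜ).Nonempty := ⟨z₀, hz₀⟩
  refine ⟨fun w => z₀ + (χ w)⁻¹, hdiff, ⟨hmaps, ?_, ?_⟩, ?_, ?_, ?_⟩
  · intro w hw w' hw' h
    have h1 : (χ w)⁻¹ = (χ w')⁻¹ := by simpa using h
    exact hχ.bij.injOn hw.1 hw'.1 (inv_injective h1)
  · intro z hz
    have hzz : z - z₀ ≠ 0 := fun h => hz₀ (by rwa [← sub_eq_zero.1 h])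
    have hu : (z - z₀)⁻¹ ∈ Vstar U z₀ := by
      refine Or.inr ⟨inv_ne_zero hzz, ?_⟩
      rw [inv_inv]
      simpa using hz
    obtain ⟨w, hw, hw2⟩ := hχ.bij.surjOn hu
    refine ⟨w, ⟨hw, fun h => ?_⟩, ?_⟩
    · rw [mem_singleton_iff] at h
      rw [h, hχ0] at hw2
      exact inv_ne_zero hzz hw2.symm
    · change z₀ + (χ w)⁻¹ = z
      rw [hw2, inv_inv]
      ring
  · intro ρ hρ
    obtain ⟨η, hη, h⟩ := hbig (R + 1)
    have hc : ContinuousOn (fun w => infDist (z₀ + (χ w)⁻¹) (Vset U)ᶜ)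
        (closedBall (0 : ℂ) ρ ∩ {w | η ≤ ‖w‖}) := by
      refine (continuous_infDist_pt _).comp_continuousOn (hdiff.continuousOn.mono ?_)
      rintro w ⟨h1, h2⟩
      refine ⟨?_, fun h3 => ?_⟩
      · rw [mem_closedBall_zero_iff] at h1
        rw [mem_ball_zero_iff]
        linarith
      · rw [mem_singleton_iff] at h3
        rw [mem_ofPred_eq, h3, norm_zero] at h2
        linarith
    have hcpt : IsCompact (closedBall (0 : ℂ) ρ ∩ {w | η ≤ ‖w‖}) :=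
      (isCompact_closedBall 0 ρ).inter_right (isClosed_le continuous_const continuous_norm)
    obtain ⟨d, hd, hd2⟩ := hcpt.exists_forall_le' hc (a := 0) (by
      rintro w ⟨h1, h2⟩
      have hw : w ∈ Dk \ {0} := by
        refine ⟨?_, fun h3 => ?_⟩
        · rw [mem_closedBall_zero_iff] at h1
          rw [mem_ball_zero_iff]
          linarith
        · rw [mem_singleton_iff] at h3
          rw [mem_ofPred_eq, h3, norm_zero] at h2
          linarith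
      refine ((isCompact_K B).isClosed.notMem_iff_infDist_pos hKne).1 ?_
      exact fun h4 => h4 (hmaps hw))
    refine ⟨min d 1, lt_min hd one_pos, fun w hw0 hwρ => ?_⟩
    by_cases hwη : η ≤ ‖w‖
    · exact (min_le_left _ _).trans (hd2 w ⟨mem_closedBall_zero_iff.2 hwρ, hwη⟩)
    · refine (min_le_right _ _).trans ?_
      rw [le_infDist hKne]
      intro k hk
      have h1 := h w ⟨mem_ball_zero_iff.2 (by linarith), hw0⟩ (not_le.1 hwη)
      have h2 := hR k hk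
      rw [dist_eq_norm]
      have h3 := norm_sub_norm_le (z₀ + (χ w)⁻¹) k
      linarith
  · intro M
    obtain ⟨η, hη, h⟩ := hbig M
    refine ⟨η, hη, fun w hw hw2 => ?_⟩
    by_contra hcon
    exact absurd (h w hw (not_le.1 hcon)) (not_lt.2 hw2)
  · have hopen : IsOpen (χ '' ball 0 (1 / 2)) := by
      have hsub : ball (0 : ℂ) (1 / 2) ⊆ Dk := ball_subset_ball (by norm_num)
      exact isOpen_image_of_injOn isOpen_ball (hχ.diff.mono hsub) (hχ.bij.injOn.mono hsub)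
    have hmem : (0 : ℂ) ∈ χ '' ball 0 (1 / 2) := ⟨0, by simp, hχ0⟩
    obtain ⟨δ, hδ, hball⟩ := Metric.isOpen_iff.1 hopen 0 hmem
    refine ⟨‖z₀‖ + 1 / δ, fun w hw hw2 => ?_⟩
    have h1 : δ ≤ ‖χ w‖ := by
      by_contra hcon
      obtain ⟨w', hw', h2⟩ := hball (mem_ball_zero_iff.2 (not_le.1 hcon))
      have hw'1 : w' ∈ Dk := ball_subset_ball (by norm_num) hw'
      have h3 := hχ.bij.injOn hw'1 hw h2
      rw [h3, mem_ball_zero_iff] at hw'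
      linarith
    have h2 : ‖(χ w)⁻¹‖ ≤ 1 / δ := by
      rw [norm_inv, ← one_div]
      exact one_div_le_one_div_of_le hδ h1
    exact (norm_add_le _ _).trans (by linarith)

end Pool.Agent.TB
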