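/-
Project TB (MP_d9e400_an). Module MaxBd.
Maximum principle with boundary limits superior.

PROOFS. norm_le_one_of_boundary: suppose w₀ ∈ Ω, ‖H w₀‖ > 1. Let s = sup of ‖H‖ over Ω (maybe ∞). Standard way: fix
ε > 0 with 1 + ε < ‖H w₀‖. The set Z = {w ∈ Ω | ‖H w‖ ≥ 1 + 2ε'}, with 1 + 2ε' = ‖H w₀‖, is compact: it is bounded, and a
limit y of points of Z is in closure Ω, not in frontier Ω by hbd (with ε'), so in Ω, and ‖H y‖ ≥ 1+2ε' by
continuity. ‖H‖ has a maximum over Z at w₁, it is a maximum over Ω. Consider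
the connected component (or: Complex.exists_mem_frontier_isMaxOn_norm style) : the set M = {w ∈ Ω |
‖H w‖ = ‖H w₁‖} is closed in Ω, contained in Z so compact, and open (maximum modulus:
Complex.eventually_eq_of_isLocalMax_norm gives H constant near such a point). A nonempty compact open
subset of ℂ does not exist. norm_le_one_disc: reduce to the first (frontier Dk = sphere).
-/
import Mathlib
import Pool.Agent.TB.Defs

set_option autoImplicit false

open Set Filter Topology Metric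

namespace Pool.Agent.TB

/-- maximum principle with boundary limits superior at most one -/
theorem norm_le_one_of_boundary {Ω : Set ℂ} (hΩ : IsOpen Ω) (hb : Bornology.IsBounded Ω)
    {H : ℂ → ℂ} (hH : DifferentiableOn ℂ H Ω)
    (hbd : ∀ y ∈ frontier Ω, ∀ ε : ℝ, 0 < ε → ∀ᶠ w in 𝓝[Ω] y, ‖H w‖ ≤ 1 + ε) :
    ∀ w ∈ Ω, ‖H w‖ ≤ 1 := by
  intro w₀ hw₀
  by_contra hcon
  push Not at hcon
  set Z : Set ℂ := {w | w ∈ Ω ∧ ‖H w₀‖ ≤ ‖H w‖} with hZ
  have hZΩ : Z ⊆ Ω := fun w hw => hw.1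
  have hcl : ∀ y, y ∈ closure Z → y ∈ Z := by
    intro y hy
    have hfreq : ∃ᶠ w in 𝓝 y, w ∈ Z := mem_closure_iff_frequently.1 hy
    have hfreq' : ∃ᶠ w in 𝓝[Ω] y, w ∈ Z := by
      rw [frequently_nhdsWithin_iff]
      exact hfreq.mono (fun w hw => ⟨hw, hZΩ hw⟩)
    have hyΩ : y ∈ Ω := by
      by_contra hyΩ
      have hyf : y ∈ frontier Ω := by
        rw [hΩ.frontier_eq]
        exact ⟨closure_mono hZΩ hy, hyΩ⟩
      have h1 := hbd y hyf ((‖H w₀‖ - 1) / 2) (by linarith)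
      obtain ⟨w, hw1, hw2⟩ := (hfreq'.and_eventually h1).exists
      have h3 : ‖H w₀‖ ≤ ‖H w‖ := hw1.2
      linarith
    refine ⟨hyΩ, ?_⟩
    have hc : ContinuousAt (fun w => ‖H w‖) y :=
      ((hH.differentiableAt (hΩ.mem_nhds hyΩ)).continuousAt).norm
    exact ge_of_tendsto_of_frequently hc (hfreq.mono (fun w hw => hw.2))
  have hZcl : IsClosed Z := isClosed_of_closure_subset hcl
  have hZc : IsCompact Z := Metric.isCompact_of_isClosed_isBounded hZcl (hb.subset hZΩ)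
  have hcont : ContinuousOn (fun w => ‖H w‖) Z := (hH.continuousOn.mono hZΩ).norm
  obtain ⟨w₁, hw₁, hmax⟩ := hZc.exists_isMaxOn ⟨w₀, hw₀, le_refl _⟩ hcont
  have hmaxΩ : ∀ w ∈ Ω, ‖H w‖ ≤ ‖H w₁‖ := by
    intro w hw
    by_cases hwZ : w ∈ Z
    · exact hmax hwZ
    · have h1 : ‖H w‖ < ‖H w₀‖ := by
        by_contra h2
        push Not at h2
        exact hwZ ⟨hw, h2⟩
      exact h1.le.trans hw₁.2
  set M : Set ℂ := {w | w ∈ Z ∧ H w = H w₁} with hM
  have hMcl : IsClosed M := by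
    have : M = Z ∩ (fun w => H w) ⁻¹' {H w₁} := rfl
    rw [this]
    exact ContinuousOn.preimage_isClosed_of_isClosed (hH.continuousOn.mono hZΩ) hZcl
      isClosed_singleton
  have hMo : IsOpen M := by
    rw [isOpen_iff_mem_nhds]
    intro w hw
    have hwΩ : w ∈ Ω := hZΩ hw.1
    have h1 : IsLocalMax (norm ∘ H) w := by
      filter_upwards [hΩ.mem_nhds hwΩ] with v hv
      simp only [Function.comp]
      rw [hw.2]
      exact hmaxΩ v hv
    have h2 := Complex.eventually_eq_of_isLocalMax_norm (by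
      filter_upwards [hΩ.mem_nhds hwΩ] with v hv
      exact hH.differentiableAt (hΩ.mem_nhds hv)) h1
    filter_upwards [h2, hΩ.mem_nhds hwΩ] with v hv hvΩ
    refine ⟨⟨hvΩ, ?_⟩, hv.trans hw.2⟩
    rw [hv, hw.2]
    exact hw₁.2
  have huniv : M = univ := IsClopen.eq_univ ⟨hMcl, hMo⟩ ⟨w₁, hw₁, rfl⟩
  have hbM : Bornology.IsBounded M := hb.subset (fun w hw => hZΩ hw.1)
  rw [huniv] at hbM
  exact NormedSpace.unbounded_univ ℝ ℂ hbM

theorem norm_le_one_disc {H : ℂ → ℂ} (hH : DifferentiableOn ℂ H Dk)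
    (hbd : ∀ ε : ℝ, 0 < ε → ∃ ρ : ℝ, ρ < 1 ∧ ∀ w : ℂ, ρ < ‖w‖ → ‖w‖ < 1 → ‖H w‖ ≤ 1 + ε) :
    ∀ w ∈ Dk, ‖H w‖ ≤ 1 := by
  apply norm_le_one_of_boundary isOpen_ball isBounded_ball hH
  intro y hy ε hε
  rw [frontier_ball (0 : ℂ) one_ne_zero, mem_sphere_zero_iff_norm] at hy
  obtain ⟨ρ, hρ, h⟩ := hbd ε hε
  have h1 : ∀ᶠ w in 𝓝[Dk] y, ρ < ‖w‖ := by
    apply Filter.Eventually.filter_mono nhdsWithin_le_nhds
    have h2 : IsOpen {w : ℂ | ρ < ‖w‖} := isOpen_lt continuous_const continuous_norm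
    exact h2.mem_nhds (by rw [mem_ofPred_eq, hy]; exact hρ)
  filter_upwards [h1, self_mem_nhdsWithin] with w hw1 hw2
  exact h w hw1 (by simpa using hw2)

end Pool.Agent.TB
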