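/-
Project TB (MP_d9e400_an). Module Iter.
Iterating a path towards the fixed point.

PROOF. β : [0,1] → S from v to P v. For x ≥ 0: σ x = P^[⌊x⌋] (β (x - ⌊x⌋)); σ is continuous on [0,∞): on [n,n+1] it equals P^[n] (β (x-n)), at
x = n+1: P^[n] (β 1) = P^[n] (P v) = P^[n+1] v = P^[n+1] (β 0). σ x ∈ V, σ x → p as x → ∞ (hconv). κ 0 = p, κ t = σ (1/t - 1) for
t ∈ (0,1]. (Continuity of σ: locally finite closed cover [n,n+1], or one sided continuity at integers.)
-/
import Mathlib
import Pool.Agent.TB.Defs

set_option autoImplicit false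

open Set Filter Topology Metric

namespace Pool.Agent.TB

theorem iter_access {V S : Set ℂ} {p : ℂ} {P : ℂ → ℂ} (hmaps : ∀ n, MapsTo P^[n] S V)
    (hcont : ∀ n, ContinuousOn P^[n] S)
    (hconv : ∀ ε : ℝ, 0 < ε → ∃ N : ℕ, ∀ n ≥ N, ∀ z ∈ S, ‖P^[n] z - p‖ < ε) {v : ℂ}
    (hj : JoinedIn S v (P v)) : Acc V p := by
  obtain ⟨γ, hγ⟩ := hj
  have hγS : ∀ x : ℝ, γ.extend x ∈ S := fun x => hγ _
  have hγc : Continuous (γ.extend : ℝ → ℂ) := γ.continuous_extend
  set σ : ℝ → ℂ := fun x => P^[⌊x⌋₊] (γ.extend (x - ⌊x⌋₊)) with hσ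
  have hσV : ∀ x, σ x ∈ V := fun x => hmaps _ (hγS _)
  have hσn : ∀ n : ℕ, ContinuousOn σ (Iic (n : ℝ)) := by
    intro n
    induction n with
    | zero =>
      refine ContinuousOn.congr (f := (γ.extend : ℝ → ℂ)) hγc.continuousOn ?_
      intro x hx
      have hx0 : x ≤ 0 := by simpa using hx
      have h1 : ⌊x⌋₊ = 0 := Nat.floor_of_nonpos hx0
      simp only [hσ, h1, Function.iterate_zero, id, Nat.cast_zero, sub_zero]
    | succ n ih =>
      have hun : Iic ((n + 1 : ℕ) : ℝ) = Iic (n : ℝ) ∪ Icc (n : ℝ) ((n + 1 : ℕ) : ℝ) := by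
        rw [Iic_union_Icc_eq_Iic]
        push_cast
        linarith
      rw [hun]
      refine ContinuousOn.union_of_isClosed ih ?_ isClosed_Iic isClosed_Icc
      have h1 : ContinuousOn (fun x : ℝ => P^[n] (γ.extend (x - n))) (Icc (n : ℝ) ((n + 1 : ℕ) : ℝ)) := by
        refine (hcont n).comp (hγc.comp (by fun_prop)).continuousOn fun x _ => hγS _
      refine h1.congr ?_
      intro x hx
      rcases hx.2.lt_or_eq with h2 | h2
      · have h3 : ⌊x⌋₊ = n := by
          rw [Nat.floor_eq_iff (le_trans (Nat.cast_nonneg n) hx.1)]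
          refine ⟨hx.1, ?_⟩
          push_cast at h2
          exact h2
        simp only [hσ, h3]
      · have h3 : ⌊x⌋₊ = n + 1 := by
          rw [h2, Nat.floor_natCast]
        have h4 : x - n = 1 := by
          rw [h2]
          push_cast
          ring
        have h5 : x - (n + 1 : ℕ) = 0 := by rw [h2, sub_self]
        simp only [hσ, h3, h4, h5, Path.extend_one, Path.extend_zero, Function.iterate_succ_apply]
  have hσc : Continuous σ := by
    rw [continuous_iff_continuousAt]
    intro x
    obtain ⟨n, hn⟩ := exists_nat_gt x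
    exact (hσn n).continuousAt (Iic_mem_nhds hn)
  refine ⟨fun t => if t ≤ 0 then p else σ (1 / t - 1), ?_, by simp, ?_⟩
  · intro t ht
    rcases ht.1.lt_or_eq with h0 | h0
    · -- positive t
      refine ContinuousAt.continuousWithinAt ?_
      have h1 : ContinuousAt (fun t : ℝ => σ (1 / t - 1)) t := by
        refine hσc.continuousAt.comp ?_
        exact (continuousAt_const.div continuousAt_id h0.ne').sub continuousAt_const
      refine h1.congr ?_
      filter_upwards [lt_mem_nhds h0] with s hs
      rw [if_neg (not_le.2 hs)]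
    · subst h0
      rw [Metric.continuousWithinAt_iff]
      intro ε hε
      obtain ⟨N, hN⟩ := hconv ε hε
      refine ⟨1 / ((N : ℝ) + 1), by positivity, ?_⟩
      intro s hs hs2
      simp only [le_refl, if_true]
      by_cases h1 : s ≤ 0
      · rw [if_pos h1, dist_self]
        exact hε
      · rw [if_neg h1]
        push Not at h1
        rw [dist_zero_right, Real.norm_eq_abs, abs_of_pos h1] at hs2
        have h2 : (N : ℝ) + 1 < 1 / s := by
          rw [lt_div_iff₀ h1]
          rw [lt_div_iff₀ (by positivity)] at hs2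
          linarith
        have h3 : N ≤ ⌊1 / s - 1⌋₊ := Nat.le_floor (by linarith)
        rw [dist_eq_norm]
        exact hN _ h3 _ (hγS _)
  · intro t ht
    simp only
    rw [if_neg (not_le.2 ht.1)]
    exact hσV _

end Pool.Agent.TB
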