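/-
Project TB (MP_d9e400_an). Module AnnPack.
Disjoint balls centred in an annulus.

PROOF. h = R/(4M) (width), H = 36 h = 9R/M. I' = {i ∈ I | δ i < H}, J = rest. Suppose |J| > M/2 (otherwise done). For i ∈ J the balls
ball (z i) H (⊆ ball (z i) (δ i)) are disjoint, contained in ball p (R+H) and disjoint from ball p (R-h-H) (0 < R-h-H as M ≥ 100).
Areas (Complex.volume_ball): |J| H² + (R-h-H)² ≤ (R+H)², so |J| H² ≤ (2R-h)(h+2H) ≤ 2R (h+2H) = 2R·73h, H² = 1296 h²,
|J| ≤ 146 R/(1296 h) = 146·4M/1296 < 0.451 M. Contradiction.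
-/
import Mathlib
import Pool.Agent.TB.Defs

set_option autoImplicit false

open Set Filter Topology Metric

namespace Pool.Agent.TB

theorem AnnPack_vol (a : ℂ) {r : ℝ} (hr : 0 ≤ r) :
    MeasureTheory.volume (Metric.ball a r) = ENNReal.ofReal (Real.pi * r ^ 2) := by
  rw [Complex.volume_ball, mul_comm, ENNReal.ofReal_mul Real.pi_pos.le, ENNReal.ofReal_pow hr]
  congr 1
  rw [← ENNReal.ofReal_coe_nnreal]
  rfl

/-- disjoint balls centred in an annulus: at least half of them are small -/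
theorem annulus_packing {ι : Type*} (I : Finset ι) (M : ℕ) (hM : I.card = M) (hM0 : 100 ≤ M)
    {p : ℂ} {R : ℝ} (hR : 0 < R) (z : ι → ℂ) (δ : ι → ℝ)
    (hz : ∀ i ∈ I, R * (1 - 1 / (4 * M)) ≤ ‖z i - p‖ ∧ ‖z i - p‖ ≤ R)
    (_hδ : ∀ i ∈ I, 0 < δ i)
    (hdisj : ∀ i ∈ I, ∀ j ∈ I, i ≠ j →
      Disjoint (Metric.ball (z i) (δ i)) (Metric.ball (z j) (δ j))) :
    ∃ I' ⊆ I, (M : ℝ) / 2 ≤ (I'.card : ℝ) ∧ ∀ i ∈ I', δ i < 36 * (R / (4 * M)) := by
  classical
  have hMr : (100 : ℝ) ≤ (M : ℝ) := by exact_mod_cast hM0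
  have hMp : (0 : ℝ) < (M : ℝ) := by linarith
  set h : ℝ := R / (4 * M) with hh
  have hhp : 0 < h := by positivity
  have hhM : 4 * M * h = R := by rw [hh]; field_simp
  set H : ℝ := 36 * h with hH
  have hHp : 0 < H := by positivity
  have hinner : 0 < R - h - H := by
    rw [← hhM, hH]
    nlinarith
  refine ⟨I.filter (fun i => δ i < H), Finset.filter_subset _ _, ?_, ?_⟩
  swap
  · intro i hi
    exact (Finset.mem_filter.mp hi).2
  by_contra hcon
  push Not at hcon
  set J := I.filter (fun i => ¬ δ i < H) with hJ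
  have hcard : ((I.filter (fun i => δ i < H)).card : ℝ) + (J.card : ℝ) = M := by
    rw [← hM]
    exact_mod_cast Finset.card_filter_add_card_filter_not (s := I) (fun i => δ i < H)
  have hJc : (M : ℝ) / 2 < (J.card : ℝ) := by linarith
  -- disjointness
  have hJd : (J : Set ι).PairwiseDisjoint (fun i => Metric.ball (z i) H) := by
    intro i hi j hj hij
    have hi' := Finset.mem_filter.mp (Finset.mem_coe.mp hi)
    have hj' := Finset.mem_filter.mp (Finset.mem_coe.mp hj)
    have h1 := hdisj i hi'.1 j hj'.1 hij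
    exact h1.mono (Metric.ball_subset_ball (not_lt.mp hi'.2))
      (Metric.ball_subset_ball (not_lt.mp hj'.2))
  have hD : Disjoint (⋃ i ∈ J, Metric.ball (z i) H) (Metric.ball p (R - h - H)) := by
    rw [Set.disjoint_left]
    intro y hy hy2
    simp only [Set.mem_iUnion] at hy
    obtain ⟨i, hi, hyi⟩ := hy
    have hi' := (Finset.mem_filter.mp hi).1
    have h1 := (hz i hi').1
    rw [mem_ball, dist_eq_norm] at hyi hy2
    have h2 : ‖z i - p‖ ≤ ‖y - z i‖ + ‖y - p‖ := by
      have : z i - p = -(y - z i) + (y - p) := by ring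
      rw [this]
      refine (norm_add_le _ _).trans ?_
      rw [norm_neg]
    have h3 : R * (1 - 1 / (4 * M)) = R - h := by rw [hh]; ring
    linarith
  have hsub : (⋃ i ∈ J, Metric.ball (z i) H) ∪ Metric.ball p (R - h - H) ⊆
      Metric.ball p (R + H) := by
    intro y hy
    rcases hy with hy | hy
    · simp only [Set.mem_iUnion] at hy
      obtain ⟨i, hi, hyi⟩ := hy
      have hi' := (Finset.mem_filter.mp hi).1
      have h1 := (hz i hi').2
      rw [mem_ball, dist_eq_norm] at hyi ⊢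
      have h2 : ‖y - p‖ ≤ ‖y - z i‖ + ‖z i - p‖ := by
        have : y - p = (y - z i) + (z i - p) := by ring
        rw [this]
        exact norm_add_le _ _
      linarith
    · exact Metric.ball_subset_ball (by linarith) hy
  have hvol := MeasureTheory.measure_mono (μ := MeasureTheory.volume) hsub
  rw [MeasureTheory.measure_union hD measurableSet_ball,
    MeasureTheory.measure_biUnion_finset hJd (fun _ _ => measurableSet_ball),
    AnnPack_vol _ (by linarith), AnnPack_vol _ (by linarith)] at hvol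
  simp only [AnnPack_vol _ hHp.le, Finset.sum_const, nsmul_eq_mul] at hvol
  rw [← ENNReal.ofReal_natCast, ← ENNReal.ofReal_mul (by positivity),
    ← ENNReal.ofReal_add (by positivity) (by positivity),
    ENNReal.ofReal_le_ofReal_iff (by positivity)] at hvol
  have hpi := Real.pi_pos
  have h1 : (J.card : ℝ) * H ^ 2 + (R - h - H) ^ 2 ≤ (R + H) ^ 2 := by
    have h2 : Real.pi * ((J.card : ℝ) * H ^ 2 + (R - h - H) ^ 2) ≤ Real.pi * (R + H) ^ 2 := by
      linarith
    exact le_of_mul_le_mul_left h2 hpi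
  -- numerical contradiction
  have h3 : (J.card : ℝ) * (1296 * h ^ 2) ≤ 146 * R * h := by
    have h4 : (J.card : ℝ) * H ^ 2 ≤ (2 * R - h) * (h + 2 * H) := by nlinarith
    rw [hH] at h4
    nlinarith
  have h5 : (M : ℝ) / 2 * (1296 * h ^ 2) < 146 * R * h := by
    have : (M : ℝ) / 2 * (1296 * h ^ 2) < (J.card : ℝ) * (1296 * h ^ 2) :=
      mul_lt_mul_of_pos_right hJc (by positivity)
    linarith
  rw [← hhM] at h5
  nlinarith [mul_pos hMp (pow_pos hhp 2)]

end Pool.Agent.TB
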