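/-
Project TB (MP_d9e400_an). Module PackPar.
The choice of parameters in the packing argument.

PROOF. For J ≥ 100, x = 1/(4J): -log(1-x) ≤ 2x = 1/(2J). So (1) follows from S/(2J) ≤ log(r₀ (J+1)^α/(2C)), i.e. S ≤ 2J(α log(J+1) - log(2C/r₀)).
(2) is S > 2304 (log(1/c) + 2J log(1/q)) (c may be > 1). Take S = ⌊2J(α log(J+1) - log(2C/r₀))⌋; since log(J+1) → ∞ it is
≥ J·(anything) for large J.
-/
import Mathlib
import Pool.Agent.TB.Defs

set_option autoImplicit false

open Set Filter Topology Metric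

namespace Pool.Agent.TB

theorem pack_params {r₀ C α c q : ℝ} (hr₀ : 0 < r₀) (hC : 0 < C) (hα : 0 < α) (hc : 0 < c)
    (hq : 0 < q) (hq1 : q < 1) :
    ∃ J S : ℕ, 100 ≤ J ∧
      C / ((J : ℝ) + 1) ^ α ≤ (r₀ / 2) * (1 - 1 / (4 * (J : ℝ))) ^ S ∧
      32 * (J : ℝ) * Real.log (1 / (c * q ^ (2 * J))) < (S : ℝ) * ((J : ℝ) / 72) := by
  set b : ℝ := Real.log (2 * C / r₀) with hb
  set lc : ℝ := |Real.log c| with hlc
  set lq : ℝ := -Real.log q with hlq
  have hlc0 : 0 ≤ lc := abs_nonneg _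
  have hlq0 : 0 ≤ lq := by
    have := Real.log_neg hq hq1
    linarith
  set T : ℝ := b + 2304 * lq + 2304 * lc + 1 with hT
  obtain ⟨J, hJ⟩ := exists_nat_ge (max 100 (Real.exp (T / α)))
  have hJ100 : (100 : ℝ) ≤ J := (le_max_left _ _).trans hJ
  have hJe : Real.exp (T / α) ≤ J := (le_max_right _ _).trans hJ
  have hJ0 : (0 : ℝ) < J := by linarith
  have hlog : T ≤ α * Real.log ((J : ℝ) + 1) := by
    have h1 : T / α ≤ Real.log ((J : ℝ) + 1) := by
      rw [Real.le_log_iff_exp_le (by linarith)]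
      linarith
    rw [div_le_iff₀ hα] at h1
    linarith
  set X : ℝ := 2 * J * (α * Real.log ((J : ℝ) + 1) - b) with hX
  have hX0 : 0 ≤ X := by
    have : 0 ≤ α * Real.log ((J : ℝ) + 1) - b := by
      nlinarith
    positivity
  refine ⟨J, ⌊X⌋₊, by exact_mod_cast hJ100, ?_, ?_⟩
  · have hS : ((⌊X⌋₊ : ℕ) : ℝ) ≤ X := Nat.floor_le hX0
    have hJ1 : (0 : ℝ) < (J : ℝ) + 1 := by linarith
    have hx : 0 < 1 - 1 / (4 * (J : ℝ)) := by
      have : 1 / (4 * (J : ℝ)) ≤ 1 / 4 := by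
        apply one_div_le_one_div_of_le (by norm_num)
        linarith
      linarith
    have hlx : -(1 / (2 * (J : ℝ))) ≤ Real.log (1 - 1 / (4 * (J : ℝ))) := by
      refine le_trans ?_ (Real.one_sub_inv_le_log_of_pos hx)
      have h4 : (1 - 1 / (4 * (J : ℝ)))⁻¹ = 4 * J / (4 * J - 1) := by
        have : (4 * (J : ℝ) - 1) ≠ 0 := by linarith
        field_simp
      rw [h4]
      have h5 : 0 < 4 * (J : ℝ) - 1 := by linarith
      rw [neg_le_iff_add_nonneg, ← sub_nonneg]
      have h6 : 1 - 4 * (J : ℝ) / (4 * J - 1) + 1 / (2 * J) - 0 =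
          (2 * (J : ℝ) - 1) / ((4 * J - 1) * (2 * J)) := by
        field_simp
        ring
      rw [h6]
      apply div_nonneg (by linarith) (by positivity)
    rw [← Real.log_le_log_iff (by positivity) (by positivity), Real.log_div hC.ne' (by positivity),
      Real.log_rpow hJ1, Real.log_mul (by positivity) (by positivity), Real.log_pow]
    have h7 : Real.log (r₀ / 2) = Real.log C - b := by
      rw [hb, Real.log_div (by positivity) hr₀.ne', Real.log_mul (by norm_num) hC.ne',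
        Real.log_div hr₀.ne' (by norm_num)]
      ring
    rw [h7]
    have h8 : ((⌊X⌋₊ : ℕ) : ℝ) * (-(1 / (2 * (J : ℝ)))) ≤
        ((⌊X⌋₊ : ℕ) : ℝ) * Real.log (1 - 1 / (4 * (J : ℝ))) :=
      mul_le_mul_of_nonneg_left hlx (Nat.cast_nonneg _)
    have h9 : X * (1 / (2 * (J : ℝ))) = α * Real.log ((J : ℝ) + 1) - b := by
      rw [hX]
      field_simp
    have h10 : ((⌊X⌋₊ : ℕ) : ℝ) * (1 / (2 * (J : ℝ))) ≤ X * (1 / (2 * (J : ℝ))) :=
      mul_le_mul_of_nonneg_right hS (by positivity)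
    linarith
  · have hS : X - 1 < ((⌊X⌋₊ : ℕ) : ℝ) := Nat.sub_one_lt_floor X
    have h1 : Real.log (1 / (c * q ^ (2 * J))) = -Real.log c + 2 * J * lq := by
      rw [one_div, Real.log_inv, Real.log_mul hc.ne' (by positivity), Real.log_pow, hlq]
      push_cast
      ring
    rw [h1]
    have h2 : -Real.log c ≤ lc := neg_le_abs _
    have h3 : 2304 * (-Real.log c + 2 * J * lq) < ((⌊X⌋₊ : ℕ) : ℝ) := by
      have h4 : 2 * J * (2304 * lq + 2304 * lc + 1) ≤ X := by
        rw [hX]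
        apply mul_le_mul_of_nonneg_left _ (by positivity)
        linarith
      have h5 : 2304 * lc ≤ 2 * J * (2304 * lc) := by nlinarith
      nlinarith
    have h6 : 32 * (J : ℝ) * (-Real.log c + 2 * J * lq) =
        (2304 * (-Real.log c + 2 * J * lq)) * ((J : ℝ) / 72) := by ring
    rw [h6]
    exact mul_lt_mul_of_pos_right h3 (by positivity)

end Pool.Agent.TB
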