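/-
Project TB (MP_d9e400_an). Module Cross.
Consecutive crossings of a decreasing sequence of levels by a continuous function.

PROOF. For s < S: T_s = {t ∈ Icc t₀ t₁ | R s ≤ g t} is compact, nonempty (t₀, R s ≤ R 0); e s = sSup T_s = max. g (e s) = R s (if > then
by continuity and g t₁ ≤ R S < R s there is a later point with g = R s) and g t ≤ R s for t ∈ [e s, t₁]. (for t > e s: g t < R s.)
Let b s = sInf {t ∈ Icc (e s) t₁ | g t ≤ R (s+1)} = min (nonempty: t₁ since g t₁ ≤ R S ≤ R (s+1)); g (b s) = R (s+1) (IVT), g ≥ R (s+1)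
on [e s, b s]. If s+1 < S: e (s+1) ≥ e s (T_s ⊆ T_{s+1}) and g (e (s+1)) = R (s+1), so b s ≤ e (s+1).
Define e, b by if s < S (choose) arbitrary otherwise.
-/
import Mathlib
import Pool.Agent.TB.Defs

set_option autoImplicit false

open Set Filter Topology Metric

namespace Pool.Agent.TB

theorem Cross_e {g : ℝ → ℝ} {t₀ t₁ r : ℝ} (h01 : t₀ ≤ t₁) (hg : ContinuousOn g (Icc t₀ t₁))
    (h0 : r ≤ g t₀) (h1 : g t₁ ≤ r) :
    ∃ e ∈ Icc t₀ t₁, g e = r ∧ ∀ t ∈ Icc t₀ t₁, r ≤ g t → t ≤ e := by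
  have hcl : IsClosed (Icc t₀ t₁ ∩ g ⁻¹' Ici r) :=
    hg.preimage_isClosed_of_isClosed isClosed_Icc isClosed_Ici
  have hcp : IsCompact (Icc t₀ t₁ ∩ g ⁻¹' Ici r) :=
    isCompact_Icc.of_isClosed_subset hcl inter_subset_left
  obtain ⟨e, he, hmax⟩ := hcp.exists_isGreatest ⟨t₀, ⟨le_refl _, h01⟩, h0⟩
  refine ⟨e, he.1, ?_, fun t ht hrt => hmax ⟨ht, hrt⟩⟩
  have hsub : Icc e t₁ ⊆ Icc t₀ t₁ := Icc_subset_Icc_left he.1.1
  obtain ⟨t, ht, hgt⟩ := intermediate_value_Icc' he.1.2 (hg.mono hsub) ⟨h1, he.2⟩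
  have h2 : t ≤ e := hmax ⟨hsub ht, hgt.ge⟩
  have h3 : t = e := le_antisymm h2 ht.1
  rw [← h3, hgt]

theorem Cross_b {g : ℝ → ℝ} {t₀ t₁ r : ℝ} (h01 : t₀ ≤ t₁) (hg : ContinuousOn g (Icc t₀ t₁))
    (h0 : r ≤ g t₀) (h1 : g t₁ ≤ r) :
    ∃ b ∈ Icc t₀ t₁, g b = r ∧ ∀ t ∈ Icc t₀ t₁, g t ≤ r → b ≤ t := by
  have hcl : IsClosed (Icc t₀ t₁ ∩ g ⁻¹' Iic r) :=
    hg.preimage_isClosed_of_isClosed isClosed_Icc isClosed_Iic
  have hcp : IsCompact (Icc t₀ t₁ ∩ g ⁻¹' Iic r) :=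
    isCompact_Icc.of_isClosed_subset hcl inter_subset_left
  obtain ⟨b, hb, hmin⟩ := hcp.exists_isLeast ⟨t₁, ⟨h01, le_refl _⟩, h1⟩
  refine ⟨b, hb.1, ?_, fun t ht hrt => hmin ⟨ht, hrt⟩⟩
  have hsub : Icc t₀ b ⊆ Icc t₀ t₁ := Icc_subset_Icc_right hb.1.2
  obtain ⟨t, ht, hgt⟩ := intermediate_value_Icc' hb.1.1 (hg.mono hsub) ⟨hb.2, h0⟩
  have h2 : b ≤ t := hmin ⟨hsub ht, hgt.le⟩
  have h3 : t = b := le_antisymm ht.2 h2
  rw [← h3, hgt]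

theorem crossing {g : ℝ → ℝ} {t₀ t₁ : ℝ} (h01 : t₀ ≤ t₁) (hg : ContinuousOn g (Icc t₀ t₁))
    {R : ℕ → ℝ} (hR : StrictAnti R) {S : ℕ} (h0 : R 0 ≤ g t₀) (h1 : g t₁ ≤ R S) :
    ∃ e b : ℕ → ℝ,
      (∀ s < S, t₀ ≤ e s ∧ e s ≤ b s ∧ b s ≤ t₁ ∧ g (e s) = R s ∧ g (b s) = R (s + 1) ∧
        (∀ t ∈ Icc (e s) (b s), R (s + 1) ≤ g t ∧ g t ≤ R s) ∧
        ∀ t ∈ Icc (e s) t₁, g t ≤ R s) ∧
      ∀ s, s + 1 < S → b s ≤ e (s + 1) := by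
  have key : ∀ s, ∃ e : ℝ, s < S → e ∈ Icc t₀ t₁ ∧ g e = R s ∧
      ∀ t ∈ Icc t₀ t₁, R s ≤ g t → t ≤ e := by
    intro s
    by_cases hs : s < S
    · obtain ⟨e, he⟩ := Cross_e h01 hg ((hR.antitone (Nat.zero_le s)).trans h0)
        (h1.trans (hR.antitone hs.le))
      exact ⟨e, fun _ => he⟩
    · exact ⟨0, fun h => absurd h hs⟩
  choose e he using key
  have key2 : ∀ s, ∃ b : ℝ, s < S → b ∈ Icc (e s) t₁ ∧ g b = R (s + 1) ∧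
      ∀ t ∈ Icc (e s) t₁, g t ≤ R (s + 1) → b ≤ t := by
    intro s
    by_cases hs : s < S
    · obtain ⟨h2, h3, h4⟩ := he s hs
      obtain ⟨b, hb⟩ := Cross_b h2.2 (hg.mono (Icc_subset_Icc_left h2.1))
        (r := R (s + 1)) (by rw [h3]; exact hR.antitone (Nat.le_succ s))
        (h1.trans (hR.antitone hs))
      exact ⟨b, fun _ => hb⟩
    · exact ⟨0, fun h => absurd h hs⟩
  choose b hb using key2
  refine ⟨e, b, ?_, ?_⟩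
  · intro s hs
    obtain ⟨h2, h3, h4⟩ := he s hs
    obtain ⟨h5, h6, h7⟩ := hb s hs
    have hle : ∀ t ∈ Icc (e s) t₁, g t ≤ R s := by
      intro t ht
      by_contra hlt
      push Not at hlt
      have h8 : t ≤ e s := h4 t ⟨h2.1.trans ht.1, ht.2⟩ hlt.le
      have h9 : t = e s := le_antisymm h8 ht.1
      rw [h9, h3] at hlt
      exact lt_irrefl _ hlt
    refine ⟨h2.1, h5.1, h5.2, h3, h6, ?_, hle⟩
    intro t ht
    refine ⟨?_, hle t ⟨ht.1, ht.2.trans h5.2⟩⟩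
    by_contra hlt
    push Not at hlt
    have h8 : b s ≤ t := h7 t ⟨ht.1, ht.2.trans h5.2⟩ hlt.le
    have h9 : t = b s := le_antisymm ht.2 h8
    rw [h9, h6] at hlt
    exact lt_irrefl _ hlt
  · intro s hs
    obtain ⟨h2, h3, h4⟩ := he s (by omega)
    obtain ⟨h5, h6, h7⟩ := hb s (by omega)
    obtain ⟨k2, k3, k4⟩ := he (s + 1) hs
    have h8 : e s ≤ e (s + 1) := k4 (e s) h2 (by rw [h3]; exact hR.antitone (Nat.le_succ s))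
    exact h7 (e (s + 1)) ⟨h8, k2.2⟩ k3.le

end Pool.Agent.TB
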