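/-
Project TB (MP_d9e400_an). Module RayCost.
Cost of the radial path from a deep point (no integrals, mean value inequality).

PROOF. ω = w/‖w‖, σ t = Ψ(t ω) on [ρ₁, ‖w‖] (‖w‖ > ρ₁ by hout since Ψ w ∈ ball p r₀), continuous. g t = ‖σ t - p‖. g ρ₁ ≥ r₀ > R 0 (hout),
g ‖w‖ ≤ R S. crossing gives e, b. δ t = infDist (σ t) Vᶜ > 0 (V open, Vᶜ ∋ p nonempty; continuous in t). Koebe on
ball (tω) (1-t) ⊆ Dk \ {0} (t ≥ 1/2; Ψ injective differentiable): δ t ≥ (1-t)‖Ψ'(tω)‖/32, i.e. ‖σ' t‖ ≤ δ t · 32/(1-t).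
For s < S let t_s ∈ [e s, b s] maximise δ. z s = σ (t_s). Then by the mean value inequality with the comparison function
δ(t_s)·Λ t, Λ t = -32 log(1-t) (image_norm_le_of_norm_deriv_right_le_deriv_boundary or monotonicity; ‖σ'‖ ≤ δ(t_s) Λ'):
R s - R (s+1) ≤ ‖σ(e s) - σ(b s)‖ ≤ δ(t_s)(Λ(b s) - Λ(e s)). So the sum is ≤ ∑_{s<S} (Λ(b s) - Λ(e s)) ≤ Λ(‖w‖) (telescoping: b s ≤ e (s+1),
Λ increasing, Λ ≥ 0, b_{S-1} ≤ ‖w‖; prove ∑_{s<k} ≤ Λ(b (k-1)) by induction) = 32 log(1/(1-‖w‖)).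
Joined: σ on [t_s, ‖w‖] stays in V and in ball p r₀ (g ≤ R s ≤ R 0 < r₀). Annulus: crossing.
-/
import Mathlib
import Pool.Agent.TB.Defs
import Pool.Agent.TB.Koebe
import Pool.Agent.TB.Cross

set_option autoImplicit false

open Set Filter Topology Metric

namespace Pool.Agent.TB

/-- Let `w` be a point of the punctured disc with `Ψ w` in `ball p r₀`, `R` decreasing radii,
`R 0 < r₀` and `‖Ψ w - p‖ ≤ R S`. Then there are points `z s` (`s < S`) in the annuli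
`R (s+1) ≤ ‖z s - p‖ ≤ R s`, joined to `Ψ w` in `V ∩ ball p r₀`, with the stated bound. -/
theorem ray_cost {V : Set ℂ} (hV : IsOpen V) {Ψ : ℂ → ℂ} (hΨ : Ext V Ψ) {p : ℂ} (hp : p ∉ V)
    {r₀ ρ₁ : ℝ} (hρ₁ : 1 / 2 ≤ ρ₁) (hρ₁' : ρ₁ < 1)
    (hout : ∀ w : ℂ, w ≠ 0 → ‖w‖ ≤ ρ₁ → Ψ w ∉ Metric.ball p r₀) {w : ℂ} (hw : w ∈ Dk \ {0})
    (hwb : Ψ w ∈ Metric.ball p r₀) {R : ℕ → ℝ} (hR : StrictAnti R) (hR0 : R 0 < r₀)
    (hRpos : ∀ s, 0 < R s) {S : ℕ} (hS : ‖Ψ w - p‖ ≤ R S) :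
    ∃ z : ℕ → ℂ, (∀ s < S, JoinedIn (V ∩ Metric.ball p r₀) (Ψ w) (z s) ∧
        R (s + 1) ≤ ‖z s - p‖ ∧ ‖z s - p‖ ≤ R s) ∧
      ∑ s ∈ Finset.range S, (R s - R (s + 1)) / Metric.infDist (z s) Vᶜ ≤
        32 * Real.log (1 / (1 - ‖w‖)) := by
  classical
  have hw1 : ‖w‖ < 1 := by simpa using hw.1
  have hw0 : w ≠ 0 := by simpa using hw.2
  have hW0 : 0 < ‖w‖ := norm_pos_iff.2 hw0
  set W := ‖w‖ with hWdef
  have hρW : ρ₁ < W := by
    by_contra hcon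
    exact hout w hw0 (not_lt.1 hcon) hwb
  set ω : ℂ := w / (W : ℂ) with hω
  have hωn : ‖ω‖ = 1 := by
    rw [hω, norm_div, Complex.norm_real, Real.norm_eq_abs, abs_of_pos hW0]
    exact div_self hW0.ne'
  have hWω : (W : ℂ) * ω = w := by
    have hWc : (W : ℂ) ≠ 0 := by exact_mod_cast hW0.ne'
    rw [hω]; field_simp
  have hnt : ∀ t : ℝ, ρ₁ ≤ t → ‖(t : ℂ) * ω‖ = t := by
    intro t ht
    rw [norm_mul, hωn, mul_one, Complex.norm_real, Real.norm_eq_abs, abs_of_nonneg (by linarith)]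
  have hmem : ∀ t : ℝ, ρ₁ ≤ t → t ≤ W → (t : ℂ) * ω ∈ Dk \ {0} := by
    intro t ht ht'
    have h := hnt t ht
    refine ⟨by rw [mem_ball_zero_iff, h]; linarith, ?_⟩
    intro h0
    rw [mem_singleton_iff] at h0
    rw [h0, norm_zero] at h
    linarith
  set σ : ℝ → ℂ := fun t => Ψ ((t : ℂ) * ω) with hσ
  have hΨd : ∀ z ∈ Dk \ {0}, DifferentiableAt ℂ Ψ z := by
    intro z hz
    have ho : IsOpen (Dk \ {0} : Set ℂ) := isOpen_ball.sdiff isClosed_singleton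
    exact hΨ.diff.differentiableAt (ho.mem_nhds hz)
  have hσd : ∀ t : ℝ, ρ₁ ≤ t → t ≤ W → HasDerivAt σ (deriv Ψ ((t : ℂ) * ω) * ω) t := by
    intro t ht ht'
    have h1 : HasDerivAt Ψ (deriv Ψ ((t : ℂ) * ω)) ((t : ℂ) * ω) :=
      (hΨd _ (hmem t ht ht')).hasDerivAt
    have h2 : HasDerivAt (fun u : ℂ => u * ω) ω (t : ℂ) := by
      simpa using (hasDerivAt_id (t : ℂ)).mul_const ω
    have h3 : HasDerivAt (fun u : ℂ => Ψ (u * ω)) (deriv Ψ ((t : ℂ) * ω) * ω) (t : ℂ) :=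
      HasDerivAt.comp (t : ℂ) h1 h2
    exact h3.comp_ofReal
  have hσc : ContinuousOn σ (Icc ρ₁ W) := fun t ht =>
    (hσd t ht.1 ht.2).continuousAt.continuousWithinAt
  have hσV : ∀ t ∈ Icc ρ₁ W, σ t ∈ V := fun t ht => hΨ.bij.mapsTo (hmem t ht.1 ht.2)
  have hVc : (Vᶜ).Nonempty := ⟨p, hp⟩
  set δ : ℝ → ℝ := fun t => Metric.infDist (σ t) Vᶜ with hδ
  have hδc : ContinuousOn δ (Icc ρ₁ W) :=
    (Metric.continuous_infDist_pt _).comp_continuousOn hσc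
  have hδpos : ∀ t ∈ Icc ρ₁ W, 0 < δ t := by
    intro t ht
    rw [hδ]
    exact (hV.isClosed_compl.notMem_iff_infDist_pos hVc).1 (fun h => h (hσV t ht))
  have hder : ∀ t ∈ Icc ρ₁ W, ‖deriv Ψ ((t : ℂ) * ω) * ω‖ ≤ δ t * (32 / (1 - t)) := by
    intro t ht
    have ht1 : 0 < 1 - t := by linarith [ht.2]
    have hsub : Metric.ball ((t : ℂ) * ω) (1 - t) ⊆ Dk \ {0} := by
      intro z hz
      rw [Metric.mem_ball, dist_eq_norm] at hz
      have hn := hnt t ht.1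
      refine ⟨?_, ?_⟩
      · rw [mem_ball_zero_iff]
        calc ‖z‖ = ‖(z - (t : ℂ) * ω) + (t : ℂ) * ω‖ := by rw [sub_add_cancel]
          _ ≤ ‖z - (t : ℂ) * ω‖ + ‖(t : ℂ) * ω‖ := norm_add_le _ _
          _ < 1 := by rw [hn]; linarith
      · intro h0
        rw [mem_singleton_iff] at h0
        rw [h0, zero_sub, norm_neg, hn] at hz
        linarith [ht.1]
    have hk := koebe_lite (h := Ψ) (w := (t : ℂ) * ω) ht1 (hΨ.diff.mono hsub)
      (hΨ.bij.injOn.mono hsub)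
    have hkV : Metric.ball (σ t) ((1 - t) * ‖deriv Ψ ((t : ℂ) * ω)‖ / 32) ⊆ V := by
      refine hk.trans ?_
      rintro _ ⟨z, hz, rfl⟩
      exact hΨ.bij.mapsTo (hsub hz)
    have hle : (1 - t) * ‖deriv Ψ ((t : ℂ) * ω)‖ / 32 ≤ δ t := by
      rw [hδ]
      apply (Metric.le_infDist hVc).2
      intro y hy
      by_contra hcon
      apply hy
      apply hkV
      rw [Metric.mem_ball, dist_comm]
      exact not_le.1 hcon
    have e0 : ‖deriv Ψ ((t : ℂ) * ω) * ω‖ = ‖deriv Ψ ((t : ℂ) * ω)‖ := by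
      rw [norm_mul, hωn, mul_one]
    have e1 : δ t * (32 / (1 - t)) = δ t * 32 / (1 - t) := by ring
    rw [e0, e1, le_div_iff₀ ht1]
    linarith
  set g : ℝ → ℝ := fun t => ‖σ t - p‖ with hg
  have hgc : ContinuousOn g (Icc ρ₁ W) := (hσc.sub continuousOn_const).norm
  have hg0 : R 0 ≤ g ρ₁ := by
    have h1 := hout ((ρ₁ : ℂ) * ω) (by
      have := (hmem ρ₁ le_rfl hρW.le).2
      simpa using this) (hnt ρ₁ le_rfl).le
    rw [Metric.mem_ball, dist_eq_norm, not_lt] at h1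
    exact hR0.le.trans h1
  have hg1 : g W ≤ R S := by
    show ‖Ψ ((W : ℂ) * ω) - p‖ ≤ R S
    rw [hWω]; exact hS
  obtain ⟨e, b, hcr, hnext⟩ := crossing hρW.le hgc hR hg0 hg1
  have hmax : ∀ s, ∃ t, s < S → t ∈ Icc (e s) (b s) ∧ ∀ x ∈ Icc (e s) (b s), δ x ≤ δ t := by
    intro s
    by_cases hs : s < S
    · obtain ⟨h1, h2, h3, _⟩ := hcr s hs
      have hc : ContinuousOn δ (Icc (e s) (b s)) :=
        hδc.mono (Icc_subset_Icc h1 h3)
      obtain ⟨t, ht, hm⟩ := isCompact_Icc.exists_isMaxOn ⟨e s, ⟨le_rfl, h2⟩⟩ hc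
      exact ⟨t, fun _ => ⟨ht, fun x hx => hm hx⟩⟩
    · exact ⟨0, fun h => absurd h hs⟩
  choose τ hτ using hmax
  set Λ : ℝ → ℝ := fun t => -32 * Real.log (1 - t) with hΛ
  have hΛd : ∀ t : ℝ, t < 1 → HasDerivAt Λ (32 / (1 - t)) t := by
    intro t ht
    have h1 : HasDerivAt (fun t : ℝ => 1 - t) (-1) t := by
      simpa using (hasDerivAt_id t).const_sub 1
    have h2 := (h1.log (by linarith : (1 : ℝ) - t ≠ 0)).const_mul (-32)
    have : (32 / (1 - t)) = -32 * (-1 / (1 - t)) := by ring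
    rw [this]
    exact h2
  have hΛmono : ∀ x y : ℝ, x ≤ y → y < 1 → Λ x ≤ Λ y := by
    intro x y hxy hy
    have : Real.log (1 - y) ≤ Real.log (1 - x) := Real.log_le_log (by linarith) (by linarith)
    simp only [hΛ]; linarith
  have hΛ0 : ∀ x : ℝ, 0 ≤ x → x < 1 → 0 ≤ Λ x := by
    intro x hx hx1
    have := hΛmono 0 x hx hx1
    simpa [hΛ] using this
  -- the main estimate
  have hterm : ∀ s < S, (R s - R (s + 1)) / Metric.infDist (σ (τ s)) Vᶜ ≤ Λ (b s) - Λ (e s) := by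
    intro s hs
    obtain ⟨h1, h2, h3, h4, h5, h6, h7⟩ := hcr s hs
    obtain ⟨hτ1, hτ2⟩ := hτ s hs
    have hsub : Icc (e s) (b s) ⊆ Icc ρ₁ W := Icc_subset_Icc h1 h3
    have hpos : 0 < δ (τ s) := hδpos _ (hsub hτ1)
    have hmv := image_norm_le_of_norm_deriv_right_le_deriv_boundary'
      (f := fun t => σ t - σ (e s)) (f' := fun t => deriv Ψ ((t : ℂ) * ω) * ω)
      (a := e s) (b := b s)
      ((hσc.mono hsub).sub continuousOn_const)
      (fun x hx => ((hσd x (hsub ⟨hx.1, hx.2.le⟩).1 (hsub ⟨hx.1, hx.2.le⟩).2).sub_const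
        (σ (e s))).hasDerivWithinAt)
      (B := fun t => δ (τ s) * (Λ t - Λ (e s))) (B' := fun t => δ (τ s) * (32 / (1 - t)))
      (by simp)
      (by
        apply ContinuousOn.mul continuousOn_const
        apply ContinuousOn.sub _ continuousOn_const
        intro x hx
        exact (hΛd x (by linarith [(hsub hx).2])).continuousAt.continuousWithinAt)
      (fun x hx => by
        have hx1 : x < 1 := by linarith [(hsub ⟨hx.1, hx.2.le⟩).2]
        exact (((hΛd x hx1).sub_const (Λ (e s))).const_mul (δ (τ s))).hasDerivWithinAt)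
      (fun x hx => by
        have hx' : x ∈ Icc (e s) (b s) := ⟨hx.1, hx.2.le⟩
        have hx1 : x < 1 := by linarith [(hsub hx').2]
        calc ‖deriv Ψ ((x : ℂ) * ω) * ω‖ ≤ δ x * (32 / (1 - x)) := hder x (hsub hx')
          _ ≤ δ (τ s) * (32 / (1 - x)) :=
            mul_le_mul_of_nonneg_right (hτ2 x hx') (div_nonneg (by norm_num) (by linarith)))
      (right_mem_Icc.2 h2)
    have hdiff : R s - R (s + 1) ≤ ‖σ (b s) - σ (e s)‖ := by
      rw [← h4, ← h5]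
      simp only [hg]
      have := norm_sub_norm_le (σ (e s) - p) (σ (b s) - p)
      have e1 : σ (e s) - p - (σ (b s) - p) = -(σ (b s) - σ (e s)) := by ring
      rw [e1, norm_neg] at this
      exact this
    rw [div_le_iff₀ hpos]
    calc R s - R (s + 1) ≤ ‖σ (b s) - σ (e s)‖ := hdiff
      _ ≤ δ (τ s) * (Λ (b s) - Λ (e s)) := hmv
      _ = _ := by ring
  have hsum : ∀ k, k + 1 ≤ S → ∑ s ∈ Finset.range (k + 1), (Λ (b s) - Λ (e s)) ≤ Λ (b k) := by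
    intro k
    induction k with
    | zero =>
      intro hk
      obtain ⟨h1, h2, h3, _⟩ := hcr 0 (by omega)
      rw [Finset.sum_range_one]
      have := hΛ0 (e 0) (by linarith) (by linarith)
      linarith
    | succ k ih =>
      intro hk
      have h := ih (by omega)
      rw [Finset.sum_range_succ]
      have hn := hnext k (by omega)
      obtain ⟨h1, h2, h3, _⟩ := hcr (k + 1) (by omega)
      have := hΛmono (b k) (e (k + 1)) hn (by linarith)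
      linarith
  refine ⟨fun s => σ (τ s), ?_, ?_⟩
  · intro s hs
    obtain ⟨h1, h2, h3, h4, h5, h6, h7⟩ := hcr s hs
    obtain ⟨hτ1, hτ2⟩ := hτ s hs
    refine ⟨?_, (h6 (τ s) hτ1).1, (h6 (τ s) hτ1).2⟩
    have hτW : τ s ≤ W := hτ1.2.trans h3
    have hsub : Icc (τ s) W ⊆ Icc ρ₁ W := Icc_subset_Icc (h1.trans hτ1.1) le_rfl
    have hpc : IsPathConnected (σ '' Icc (τ s) W) :=
      ((convex_Icc (τ s) W).isPathConnected ⟨W, ⟨hτW, le_rfl⟩⟩).image' (hσc.mono hsub)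
    have hj := hpc.joinedIn (σ W) ⟨W, ⟨hτW, le_rfl⟩, rfl⟩ (σ (τ s)) ⟨τ s, ⟨le_rfl, hτW⟩, rfl⟩
    have hσW : σ W = Ψ w := by show Ψ ((W : ℂ) * ω) = Ψ w; rw [hWω]
    rw [hσW] at hj
    apply hj.mono
    rintro _ ⟨t, ht, rfl⟩
    refine ⟨hσV t (hsub ht), ?_⟩
    rw [Metric.mem_ball, dist_eq_norm]
    have h8 := h7 t ⟨hτ1.1.trans ht.1, ht.2⟩
    have h9 : R s ≤ R 0 := hR.antitone (Nat.zero_le s)
    exact (h8.trans h9).trans_lt hR0
  · have hW : Λ W = 32 * Real.log (1 / (1 - W)) := by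
      simp only [hΛ]
      rw [one_div, Real.log_inv]; ring
    have hΛW : 0 ≤ Λ W := hΛ0 W hW0.le hw1
    rw [← hW]
    calc ∑ s ∈ Finset.range S, (R s - R (s + 1)) / Metric.infDist (σ (τ s)) Vᶜ
        ≤ ∑ s ∈ Finset.range S, (Λ (b s) - Λ (e s)) :=
          Finset.sum_le_sum fun s hs => hterm s (Finset.mem_range.1 hs)
      _ ≤ Λ W := by
          rcases Nat.eq_zero_or_pos S with h | h
          · rw [h]; simpa using hΛW
          · obtain ⟨k, rfl⟩ : ∃ k, S = k + 1 := ⟨S - 1, by omega⟩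
            obtain ⟨_, _, h3, _⟩ := hcr k (by omega)
            exact (hsum k le_rfl).trans (hΛmono _ _ h3 hw1)

end Pool.Agent.TB
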