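/-
Project TB (MP_d9e400_an). Module Packing.
Two of many deep points lie in one component.

PROOF. By contradiction: no i < j with v i, v j joined in S₀ = V ∩ ball p r₀. C > 0 since v 0 ≠ p. pack_params (r₀ C α c q): J, S.
R s = (r₀/2)(1-1/(4J))^s: StrictAnti, positive, R 0 < r₀. I = Finset.Ico J (2J), card J = M ≥ 100. For i ∈ I: ‖v i - p‖ ≤ C/(i+1)^α ≤ C/(J+1)^α ≤ R S.
ray_cost for w i: points z i s. Upper bound: ∑_s (R s - R(s+1))/δ_{i,s} ≤ 32 log(1/(1-‖w i‖)) ≤ 32 log(1/(c q^i)) ≤ 32 log(1/(c q^{2J})),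
δ_{i,s} = infDist (z i s) Vᶜ. Total T ≤ J·32 log(1/(c q^{2J})).
For fixed s < S the balls ball (z i s) (δ_{i,s}), i ∈ I, are pairwise disjoint: each is contained in V, and in ball p r₀ because
δ ≤ ‖z - p‖ ≤ R s ≤ r₀/2 (p ∉ V). If two meet then v i ~ z i s ~ z j s ~ v j are joined in S₀ (balls are convex). annulus_packing
(R = R s, R(s+1) = R s (1 - 1/(4M))): at least M/2 of the i have δ < 36 R s/(4M) = 36 (R s - R(s+1)), so ∑_i (R s - R(s+1))/δ_{i,s} ≥ M/72.
Total T ≥ S·M/72: contradiction with pack_params.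
-/
import Mathlib
import Pool.Agent.TB.Defs
import Pool.Agent.TB.AnnPack
import Pool.Agent.TB.RayCost
import Pool.Agent.TB.PackPar

set_option autoImplicit false

open Set Filter Topology Metric

namespace Pool.Agent.TB

theorem packing {V : Set ℂ} (hV : IsOpen V) {Ψ : ℂ → ℂ} (hΨ : Ext V Ψ) {p : ℂ} (hp : p ∉ V)
    {r₀ : ℝ} (hr₀ : 0 < r₀) {v w : ℕ → ℂ} (hv : ∀ n, v n ∈ V ∩ Metric.ball p r₀)
    (hw : ∀ n, w n ∈ Dk \ {0} ∧ Ψ (w n) = v n) {C α : ℝ} (hα : 0 < α)
    (hdec : ∀ n : ℕ, ‖v n - p‖ ≤ C / ((n : ℝ) + 1) ^ α) {c q : ℝ} (hc : 0 < c) (hq : 0 < q)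
    (hq1 : q < 1) (hlow : ∀ n, c * q ^ n ≤ 1 - ‖w n‖) {ρ₁ : ℝ} (hρ₁ : 1 / 2 ≤ ρ₁) (hρ₁' : ρ₁ < 1)
    (hout : ∀ w : ℂ, w ≠ 0 → ‖w‖ ≤ ρ₁ → Ψ w ∉ Metric.ball p r₀) :
    ∃ i j : ℕ, i < j ∧ JoinedIn (V ∩ Metric.ball p r₀) (v i) (v j) := by
  by_contra hcon
  push Not at hcon
  have hCpos : 0 < C := by
    have h0 := hdec 0
    have h1 : 0 < ‖v 0 - p‖ :=
      norm_pos_iff.mpr (sub_ne_zero.mpr (fun h => hp (h ▸ (hv 0).1)))
    simp at h0
    linarith
  obtain ⟨J, S, hJ, h1, h2⟩ := pack_params hr₀ hCpos hα hc hq hq1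
  have hJr : (100 : ℝ) ≤ (J : ℝ) := by exact_mod_cast hJ
  have hJp : (0 : ℝ) < (J : ℝ) := by linarith
  have hx0 : 0 < 1 / (4 * (J : ℝ)) := by positivity
  have hx1 : 1 / (4 * (J : ℝ)) < 1 := by
    rw [div_lt_one (by positivity)]; linarith
  set x : ℝ := 1 / (4 * (J : ℝ)) with hx
  obtain ⟨R, hRdef⟩ : ∃ R : ℕ → ℝ, ∀ s, R s = (r₀ / 2) * (1 - x) ^ s := ⟨_, fun _ => rfl⟩
  have hy0 : 0 < 1 - x := by linarith
  have hy1 : 1 - x < 1 := by linarith
  have hRpos : ∀ s, 0 < R s := fun s => by rw [hRdef]; positivity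
  have hRsucc : ∀ s, R (s + 1) = R s * (1 - x) := fun s => by
    rw [hRdef, hRdef, pow_succ]; ring
  have hRanti : StrictAnti R := by
    apply strictAnti_nat_of_succ_lt
    intro s
    rw [hRsucc]
    have := hRpos s
    nlinarith
  have hR0 : R 0 < r₀ := by rw [hRdef]; simp; linarith
  have hRle : ∀ s, R s ≤ r₀ / 2 := fun s => by
    have := hRanti.antitone (Nat.zero_le s)
    rw [hRdef 0] at this
    simpa using this
  have key : ∀ i, J ≤ i → ∃ z : ℕ → ℂ,
      (∀ s < S, JoinedIn (V ∩ Metric.ball p r₀) (v i) (z s) ∧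
        R (s + 1) ≤ ‖z s - p‖ ∧ ‖z s - p‖ ≤ R s) ∧
      ∑ s ∈ Finset.range S, (R s - R (s + 1)) / Metric.infDist (z s) Vᶜ ≤
        32 * Real.log (1 / (1 - ‖w i‖)) := by
    intro i hi
    have hle : ‖v i - p‖ ≤ R S := by
      refine (hdec i).trans ?_
      rw [hRdef]
      refine le_trans ?_ h1
      apply div_le_div_of_nonneg_left hCpos.le
      · positivity
      · apply Real.rpow_le_rpow (by positivity) _ hα.le
        have : (J : ℝ) ≤ (i : ℝ) := by exact_mod_cast hi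
        linarith
    have := ray_cost hV hΨ hp hρ₁ hρ₁' hout (hw i).1 (by rw [(hw i).2]; exact (hv i).2)
      hRanti hR0 hRpos (S := S) (by rw [(hw i).2]; exact hle)
    rwa [(hw i).2] at this
  choose! z hz hzs using key
  have hne : (Vᶜ : Set ℂ).Nonempty := ⟨p, hp⟩
  have hcl : IsClosed (Vᶜ : Set ℂ) := hV.isClosed_compl
  have hzV : ∀ i, J ≤ i → ∀ s < S, z i s ∈ V := fun i hi s hs =>
    ((hz i hi s hs).1.target_mem).1
  have hδpos : ∀ i, J ≤ i → ∀ s < S, 0 < Metric.infDist (z i s) Vᶜ := fun i hi s hs =>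
    (hcl.notMem_iff_infDist_pos hne).mp (fun h => h (hzV i hi s hs))
  have hballsub : ∀ i, J ≤ i → ∀ s < S,
      Metric.ball (z i s) (Metric.infDist (z i s) Vᶜ) ⊆ V ∩ Metric.ball p r₀ := by
    intro i hi s hs y hy
    rw [Metric.mem_ball] at hy
    refine ⟨?_, ?_⟩
    · by_contra hyV
      have := Metric.infDist_le_dist_of_mem (x := z i s) (show y ∈ (Vᶜ : Set ℂ) from hyV)
      rw [dist_comm] at this
      linarith
    · have h3 : Metric.infDist (z i s) Vᶜ ≤ dist (z i s) p :=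
        Metric.infDist_le_dist_of_mem (show p ∈ (Vᶜ : Set ℂ) from hp)
      have h4 : dist (z i s) p ≤ R s := by
        rw [dist_eq_norm]; exact (hz i hi s hs).2.2
      have h5 := hRle s
      have h6 := dist_triangle y (z i s) p
      rw [Metric.mem_ball]
      linarith
  have hjoin : ∀ i, J ≤ i → ∀ j, J ≤ j → ∀ s < S, ∀ y,
      y ∈ Metric.ball (z i s) (Metric.infDist (z i s) Vᶜ) →
      y ∈ Metric.ball (z j s) (Metric.infDist (z j s) Vᶜ) →
      JoinedIn (V ∩ Metric.ball p r₀) (v i) (v j) := by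
    intro i hi j hj s hs y hyi hyj
    have a1 : JoinedIn (V ∩ Metric.ball p r₀) (z i s) y :=
      (((convex_ball (z i s) (Metric.infDist (z i s) Vᶜ)).isPathConnected ⟨y, hyi⟩).joinedIn _
        (Metric.mem_ball_self (hδpos i hi s hs)) _ hyi).mono (hballsub i hi s hs)
    have a2 : JoinedIn (V ∩ Metric.ball p r₀) (z j s) y :=
      (((convex_ball (z j s) (Metric.infDist (z j s) Vᶜ)).isPathConnected ⟨y, hyj⟩).joinedIn _
        (Metric.mem_ball_self (hδpos j hj s hs)) _ hyj).mono (hballsub j hj s hs)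
    exact (((hz i hi s hs).1.trans a1).trans a2.symm).trans (hz j hj s hs).1.symm
  -- lower bound for each level
  have hlev : ∀ s < S, (J : ℝ) / 72 ≤
      ∑ i ∈ Finset.Ico J (2 * J), (R s - R (s + 1)) / Metric.infDist (z i s) Vᶜ := by
    intro s hs
    obtain ⟨I', hI'sub, hI'card, hI'⟩ := annulus_packing (Finset.Ico J (2 * J)) J
      (by rw [Nat.card_Ico]; omega) hJ (p := p) (hRpos s) (fun i => z i s)
      (fun i => Metric.infDist (z i s) Vᶜ)
      (fun i hi => by
        rw [Finset.mem_Ico] at hi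
        have := (hz i hi.1 s hs).2
        rw [hRsucc] at this
        exact this)
      (fun i hi => by
        rw [Finset.mem_Ico] at hi
        exact hδpos i hi.1 s hs)
      (fun i hi j hj hij => by
        rw [Finset.mem_Ico] at hi hj
        rw [Set.disjoint_left]
        intro y hyi hyj
        rcases lt_or_gt_of_ne hij with h | h
        · exact hcon i j h (hjoin i hi.1 j hj.1 s hs y hyi hyj)
        · exact hcon j i h (hjoin j hj.1 i hi.1 s hs y hyj hyi))
    have hdiff : R s - R (s + 1) = R s / (4 * (J : ℝ)) := by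
      rw [hRsucc, hx]; ring
    have hpos : 0 < R s / (4 * (J : ℝ)) := by have := hRpos s; positivity
    calc (J : ℝ) / 72 ≤ (I'.card : ℝ) * (1 / 36) := by linarith
      _ = ∑ i ∈ I', (1 / 36 : ℝ) := by rw [Finset.sum_const, nsmul_eq_mul]
      _ ≤ ∑ i ∈ I', (R s - R (s + 1)) / Metric.infDist (z i s) Vᶜ := by
          apply Finset.sum_le_sum
          intro i hi
          have hiI := hI'sub hi
          rw [Finset.mem_Ico] at hiI
          have hd := hδpos i hiI.1 s hs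
          have hlt : Metric.infDist (z i s) Vᶜ < 36 * (R s / (4 * (J : ℝ))) := hI' i hi
          rw [hdiff, le_div_iff₀ hd]
          linarith
      _ ≤ ∑ i ∈ Finset.Ico J (2 * J), (R s - R (s + 1)) / Metric.infDist (z i s) Vᶜ := by
          apply Finset.sum_le_sum_of_subset_of_nonneg hI'sub
          intro i hi _
          rw [Finset.mem_Ico] at hi
          have hd := hδpos i hi.1 s hs
          rw [hdiff]
          positivity
  have htot1 : (S : ℝ) * ((J : ℝ) / 72) ≤ ∑ s ∈ Finset.range S,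
      ∑ i ∈ Finset.Ico J (2 * J), (R s - R (s + 1)) / Metric.infDist (z i s) Vᶜ := by
    calc (S : ℝ) * ((J : ℝ) / 72) = ∑ s ∈ Finset.range S, ((J : ℝ) / 72) := by
          rw [Finset.sum_const, nsmul_eq_mul, Finset.card_range]
      _ ≤ _ := Finset.sum_le_sum (fun s hs => hlev s (Finset.mem_range.mp hs))
  rw [Finset.sum_comm] at htot1
  have htot2 : ∑ i ∈ Finset.Ico J (2 * J), ∑ s ∈ Finset.range S,
      (R s - R (s + 1)) / Metric.infDist (z i s) Vᶜ ≤
      ∑ i ∈ Finset.Ico J (2 * J), 32 * Real.log (1 / (c * q ^ (2 * J))) := by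
    apply Finset.sum_le_sum
    intro i hi
    rw [Finset.mem_Ico] at hi
    refine (hzs i hi.1).trans ?_
    have hcq : 0 < c * q ^ (2 * J) := by positivity
    have h3 : c * q ^ (2 * J) ≤ 1 - ‖w i‖ := by
      refine le_trans ?_ (hlow i)
      apply mul_le_mul_of_nonneg_left _ hc.le
      exact pow_le_pow_of_le_one hq.le hq1.le (by omega)
    have h4 : Real.log (1 / (1 - ‖w i‖)) ≤ Real.log (1 / (c * q ^ (2 * J))) := by
      apply Real.log_le_log
      · apply div_pos one_pos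
        linarith
      · exact one_div_le_one_div_of_le hcq h3
    linarith
  rw [Finset.sum_const, nsmul_eq_mul, Nat.card_Ico] at htot2
  have h5 : (2 * J - J : ℕ) = J := by omega
  rw [h5] at htot2
  have h6 := htot1.trans htot2
  nlinarith [h6, h2]

end Pool.Agent.TB
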