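/-
Project TB (MP_d9e400_an). Module LocInv.
The local inverse at a fixed point.

PROOF. HasStrictDerivAt.toOpenPartialHomeomorph / ContDiffAt.to_localInverse (f analytic): local inverse ψ, analytic near p, f(ψ z) = z near p,
ψ p = p, derivative (f' p)⁻¹. InjOn from f ∘ ψ = id.
-/
import Mathlib
import Pool.Agent.TB.Defs

set_option autoImplicit false

open Set Filter Topology Metric

namespace Pool.Agent.TB

/-- a holomorphic local inverse at a fixed point with nonzero multiplier -/
theorem local_inverse {f : ℂ → ℂ} (hf : Differentiable ℂ f) {p : ℂ} (hfp : f p = p)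
    (h1 : deriv f p ≠ 0) :
    ∃ (ψ : ℂ → ℂ) (r : ℝ), 0 < r ∧ ψ p = p ∧ DifferentiableOn ℂ ψ (Metric.ball p r) ∧
      (∀ z ∈ Metric.ball p r, f (ψ z) = z) ∧ InjOn ψ (Metric.ball p r) ∧
      deriv ψ p = (deriv f p)⁻¹ := by
  have hfa : AnalyticAt ℂ f p := hf.analyticAt p
  set ψ : ℂ → ℂ := hfa.hasStrictDerivAt.localInverse _ _ _ h1 with hψ
  have han : AnalyticAt ℂ ψ (f p) := hfa.analyticAt_localInverse h1
  have hright : ∀ᶠ z in 𝓝 (f p), f (ψ z) = z := HasStrictDerivAt.eventually_right_inverse ..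
  have hpp : ψ (f p) = p := HasStrictFDerivAt.localInverse_apply_image ..
  have hder : HasStrictDerivAt ψ (deriv f p)⁻¹ (f p) :=
    hfa.hasStrictDerivAt.to_localInverse h1
  rw [hfp] at han hright hpp hder
  obtain ⟨r, hr, hball⟩ := Metric.eventually_nhds_iff_ball.1
    (han.eventually_analyticAt.and hright)
  refine ⟨ψ, r, hr, hpp, fun z hz => (hball z hz).1.differentiableAt.differentiableWithinAt,
    fun z hz => (hball z hz).2, ?_, hder.hasDerivAt.deriv⟩
  intro z hz w hw hzw
  rw [← (hball z hz).2, hzw, (hball w hw).2]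

end Pool.Agent.TB
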