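/-
Project TB (MP_d9e400_an). Module ParCoord.
The coordinate at a fixed point of multiplier one.

PROOF. f z - z is analytic at p, not eventually zero, order ≥ 2 (value and derivative vanish): f z - z = (z-p)^(m+1) g z near p, m ≥ 1, g analytic,
a = g p ≠ 0. A = -1/(m a). f z - p = (z-p)(1 + x), x = (z-p)^m g z → 0; so f z ≠ p for z near p, z ≠ p. A/(f z - p)^m - A/(z-p)^m =
A (z-p)^{-m} ((1+x)^{-m} - 1) = A g z · ((1+x)^{-m} - 1)/x and ((1+x)^{-m}-1)/x → -m as x → 0 (derivative at 0), x ≠ 0. Limit -mAa = 1.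
(If g z could vanish: g z ≠ 0 near p.)
-/
import Mathlib
import Pool.Agent.TB.Defs

set_option autoImplicit false

open Set Filter Topology Metric

namespace Pool.Agent.TB

theorem ParCoord_order {f : ℂ → ℂ} (hf : Differentiable ℂ f) {p : ℂ} (hfp : f p = p)
    (h1 : deriv f p = 1) (hne : ¬ ∀ᶠ z in 𝓝 p, f z = z) :
    ∃ (m : ℕ) (g : ℂ → ℂ), 1 ≤ m ∧ ContinuousAt g p ∧ g p ≠ 0 ∧
      ∀ᶠ z in 𝓝 p, f z - z = (z - p) ^ (m + 1) * g z := by
  have han : AnalyticAt ℂ (fun z => f z - z) p :=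
    (hf.analyticAt p).sub analyticAt_id
  have hne' : ¬ ∀ᶠ z in 𝓝 p, f z - z = 0 := by
    intro h
    apply hne
    filter_upwards [h] with z hz
    exact sub_eq_zero.1 hz
  obtain ⟨n, g, hg, hg0, heq⟩ := han.exists_eventuallyEq_pow_smul_nonzero_iff.2 hne'
  have heq' : ∀ᶠ z in 𝓝 p, f z - z = (z - p) ^ n * g z := heq
  have hn0 : n ≠ 0 := by
    rintro rfl
    have := heq'.self_of_nhds
    rw [hfp, sub_self, pow_zero, one_mul] at this
    exact hg0 this.symm
  have hn1 : n ≠ 1 := by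
    rintro rfl
    have hd1 : HasDerivAt (fun z => f z - z) 0 p := by
      have h2 := (hf p).hasDerivAt.sub (hasDerivAt_id p)
      rw [h1, sub_self] at h2
      exact h2
    have hd2 : HasDerivAt (fun z => (z - p) ^ 1 * g z) (g p) p := by
      have h3 := ((hasDerivAt_id p).sub_const p).mul hg.differentiableAt.hasDerivAt
      have h4 : HasDerivAt (fun z => (z - p) * g z) (1 * g p + (p - p) * deriv g p) p := h3
      rw [sub_self, zero_mul, add_zero, one_mul] at h4
      simpa using h4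
    have hd3 : HasDerivAt (fun z => f z - z) (g p) p := hd2.congr_of_eventuallyEq heq'
    exact hg0 (hd3.unique hd1)
  obtain ⟨m, rfl⟩ : ∃ m, n = m + 2 := ⟨n - 2, by omega⟩
  exact ⟨m + 1, g, by omega, hg.continuousAt, hg0, heq'⟩

/-- In the coordinate `T = A / (z - p)^m` the map `f` is close to `T ↦ T + 1` near `p`. -/
theorem parabolic_coordinate {f : ℂ → ℂ} (hf : Differentiable ℂ f) {p : ℂ} (hfp : f p = p)
    (h1 : deriv f p = 1) (hne : ¬ ∀ᶠ z in 𝓝 p, f z = z) :
    ∃ (m : ℕ) (A : ℂ), 1 ≤ m ∧ A ≠ 0 ∧ ∀ ε : ℝ, 0 < ε → ∃ r : ℝ, 0 < r ∧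
      ∀ z : ℂ, z ≠ p → ‖z - p‖ < r → f z ≠ p ∧
        ‖A / (f z - p) ^ m - A / (z - p) ^ m - 1‖ ≤ ε := by
  obtain ⟨m, g, hm, hgc, hg0, heq⟩ := ParCoord_order hf hfp h1 hne
  have hmc : (m : ℂ) ≠ 0 := by
    have : m ≠ 0 := by omega
    exact_mod_cast this
  refine ⟨m, -1 / (m * g p), hm, ?_, ?_⟩
  · exact div_ne_zero (by norm_num) (mul_ne_zero hmc hg0)
  intro ε hε
  set A : ℂ := -1 / (m * g p) with hA
  set x : ℂ → ℂ := fun z => (z - p) ^ m * g z with hx
  have hxc : ContinuousAt x p :=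
    (((continuous_id.sub continuous_const).pow m).continuousAt).mul hgc
  have hxp : x p = 0 := by
    rw [hx]
    simp only [sub_self]
    rw [zero_pow (by omega), zero_mul]
  set E : ℂ → ℂ := fun z =>
    A * g z * (-(∑ i ∈ Finset.range m, (1 + x z) ^ i) / (1 + x z) ^ m) with hE
  have h1x : ContinuousAt (fun z => 1 + x z) p := continuousAt_const.add hxc
  have hEc : ContinuousAt E p := by
    refine (continuousAt_const.mul hgc).mul (ContinuousAt.div ?_ (h1x.pow m) ?_)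
    · refine ContinuousAt.neg ?_
      refine tendsto_finsetSum _ fun i _ => ?_
      exact (h1x.pow i)
    · simp only [hxp, add_zero, one_pow]
      exact one_ne_zero
  have hEp : E p = 1 := by
    rw [hE]
    simp only [hxp, add_zero, one_pow, Finset.sum_const, Finset.card_range, nsmul_eq_mul,
      mul_one, div_one]
    rw [hA]
    field_simp
  have hev1 : ∀ᶠ z in 𝓝 p, ‖E z - 1‖ < ε := by
    have h2 : Tendsto (fun z => ‖E z - 1‖) (𝓝 p) (𝓝 ‖E p - 1‖) :=
      ((hEc.tendsto.sub_const 1).norm)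
    rw [hEp, sub_self, norm_zero] at h2
    exact h2.eventually (gt_mem_nhds hε)
  have hev2 : ∀ᶠ z in 𝓝 p, 1 + x z ≠ 0 := by
    have h3 : (1 : ℂ) + x p ≠ 0 := by
      rw [hxp, add_zero]
      exact one_ne_zero
    exact h1x.eventually_ne h3
  obtain ⟨r, hr, hball⟩ := Metric.eventually_nhds_iff.1 (hev1.and (hev2.and heq))
  refine ⟨r, hr, ?_⟩
  intro z hz hzr
  obtain ⟨e1, e2, e3⟩ := hball (show dist z p < r by rwa [dist_eq_norm])
  have hzp : z - p ≠ 0 := sub_ne_zero.2 hz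
  have hfz : f z - p = (z - p) * (1 + x z) := by
    have : f z = z + (z - p) ^ (m + 1) * g z := by
      rw [← e3]
      ring
    rw [this, hx]
    ring
  have hfz0 : f z - p ≠ 0 := by
    rw [hfz]
    exact mul_ne_zero hzp e2
  refine ⟨sub_ne_zero.1 hfz0, ?_⟩
  have hgeom : (∑ i ∈ Finset.range m, (1 + x z) ^ i) * x z = (1 + x z) ^ m - 1 := by
    have := geom_sum_mul (1 + x z) m
    rwa [add_sub_cancel_left] at this
  have hkey : A / (f z - p) ^ m - A / (z - p) ^ m = E z := by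
    have hzm : (z - p) ^ m ≠ 0 := pow_ne_zero _ hzp
    have hxm : (1 + x z) ^ m ≠ 0 := pow_ne_zero _ e2
    have hEz : E z = A * g z * (-(∑ i ∈ Finset.range m, (1 + x z) ^ i) / (1 + x z) ^ m) := rfl
    have hgz : g z = x z / (z - p) ^ m := by
      rw [hx]
      field_simp
    rw [hEz, hfz, mul_pow]
    have h5 : A * g z * (-(∑ i ∈ Finset.range m, (1 + x z) ^ i) / (1 + x z) ^ m) =
        -(A * ((∑ i ∈ Finset.range m, (1 + x z) ^ i) * x z)) / ((z - p) ^ m * (1 + x z) ^ m) := by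
      rw [hgz]
      field_simp
    rw [h5, hgeom]
    field_simp
    ring
  rw [hkey]
  exact e1.le

end Pool.Agent.TB
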