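/-
Project TB (MP_d9e400_an). Module ParDyn.
Forward and backward orbits near a parabolic point.

PROOFS. T z = A/(z-p)^m. ‖z-p‖^m = |A|/|T z|. par_forward: T₁ = 2|A|/r^m. By induction: f^[n] z ≠ p, ‖f^[n] z - p‖ < r, |T(f^[n] z) - T z - n| ≤
n/4. Since Re T z > 0: |T z + n| ≥ max(|T z|, n), so |T(f^[n] z)| ≥ |T z + n| - n/4 ≥ (3/4)|T z| > (3/2)|A|/r^m, so ‖f^[n] z - p‖ < r.
par_backward: f p = p (hψ, hψp). r'' ≤ r' with ψ(ball p r'') ⊆ ball p r (continuity). z ∈ ball p r'', z ≠ p: ψ z ≠ p (else z = f(ψ z) = p), so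
|T(ψ z) - (T z - 1)| ≤ 1/4 (hT at ψ z). T₂ with |T z| > T₂ → ‖z-p‖ < r''. r₁ such that ‖z-p‖ < r₁ → |T z| > 2 T₂ (and > some T₀ > 0).
If Re T z ≤ 0: |T z - n| ≥ max(|T z|, n), by induction |T(ψ^[n] z) - (T z - n)| ≤ n/4, |T(ψ^[n] z)| ≥ (3/4) max(|T z|, n) > T₂, so the orbit
stays in ball p r''; and ≥ (3/8)(T₀ + n) ≥ c (n+1), so ‖ψ^[n] z - p‖ = (|A|/|T|)^{1/m} ≤ (|A|/c)^{1/m}/(n+1)^{1/m}.
-/
import Mathlib
import Pool.Agent.TB.Defs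

set_option autoImplicit false

open Set Filter Topology Metric

namespace Pool.Agent.TB

private theorem ParDyn_norm_add {w : ℂ} {N : ℝ} (hw : 0 ≤ w.re) (hN : 0 ≤ N) :
    ‖w‖ ≤ ‖w + (N : ℂ)‖ ∧ N ≤ ‖w + (N : ℂ)‖ := by
  constructor
  · rw [← Real.sqrt_sq (norm_nonneg w), ← Real.sqrt_sq (norm_nonneg (w + (N : ℂ)))]
    apply Real.sqrt_le_sqrt
    rw [← Complex.normSq_eq_norm_sq, ← Complex.normSq_eq_norm_sq, Complex.normSq_apply,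
      Complex.normSq_apply]
    simp only [Complex.add_re, Complex.add_im, Complex.ofReal_re, Complex.ofReal_im, add_zero]
    nlinarith [mul_nonneg hw hN]
  · calc N ≤ (w + (N : ℂ)).re := by simp [hw]
      _ ≤ |(w + (N : ℂ)).re| := le_abs_self _
      _ ≤ ‖w + (N : ℂ)‖ := Complex.abs_re_le_norm _

private theorem ParDyn_lt {p A u : ℂ} {m : ℕ} {s : ℝ} (hs : 0 < s)
    (h : ‖A‖ / s ^ m < ‖A / (u - p) ^ m‖) : ‖u - p‖ < s := by
  by_contra hcon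
  push Not at hcon
  have h1 : s ^ m ≤ ‖u - p‖ ^ m := pow_le_pow_left₀ hs.le hcon m
  rw [norm_div, norm_pow] at h
  have h2 : ‖A‖ / ‖u - p‖ ^ m ≤ ‖A‖ / s ^ m :=
    div_le_div_of_nonneg_left (norm_nonneg _) (by positivity) h1
  exact absurd h (not_lt.2 h2)

theorem par_forward {f : ℂ → ℂ} {p A : ℂ} {m : ℕ} (hm : 1 ≤ m) (hA : A ≠ 0) {r : ℝ} (hr : 0 < r)
    (hT : ∀ z : ℂ, z ≠ p → ‖z - p‖ < r → f z ≠ p ∧
      ‖A / (f z - p) ^ m - A / (z - p) ^ m - 1‖ ≤ 1 / 4) :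
    ∃ T₁ : ℝ, 0 < T₁ ∧ ∀ z : ℂ, z ≠ p → 0 < (A / (z - p) ^ m).re →
      T₁ < ‖A / (z - p) ^ m‖ → ∀ n : ℕ, ‖f^[n] z - p‖ < r := by
  have hA0 : 0 < ‖A‖ := norm_pos_iff.2 hA
  have hq : 0 < ‖A‖ / r ^ m := by positivity
  refine ⟨2 * (‖A‖ / r ^ m), by positivity, fun z hz hre hT1 n => ?_⟩
  suffices h : f^[n] z ≠ p ∧ ‖f^[n] z - p‖ < r ∧
      ‖A / (f^[n] z - p) ^ m - A / (z - p) ^ m - n‖ ≤ (n : ℝ) / 4 from h.2.1
  induction n with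
  | zero =>
    refine ⟨hz, ParDyn_lt hr (by simpa using (by linarith : ‖A‖ / r ^ m < ‖A / (z - p) ^ m‖)), ?_⟩
    simp
  | succ n ih =>
    obtain ⟨h1, h2, h3⟩ := ih
    obtain ⟨h4, h5⟩ := hT _ h1 h2
    rw [Function.iterate_succ_apply']
    have h6 : ‖A / (f (f^[n] z) - p) ^ m - A / (z - p) ^ m - ((n + 1 : ℕ) : ℂ)‖
        ≤ ((n + 1 : ℕ) : ℝ) / 4 := by
      have e : A / (f (f^[n] z) - p) ^ m - A / (z - p) ^ m - ((n + 1 : ℕ) : ℂ)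
          = (A / (f (f^[n] z) - p) ^ m - A / (f^[n] z - p) ^ m - 1)
            + (A / (f^[n] z - p) ^ m - A / (z - p) ^ m - n) := by push_cast; ring
      rw [e]
      refine (norm_add_le _ _).trans ((add_le_add h5 h3).trans (le_of_eq ?_))
      push_cast; ring
    refine ⟨h4, ParDyn_lt (A := A) (m := m) hr ?_, h6⟩
    obtain ⟨a1, a2⟩ := ParDyn_norm_add (w := A / (z - p) ^ m) (N := ((n + 1 : ℕ) : ℝ)) hre.le
      (Nat.cast_nonneg _)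
    have h7 : ‖A / (z - p) ^ m + ((((n + 1 : ℕ) : ℝ)) : ℂ)‖ ≤
        ‖A / (f (f^[n] z) - p) ^ m‖ + ((n + 1 : ℕ) : ℝ) / 4 := by
      have e : A / (z - p) ^ m + ((((n + 1 : ℕ) : ℝ)) : ℂ) = A / (f (f^[n] z) - p) ^ m
          - (A / (f (f^[n] z) - p) ^ m - A / (z - p) ^ m - ((n + 1 : ℕ) : ℂ)) := by
        push_cast; ring
      rw [e]
      exact (norm_sub_le _ _).trans (add_le_add le_rfl h6)
    linarith

theorem par_backward {f : ℂ → ℂ} {p A : ℂ} {m : ℕ} (hm : 1 ≤ m) (hA : A ≠ 0) {r : ℝ} (hr : 0 < r)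
    (hT : ∀ z : ℂ, z ≠ p → ‖z - p‖ < r → f z ≠ p ∧
      ‖A / (f z - p) ^ m - A / (z - p) ^ m - 1‖ ≤ 1 / 4)
    {ψ : ℂ → ℂ} {r' : ℝ} (hr' : 0 < r') (hψp : ψ p = p) (hψc : ContinuousOn ψ (Metric.ball p r'))
    (hψ : ∀ z ∈ Metric.ball p r', f (ψ z) = z) :
    ∃ r₁ : ℝ, 0 < r₁ ∧ r₁ ≤ r' ∧ ∃ C : ℝ, ∀ z : ℂ, z ≠ p → ‖z - p‖ < r₁ →
      (A / (z - p) ^ m).re ≤ 0 → ∀ n : ℕ, ψ^[n] z ∈ Metric.ball p r' ∧ ψ^[n] z ≠ p ∧
        ‖ψ^[n] z - p‖ ≤ C / ((n : ℝ) + 1) ^ (1 / (m : ℝ)) := by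
  have hA0 : 0 < ‖A‖ := norm_pos_iff.2 hA
  have hm0 : m ≠ 0 := by omega
  have hfp : f p = p := by
    have := hψ p (mem_ball_self hr')
    rwa [hψp] at this
  -- the radius r''
  have hcp : ContinuousAt ψ p := hψc.continuousAt (ball_mem_nhds p hr')
  have hev : ∀ᶠ z in 𝓝 p, ψ z ∈ ball p r := by
    have : ball p r ∈ 𝓝 (ψ p) := by rw [hψp]; exact ball_mem_nhds p hr
    exact hcp this
  obtain ⟨r₀, hr₀, hr₀'⟩ := Metric.eventually_nhds_iff.1 hev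
  set r2 : ℝ := min r₀ r' with hr2
  have hr2pos : 0 < r2 := lt_min hr₀ hr'
  have hr2le : r2 ≤ r' := min_le_right _ _
  have hψr : ∀ z : ℂ, ‖z - p‖ < r2 → z ≠ p → ψ z ≠ p ∧
      ‖A / (ψ z - p) ^ m - (A / (z - p) ^ m - 1)‖ ≤ 1 / 4 := by
    intro z hz hzp
    have hzb : z ∈ ball p r' := by
      rw [mem_ball, dist_eq_norm]; exact lt_of_lt_of_le hz hr2le
    have h1 : ψ z ≠ p := by
      intro h
      apply hzp
      rw [← hψ z hzb, h, hfp]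
    have h2 : ‖ψ z - p‖ < r := by
      have := hr₀' (y := z) (by rw [dist_eq_norm]; exact lt_of_lt_of_le hz (min_le_left _ _))
      rwa [mem_ball, dist_eq_norm] at this
    have h3 := (hT _ h1 h2).2
    rw [hψ z hzb] at h3
    refine ⟨h1, ?_⟩
    have h4 : A / (ψ z - p) ^ m - (A / (z - p) ^ m - 1)
        = -(A / (z - p) ^ m - A / (ψ z - p) ^ m - 1) := by ring
    rw [h4, norm_neg]
    exact h3
  set T₂ : ℝ := ‖A‖ / r2 ^ m with hT₂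
  have hT₂pos : 0 < T₂ := by positivity
  set c : ℝ := 3 / 8 * min (2 * T₂) 1 with hc
  have hcpos : 0 < c := by rw [hc]; positivity
  refine ⟨r2 / 2, by positivity, by linarith, (‖A‖ / c) ^ (1 / (m : ℝ)), ?_⟩
  intro z hz hzr hre
  -- ‖T z‖ ≥ 2 T₂
  have hTz : 2 * T₂ ≤ ‖A / (z - p) ^ m‖ := by
    have hzp : 0 < ‖z - p‖ := by rw [norm_pos_iff, sub_ne_zero]; exact hz
    rw [norm_div, norm_pow, hT₂, mul_div_assoc', div_le_div_iff₀ (by positivity) (by positivity)]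
    have h1 : ‖z - p‖ ^ m ≤ (r2 / 2) ^ m := pow_le_pow_left₀ hzp.le hzr.le m
    have h2 : 2 * (r2 / 2) ^ m ≤ r2 ^ m := by
      rw [div_pow, mul_div_assoc', div_le_iff₀ (by positivity)]
      have : (2 : ℝ) ≤ 2 ^ m := by
        calc (2 : ℝ) = 2 ^ 1 := (pow_one _).symm
          _ ≤ 2 ^ m := pow_le_pow_right₀ (by norm_num) hm
      nlinarith [pow_pos hr2pos m]
    calc 2 * ‖A‖ * ‖z - p‖ ^ m = ‖A‖ * (2 * ‖z - p‖ ^ m) := by ring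
      _ ≤ ‖A‖ * (2 * (r2 / 2) ^ m) := by
          apply mul_le_mul_of_nonneg_left _ hA0.le
          linarith
      _ ≤ ‖A‖ * r2 ^ m := mul_le_mul_of_nonneg_left h2 hA0.le
  have hlow : ∀ (n : ℕ) (u : ℂ), ‖A / (u - p) ^ m - (A / (z - p) ^ m - n)‖ ≤ (n : ℝ) / 4 →
      3 / 4 * ‖A / (z - p) ^ m‖ ≤ ‖A / (u - p) ^ m‖ ∧ 3 / 4 * (n : ℝ) ≤ ‖A / (u - p) ^ m‖ := by
    intro n u hu
    obtain ⟨a1, a2⟩ := ParDyn_norm_add (w := -(A / (z - p) ^ m)) (N := (n : ℝ))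
      (by rw [Complex.neg_re]; linarith) (Nat.cast_nonneg _)
    rw [norm_neg] at a1
    have e0 : -(A / (z - p) ^ m) + ((n : ℝ) : ℂ) = -(A / (z - p) ^ m - n) := by push_cast; ring
    rw [e0, norm_neg] at a1 a2
    have h7 : ‖A / (z - p) ^ m - n‖ ≤ ‖A / (u - p) ^ m‖ + (n : ℝ) / 4 := by
      have e : A / (z - p) ^ m - n = A / (u - p) ^ m
          - (A / (u - p) ^ m - (A / (z - p) ^ m - n)) := by ring
      rw [e]
      exact (norm_sub_le _ _).trans (add_le_add le_rfl hu)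
    constructor <;> linarith
  intro n
  suffices h : ψ^[n] z ≠ p ∧ ‖ψ^[n] z - p‖ < r2 ∧
      ‖A / (ψ^[n] z - p) ^ m - (A / (z - p) ^ m - n)‖ ≤ (n : ℝ) / 4 by
    obtain ⟨h1, h2, h3⟩ := h
    refine ⟨by rw [mem_ball, dist_eq_norm]; exact lt_of_lt_of_le h2 hr2le, h1, ?_⟩
    obtain ⟨b1, b2⟩ := hlow n _ h3
    have hw : 0 < ‖ψ^[n] z - p‖ := by rw [norm_pos_iff, sub_ne_zero]; exact h1
    have h4 : c * ((n : ℝ) + 1) ≤ ‖A / (ψ^[n] z - p) ^ m‖ := by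
      have m1 : min (2 * T₂) 1 ≤ 2 * T₂ := min_le_left _ _
      have m2 : min (2 * T₂) 1 ≤ 1 := min_le_right _ _
      have hn0 : (0 : ℝ) ≤ n := Nat.cast_nonneg _
      have h5 : min (2 * T₂) 1 * ((n : ℝ) + 1) ≤ n + 2 * T₂ := by nlinarith
      have h6 : c * ((n : ℝ) + 1) = 3 / 8 * (min (2 * T₂) 1 * ((n : ℝ) + 1)) := by
        rw [hc]; ring
      rw [h6]
      linarith
    rw [norm_div, norm_pow] at h4
    have h5 : ‖ψ^[n] z - p‖ ^ m ≤ ‖A‖ / c / ((n : ℝ) + 1) := by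
      rw [le_div_iff₀ (by positivity)] at h4
      rw [div_div, le_div_iff₀ (by positivity)]
      linarith
    have h6 := Real.rpow_le_rpow (by positivity) h5 (by positivity : (0 : ℝ) ≤ (m : ℝ)⁻¹)
    rw [Real.pow_rpow_inv_natCast hw.le hm0, Real.div_rpow (by positivity) (by positivity)] at h6
    rw [one_div]
    exact h6
  induction n with
  | zero => exact ⟨hz, by simpa using lt_trans hzr (by linarith), by simp⟩
  | succ n ih =>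
    obtain ⟨h1, h2, h3⟩ := ih
    obtain ⟨h4, h5⟩ := hψr _ h2 h1
    rw [Function.iterate_succ_apply']
    have h6 : ‖A / (ψ (ψ^[n] z) - p) ^ m - (A / (z - p) ^ m - ((n + 1 : ℕ) : ℂ))‖
        ≤ ((n + 1 : ℕ) : ℝ) / 4 := by
      have e : A / (ψ (ψ^[n] z) - p) ^ m - (A / (z - p) ^ m - ((n + 1 : ℕ) : ℂ))
          = (A / (ψ (ψ^[n] z) - p) ^ m - (A / (ψ^[n] z - p) ^ m - 1))
            + (A / (ψ^[n] z - p) ^ m - (A / (z - p) ^ m - n)) := by push_cast; ring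
      rw [e]
      refine (norm_add_le _ _).trans ((add_le_add h5 h3).trans (le_of_eq ?_))
      push_cast; ring
    refine ⟨h4, ParDyn_lt (A := A) (m := m) hr2pos ?_, h6⟩
    have b1 := (hlow (n + 1) _ h6).1
    have : ‖A‖ / r2 ^ m = T₂ := rfl
    rw [this]
    linarith

end Pool.Agent.TB
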