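/-
Project TB (MP_d9e400_an). Module ParAcc.
Boundary fixed points with multiplier one are accessible from outside.

PROOF. f is not the identity near p: otherwise f = id everywhere (identity theorem), contradiction to attr (or finite_fixed).
parabolic_coordinate (ε = 1/4): m, A, r. local_inverse: ψ, r'. par_forward: T₁. N₊ = {z ≠ p | 0 < Re T z, T₁ < |T z|} is open
and its points have iterates in ball p r: bounded, so N₊ ∩ frontier U = ∅ (not_bdd_nhds).
Case A: some z ∈ V ∩ N₊ (V = Vset U). Curve z(s) = p + (z-p)·(1 + s/T z)^(-1/m) (principal power; Re(1+s/T) ≥ 1), s ≥ 0: T(z(s)) = T z + s, so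
z(s) ∈ N₊, z(s) → p as s → ∞, continuous. The curve is connected, misses frontier V = frontier U (frontier_V), starts
in V: it stays in V. κ 0 = p, κ t = z(1/t - 1): Acc.
Case B: V ∩ N₊ = ∅. r₁ from par_backward, made smaller so that ‖z-p‖ < r₁ → |T z| > T₁; for z ∈ V ∩ ball p r₁: Re T z ≤ 0. So
ψ^[n] z ∈ ball p r', decay with α = 1/m; f^[n](ψ^[n] z) = z ∈ V gives ψ^[n] z ∈ V (mem_V_of_map); continuity of ψ^[n] on
V ∩ ball p r₁ by induction; access_of_branch.
-/
import Mathlib
import Pool.Agent.TB.Defs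
import Pool.Agent.TB.Top1
import Pool.Agent.TB.Top2
import Pool.Agent.TB.AccAbs
import Pool.Agent.TB.ParCoord
import Pool.Agent.TB.LocInv
import Pool.Agent.TB.ParDyn

set_option autoImplicit false

open Set Filter Topology Metric

namespace Pool.Agent.TB

private lemma ParAcc_subset {S V : Set ℂ} (hS : IsPreconnected S) (hV : IsOpen V)
    (hd : Disjoint S (frontier V)) (hne : (S ∩ V).Nonempty) : S ⊆ V := by
  refine hS.subset_left_of_subset_union hV (isClosed_closure (s := V)).isOpen_compl ?_ ?_ hne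
  · exact (disjoint_compl_right (a := closure V)).mono_left subset_closure
  · intro x hx
    by_cases h : x ∈ closure V
    · left
      by_contra hxV
      exact Set.disjoint_left.mp hd hx ⟨h, by rwa [hV.interior_eq]⟩
    · right; exact h

private lemma ParAcc_not_id {f : ℂ → ℂ} {U : Set ℂ} {z₀ : ℂ} (B : Basin f U z₀) {p : ℂ} :
    ¬ ∀ᶠ z in 𝓝 p, f z = z := by
  intro h
  have h1 : AnalyticOnNhd ℂ f univ := fun x _ => B.hf.analyticAt x
  have h2 : AnalyticOnNhd ℂ (fun z : ℂ => z) univ := fun x _ => analyticAt_id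
  have h3 : f = fun z => z := h1.eq_of_eventuallyEq h2 h
  have h4 := B.attr
  rw [h3] at h4
  simp at h4

private lemma ParAcc_norm {T : ℂ} {s : ℝ} (hT : 0 < T.re) (hs : 0 ≤ s) : ‖T‖ ≤ ‖T + s‖ := by
  rw [Complex.norm_def, Complex.norm_def]
  apply Real.sqrt_le_sqrt
  rw [Complex.normSq_apply, Complex.normSq_apply]
  simp only [Complex.add_re, Complex.ofReal_re, Complex.add_im, Complex.ofReal_im, add_zero]
  nlinarith

theorem access_parabolic {f : ℂ → ℂ} {U : Set ℂ} {z₀ : ℂ} (B : Basin f U z₀) {p : ℂ}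
    (hp : p ∈ frontier U) (hfp : f p = p) (h1 : deriv f p = 1) : Acc (Vset U) p := by
  obtain ⟨m, A, hm, hA, hcoord⟩ := parabolic_coordinate B.hf hfp h1 (ParAcc_not_id B)
  obtain ⟨r, hr, hT⟩ := hcoord (1 / 4) (by norm_num)
  obtain ⟨ψ, r', hr', hψp, hψd, hψ, -, -⟩ := local_inverse B.hf hfp (by rw [h1]; norm_num)
  obtain ⟨T₁, hT₁, hfor⟩ := par_forward hm hA hr hT
  have hm0 : m ≠ 0 := by omega
  have hVo : IsOpen (Vset U) := isOpen_V B
  have hpV : p ∉ Vset U := by
    intro h
    have : p ∈ frontier (Vset U) := by rw [frontier_V B]; exact hp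
    exact this.2 (by rwa [hVo.interior_eq])
  set N : Set ℂ := {z | z ≠ p ∧ 0 < (A / (z - p) ^ m).re ∧ T₁ < ‖A / (z - p) ^ m‖} with hN
  have hcT : ContinuousOn (fun z : ℂ => A / (z - p) ^ m) {z | z ≠ p} := by
    apply ContinuousOn.div continuousOn_const
    · exact ((continuous_id.sub continuous_const).pow m).continuousOn
    · intro z hz
      exact pow_ne_zero _ (sub_ne_zero.mpr hz)
  have hNo : IsOpen N := by
    rw [isOpen_iff_mem_nhds]
    rintro z ⟨hz1, hz2, hz3⟩
    have hne : ∀ᶠ y in 𝓝 z, y ≠ p := eventually_ne_nhds hz1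
    have hc : ContinuousAt (fun z : ℂ => A / (z - p) ^ m) z :=
      (hcT z hz1).continuousAt hne
    have e1 : ∀ᶠ y in 𝓝 z, 0 < (A / (y - p) ^ m).re := by
      have : ContinuousAt (fun z : ℂ => (A / (z - p) ^ m).re) z :=
        Complex.continuous_re.continuousAt.comp hc
      exact this.eventually (lt_mem_nhds hz2)
    have e2 : ∀ᶠ y in 𝓝 z, T₁ < ‖A / (y - p) ^ m‖ := by
      have : ContinuousAt (fun z : ℂ => ‖A / (z - p) ^ m‖) z := hc.norm
      exact this.eventually (lt_mem_nhds hz3)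
    filter_upwards [hne, e1, e2] with y h1 h2 h3
    exact ⟨h1, h2, h3⟩
  have hNd : Disjoint N (frontier U) := by
    refine not_bdd_nhds B (M := ‖p‖ + r) hNo ?_
    rintro n z ⟨hz1, hz2, hz3⟩
    have h := hfor z hz1 hz2 hz3 n
    calc ‖f^[n] z‖ = ‖p + (f^[n] z - p)‖ := by congr 1; ring
      _ ≤ ‖p‖ + ‖f^[n] z - p‖ := norm_add_le _ _
      _ ≤ ‖p‖ + r := by linarith
  by_cases hcase : (Vset U ∩ N).Nonempty
  · -- case A
    obtain ⟨z, hzV, hz1, hz2, hz3⟩ := hcase
    set T0 : ℂ := A / (z - p) ^ m with hT0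
    have hT0ne : T0 ≠ 0 := by
      intro h; rw [h] at hz2; simp at hz2
    set b : ℂ := T0⁻¹ with hb
    have hbre : 0 < b.re := by
      rw [hb, Complex.inv_re]
      exact div_pos hz2 (Complex.normSq_pos.mpr hT0ne)
    have hden : ∀ t ∈ Icc (0 : ℝ) 1, 0 < ((t : ℂ) + (1 - t) * b).re := by
      intro t ht
      have e : ((t : ℂ) + (1 - t) * b).re = t + (1 - t) * b.re := by
        simp [Complex.add_re, Complex.mul_re]
      rw [e]
      rcases eq_or_lt_of_le ht.1 with h | h
      · rw [← h]; simpa using hbre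
      · have : 0 ≤ (1 - t) * b.re := mul_nonneg (by linarith [ht.2]) hbre.le
        linarith
    have hdne : ∀ t ∈ Icc (0 : ℝ) 1, ((t : ℂ) + (1 - t) * b) ≠ 0 := by
      intro t ht h
      have := hden t ht
      rw [h] at this
      simp at this
    set q : ℝ → ℂ := fun t => (t : ℂ) / ((t : ℂ) + (1 - t) * b) with hq
    have hqc : ContinuousOn q (Icc 0 1) := by
      apply ContinuousOn.div
      · exact Complex.continuous_ofReal.continuousOn
      · exact (Complex.continuous_ofReal.add ((continuous_const.sub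
          Complex.continuous_ofReal).mul continuous_const)).continuousOn
      · intro t ht; exact hdne t ht
    have hqre : ∀ t ∈ Icc (0 : ℝ) 1, 0 ≤ (q t).re := by
      intro t ht
      have e : (q t).re = t * (((t : ℂ) + (1 - t) * b)⁻¹).re := by
        simp only [hq, div_eq_mul_inv]
        exact Complex.re_ofReal_mul _ _
      rw [e, Complex.inv_re]
      exact mul_nonneg ht.1 (div_nonneg (hden t ht).le (Complex.normSq_nonneg _))
    have hqne : ∀ t ∈ Ioc (0 : ℝ) 1, q t ≠ 0 := by
      intro t ht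
      exact div_ne_zero (by exact_mod_cast ht.1.ne') (hdne t ⟨ht.1.le, ht.2⟩)
    have hq0 : q 0 = 0 := by simp [hq]
    have hq1 : q 1 = 1 := by simp [hq]
    set κ : ℝ → ℂ := fun t => p + (z - p) * (q t) ^ ((m : ℂ)⁻¹) with hκ
    have hmre : 0 < ((m : ℂ)⁻¹).re := by
      have : ((m : ℂ)⁻¹) = (((m : ℝ)⁻¹ : ℝ) : ℂ) := by push_cast; rfl
      rw [this, Complex.ofReal_re]
      have : (0 : ℝ) < m := by exact_mod_cast (by omega : 0 < m)
      positivity
    have hκc : ContinuousOn κ (Icc 0 1) := by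
      apply ContinuousOn.add continuousOn_const
      apply ContinuousOn.mul continuousOn_const
      intro t ht
      have h := Complex.continuousAt_cpow_const_of_re_pos (z := q t) (w := (m : ℂ)⁻¹)
        (Or.inl (hqre t ht)) hmre
      exact h.comp_continuousWithinAt (hqc t ht)
    have hκN : ∀ t ∈ Ioc (0 : ℝ) 1, κ t ∈ N := by
      intro t ht
      have htc : (t : ℂ) ≠ 0 := by exact_mod_cast ht.1.ne'
      have hd := hdne t ⟨ht.1.le, ht.2⟩
      have e1 : (κ t - p) ^ m = (z - p) ^ m * q t := by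
        simp only [hκ]
        rw [show p + (z - p) * q t ^ ((m : ℂ)⁻¹) - p = (z - p) * q t ^ ((m : ℂ)⁻¹) by ring,
          mul_pow, Complex.cpow_nat_inv_pow _ hm0]
      have e2 : A / (κ t - p) ^ m = T0 + (((1 - t) / t : ℝ) : ℂ) := by
        rw [e1, ← div_div, ← hT0]
        simp only [hq]
        rw [div_div_eq_mul_div, div_eq_iff htc]
        push_cast
        have hTb : T0 * b = 1 := mul_inv_cancel₀ hT0ne
        have : (T0 + (1 - (t : ℂ)) / t) * t = T0 * t + (1 - t) := by
          field_simp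
        rw [this]
        linear_combination (1 - (t : ℂ)) * hTb
      have hs : 0 ≤ (1 - t) / t := div_nonneg (by linarith [ht.2]) ht.1.le
      refine ⟨?_, ?_, ?_⟩
      · intro h
        have : (κ t - p) ^ m = 0 := by rw [h, sub_self, zero_pow hm0]
        rw [e1] at this
        rcases mul_eq_zero.mp this with h' | h'
        · exact pow_ne_zero m (sub_ne_zero.mpr hz1) h'
        · exact hqne t ht h'
      · rw [e2]
        simp only [Complex.add_re, Complex.ofReal_re]
        linarith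
      · rw [e2]
        exact lt_of_lt_of_le hz3 (ParAcc_norm hz2 hs)
    refine ⟨κ, hκc, ?_, ?_⟩
    · have hne : ((m : ℂ)⁻¹) ≠ 0 := inv_ne_zero (by exact_mod_cast hm0)
      simp [hκ, hq0, Complex.zero_cpow hne]
    · have hpre : IsPreconnected (κ '' Ioc 0 1) :=
        isPreconnected_Ioc.image κ (hκc.mono Ioc_subset_Icc_self)
      have hsub : κ '' Ioc 0 1 ⊆ Vset U := by
        refine ParAcc_subset hpre hVo ?_ ?_
        · rw [frontier_V B]
          refine hNd.mono_left ?_
          rintro _ ⟨t, ht, rfl⟩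
          exact hκN t ht
        · refine ⟨z, ⟨1, ⟨by norm_num, le_refl _⟩, ?_⟩, hzV⟩
          simp [hκ, hq1]
      intro t ht
      exact hsub ⟨t, ht, rfl⟩
  · -- case B
    have hVN : ∀ z ∈ Vset U, z ∉ N := fun z hz hzN => hcase ⟨z, hz, hzN⟩
    obtain ⟨r₁, hr₁, hr₁', C, hback⟩ := par_backward hm hA hr hT hr' hψp hψd.continuousOn hψ
    have hApos : 0 < ‖A‖ := norm_pos_iff.mpr hA
    set r₂ : ℝ := min r₁ (min 1 (‖A‖ / (T₁ + 1))) with hr₂
    have hr₂pos : 0 < r₂ := lt_min hr₁ (lt_min one_pos (div_pos hApos (by linarith)))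
    have hgood : ∀ z ∈ Vset U ∩ ball p r₂, z ≠ p ∧ ‖z - p‖ < r₁ ∧ (A / (z - p) ^ m).re ≤ 0 := by
      rintro z ⟨hzV, hzb⟩
      rw [mem_ball, dist_eq_norm] at hzb
      have hne : z ≠ p := fun h => hpV (h ▸ hzV)
      have h1 : ‖z - p‖ < r₁ := lt_of_lt_of_le hzb (min_le_left _ _)
      have h2 : ‖z - p‖ < 1 := lt_of_lt_of_le hzb ((min_le_right _ _).trans (min_le_left _ _))
      have h3 : ‖z - p‖ < ‖A‖ / (T₁ + 1) :=
        lt_of_lt_of_le hzb ((min_le_right _ _).trans (min_le_right _ _))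
      refine ⟨hne, h1, ?_⟩
      by_contra hcon
      push Not at hcon
      refine hVN z hzV ⟨hne, hcon, ?_⟩
      have hpos : 0 < ‖z - p‖ := norm_pos_iff.mpr (sub_ne_zero.mpr hne)
      have h4 : ‖z - p‖ ^ m ≤ ‖z - p‖ := by
        calc ‖z - p‖ ^ m ≤ ‖z - p‖ ^ 1 := pow_le_pow_of_le_one hpos.le h2.le hm
          _ = ‖z - p‖ := pow_one _
      rw [norm_div, norm_pow, lt_div_iff₀ (pow_pos hpos m)]
      have h5 : ‖z - p‖ ^ m < ‖A‖ / (T₁ + 1) := lt_of_le_of_lt h4 h3
      rw [lt_div_iff₀ (by linarith)] at h5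
      nlinarith [pow_pos hpos m]
    have hb : ∀ n : ℕ, ∀ z ∈ Vset U ∩ ball p r₂, ψ^[n] z ∈ ball p r' ∧ ψ^[n] z ≠ p ∧
        ‖ψ^[n] z - p‖ ≤ C / ((n : ℝ) + 1) ^ (1 / (m : ℝ)) := by
      intro n z hz
      obtain ⟨g1, g2, g3⟩ := hgood z hz
      exact hback z g1 g2 g3 n
    have hinv : ∀ n : ℕ, ∀ z ∈ Vset U ∩ ball p r₂, f (ψ^[n + 1] z) = ψ^[n] z := by
      intro n z hz
      rw [Function.iterate_succ_apply']
      exact hψ _ (hb n z hz).1
    have hmaps : ∀ n, MapsTo ψ^[n] (Vset U ∩ ball p r₂) (Vset U) := by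
      intro n
      induction n with
      | zero => intro z hz; exact hz.1
      | succ n ih =>
        intro z hz
        apply mem_V_of_map B
        rw [hinv n z hz]
        exact ih hz
    have hcont : ∀ n, ContinuousOn ψ^[n] (Vset U ∩ ball p r₂) := by
      intro n
      induction n with
      | zero => exact continuousOn_id
      | succ n ih =>
        rw [Function.iterate_succ']
        exact hψd.continuousOn.comp ih (fun z hz => (hb n z hz).1)
    refine access_of_branch B hp hr₂pos hmaps hcont ⟨C, 1 / (m : ℝ), ?_, ?_⟩ hinv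
    · have : (0 : ℝ) < m := by exact_mod_cast (by omega : 0 < m)
      positivity
    · intro n z hz
      exact (hb n z hz).2.2

end Pool.Agent.TB
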