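/-
Project TB (MP_d9e400_an). Module Repel.
Repelling boundary fixed points are accessible from outside.

PROOF. local_inverse: ψ, r. |ψ' p| < 1: choose |ψ' p| < κ < 1 and r₁ ≤ r with ‖ψ z - p‖ ≤ κ‖z - p‖ on ball p r₁ (HasDerivAt). So ψ^[n] maps
ball p r₁ into itself, ‖ψ^[n] z - p‖ ≤ κ^n r₁ ≤ C/(n+1)^1 (κ^n (n+1) is bounded), continuous. f^[n](ψ^[n] z) = z, so ψ^[n] z ∈ V if
z ∈ V (mem_V_of_map n times). hinv: f(ψ(ψ^[n] z)) = ψ^[n] z. access_of_branch.
-/
import Mathlib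
import Pool.Agent.TB.Defs
import Pool.Agent.TB.AccAbs
import Pool.Agent.TB.LocInv
import Pool.Agent.TB.Top2

set_option autoImplicit false

open Set Filter Topology Metric

namespace Pool.Agent.TB

theorem Repel_geom {κ : ℝ} (h0 : 0 ≤ κ) (h1 : κ < 1) (n : ℕ) :
    κ ^ n * ((n : ℝ) + 1) ≤ (1 - κ)⁻¹ := by
  have h2 : ∑ k ∈ Finset.range (n + 1), κ ^ k ≤ (1 - κ)⁻¹ := by
    rw [← tsum_geometric_of_lt_one h0 h1]
    exact (summable_geometric_of_lt_one h0 h1).sum_le_tsum _ (fun k _ => pow_nonneg h0 k)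
  refine le_trans ?_ h2
  have h3 : ∑ k ∈ Finset.range (n + 1), κ ^ n ≤ ∑ k ∈ Finset.range (n + 1), κ ^ k := by
    refine Finset.sum_le_sum fun k hk => ?_
    exact pow_le_pow_of_le_one h0 h1.le (by
      have := Finset.mem_range.1 hk
      omega)
  rw [Finset.sum_const, Finset.card_range, nsmul_eq_mul] at h3
  push_cast at h3
  linarith

theorem access_repelling {f : ℂ → ℂ} {U : Set ℂ} {z₀ : ℂ} (B : Basin f U z₀) {p : ℂ}
    (hp : p ∈ frontier U) (hfp : f p = p) (hrep : 1 < ‖deriv f p‖) : Acc (Vset U) p := by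
  have hne : deriv f p ≠ 0 := by
    intro h
    rw [h, norm_zero] at hrep
    linarith
  obtain ⟨ψ, r, hr, hψp, hψd, hfψ, -, hder⟩ := local_inverse B.hf hfp hne
  have hlt : ‖deriv ψ p‖ < 1 := by
    rw [hder, norm_inv]
    exact inv_lt_one_of_one_lt₀ hrep
  obtain ⟨κ, hκ1, hκ2⟩ := exists_between hlt
  have hκ0 : 0 ≤ κ := (norm_nonneg _).trans hκ1.le
  have hda : HasDerivAt ψ (deriv ψ p) p :=
    (hψd.differentiableAt (Metric.ball_mem_nhds p hr)).hasDerivAt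
  have hev : ∀ᶠ z in 𝓝 p, ‖ψ z - p‖ ≤ κ * ‖z - p‖ := by
    have h1 := (hasDerivAt_iff_isLittleO.1 hda).def (sub_pos.2 hκ1)
    filter_upwards [h1] with z hz
    rw [hψp] at hz
    have h2 : ψ z - p = (ψ z - p - (z - p) • deriv ψ p) + (z - p) • deriv ψ p := by ring
    rw [h2]
    refine (norm_add_le _ _).trans ?_
    rw [norm_smul]
    nlinarith [hz]
  obtain ⟨ρ, hρ, hball⟩ := Metric.eventually_nhds_iff_ball.1 hev
  set r₁ := min r ρ with hr₁
  have hr₁0 : 0 < r₁ := lt_min hr hρ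
  have hstep : ∀ z ∈ Metric.ball p r₁, ‖ψ z - p‖ ≤ κ * ‖z - p‖ := fun z hz =>
    hball z (Metric.ball_subset_ball (min_le_right _ _) hz)
  have hmem : ∀ z ∈ Metric.ball p r₁, ψ z ∈ Metric.ball p r₁ := by
    intro z hz
    have h1 := hstep z hz
    rw [Metric.mem_ball, dist_eq_norm] at hz ⊢
    nlinarith [norm_nonneg (z - p)]
  have hV : ∀ z ∈ Vset U ∩ Metric.ball p r₁, ψ z ∈ Vset U ∩ Metric.ball p r₁ := by
    rintro z ⟨hzV, hzb⟩
    refine ⟨mem_V_of_map B ?_, hmem z hzb⟩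
    rw [hfψ z (Metric.ball_subset_ball (min_le_left _ _) hzb)]
    exact hzV
  have hmaps : MapsTo ψ (Vset U ∩ Metric.ball p r₁) (Vset U ∩ Metric.ball p r₁) := hV
  have hcontψ : ContinuousOn ψ (Vset U ∩ Metric.ball p r₁) :=
    (hψd.continuousOn).mono (fun z hz => Metric.ball_subset_ball (min_le_left _ _) hz.2)
  have hdecn : ∀ n : ℕ, ∀ z ∈ Vset U ∩ Metric.ball p r₁, ‖ψ^[n] z - p‖ ≤ κ ^ n * ‖z - p‖ := by
    intro n
    induction n with
    | zero => intro z _; simp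
    | succ n ih =>
      intro z hz
      rw [Function.iterate_succ_apply']
      have h1 := hstep _ ((hmaps.iterate n) hz).2
      refine h1.trans ?_
      rw [pow_succ']
      have := mul_le_mul_of_nonneg_left (ih z hz) hκ0
      linarith
  refine access_of_branch B hp hr₁0 (fun n z hz => ((hmaps.iterate n) hz).1)
    (fun n => ContinuousOn.iterate hcontψ hmaps n) ?_ ?_
  · refine ⟨(1 - κ)⁻¹ * r₁, 1, one_pos, fun n z hz => ?_⟩
    rw [Real.rpow_one, le_div_iff₀ (by positivity)]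
    have h1 := hdecn n z hz
    have h2 : ‖z - p‖ ≤ r₁ := by
      have := hz.2
      rw [Metric.mem_ball, dist_eq_norm] at this
      exact this.le
    have h3 := Repel_geom hκ0 hκ2 n
    have h4 : 0 ≤ κ ^ n := pow_nonneg hκ0 n
    have hn : (0 : ℝ) ≤ (n : ℝ) + 1 := by positivity
    calc ‖ψ^[n] z - p‖ * ((n : ℝ) + 1) ≤ (κ ^ n * ‖z - p‖) * ((n : ℝ) + 1) :=
          mul_le_mul_of_nonneg_right h1 hn
      _ = (κ ^ n * ((n : ℝ) + 1)) * ‖z - p‖ := by ring
      _ ≤ (1 - κ)⁻¹ * r₁ := mul_le_mul h3 h2 (norm_nonneg _)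
          (inv_nonneg.2 (by linarith))
  · intro n z hz
    rw [Function.iterate_succ_apply']
    exact hfψ _ (Metric.ball_subset_ball (min_le_left _ _) ((hmaps.iterate n) hz).2)

end Pool.Agent.TB
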