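/-
Project TB (MP_d9e400_an). Module SnailA.
Estimates for injective functions on the disc whose image is disjoint from its translates.

PROOFS. tr_deriv: Koebe on ball w (1-‖w‖): ball (h w) ρ ⊆ h '' Dk with ρ = (1-‖w‖)‖h' w‖/32. If ρ > π then h w + πi·(...)... the points
h w - πi and h w + πi are both in the ball and differ by 2πi: contradiction to tr. So ρ ≤ π.
tr_diff: the segment is in closedBall 0 (1-δ), there ‖h'‖ ≤ 32π/δ.
tr_inradius: (h '' Dk)ᶜ is nonempty (h 0 + 2πi). D t = infDist (h(tζ)) (h '' Dk)ᶜ. Koebe: (1-t)‖h'(tζ)‖ ≤ 32 D t. |D t - D s| ≤ ‖h(tζ) - h(sζ)‖.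
Gronwall: F t = ‖h(tζ) - h(sζ)‖ ≤ ∫_s^t 32 (D s + F)/(1-u) du, so D s + F t ≤ D s ((1-s)/(1-t))^32 ≤ D s μ^32. So ‖h(sζ) - h(tζ)‖ ≤
μ^32 D s; C = μ^32. (To get it formally: norm_le_gronwallBound_of_norm_deriv_right_le with K = 32/(1-t'), on [s,t']: the bound K
is 32/(1-t) uniformly on [s,t], t - s ≤ (1-s)... gives D s + F t ≤ D s exp(32 (t-s)/(1-t)) ≤ D s exp(32 (μ-1)), because
t - s = (1-s)-(1-t) ≤ (μ-1)(1-t). So C = exp(32(μ-1)) works and is simpler.)
-/
import Mathlib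
import Pool.Agent.TB.Defs
import Pool.Agent.TB.Koebe
import Pool.Agent.TB.Injective

set_option autoImplicit false

open Set Filter Topology Metric

namespace Pool.Agent.TB

/-- `h` is injective holomorphic on the disc and its image is disjoint from its translates by
nonzero multiples of `2 π i` -/
structure Tr (h : ℂ → ℂ) : Prop where
  diff : DifferentiableOn ℂ h Dk
  inj : InjOn h Dk
  tr : ∀ w ∈ Dk, ∀ w' ∈ Dk, ∀ n : ℤ, n ≠ 0 → h w ≠ h w' + 2 * Real.pi * Complex.I * n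

theorem SnailA_koebe {h : ℂ → ℂ} (H : Tr h) {w : ℂ} (hw : ‖w‖ < 1) :
    Metric.ball (h w) ((1 - ‖w‖) * ‖deriv h w‖ / 32) ⊆ h '' Dk := by
  have hsub : Metric.ball w (1 - ‖w‖) ⊆ Dk := by
    intro z hz
    rw [Metric.mem_ball, dist_eq_norm] at hz
    rw [Metric.mem_ball, dist_zero_right]
    calc ‖z‖ = ‖(z - w) + w‖ := by ring_nf
      _ ≤ ‖z - w‖ + ‖w‖ := norm_add_le _ _
      _ < 1 := by linarith
  exact (koebe_lite (by linarith) (H.diff.mono hsub) (H.inj.mono hsub)).trans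
    (image_mono hsub)

theorem tr_deriv {h : ℂ → ℂ} (H : Tr h) {w : ℂ} (hw : ‖w‖ < 1) :
    (1 - ‖w‖) * ‖deriv h w‖ ≤ 32 * Real.pi := by
  by_contra hcon
  push Not at hcon
  have hk := SnailA_koebe H hw
  have hρ : Real.pi < (1 - ‖w‖) * ‖deriv h w‖ / 32 := by linarith
  have hπ := Real.pi_pos
  have h1 : h w - Real.pi * Complex.I ∈ Metric.ball (h w) ((1 - ‖w‖) * ‖deriv h w‖ / 32) := by
    rw [Metric.mem_ball, dist_eq_norm, sub_sub_cancel_left, norm_neg, norm_mul, Complex.norm_I,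
      mul_one, Complex.norm_real, Real.norm_of_nonneg hπ.le]
    exact hρ
  have h2 : h w + Real.pi * Complex.I ∈ Metric.ball (h w) ((1 - ‖w‖) * ‖deriv h w‖ / 32) := by
    rw [Metric.mem_ball, dist_eq_norm, add_sub_cancel_left, norm_mul, Complex.norm_I,
      mul_one, Complex.norm_real, Real.norm_of_nonneg hπ.le]
    exact hρ
  obtain ⟨w1, hw1, e1⟩ := hk h1
  obtain ⟨w2, hw2, e2⟩ := hk h2
  refine H.tr w2 hw2 w1 hw1 1 one_ne_zero ?_
  rw [e1, e2]
  push_cast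
  ring

theorem tr_diff {h : ℂ → ℂ} (H : Tr h) {u w : ℂ} {δ : ℝ} (hδ : 0 < δ) (hu : ‖u‖ ≤ 1 - δ)
    (hw : ‖w‖ ≤ 1 - δ) : ‖h u - h w‖ ≤ 32 * Real.pi * ‖u - w‖ / δ := by
  have hlt : ∀ z ∈ Metric.closedBall (0 : ℂ) (1 - δ), ‖z‖ ≤ 1 - δ := fun z hz => by
    rwa [Metric.mem_closedBall, dist_zero_right] at hz
  have hkey := Convex.norm_image_sub_le_of_norm_deriv_le (f := h) (C := 32 * Real.pi / δ)
    (s := Metric.closedBall (0 : ℂ) (1 - δ)) (x := w) (y := u)
    (fun z hz => H.diff.differentiableAt (Metric.isOpen_ball.mem_nhds (by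
      rw [Metric.mem_ball, dist_zero_right]; linarith [hlt z hz])))
    (fun z hz => by
      have h1 := hlt z hz
      have h2 := tr_deriv H (show ‖z‖ < 1 by linarith)
      rw [le_div_iff₀ hδ]
      nlinarith [norm_nonneg (deriv h z)])
    (convex_closedBall _ _) (by rwa [Metric.mem_closedBall, dist_zero_right])
    (by rwa [Metric.mem_closedBall, dist_zero_right])
  refine hkey.trans (le_of_eq ?_)
  ring

/-- the distance to the complement of the image controls the variation along radii -/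
theorem tr_inradius {μ : ℝ} (hμ : 1 < μ) : ∃ C : ℝ, 0 < C ∧ ∀ h : ℂ → ℂ, Tr h → ∀ ζ : ℂ, ‖ζ‖ = 1 →
    ∀ s t : ℝ, 0 ≤ s → s ≤ t → t < 1 → 1 - s ≤ μ * (1 - t) →
      ‖h (s * ζ) - h (t * ζ)‖ ≤ C * Metric.infDist (h (s * ζ)) (h '' Dk)ᶜ := by
  refine ⟨Real.exp (32 * (μ - 1)), Real.exp_pos _, ?_⟩
  intro h H ζ hζ s t hs hst ht hst2
  have hnorm : ∀ x : ℝ, 0 ≤ x → ‖(x : ℂ) * ζ‖ = x := by
    intro x hx
    rw [norm_mul, hζ, mul_one, Complex.norm_real, Real.norm_of_nonneg hx]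
  have hne : ((h '' Dk)ᶜ).Nonempty := by
    refine ⟨h 0 + 2 * Real.pi * Complex.I * (1 : ℤ), ?_⟩
    rintro ⟨w, hw, hw2⟩
    exact H.tr w hw 0 (by simp) 1 one_ne_zero hw2
  set D : ℝ → ℝ := fun x => Metric.infDist (h (x * ζ)) (h '' Dk)ᶜ with hD
  have hD0 : ∀ x, 0 ≤ D x := fun x => Metric.infDist_nonneg
  have hkoebe : ∀ x : ℝ, 0 ≤ x → x < 1 → (1 - x) * ‖deriv h (x * ζ)‖ ≤ 32 * D x := by
    intro x hx hx1
    have h1 := SnailA_koebe H (w := x * ζ) (by rw [hnorm x hx]; exact hx1)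
    rw [hnorm x hx] at h1
    have h2 : (1 - x) * ‖deriv h (x * ζ)‖ / 32 ≤ D x := by
      rw [hD]
      refine (Metric.le_infDist hne).2 fun y hy => ?_
      by_contra hlt
      push Not at hlt
      exact hy (h1 (by rw [Metric.mem_ball, dist_comm]; exact hlt))
    linarith
  have hlip : ∀ x : ℝ, D x ≤ D s + ‖h (x * ζ) - h (s * ζ)‖ := by
    intro x
    have := Metric.infDist_le_infDist_add_dist (s := (h '' Dk)ᶜ) (x := h (x * ζ))
      (y := h (s * ζ))
    rw [dist_eq_norm] at this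
    exact this
  have h1t : 0 < 1 - t := by linarith
  have hderiv : ∀ x : ℝ, 0 ≤ x → x < 1 →
      HasDerivAt (fun y : ℝ => h (y * ζ) - h (s * ζ)) (deriv h (x * ζ) * ζ) x := by
    intro x hx hx1
    have hmem : (x : ℂ) * ζ ∈ Dk := by
      rw [Metric.mem_ball, dist_zero_right, hnorm x hx]; exact hx1
    have h2 : HasDerivAt h (deriv h (x * ζ)) (x * ζ) :=
      (H.diff.differentiableAt (Metric.isOpen_ball.mem_nhds hmem)).hasDerivAt
    have h3 : HasDerivAt (fun z : ℂ => z * ζ) ζ (x : ℂ) := by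
      simpa using (hasDerivAt_id (x : ℂ)).mul_const ζ
    have h4 : HasDerivAt (fun z : ℂ => h (z * ζ)) (deriv h (x * ζ) * ζ) (x : ℂ) :=
      HasDerivAt.comp (x : ℂ) h2 h3
    exact (h4.comp_ofReal).sub_const _
  have hg := norm_le_gronwallBound_of_norm_deriv_right_le
    (f := fun y : ℝ => h (y * ζ) - h (s * ζ)) (f' := fun x : ℝ => deriv h (x * ζ) * ζ)
    (δ := 0) (K := 32 / (1 - t)) (ε := 32 / (1 - t) * D s) (a := s) (b := t)
    (fun x hx => (hderiv x (hs.trans hx.1) (hx.2.trans_lt ht)).continuousAt.continuousWithinAt)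
    (fun x hx => (hderiv x (hs.trans hx.1) (hx.2.trans ht)).hasDerivWithinAt)
    (by simp)
    (fun x hx => by
      have hx0 : 0 ≤ x := hs.trans hx.1
      have hx1 : x < 1 := hx.2.trans ht
      have h5 := hkoebe x hx0 hx1
      have h6 := hlip x
      rw [norm_mul, hζ, mul_one, div_mul_eq_mul_div, div_mul_eq_mul_div, ← add_div,
        le_div_iff₀ h1t]
      have h7 : ‖deriv h (x * ζ)‖ * (1 - t) ≤ (1 - x) * ‖deriv h (x * ζ)‖ := by
        rw [mul_comm]
        exact mul_le_mul_of_nonneg_right (by linarith [hx.2]) (norm_nonneg _)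
      linarith)
    t ⟨hst, le_rfl⟩
  have hK : (32 : ℝ) / (1 - t) ≠ 0 := by positivity
  rw [gronwallBound_of_K_ne_0 hK] at hg
  have h8 : 32 / (1 - t) * D s / (32 / (1 - t)) = D s := by field_simp
  simp only [h8, zero_mul, zero_add] at hg
  rw [norm_sub_rev]
  refine hg.trans ?_
  have h9 : 32 / (1 - t) * (t - s) ≤ 32 * (μ - 1) := by
    rw [div_mul_eq_mul_div, div_le_iff₀ h1t]
    nlinarith
  have h10 : Real.exp (32 / (1 - t) * (t - s)) ≤ Real.exp (32 * (μ - 1)) :=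
    Real.exp_le_exp.2 h9
  have h11 := hD0 s
  change D s * (Real.exp (32 / (1 - t) * (t - s)) - 1) ≤ Real.exp (32 * (μ - 1)) * D s
  nlinarith

end Pool.Agent.TB
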