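/-
Project TB (MP_d9e400_an). Module SnailB.
The increments of the logarithm along an invariant radius converge.

PROOF. E r = h(G(rζ)) - h(rζ). For r near 1: ‖G(rζ) - rζ‖ ≤ (μ-1)(1-r) + C(1-r)², 1 - ‖G(rζ)‖ ≥ μ(1-r) - C(1-r)² ≥ 1-r. tr_diff with
δ = 1-r: ‖E r‖ ≤ 32π((μ-1) + C(1-r)) bounded; so l ≠ 0 (‖exp E‖ ≥ exp(-bound)). e₀ = log l. exp(E r - e₀) → 1; E is continuous near 1;
E r - e₀ = log(exp(E r - e₀)) + 2πi n(r), n(r) ∈ ℤ continuous for r near 1 (log continuous near 1), so constant n: E → e := e₀ + 2πi n.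
r_j = 1 - μ⁻¹^j → 1, 1-μ(1-r_{j+1}) = r_j. ‖h(G(r_{j+1}ζ)) - h(r_jζ)‖ ≤ 32π C (1-r_{j+1})²/(1-r_{j+1}) → 0 (tr_diff, δ = 1-r_{j+1}; note
1 - r_j ≥ 1 - r_{j+1}), so h(r_jζ) - h(r_{j+1}ζ) = E(r_{j+1}) + o(1) → e.
-/
import Mathlib
import Pool.Agent.TB.Defs
import Pool.Agent.TB.SnailA
import Pool.Agent.TB.LogCvx

set_option autoImplicit false

open Set Filter Topology Metric

namespace Pool.Agent.TB

theorem increments {h : ℂ → ℂ} (H : Tr h) {G : ℂ → ℂ} (hG : MapsTo G Dk Dk)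
    (hGd : DifferentiableOn ℂ G Dk) {ζ : ℂ} (hζ : ‖ζ‖ = 1) {μ C r₁ : ℝ} (hμ : 1 < μ)
    (hr₁ : 0 ≤ r₁) (hr₁' : r₁ < 1)
    (hrad : ∀ r : ℝ, r₁ ≤ r → r < 1 → 0 ≤ 1 - μ * (1 - r) ∧
      ‖G ((r : ℂ) * ζ) - ((1 - μ * (1 - r) : ℝ) : ℂ) * ζ‖ ≤ C * (1 - r) ^ 2) {l : ℂ}
    (hl : Tendsto (fun r : ℝ => Complex.exp (h (G ((r : ℂ) * ζ)) - h ((r : ℂ) * ζ)))
      (𝓝[<] (1 : ℝ)) (𝓝 l)) :
    ∃ e : ℂ, Complex.exp e = l ∧
      Tendsto (fun j : ℕ => h (((1 - μ⁻¹ ^ j : ℝ) : ℂ) * ζ) -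
        h (((1 - μ⁻¹ ^ (j + 1) : ℝ) : ℂ) * ζ)) atTop (𝓝 e) := by
  have hpi := Real.pi_pos
  have hC : 0 ≤ C := by
    have h1 := (hrad r₁ le_rfl hr₁').2
    have h2 := (norm_nonneg _).trans h1
    have h3 : 0 < (1 - r₁) ^ 2 := by
      have : 0 < 1 - r₁ := by linarith
      positivity
    exact nonneg_of_mul_nonneg_left h2 h3
  -- norms on the radius
  have hnr : ∀ x : ℝ, 0 ≤ x → ‖(x : ℂ) * ζ‖ = x := by
    intro x hx
    rw [norm_mul, hζ, mul_one, Complex.norm_real, Real.norm_eq_abs, abs_of_nonneg hx]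
  -- the threshold r₂
  obtain ⟨r₂, hr₂1, hr₂2, hr₂3⟩ : ∃ r₂ : ℝ, r₁ ≤ r₂ ∧ r₂ < 1 ∧ C * (1 - r₂) ≤ μ - 1 := by
    refine ⟨max r₁ (1 - (μ - 1) / (C + 1)), le_max_left _ _, max_lt hr₁' ?_, ?_⟩
    · have : 0 < (μ - 1) / (C + 1) := div_pos (by linarith) (by linarith)
      linarith
    · have h1 : 1 - max r₁ (1 - (μ - 1) / (C + 1)) ≤ (μ - 1) / (C + 1) := by
        have := le_max_right r₁ (1 - (μ - 1) / (C + 1))
        linarith
      calc C * (1 - max r₁ (1 - (μ - 1) / (C + 1))) ≤ C * ((μ - 1) / (C + 1)) :=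
            mul_le_mul_of_nonneg_left h1 hC
        _ = (μ - 1) * (C / (C + 1)) := by ring
        _ ≤ (μ - 1) * 1 := by
            apply mul_le_mul_of_nonneg_left _ (by linarith)
            rw [div_le_one (by linarith)]
            linarith
        _ = μ - 1 := by ring
  have hr₂0 : 0 ≤ r₂ := hr₁.trans hr₂1
  have hGn : ∀ r : ℝ, r₂ ≤ r → r < 1 → ‖G ((r : ℂ) * ζ)‖ ≤ 1 - (1 - r) := by
    intro r hr hr'
    obtain ⟨h1, h2⟩ := hrad r (hr₂1.trans hr) hr'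
    have h3 : ‖G ((r : ℂ) * ζ)‖ ≤ ‖G ((r : ℂ) * ζ) - ((1 - μ * (1 - r) : ℝ) : ℂ) * ζ‖ +
        ‖((1 - μ * (1 - r) : ℝ) : ℂ) * ζ‖ := by
      have := norm_add_le (G ((r : ℂ) * ζ) - ((1 - μ * (1 - r) : ℝ) : ℂ) * ζ)
        (((1 - μ * (1 - r) : ℝ) : ℂ) * ζ)
      rwa [sub_add_cancel] at this
    rw [hnr _ h1] at h3
    have h4 : C * (1 - r) ≤ μ - 1 :=
      (mul_le_mul_of_nonneg_left (by linarith) hC).trans hr₂3
    have h5 : C * (1 - r) ^ 2 ≤ (μ - 1) * (1 - r) := by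
      calc C * (1 - r) ^ 2 = C * (1 - r) * (1 - r) := by ring
        _ ≤ (μ - 1) * (1 - r) := mul_le_mul_of_nonneg_right h4 (by linarith)
    nlinarith
  have hEb : ∀ r : ℝ, r₂ ≤ r → r < 1 →
      ‖h (G ((r : ℂ) * ζ)) - h ((r : ℂ) * ζ)‖ ≤ 64 * Real.pi * (μ - 1) := by
    intro r hr hr'
    obtain ⟨h1, h2⟩ := hrad r (hr₂1.trans hr) hr'
    have hδ : 0 < 1 - r := by linarith
    have h3 := tr_diff H hδ (hGn r hr hr') (w := (r : ℂ) * ζ)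
      (by rw [hnr r (hr₂0.trans hr)]; linarith)
    have h4 : ‖G ((r : ℂ) * ζ) - (r : ℂ) * ζ‖ ≤ 2 * (μ - 1) * (1 - r) := by
      have h5 : G ((r : ℂ) * ζ) - (r : ℂ) * ζ =
          (G ((r : ℂ) * ζ) - ((1 - μ * (1 - r) : ℝ) : ℂ) * ζ) -
            (((μ - 1) * (1 - r) : ℝ) : ℂ) * ζ := by
        push_cast
        ring
      rw [h5]
      refine (norm_sub_le _ _).trans ?_
      rw [hnr _ (mul_nonneg (by linarith) hδ.le)]
      have h4 : C * (1 - r) ≤ μ - 1 :=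
        (mul_le_mul_of_nonneg_left (by linarith) hC).trans hr₂3
      have h5 : C * (1 - r) ^ 2 ≤ (μ - 1) * (1 - r) := by
        calc C * (1 - r) ^ 2 = C * (1 - r) * (1 - r) := by ring
          _ ≤ (μ - 1) * (1 - r) := mul_le_mul_of_nonneg_right h4 (by linarith)
      linarith
    refine h3.trans ?_
    rw [div_le_iff₀ hδ]
    calc 32 * Real.pi * ‖G ((r : ℂ) * ζ) - (r : ℂ) * ζ‖
        ≤ 32 * Real.pi * (2 * (μ - 1) * (1 - r)) := by gcongr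
      _ = 64 * Real.pi * (μ - 1) * (1 - r) := by ring
  have hev : ∀ᶠ r : ℝ in 𝓝[<] (1 : ℝ), r ∈ Ioo r₂ 1 := Ioo_mem_nhdsLT hr₂2
  have hl0 : l ≠ 0 := by
    intro h0
    rw [h0] at hl
    have h1 : ∀ᶠ r : ℝ in 𝓝[<] (1 : ℝ), ‖Complex.exp (h (G ((r : ℂ) * ζ)) - h ((r : ℂ) * ζ))‖ <
        Real.exp (-(64 * Real.pi * (μ - 1))) := by
      have h2 := hl.norm
      rw [norm_zero] at h2
      exact h2.eventually (gt_mem_nhds (Real.exp_pos _))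
    obtain ⟨r, hr1, hr2⟩ := (h1.and hev).exists
    rw [Complex.norm_exp, Real.exp_lt_exp] at hr1
    have h3 := hEb r hr2.1.le hr2.2
    have h4 := (Complex.abs_re_le_norm (h (G ((r : ℂ) * ζ)) - h ((r : ℂ) * ζ))).trans h3
    have h5 := (abs_le.1 h4).1
    linarith
  -- continuity of E
  have hmapsr : MapsTo (fun r : ℝ => (r : ℂ) * ζ) (Ioo r₂ 1) Dk := by
    intro r hr
    rw [mem_ball_zero_iff, hnr r (hr₂0.trans hr.1.le)]
    exact hr.2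
  have hcr : ContinuousOn (fun r : ℝ => (r : ℂ) * ζ) (Ioo r₂ 1) := by fun_prop
  have hEc : ContinuousOn (fun r : ℝ => h (G ((r : ℂ) * ζ)) - h ((r : ℂ) * ζ)) (Ioo r₂ 1) := by
    have h1 : ContinuousOn (fun r : ℝ => h ((r : ℂ) * ζ)) (Ioo r₂ 1) :=
      H.diff.continuousOn.comp hcr hmapsr
    have h2 : ContinuousOn (fun r : ℝ => G ((r : ℂ) * ζ)) (Ioo r₂ 1) :=
      hGd.continuousOn.comp hcr hmapsr
    have h3 : ContinuousOn (fun r : ℝ => h (G ((r : ℂ) * ζ))) (Ioo r₂ 1) :=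
      H.diff.continuousOn.comp h2 (fun r hr => hG (hmapsr hr))
    exact h3.sub h1
  -- the threshold for the slit plane
  have hq : Tendsto (fun r : ℝ => Complex.exp (h (G ((r : ℂ) * ζ)) - h ((r : ℂ) * ζ)) / l)
      (𝓝[<] (1 : ℝ)) (𝓝 1) := by
    have := hl.div_const l
    rwa [div_self hl0] at this
  have hslit : ∀ᶠ r : ℝ in 𝓝[<] (1 : ℝ),
      Complex.exp (h (G ((r : ℂ) * ζ)) - h ((r : ℂ) * ζ)) / l ∈ Complex.slitPlane :=
    hq.eventually (Complex.isOpen_slitPlane.mem_nhds Complex.one_mem_slitPlane)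
  obtain ⟨r₃, hr₃1, hr₃2⟩ := (mem_nhdsLT_iff_exists_Ioo_subset' hr₂2).1
    (hslit.and hev)
  have hsub : Ioo r₃ 1 ⊆ Ioo r₂ 1 := fun r hr => (hr₃2 hr).2
  obtain ⟨n, hn⟩ := log_unique (S := Ioo r₃ (1 : ℝ)) isPreconnected_Ioo
    (L₁ := fun r : ℝ => h (G ((r : ℂ) * ζ)) - h ((r : ℂ) * ζ))
    (L₂ := fun r : ℝ => Complex.log (Complex.exp (h (G ((r : ℂ) * ζ)) - h ((r : ℂ) * ζ)) / l) +
      Complex.log l) (hEc.mono hsub)
    (by
      refine ContinuousOn.add ?_ continuousOn_const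
      refine ContinuousOn.clog ?_ (fun r hr => (hr₃2 hr).1)
      exact ((hEc.mono hsub).cexp).div_const l)
    (by
      intro r hr
      rw [Complex.exp_add, Complex.exp_log, Complex.exp_log hl0, div_mul_cancel₀ _ hl0]
      exact div_ne_zero (Complex.exp_ne_zero _) hl0)
  set e : ℂ := Complex.log l + 2 * Real.pi * Complex.I * n with he
  have hElim : Tendsto (fun r : ℝ => h (G ((r : ℂ) * ζ)) - h ((r : ℂ) * ζ)) (𝓝[<] (1 : ℝ))
      (𝓝 e) := by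
    have h1 : Tendsto (fun r : ℝ =>
        Complex.log (Complex.exp (h (G ((r : ℂ) * ζ)) - h ((r : ℂ) * ζ)) / l) +
          Complex.log l + 2 * Real.pi * Complex.I * n) (𝓝[<] (1 : ℝ)) (𝓝 e) := by
      have h2 := (hq.clog Complex.one_mem_slitPlane)
      rw [Complex.log_one] at h2
      have h3 := (h2.add_const (Complex.log l)).add_const (2 * (Real.pi : ℂ) * Complex.I * n)
      rwa [zero_add] at h3
    refine h1.congr' ?_
    have h4 : Ioo r₃ 1 ∈ 𝓝[<] (1 : ℝ) := Ioo_mem_nhdsLT hr₃1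
    filter_upwards [h4] with r hr
    exact (hn r hr).symm
  refine ⟨e, ?_, ?_⟩
  · rw [he, Complex.exp_add, Complex.exp_log hl0]
    have : Complex.exp (2 * (Real.pi : ℂ) * Complex.I * n) = 1 := by
      rw [Complex.exp_eq_one_iff]
      exact ⟨n, by ring⟩
    rw [this, mul_one]
  · have hμ0 : 0 < μ := by linarith
    have hμi : 0 < μ⁻¹ := inv_pos.2 hμ0
    have hμi1 : μ⁻¹ < 1 := inv_lt_one_of_one_lt₀ hμ
    have hpow : Tendsto (fun j : ℕ => μ⁻¹ ^ (j + 1)) atTop (𝓝 0) :=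
      (tendsto_pow_atTop_nhds_zero_of_lt_one hμi.le hμi1).comp (tendsto_add_atTop_nat 1)
    have hr : Tendsto (fun j : ℕ => 1 - μ⁻¹ ^ (j + 1)) atTop (𝓝[<] (1 : ℝ)) := by
      refine tendsto_nhdsWithin_iff.2 ⟨?_, ?_⟩
      · simpa using hpow.const_sub (1 : ℝ)
      · refine Eventually.of_forall fun j => ?_
        have : 0 < μ⁻¹ ^ (j + 1) := pow_pos hμi _
        simp only [mem_Iio]
        linarith
    have h1 := hElim.comp hr
    have h2 : Tendsto (fun j : ℕ => h (G (((1 - μ⁻¹ ^ (j + 1) : ℝ) : ℂ) * ζ)) -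
        h (((1 - μ⁻¹ ^ j : ℝ) : ℂ) * ζ)) atTop (𝓝 0) := by
      rw [tendsto_zero_iff_norm_tendsto_zero]
      have h3 : Tendsto (fun j : ℕ => 32 * Real.pi * C * μ⁻¹ ^ (j + 1)) atTop (𝓝 0) := by
        simpa using hpow.const_mul (32 * Real.pi * C)
      refine squeeze_zero' (Eventually.of_forall fun j => norm_nonneg _) ?_ h3
      filter_upwards [hr.eventually hev] with j hj
      have hδ : 0 < μ⁻¹ ^ (j + 1) := pow_pos hμi _
      have h5 : μ * μ⁻¹ ^ (j + 1) = μ⁻¹ ^ j := by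
        rw [pow_succ]
        field_simp
      obtain ⟨h6, h7⟩ := hrad (1 - μ⁻¹ ^ (j + 1)) (hr₂1.trans hj.1.le) hj.2
      have h8 : 1 - μ * (1 - (1 - μ⁻¹ ^ (j + 1))) = 1 - μ⁻¹ ^ j := by
        rw [sub_sub_cancel, h5]
      rw [h8] at h6 h7
      rw [sub_sub_cancel] at h7
      have h9 : μ⁻¹ ^ (j + 1) ≤ μ⁻¹ ^ j := pow_le_pow_of_le_one hμi.le hμi1.le (by omega)
      have h10 := hGn _ hj.1.le hj.2
      rw [sub_sub_cancel] at h10
      have h11 := tr_diff H hδ h10 (w := ((1 - μ⁻¹ ^ j : ℝ) : ℂ) * ζ)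
        (by rw [hnr _ h6]; linarith)
      refine h11.trans ?_
      rw [div_le_iff₀ hδ]
      calc 32 * Real.pi * ‖G (((1 - μ⁻¹ ^ (j + 1) : ℝ) : ℂ) * ζ) -
            ((1 - μ⁻¹ ^ j : ℝ) : ℂ) * ζ‖
          ≤ 32 * Real.pi * (C * (μ⁻¹ ^ (j + 1)) ^ 2) := by gcongr
        _ = 32 * Real.pi * C * μ⁻¹ ^ (j + 1) * μ⁻¹ ^ (j + 1) := by ring
    have h3 := h1.sub h2
    rw [sub_zero] at h3
    refine h3.congr fun j => ?_
    simp only [Function.comp_apply]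
    ring

end Pool.Agent.TB
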