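/-
Project TB (MP_d9e400_an). Module SnailC.
A purely imaginary limit of the increments is zero.

PROOF. Suppose τ ≠ 0. h_j = h(r_jζ), r_j = 1-μ⁻¹^j, 1 - r_j = μ(1-r_{j+1}). tr_inradius (s = r_j, t = r_{j+1}): ‖h_j - h_{j+1}‖ ≤ C D_j,
D_j = infDist h_j (h '' Dk)ᶜ, so D_j ≥ η := |τ|/(2C) eventually. Dirichlet (Real.exists_int_int_abs_mul_sub_le) for τ/(2π) and Q with
2π/Q < min η |τ|: N ≥ 1, k with |Nτ - 2πk| ≤ 2π/(Q+1) ; k ≠ 0 (otherwise |τ| ≤ N|τ| ≤ 2π/Q). h_j - h_{j+N} → iNτ (sum of N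
consecutive differences). h_{j+N} + 2πi k ∉ h '' Dk (Tr.tr), so D_j ≤ ‖h_j - h_{j+N} - 2πi k‖ → |Nτ - 2πk| ≤ 2π/Q < η: contradiction.
-/
import Mathlib
import Pool.Agent.TB.Defs
import Pool.Agent.TB.SnailA

set_option autoImplicit false

open Set Filter Topology Metric

namespace Pool.Agent.TB

theorem imaginary_increment {h : ℂ → ℂ} (H : Tr h) {ζ : ℂ} (hζ : ‖ζ‖ = 1) {μ : ℝ} (hμ : 1 < μ)
    {τ : ℝ} (hlim : Tendsto (fun j : ℕ => h (((1 - μ⁻¹ ^ j : ℝ) : ℂ) * ζ) -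
        h (((1 - μ⁻¹ ^ (j + 1) : ℝ) : ℂ) * ζ)) atTop (𝓝 (τ * Complex.I))) : τ = 0 := by
  by_contra hτ
  have hτp : 0 < |τ| := abs_pos.mpr hτ
  obtain ⟨C, hC, hin⟩ := tr_inradius hμ
  have hμ0 : 0 < μ := by linarith
  have hμi0 : 0 < μ⁻¹ := inv_pos.mpr hμ0
  have hμi1 : μ⁻¹ < 1 := inv_lt_one_of_one_lt₀ hμ
  set r : ℕ → ℝ := fun j => 1 - μ⁻¹ ^ j with hr
  have hr0 : ∀ j, 0 ≤ r j := by
    intro j
    have : μ⁻¹ ^ j ≤ 1 := pow_le_one₀ hμi0.le hμi1.le
    show 0 ≤ 1 - μ⁻¹ ^ j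
    linarith
  have hr1 : ∀ j, r j < 1 := by
    intro j
    have : 0 < μ⁻¹ ^ j := pow_pos hμi0 j
    show 1 - μ⁻¹ ^ j < 1
    linarith
  have hrs : ∀ j, r j ≤ r (j + 1) := by
    intro j
    show 1 - μ⁻¹ ^ j ≤ 1 - μ⁻¹ ^ (j + 1)
    have : μ⁻¹ ^ (j + 1) ≤ μ⁻¹ ^ j := by
      rw [pow_succ]
      exact mul_le_of_le_one_right (pow_nonneg hμi0.le j) hμi1.le
    linarith
  have hrr : ∀ j, 1 - r j ≤ μ * (1 - r (j + 1)) := by
    intro j
    show 1 - (1 - μ⁻¹ ^ j) ≤ μ * (1 - (1 - μ⁻¹ ^ (j + 1)))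
    have : μ * μ⁻¹ ^ (j + 1) = μ⁻¹ ^ j := by
      rw [pow_succ]
      field_simp
    have h2 : μ * (1 - (1 - μ⁻¹ ^ (j + 1))) = μ * μ⁻¹ ^ (j + 1) := by ring
    rw [h2, this]
    linarith
  set g : ℕ → ℂ := fun j => h ((r j : ℂ) * ζ) with hg
  have hlim' : Tendsto (fun j : ℕ => g j - g (j + 1)) atTop (𝓝 (τ * Complex.I)) := hlim
  have hDk : ∀ j, ((r j : ℂ) * ζ) ∈ Dk := by
    intro j
    rw [mem_ball, dist_zero_right, norm_mul, hζ, mul_one, Complex.norm_real, Real.norm_eq_abs,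
      abs_of_nonneg (hr0 j)]
    exact hr1 j
  set D : ℕ → ℝ := fun j => Metric.infDist (g j) (h '' Dk)ᶜ with hD
  have h1 : ∀ j, ‖g j - g (j + 1)‖ ≤ C * D j := by
    intro j
    exact hin h H ζ hζ (r j) (r (j + 1)) (hr0 j) (hrs j) (hr1 _) (hrr j)
  set η : ℝ := |τ| / (2 * C) with hη
  have hηp : 0 < η := by positivity
  have hev : ∀ᶠ j in atTop, η ≤ D j := by
    have h2 : Tendsto (fun j : ℕ => ‖g j - g (j + 1)‖) atTop (𝓝 ‖(τ : ℂ) * Complex.I‖) :=
      hlim'.norm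
    have h3 : ‖(τ : ℂ) * Complex.I‖ = |τ| := by
      rw [norm_mul, Complex.norm_I, mul_one, Complex.norm_real, Real.norm_eq_abs]
    rw [h3] at h2
    filter_upwards [h2.eventually (lt_mem_nhds (show |τ| / 2 < |τ| by linarith))] with j hj
    have h4 := h1 j
    rw [hη, div_le_iff₀ (by positivity)]
    linarith
  -- Dirichlet
  obtain ⟨Q, hQ⟩ := exists_nat_gt (2 * Real.pi / min η |τ|)
  have hmin : 0 < min η |τ| := lt_min hηp hτp
  have hQ0 : 0 < Q := by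
    have : (0 : ℝ) < Q := lt_trans (by positivity) hQ
    exact_mod_cast this
  obtain ⟨m, N, hN0, hNQ, hNm⟩ := Real.exists_int_int_abs_mul_sub_le (τ / (2 * Real.pi)) hQ0
  have hpi := Real.pi_pos
  have hsmall : |(N : ℝ) * τ - 2 * Real.pi * m| < min η |τ| := by
    have e1 : (N : ℝ) * τ - 2 * Real.pi * m =
        (2 * Real.pi) * ((N : ℝ) * (τ / (2 * Real.pi)) - m) := by
      field_simp
    rw [e1, abs_mul, abs_of_pos (by positivity)]
    have hQr : (0 : ℝ) < Q := by exact_mod_cast hQ0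
    calc 2 * Real.pi * |(N : ℝ) * (τ / (2 * Real.pi)) - m|
        ≤ 2 * Real.pi * (1 / ((Q : ℝ) + 1)) := by
          apply mul_le_mul_of_nonneg_left hNm (by positivity)
      _ ≤ 2 * Real.pi * (1 / (Q : ℝ)) := by
          apply mul_le_mul_of_nonneg_left _ (by positivity)
          apply one_div_le_one_div_of_le hQr
          linarith
      _ < min η |τ| := by
          rw [div_lt_iff₀ hmin] at hQ
          rw [mul_one_div, div_lt_iff₀ hQr]
          linarith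
  have hm0 : m ≠ 0 := by
    rintro rfl
    have h5 : |(N : ℝ) * τ - 2 * Real.pi * (0 : ℤ)| = (N : ℝ) * |τ| := by
      have hNr : (0 : ℝ) < (N : ℝ) := by exact_mod_cast hN0
      push_cast
      rw [mul_zero, sub_zero, abs_mul, abs_of_pos hNr]
    rw [h5] at hsmall
    have h6 : (1 : ℝ) ≤ (N : ℝ) := by exact_mod_cast hN0
    have h7 : min η |τ| ≤ |τ| := min_le_right _ _
    nlinarith
  obtain ⟨n, rfl⟩ : ∃ n : ℕ, N = (n : ℤ) := ⟨N.toNat, by omega⟩
  -- sums of consecutive differences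
  have hsum : Tendsto (fun j : ℕ => g j - g (j + n)) atTop (𝓝 ((n : ℂ) * (τ * Complex.I))) := by
    have h8 : ∀ j, g j - g (j + n) = ∑ i ∈ Finset.range n, (g (j + i) - g (j + i + 1)) := by
      intro j
      have := Finset.sum_range_sub' (fun i => g (j + i)) n
      simp only [add_zero] at this
      rw [← this]
      rfl
    simp only [h8]
    have h9 : ((n : ℂ) * (τ * Complex.I)) = ∑ _i ∈ Finset.range n, ((τ : ℂ) * Complex.I) := by
      simp
    rw [h9]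
    apply tendsto_finsetSum
    intro i _
    exact hlim'.comp (tendsto_add_atTop_nat i)
  have hlimD : Tendsto (fun j : ℕ => ‖g j - g (j + n) - 2 * Real.pi * Complex.I * m‖) atTop
      (𝓝 ‖(n : ℂ) * (τ * Complex.I) - 2 * Real.pi * Complex.I * m‖) :=
    (hsum.sub_const _).norm
  have hval : ‖(n : ℂ) * (τ * Complex.I) - 2 * Real.pi * Complex.I * m‖ =
      |((n : ℤ) : ℝ) * τ - 2 * Real.pi * m| := by
    have : (n : ℂ) * (τ * Complex.I) - 2 * Real.pi * Complex.I * m =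
        ((((n : ℤ) : ℝ) * τ - 2 * Real.pi * m : ℝ) : ℂ) * Complex.I := by
      push_cast
      ring
    rw [this, norm_mul, Complex.norm_I, mul_one, Complex.norm_real, Real.norm_eq_abs]
  have hDle : ∀ j, D j ≤ ‖g j - g (j + n) - 2 * Real.pi * Complex.I * m‖ := by
    intro j
    have hmem : g (j + n) + 2 * Real.pi * Complex.I * m ∈ (h '' Dk)ᶜ := by
      rintro ⟨w, hw, hw2⟩
      exact H.tr w hw _ (hDk (j + n)) m hm0 hw2
    have h10 := Metric.infDist_le_dist_of_mem (x := g j) hmem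
    rw [dist_eq_norm] at h10
    have h11 : g j - (g (j + n) + 2 * Real.pi * Complex.I * m) =
        g j - g (j + n) - 2 * Real.pi * Complex.I * m := by ring
    rw [h11] at h10
    exact h10
  have hfin : η ≤ ‖(n : ℂ) * (τ * Complex.I) - 2 * Real.pi * Complex.I * m‖ := by
    apply ge_of_tendsto hlimD
    filter_upwards [hev] with j hj
    exact hj.trans (hDle j)
  rw [hval] at hfin
  have : min η |τ| ≤ η := min_le_left _ _
  linarith

end Pool.Agent.TB
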