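/-
Project TB (MP_d9e400_an). Module Snail.
The landing point of the fixed ray is repelling or has multiplier one.

PROOF. p ∈ frontier U, so p ∉ U. exists_log_holo (sc_U B) for z - p on U: L; h = L ∘ φ, exp (h w) = φ w - p. Tr h: L is injective
and values differing by 2πin, n ≠ 0, are impossible (apply exp, φ w = φ w', w = w'). exp(h(G(rζ)) - h(rζ)) = (f(φ(rζ)) - f p)/(φ(rζ) - p) →
deriv f p =: λ since φ(rζ) → p, ≠ p (HasDerivAt slope). increments: e with exp e = λ, h(r_jζ) - h(r_{j+1}ζ) → e, r_j = 1-μ⁻¹^j.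
Re h(rζ) = log ‖φ(rζ) - p‖ → -∞. If Re e < 0: Re h(r_{j+1}ζ) > Re h(r_jζ) eventually, so Re h(r_jζ) is bounded below:
contradiction. So ‖λ‖ = exp(Re e) ≥ 1. If > 1 done. Otherwise Re e = 0, e = iτ; imaginary_increment: τ = 0, λ = 1.
-/
import Mathlib
import Pool.Agent.TB.Defs
import Pool.Agent.TB.ConfA
import Pool.Agent.TB.Top3
import Pool.Agent.TB.LogSC
import Pool.Agent.TB.SnailB
import Pool.Agent.TB.SnailC

set_option autoImplicit false

open Set Filter Topology Metric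

namespace Pool.Agent.TB

theorem snail {f : ℂ → ℂ} {U : Set ℂ} {z₀ : ℂ} (B : Basin f U z₀) {φ : ℂ → ℂ} (hφ : Conf φ U)
    {G : ℂ → ℂ} (hG : MapsTo G Dk Dk) (hGd : DifferentiableOn ℂ G Dk)
    (hconj : ∀ w ∈ Dk, φ (G w) = f (φ w)) {ζ : ℂ} (hζ : ‖ζ‖ = 1) {μ C r₁ : ℝ} (hμ : 1 < μ)
    (hr₁ : 0 ≤ r₁) (hr₁' : r₁ < 1)
    (hrad : ∀ r : ℝ, r₁ ≤ r → r < 1 → 0 ≤ 1 - μ * (1 - r) ∧
      ‖G ((r : ℂ) * ζ) - ((1 - μ * (1 - r) : ℝ) : ℂ) * ζ‖ ≤ C * (1 - r) ^ 2)
    {p : ℂ} (hp : RadLim φ ζ p) (hfp : f p = p) :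
    1 < ‖deriv f p‖ ∨ deriv f p = 1 := by
  have hpF : p ∈ frontier U := radLim_frontier hφ hζ hp
  have hpU : p ∉ U := by
    rw [B.isOpen.frontier_eq] at hpF
    exact hpF.2
  have hne : ∀ z ∈ U, z - p ≠ 0 := by
    intro z hz h0
    exact hpU (by rwa [sub_eq_zero.1 h0] at hz)
  obtain ⟨L, hLd, hL⟩ := exists_log_holo (sc_U B) (h := fun z => z - p)
    (by fun_prop) hne
  have hmaps : MapsTo φ Dk U := hφ.bij.mapsTo
  have hexp : ∀ w ∈ Dk, Complex.exp (L (φ w)) = φ w - p := fun w hw => hL _ (hmaps hw)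
  have H : Tr (fun w => L (φ w)) := by
    refine ⟨hLd.comp hφ.diff hmaps, ?_, ?_⟩
    · intro w hw w' hw' hww
      replace hww : L (φ w) = L (φ w') := hww
      apply hφ.bij.injOn hw hw'
      have h1 := hexp w hw
      have h2 := hexp w' hw'
      rw [hww, h2] at h1
      exact (sub_left_inj.1 h1).symm
    · intro w hw w' hw' n hn hww
      replace hww : L (φ w) = L (φ w') + 2 * (Real.pi : ℂ) * Complex.I * n := hww
      have h1 := hexp w hw
      have h2 := hexp w' hw'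
      have h3 : Complex.exp (L (φ w)) = Complex.exp (L (φ w')) := by
        rw [hww, Complex.exp_add]
        have : Complex.exp (2 * (Real.pi : ℂ) * Complex.I * n) = 1 := by
          rw [Complex.exp_eq_one_iff]
          exact ⟨n, by ring⟩
        rw [this, mul_one]
      have h4 : φ w = φ w' := by
        rw [h1, h2] at h3
        exact sub_left_inj.1 h3
      rw [h4] at hww
      have h5 : (2 * (Real.pi : ℂ) * Complex.I * n) = 0 := by
        have := hww
        rw [left_eq_add] at this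
        exact this
      have h6 : (2 * (Real.pi : ℂ) * Complex.I) ≠ 0 := Complex.two_pi_I_ne_zero
      rcases mul_eq_zero.1 h5 with h7 | h7
      · exact h6 h7
      · exact hn (by exact_mod_cast h7)
  have hDk : ∀ᶠ r : ℝ in 𝓝[<] (1 : ℝ), ((r : ℂ) * ζ) ∈ Dk := by
    have h1 : ∀ᶠ r : ℝ in 𝓝[<] (1 : ℝ), r ∈ Ioo (0 : ℝ) 1 :=
      Ioo_mem_nhdsLT (by norm_num)
    filter_upwards [h1] with r hr
    rw [mem_ball_zero_iff, norm_mul, hζ, mul_one, Complex.norm_real, Real.norm_eq_abs,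
      abs_of_pos hr.1]
    exact hr.2
  have hl : Tendsto (fun r : ℝ => Complex.exp (L (φ (G ((r : ℂ) * ζ))) - L (φ ((r : ℂ) * ζ))))
      (𝓝[<] (1 : ℝ)) (𝓝 (deriv f p)) := by
    have h1 : Tendsto (fun r : ℝ => φ ((r : ℂ) * ζ)) (𝓝[<] (1 : ℝ)) (𝓝[≠] p) := by
      refine tendsto_nhdsWithin_iff.2 ⟨hp, ?_⟩
      filter_upwards [hDk] with r hr
      intro h0
      exact hpU (by
        have := hmaps hr
        rwa [Set.mem_singleton_iff.1 h0] at this)
    have h2 := (hasDerivAt_iff_tendsto_slope.1 (B.hf p).hasDerivAt).comp h1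
    refine h2.congr' ?_
    filter_upwards [hDk] with r hr
    have h3 := hexp _ (hG hr)
    have h4 := hexp _ hr
    rw [Complex.exp_sub, h3, h4, hconj _ hr, Function.comp_apply, slope_def_field, hfp]
  obtain ⟨e, he, hlim⟩ := increments H hG hGd hζ hμ hr₁ hr₁' hrad hl
  -- real parts tend to -∞
  have hμ0 : 0 < μ := by linarith
  have hμi : 0 < μ⁻¹ := inv_pos.2 hμ0
  have hμi1 : μ⁻¹ < 1 := inv_lt_one_of_one_lt₀ hμ
  have hr : Tendsto (fun j : ℕ => 1 - μ⁻¹ ^ j) atTop (𝓝[<] (1 : ℝ)) := by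
    refine tendsto_nhdsWithin_iff.2 ⟨?_, ?_⟩
    · have := (tendsto_pow_atTop_nhds_zero_of_lt_one hμi.le hμi1).const_sub (1 : ℝ)
      simpa using this
    · refine Eventually.of_forall fun j => ?_
      have : 0 < μ⁻¹ ^ j := pow_pos hμi j
      simp only [mem_Iio]
      linarith
  have hRe : Tendsto (fun j : ℕ => (L (φ (((1 - μ⁻¹ ^ j : ℝ) : ℂ) * ζ))).re) atTop atBot := by
    rw [← Real.tendsto_exp_comp_nhds_zero]
    have h1 : Tendsto (fun j : ℕ => ‖φ (((1 - μ⁻¹ ^ j : ℝ) : ℂ) * ζ) - p‖) atTop (𝓝 0) := by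
      have h2 : Tendsto (fun j : ℕ => φ (((1 - μ⁻¹ ^ j : ℝ) : ℂ) * ζ)) atTop (𝓝 p) :=
        Filter.Tendsto.comp (g := fun r : ℝ => φ ((r : ℂ) * ζ)) hp hr
      have h3 := (h2.sub_const p).norm
      simpa using h3
    refine h1.congr' ?_
    filter_upwards [hr.eventually hDk] with j hj
    rw [← hexp _ hj, Complex.norm_exp]
  have hmono : 0 ≤ e.re := by
    by_contra hneg
    push Not at hneg
    have h1 := (Complex.continuous_re.tendsto e).comp hlim
    have h2 : ∀ᶠ j : ℕ in atTop, (L (φ (((1 - μ⁻¹ ^ j : ℝ) : ℂ) * ζ)) -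
        L (φ (((1 - μ⁻¹ ^ (j + 1) : ℝ) : ℂ) * ζ))).re < 0 := h1.eventually (gt_mem_nhds hneg)
    obtain ⟨J, hJ⟩ := eventually_atTop.1 h2
    have h3 : ∀ k : ℕ, (L (φ (((1 - μ⁻¹ ^ J : ℝ) : ℂ) * ζ))).re ≤
        (L (φ (((1 - μ⁻¹ ^ (J + k) : ℝ) : ℂ) * ζ))).re := by
      intro k
      induction k with
      | zero => exact le_refl _
      | succ k ih =>
        have h4 := hJ (J + k) (by omega)
        rw [Complex.sub_re] at h4
        have h5 : J + (k + 1) = J + k + 1 := by ring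
        rw [h5]
        linarith
    have h4 := (hRe.eventually (eventually_lt_atBot
      (L (φ (((1 - μ⁻¹ ^ J : ℝ) : ℂ) * ζ))).re))
    obtain ⟨K, hK⟩ := eventually_atTop.1 h4
    have h5 := hK (J + K) (by omega)
    have h6 := h3 K
    linarith
  have hnorm : ‖deriv f p‖ = Real.exp e.re := by
    rw [← he, Complex.norm_exp]
  rcases hmono.lt_or_eq with h1 | h1
  · left
    rw [hnorm]
    exact Real.one_lt_exp_iff.2 h1
  · right
    have he' : e = (e.im : ℂ) * Complex.I := by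
      apply Complex.ext
      · simp [← h1]
      · simp
    have h2 : e.im = 0 := by
      refine imaginary_increment H hζ hμ (τ := e.im) ?_
      rw [← he']
      exact hlim
    rw [h2] at he'
    rw [← he, he']
    simp

end Pool.Agent.TB
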