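/-
Project TB (MP_d9e400_an). Module Access.
All rays over the backward orbit of a fixed point land at points accessible from outside.

PROOF. Induction on n. n = 0: ζ = ζ₀: landing_fix: RadLim φ ζ p, f p = p, p ∈ frontier U (radLim_frontier). `radial` at ζ and snail with
G = Bl c a (Bl_mapsTo, differentiable by Bl_analytic): ‖f' p‖ > 1 or f' p = 1; access_repelling / access_parabolic.
Step: Bl^[n+1] ζ = ζ₀, ζ' = Bl ζ (norm_Bl), induction: RadLim φ ζ' x', Acc V x'. landing_pre: RadLim φ ζ y, f y = x'. x' ∉ V (frontier).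
lift_access with mem_V_of_map, not_eventually_const.
-/
import Mathlib
import Pool.Agent.TB.Defs
import Pool.Agent.TB.Landing
import Pool.Agent.TB.Snail
import Pool.Agent.TB.Repel
import Pool.Agent.TB.ParAcc
import Pool.Agent.TB.Lift

set_option autoImplicit false

open Set Filter Topology Metric

namespace Pool.Agent.TB

variable {f : ℂ → ℂ} {U : Set ℂ} {z₀ : ℂ} {φ : ℂ → ℂ} {d : ℕ} {c : ℂ} {a : Fin d → ℂ}

theorem access_backward (B : Basin f U z₀) (hφ : Conf φ U) (hd : BlData d c a)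
    (hconj : ∀ w ∈ Dk, φ (Bl c a w) = f (φ w)) {ζ₀ : ℂ} (hζ₀ : ‖ζ₀‖ = 1)
    (hfix : Bl c a ζ₀ = ζ₀) {n : ℕ} {ζ : ℂ} (hζ : ‖ζ‖ = 1) (hn : (Bl c a)^[n] ζ = ζ₀) :
    ∃ x, RadLim φ ζ x ∧ Acc (Vset U) x := by
  induction n generalizing ζ with
  | zero =>
    have hn' : ζ = ζ₀ := hn
    subst hn'
    obtain ⟨p, hp, hfp⟩ := landing_fix B hφ hd hconj hζ hfix
    have hpf : p ∈ frontier U := radLim_frontier hφ hζ hp
    obtain ⟨μ, C, r₁, hμ, hr₁, hr₁', hrad⟩ := radial hd hζ
    rw [hfix] at hrad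
    obtain ⟨R, hR, hBd⟩ := Bl_analytic hd
    have hBd' : DifferentiableOn ℂ (Bl c a) Dk := hBd.mono (ball_subset_ball hR.le)
    rcases snail B hφ (Bl_mapsTo hd) hBd' hconj hζ hμ hr₁ hr₁' hrad hp hfp with h | h
    · exact ⟨p, hp, access_repelling B hpf hfp h⟩
    · exact ⟨p, hp, access_parabolic B hpf hfp h⟩
  | succ n ih =>
    have hn' : (Bl c a)^[n] (Bl c a ζ) = ζ₀ := by rwa [Function.iterate_succ_apply] at hn
    obtain ⟨x', hx', hacc⟩ := ih (norm_Bl hd hζ) hn'
    obtain ⟨y, hy, hfy⟩ := landing_pre B hφ hd hconj hζ hx'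
    have hx'f : x' ∈ frontier U := radLim_frontier hφ (norm_Bl hd hζ) hx'
    have hx'V : x' ∉ Vset U := closure_subset_K B (frontier_subset_closure hx'f)
    refine ⟨y, hy, lift_access B.hf (fun z hz => mem_V_of_map B hz) (not_eventually_const B y) ?_ ?_⟩
    · rw [hfy]
      exact hx'V
    · rw [hfy]
      exact hacc

end Pool.Agent.TB
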