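/-
Project TB (MP_d9e400_an). Module BlRepr.
Proper self-maps of the disc are finite Blaschke products.

PROOF. Let Q g: g holomorphic on Dk, ‖g‖ ≤ 1 on Dk, and hp. By hp there is ρ < 1 such that all zeros of g are
in closedBall 0 ρ (take ρ ≥ 0), and there is w₁ ∈ Dk with g w₁ ≠ 0. Let κ = √(1 - (1-ρ²)(1-‖w₁‖²)/4) < 1, so that
‖mob a w₁‖ ≤ κ for all ‖a‖ ≤ ρ (one_sub_normSq_mob, ‖1 - conj a w₁‖ ≤ 2). Claim by induction on n: if Q g, zeros of g in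
closedBall 0 ρ and ‖g w₁‖ > κ^n then g has a representation. n = 0: impossible. n+1: if g has no zero in Dk then 1/g is
holomorphic with boundary bound (‖g‖ ≥ 1-ε near the circle gives ‖1/g‖ ≤ 1 + 2ε...), norm_le_one_disc gives ‖1/g‖ ≤ 1,
so ‖g‖ = 1 on Dk, so g is constant (maximum modulus), d = 0. If g a = 0, a ∈ Dk (so ‖a‖ ≤ ρ): g = mob a · g₁ with g₁
holomorphic on Dk (dslope g a times (1 - conj a w)), ‖g₁‖ has the boundary property (‖mob a‖ → 1 uniformly at the circle,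
from one_sub_normSq_mob), so ‖g₁‖ ≤ 1 by norm_le_one_disc, Q g₁, the zeros of g₁ are zeros of g, ‖g₁ w₁‖ ≥ ‖g w₁‖/κ > κ^n.
Use the induction hypothesis for g₁ and Fin.cons / Fin.prod_univ_succ (the factor of Bl is mob).
-/
import Mathlib
import Pool.Agent.TB.Defs
import Pool.Agent.TB.MaxBd
import Pool.Agent.TB.Mobius

set_option autoImplicit false

open Set Filter Topology Metric

namespace Pool.Agent.TB

/-- no zeros: constant of modulus one -/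
private theorem BlRepr_const {g : ℂ → ℂ} (hg : DifferentiableOn ℂ g Dk) (hm : ∀ w ∈ Dk, ‖g w‖ ≤ 1)
    (hp : ∀ ε : ℝ, 0 < ε → ∃ ρ : ℝ, ρ < 1 ∧ ∀ w : ℂ, ρ < ‖w‖ → ‖w‖ < 1 → 1 - ε < ‖g w‖)
    (hz : ∀ w ∈ Dk, g w ≠ 0) : ∃ c : ℂ, ‖c‖ = 1 ∧ ∀ w ∈ Dk, g w = c := by
  have h1 : ∀ w ∈ Dk, ‖(g w)⁻¹‖ ≤ 1 := by
    apply norm_le_one_disc (H := fun w => (g w)⁻¹) (hg.inv hz)
    intro ε hε
    obtain ⟨ρ, hρ, h⟩ := hp (ε / (1 + ε)) (by positivity)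
    refine ⟨ρ, hρ, fun w hw1 hw2 => ?_⟩
    have h2 := h w hw1 hw2
    have h3 : 1 - ε / (1 + ε) = 1 / (1 + ε) := by field_simp; ring
    rw [h3] at h2
    rw [norm_inv]
    have h4 : 0 < 1 / (1 + ε) := by positivity
    rw [inv_le_comm₀ (h4.trans h2) (by positivity), ← one_div]
    exact h2.le
  have h2 : ∀ w ∈ Dk, ‖g w‖ = 1 := by
    intro w hw
    apply le_antisymm (hm w hw)
    have h3 := h1 w hw
    rw [norm_inv] at h3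
    exact (inv_le_one₀ (norm_pos_iff.2 (hz w hw))).1 h3
  have h0 : (0 : ℂ) ∈ Dk := mem_ball_self one_pos
  refine ⟨g 0, h2 0 h0, ?_⟩
  have h3 := Complex.eqOn_of_isPreconnected_of_isMaxOn_norm (f := g) (c := 0)
    (convex_ball (0 : ℂ) 1).isPreconnected isOpen_ball hg h0 (by
      intro w hw
      simp only [mem_ofPred_eq, Function.comp]
      rw [h2 w hw, h2 0 h0])
  intro w hw
  exact h3 hw

private theorem BlRepr_mob_near {a : ℂ} (ha : ‖a‖ < 1) (ε : ℝ) (hε : 0 < ε) :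
    ∃ ρ : ℝ, ρ < 1 ∧ ∀ w : ℂ, ρ < ‖w‖ → ‖w‖ < 1 → 1 - ε < ‖mob a w‖ := by
  set e : ℝ := min ε 1 with he
  have he0 : 0 < e := lt_min hε one_pos
  have he1 : e ≤ 1 := min_le_right _ _
  have heε : e ≤ ε := min_le_left _ _
  have ha' : 0 < 1 - ‖a‖ := by linarith
  refine ⟨1 - e * (1 - ‖a‖) ^ 2 / 2, by
    have : 0 < e * (1 - ‖a‖) ^ 2 / 2 := by positivity
    linarith, ?_⟩
  intro w hw1 hw2
  have hden := mob_den ha hw2.le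
  have h1 := one_sub_normSq_mob hden
  have h2 : 1 - ‖a‖ ≤ ‖1 - (starRingEnd ℂ) a * w‖ := by
    have h3 : ‖(starRingEnd ℂ) a * w‖ ≤ ‖a‖ := by
      rw [norm_mul, RCLike.norm_conj]
      exact mul_le_of_le_one_right (norm_nonneg _) hw2.le
    have h4 := norm_sub_norm_le (1 : ℂ) ((starRingEnd ℂ) a * w)
    rw [norm_one] at h4
    linarith
  have h5 : 1 - ‖mob a w‖ ^ 2 < e := by
    rw [h1, div_lt_iff₀ (by positivity)]
    have h6 : (1 - ‖a‖ ^ 2) * (1 - ‖w‖ ^ 2) ≤ 1 * (1 - ‖w‖ ^ 2) := by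
      apply mul_le_mul_of_nonneg_right
      · nlinarith [sq_nonneg ‖a‖]
      · nlinarith [norm_nonneg w]
    have h7 : 1 - ‖w‖ ^ 2 < e * (1 - ‖a‖) ^ 2 := by nlinarith [norm_nonneg w]
    have h8 : (1 - ‖a‖) ^ 2 ≤ ‖1 - (starRingEnd ℂ) a * w‖ ^ 2 :=
      pow_le_pow_left₀ ha'.le h2 2
    have h9 := mul_le_mul_of_nonneg_left h8 he0.le
    linarith
  have h10 : (1 - e) ^ 2 < ‖mob a w‖ ^ 2 := by nlinarith
  have h11 : 1 - e < ‖mob a w‖ := lt_of_pow_lt_pow_left₀ 2 (norm_nonneg _) h10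
  linarith

private theorem BlRepr_div {g : ℂ → ℂ} (hg : DifferentiableOn ℂ g Dk) (hm : ∀ w ∈ Dk, ‖g w‖ ≤ 1)
    (hp : ∀ ε : ℝ, 0 < ε → ∃ ρ : ℝ, ρ < 1 ∧ ∀ w : ℂ, ρ < ‖w‖ → ‖w‖ < 1 → 1 - ε < ‖g w‖)
    {a : ℂ} (ha : a ∈ Dk) (hga : g a = 0) :
    ∃ g₁ : ℂ → ℂ, DifferentiableOn ℂ g₁ Dk ∧ (∀ w ∈ Dk, ‖g₁ w‖ ≤ 1) ∧
      (∀ ε : ℝ, 0 < ε → ∃ ρ : ℝ, ρ < 1 ∧ ∀ w : ℂ, ρ < ‖w‖ → ‖w‖ < 1 → 1 - ε < ‖g₁ w‖) ∧
      ∀ w ∈ Dk, g w = mob a w * g₁ w := by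
  have ha1 : ‖a‖ < 1 := by simpa using ha
  set g₁ : ℂ → ℂ := fun w => dslope g a w * (1 - (starRingEnd ℂ) a * w) with hg₁
  have hd : DifferentiableOn ℂ g₁ Dk := by
    apply DifferentiableOn.mul
    · exact (Complex.differentiableOn_dslope (isOpen_ball.mem_nhds ha)).2 hg
    · fun_prop
  have hmul : ∀ w ∈ Dk, g w = mob a w * g₁ w := by
    intro w hw
    have hw1 : ‖w‖ < 1 := by simpa using hw
    have hden := mob_den ha1 hw1.le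
    have h1 := sub_smul_dslope g a w
    rw [hga, sub_zero, smul_eq_mul] at h1
    rw [← h1]
    simp only [hg₁, mob]
    rw [div_mul_eq_mul_div, eq_div_iff hden]
    ring
  have hmob1 : ∀ w ∈ Dk, ‖mob a w‖ ≤ 1 := by
    intro w hw
    have := (mob_bijOn ha1).mapsTo hw
    have h2 : ‖mob a w‖ < 1 := by simpa using this
    exact h2.le
  have hp1 : ∀ ε : ℝ, 0 < ε → ∃ ρ : ℝ, ρ < 1 ∧ ∀ w : ℂ, ρ < ‖w‖ → ‖w‖ < 1 → 1 - ε < ‖g₁ w‖ := by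
    intro ε hε
    obtain ⟨ρ, hρ, h⟩ := hp ε hε
    refine ⟨ρ, hρ, fun w hw1 hw2 => lt_of_lt_of_le (h w hw1 hw2) ?_⟩
    have hw : w ∈ Dk := by simpa using hw2
    rw [hmul w hw, norm_mul]
    exact mul_le_of_le_one_left (norm_nonneg _) (hmob1 w hw)
  refine ⟨g₁, hd, ?_, hp1, hmul⟩
  apply norm_le_one_disc hd
  intro ε hε
  obtain ⟨ρ, hρ, h⟩ := BlRepr_mob_near ha1 (ε / (1 + ε)) (by positivity)
  refine ⟨ρ, hρ, fun w hw1 hw2 => ?_⟩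
  have hw : w ∈ Dk := by simpa using hw2
  have h2 := h w hw1 hw2
  have h3 : 1 - ε / (1 + ε) = 1 / (1 + ε) := by field_simp; ring
  rw [h3, div_lt_iff₀ (by positivity)] at h2
  have h4 := hm w hw
  rw [hmul w hw, norm_mul] at h4
  -- ‖mob‖ * (1+ε) > 1, ‖mob‖ * ‖g₁‖ ≤ 1
  by_contra hcon
  push Not at hcon
  have h5 : 0 < ‖mob a w‖ := by
    by_contra h6
    push Not at h6
    nlinarith
  have h6 : ‖mob a w‖ * (1 + ε) < ‖mob a w‖ * ‖g₁ w‖ := mul_lt_mul_of_pos_left hcon h5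
  linarith

private theorem BlRepr_ind {ρ κ : ℝ} {w₁ : ℂ} (hw₁ : w₁ ∈ Dk) (hκ0 : 0 < κ)
    (hκ : ∀ a : ℂ, a ∈ Dk → ‖a‖ ≤ ρ → ‖mob a w₁‖ ≤ κ) (n : ℕ) :
    ∀ g : ℂ → ℂ, DifferentiableOn ℂ g Dk → (∀ w ∈ Dk, ‖g w‖ ≤ 1) →
      (∀ ε : ℝ, 0 < ε → ∃ ρ : ℝ, ρ < 1 ∧ ∀ w : ℂ, ρ < ‖w‖ → ‖w‖ < 1 → 1 - ε < ‖g w‖) →
      (∀ w ∈ Dk, g w = 0 → ‖w‖ ≤ ρ) → κ ^ n < ‖g w₁‖ →
      ∃ (d : ℕ) (c : ℂ) (a : Fin d → ℂ), ‖c‖ = 1 ∧ (∀ i, ‖a i‖ < 1) ∧ ∀ w ∈ Dk, g w = Bl c a w := by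
  induction n with
  | zero =>
    intro g _ hm _ _ h
    rw [pow_zero] at h
    exact absurd (hm w₁ hw₁) (not_le.2 h)
  | succ n ih =>
    intro g hg hm hp hz h
    by_cases hno : ∀ w ∈ Dk, g w ≠ 0
    · obtain ⟨c, hc, hgc⟩ := BlRepr_const hg hm hp hno
      refine ⟨0, c, Fin.elim0, hc, fun i => i.elim0, fun w hw => ?_⟩
      rw [hgc w hw]
      simp [Bl]
    · push Not at hno
      obtain ⟨a, ha, hga⟩ := hno
      obtain ⟨g₁, hd1, hm1, hp1, hmul⟩ := BlRepr_div hg hm hp ha hga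
      have ha1 : ‖a‖ < 1 := by simpa using ha
      have h1 : κ ^ n < ‖g₁ w₁‖ := by
        rw [hmul w₁ hw₁, norm_mul] at h
        have h2 : ‖mob a w₁‖ * ‖g₁ w₁‖ ≤ κ * ‖g₁ w₁‖ :=
          mul_le_mul_of_nonneg_right (hκ a ha (hz a ha hga)) (norm_nonneg _)
        have h3 : κ * κ ^ n < κ * ‖g₁ w₁‖ := by
          rw [← pow_succ']
          linarith
        exact lt_of_mul_lt_mul_left h3 hκ0.le
      obtain ⟨d, c, b, hc, hb, hrep⟩ := ih g₁ hd1 hm1 hp1 (by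
        intro w hw hw0
        apply hz w hw
        rw [hmul w hw, hw0, mul_zero]) h1
      refine ⟨d + 1, c, Fin.cons a b, hc, ?_, ?_⟩
      · intro i
        refine Fin.cases ?_ (fun j => ?_) i
        · simpa using ha1
        · simpa using hb j
      · intro w hw
        rw [hmul w hw, hrep w hw]
        simp only [Bl, Fin.prod_univ_succ, Fin.cons_zero, Fin.cons_succ, mob]
        ring

theorem blaschke_repr {g : ℂ → ℂ} (hg : DifferentiableOn ℂ g Dk) (hm : MapsTo g Dk Dk)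
    (hp : ∀ ε : ℝ, 0 < ε → ∃ ρ : ℝ, ρ < 1 ∧ ∀ w : ℂ, ρ < ‖w‖ → ‖w‖ < 1 → 1 - ε < ‖g w‖) :
    ∃ (d : ℕ) (c : ℂ) (a : Fin d → ℂ), ‖c‖ = 1 ∧ (∀ i, ‖a i‖ < 1) ∧ ∀ w ∈ Dk, g w = Bl c a w := by
  have hm' : ∀ w ∈ Dk, ‖g w‖ ≤ 1 := by
    intro w hw
    have h : ‖g w‖ < 1 := by simpa using hm hw
    exact h.le
  obtain ⟨ρ₀, hρ₀, h0⟩ := hp 1 one_pos
  set ρ : ℝ := max ρ₀ 0 with hρ
  have hρ1 : ρ < 1 := max_lt hρ₀ one_pos
  have hρ0 : 0 ≤ ρ := le_max_right _ _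
  set w₁ : ℂ := (((ρ + 1) / 2 : ℝ) : ℂ) with hw₁def
  have hw₁n : ‖w₁‖ = (ρ + 1) / 2 := by
    rw [hw₁def, Complex.norm_real, Real.norm_of_nonneg (by linarith)]
  have hw₁lt : ‖w₁‖ < 1 := by rw [hw₁n]; linarith
  have hw₁ : w₁ ∈ Dk := by simpa using hw₁lt
  have hgw₁ : 0 < ‖g w₁‖ := by
    have h1 := h0 w₁ (by rw [hw₁n]; have := le_max_left ρ₀ 0; linarith) hw₁lt
    linarith
  set s : ℝ := (1 - ρ ^ 2) * (1 - ‖w₁‖ ^ 2) / 4 with hs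
  have hs0 : 0 < s := by
    have h1 : 0 < 1 - ρ ^ 2 := by nlinarith
    have h2 : 0 < 1 - ‖w₁‖ ^ 2 := by nlinarith [norm_nonneg w₁]
    positivity
  have hs1 : s ≤ 1 / 4 := by
    have h1 : 1 - ρ ^ 2 ≤ 1 := by nlinarith
    have h2 : 1 - ‖w₁‖ ^ 2 ≤ 1 := by nlinarith [norm_nonneg w₁]
    have h3 : 0 ≤ 1 - ‖w₁‖ ^ 2 := by nlinarith [norm_nonneg w₁]
    have h4 : (1 - ρ ^ 2) * (1 - ‖w₁‖ ^ 2) ≤ 1 * 1 := mul_le_mul h1 h2 h3 zero_le_one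
    rw [hs]; linarith
  set κ : ℝ := Real.sqrt (1 - s) with hκdef
  have hκ0 : 0 < κ := Real.sqrt_pos.2 (by linarith)
  have hκ1 : κ < 1 := by
    rw [hκdef, Real.sqrt_lt' one_pos]
    linarith
  have hκ : ∀ a : ℂ, a ∈ Dk → ‖a‖ ≤ ρ → ‖mob a w₁‖ ≤ κ := by
    intro a ha haρ
    have ha1 : ‖a‖ < 1 := by simpa using ha
    have hden := mob_den ha1 hw₁lt.le
    have h1 := one_sub_normSq_mob hden
    have h2 : ‖1 - (starRingEnd ℂ) a * w₁‖ ≤ 2 := by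
      refine (norm_sub_le _ _).trans ?_
      rw [norm_one, norm_mul, RCLike.norm_conj]
      nlinarith [norm_nonneg a, norm_nonneg w₁]
    have h3 : ‖1 - (starRingEnd ℂ) a * w₁‖ ^ 2 ≤ 4 := by
      nlinarith [norm_nonneg (1 - (starRingEnd ℂ) a * w₁)]
    have h4 : s ≤ 1 - ‖mob a w₁‖ ^ 2 := by
      rw [h1, le_div_iff₀ (by positivity)]
      have h5 : s * ‖1 - (starRingEnd ℂ) a * w₁‖ ^ 2 ≤ s * 4 :=
        mul_le_mul_of_nonneg_left h3 hs0.le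
      have h6 : s * 4 = (1 - ρ ^ 2) * (1 - ‖w₁‖ ^ 2) := by rw [hs]; ring
      have h7 : (1 - ρ ^ 2) * (1 - ‖w₁‖ ^ 2) ≤ (1 - ‖a‖ ^ 2) * (1 - ‖w₁‖ ^ 2) := by
        apply mul_le_mul_of_nonneg_right
        · nlinarith [norm_nonneg a]
        · nlinarith [norm_nonneg w₁]
      linarith
    rw [hκdef]
    apply Real.le_sqrt_of_sq_le
    linarith
  obtain ⟨n, hn⟩ := exists_pow_lt_of_lt_one hgw₁ hκ1
  apply BlRepr_ind hw₁ hκ0 hκ n g hg hm' hp ?_ hn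
  intro w hw hw0
  by_contra hcon
  push Not at hcon
  have hw1 : ‖w‖ < 1 := by simpa using hw
  have h1 := h0 w (lt_of_le_of_lt (le_max_left _ _) hcon) hw1
  rw [hw0, norm_zero] at h1
  linarith

end Pool.Agent.TB
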