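/-
Project TB (MP_d9e400_an). Module Model.
The Blaschke model of f on a basin.

PROOF. k = inverse of φ (conf_inverse), g = k ∘ f ∘ φ : Dk → Dk holomorphic, φ ∘ g = f ∘ φ on Dk. hp: otherwise there are
ε > 0 and w_n, ‖w_n‖ → 1, ‖g w_n‖ ≤ 1 - ε; pass to a subsequence with g w_n → v, ‖v‖ ≤ 1-ε, φ w_n → y (U bounded);
y ∈ closure U, y ∉ U (cluster_not_mem), so y ∈ frontier U, f y ∈ frontier U (maps_frontier); but f (φ w_n) =
φ (g w_n) → φ v ∈ U, so f y ∈ U. Contradiction. blaschke_repr: g = Bl c a on Dk. h0: Bl c a 0 = g 0 = k (f z₀) = k z₀ = 0, c ≠ 0, so some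
factor -a i / 1 = 0. So d ≥ 1. hd: if d = 1 then g w = c w, g' 0 = c, but φ' 0 g' 0 = f' z₀ φ' 0 (chain rule for φ ∘ g = f ∘ φ at 0),
φ' 0 ≠ 0 (deriv_ne_zero_of_injOn), so ‖f' z₀‖ = 1, contradiction to attr.
-/
import Mathlib
import Pool.Agent.TB.Defs
import Pool.Agent.TB.BlRepr
import Pool.Agent.TB.ConfA
import Pool.Agent.TB.Top1

set_option autoImplicit false

open Set Filter Topology Metric

namespace Pool.Agent.TB

theorem exists_model {f : ℂ → ℂ} {U : Set ℂ} {z₀ : ℂ} (B : Basin f U z₀) {φ : ℂ → ℂ}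
    (hφ : Conf φ U) (h0 : φ 0 = z₀) :
    ∃ (d : ℕ) (c : ℂ) (a : Fin d → ℂ), BlData d c a ∧ ∀ w ∈ Dk, φ (Bl c a w) = f (φ w) := by
  obtain ⟨k, hkd, hkφ, hkm, hφk⟩ := conf_inverse hφ
  have hφU : MapsTo φ Dk U := hφ.bij.mapsTo
  have hfφ : ∀ w ∈ Dk, f (φ w) ∈ U := fun w hw => B.maps (hφU hw)
  set g : ℂ → ℂ := fun w => k (f (φ w)) with hg
  have hφg : ∀ w ∈ Dk, φ (g w) = f (φ w) := fun w hw => hφk _ (hfφ w hw)
  have hgm : MapsTo g Dk Dk := fun w hw => hkm (hfφ w hw)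
  have hgd : DifferentiableOn ℂ g Dk := by
    apply hkd.comp (B.hf.differentiableOn.comp hφ.diff (mapsTo_univ _ _))
    intro w hw
    exact hfφ w hw
  have hDk : IsOpen Dk := Metric.isOpen_ball
  have h0D : (0 : ℂ) ∈ Dk := Metric.mem_ball_self one_pos
  have hp : ∀ ε : ℝ, 0 < ε → ∃ ρ : ℝ, ρ < 1 ∧ ∀ w : ℂ, ρ < ‖w‖ → ‖w‖ < 1 → 1 - ε < ‖g w‖ := by
    intro ε hε
    by_contra hcon
    push Not at hcon
    have hw : ∀ n : ℕ, ∃ w : ℂ, 1 - 1 / ((n : ℝ) + 1) < ‖w‖ ∧ ‖w‖ < 1 ∧ ‖g w‖ ≤ 1 - ε := by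
      intro n
      apply hcon
      have : 0 < 1 / ((n : ℝ) + 1) := by positivity
      linarith
    choose w hw1 hw2 hw3 using hw
    have hwD : ∀ n, w n ∈ Dk := by
      intro n
      rw [Metric.mem_ball, dist_zero_right]
      exact hw2 n
    have hcpt : IsCompact (Metric.closedBall (0 : ℂ) (1 - ε) ×ˢ closure U) :=
      (isCompact_closedBall _ _).prod B.bdd.isCompact_closure
    have hmem : ∀ n, ((g (w n), φ (w n)) : ℂ × ℂ) ∈
        Metric.closedBall (0 : ℂ) (1 - ε) ×ˢ closure U := by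
      intro n
      refine ⟨?_, subset_closure (hφU (hwD n))⟩
      rw [mem_closedBall_zero_iff]
      exact hw3 n
    obtain ⟨⟨v, y⟩, ⟨hv, hy⟩, ψ, hψ, hlim⟩ := hcpt.tendsto_subseq hmem
    have hlim1 : Tendsto (fun n => g (w (ψ n))) atTop (𝓝 v) :=
      (continuous_fst.tendsto _).comp hlim
    have hlim2 : Tendsto (fun n => φ (w (ψ n))) atTop (𝓝 y) :=
      (continuous_snd.tendsto _).comp hlim
    have hvD : v ∈ Dk := by
      rw [Metric.mem_ball, dist_zero_right]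
      rw [mem_closedBall_zero_iff] at hv
      linarith
    have hw1' : Tendsto (fun n => ‖w n‖) atTop (𝓝 1) := by
      have h1 : Tendsto (fun n : ℕ => 1 - 1 / ((n : ℝ) + 1)) atTop (𝓝 (1 - 0)) :=
        tendsto_const_nhds.sub tendsto_one_div_add_atTop_nhds_zero_nat
      rw [sub_zero] at h1
      exact tendsto_of_tendsto_of_tendsto_of_le_of_le h1 tendsto_const_nhds
        (fun n => (hw1 n).le) (fun n => (hw2 n).le)
    have hyU : y ∉ U := by
      apply cluster_not_mem hφ (l := atTop) (u := fun n => w (ψ n))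
      · exact Eventually.of_forall fun n => hwD _
      · exact hw1'.comp hψ.tendsto_atTop
      · exact hlim2
    have hyF : y ∈ frontier U := by
      rw [B.isOpen.frontier_eq]
      exact ⟨hy, hyU⟩
    have hfy := maps_frontier B hyF
    rw [B.isOpen.frontier_eq] at hfy
    apply hfy.2
    have h1 : Tendsto (fun n => φ (g (w (ψ n)))) atTop (𝓝 (φ v)) := by
      have hc : ContinuousAt φ v :=
        (hφ.diff.differentiableAt (hDk.mem_nhds hvD)).continuousAt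
      exact hc.tendsto.comp hlim1
    have h2 : Tendsto (fun n => f (φ (w (ψ n)))) atTop (𝓝 (f y)) :=
      (B.hf.continuous.tendsto y).comp hlim2
    have h3 : (fun n => φ (g (w (ψ n)))) = fun n => f (φ (w (ψ n))) := by
      funext n
      exact hφg _ (hwD _)
    rw [h3] at h1
    rw [tendsto_nhds_unique h2 h1]
    exact hφU hvD
  obtain ⟨d, c, a, hc, ha, hgB⟩ := blaschke_repr hgd hgm hp
  have hc0 : c ≠ 0 := by
    intro h; rw [h] at hc; simp at hc
  have hg0 : g 0 = 0 := by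
    simp only [hg]
    rw [h0, B.fix, ← h0]
    exact hkφ 0 h0D
  have hex : ∃ i, a i = 0 := by
    have h1 := hgB 0 h0D
    rw [hg0] at h1
    unfold Bl at h1
    have h2 := (mul_eq_zero.mp h1.symm).resolve_left hc0
    obtain ⟨i, _, hi⟩ := Finset.prod_eq_zero_iff.mp h2
    refine ⟨i, ?_⟩
    simpa using hi
  have hφB : ∀ w ∈ Dk, φ (Bl c a w) = f (φ w) := by
    intro w hw
    rw [← hgB w hw]
    exact hφg w hw
  refine ⟨d, c, a, ⟨?_, hc, ha, hex⟩, hφB⟩
  by_contra hlt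
  push Not at hlt
  obtain ⟨i₀, hi₀⟩ := hex
  have hd1 : d = 1 := by
    have := i₀.pos
    omega
  subst hd1
  have hi : i₀ = 0 := Subsingleton.elim _ _
  rw [hi] at hi₀
  have hBl : ∀ w, Bl c a w = c * w := by
    intro w
    unfold Bl
    simp [hi₀]
  have hφ' : HasDerivAt φ (deriv φ 0) 0 :=
    (hφ.diff.differentiableAt (hDk.mem_nhds h0D)).hasDerivAt
  have h1 : HasDerivAt (fun w => φ (c * w)) (deriv φ 0 * c) 0 := by
    have h2 : HasDerivAt (fun w : ℂ => c * w) c 0 := by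
      simpa using (hasDerivAt_id (0 : ℂ)).const_mul c
    have h3 : HasDerivAt φ (deriv φ 0) (c * 0) := by rw [mul_zero]; exact hφ'
    exact h3.comp (0 : ℂ) h2
  have h2 : HasDerivAt (fun w => f (φ w)) (deriv f (φ 0) * deriv φ 0) 0 :=
    (B.hf (φ 0)).hasDerivAt.comp 0 hφ'
  have h3 : (fun w => φ (c * w)) =ᶠ[𝓝 0] fun w => f (φ w) := by
    filter_upwards [hDk.mem_nhds h0D] with w hw
    rw [← hφB w hw, hBl w]
  have h4 : deriv φ 0 * c = deriv f (φ 0) * deriv φ 0 :=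
    (h1.congr_of_eventuallyEq h3.symm).unique h2
  have h5 : deriv φ 0 ≠ 0 := deriv_ne_zero_of_injOn hDk hφ.diff hφ.bij.injOn h0D
  rw [mul_comm] at h4
  have h6 : c = deriv f (φ 0) := mul_right_cancel₀ h5 h4
  have h7 := B.attr
  rw [← h0, ← h6, hc] at h7
  exact lt_irrefl _ h7

end Pool.Agent.TB
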