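/-
Project TB (MP_d9e400_an). Module RayJoin.
Two points of the complement that are accessible are joined by a curve.

PROOF. κ₁, κ₂ curves of Acc. V = Vset U is open and connected (isOpen_V, isConnected_V), so path connected: a path in V
from κ₁ 1 to κ₂ 1. Concatenate κ₁, the path, the reverse of κ₂ (three pieces, e.g. twice `Path.trans`; turn κ_i into
Paths in ℂ).
-/
import Mathlib
import Pool.Agent.TB.Defs
import Pool.Agent.TB.Top2

set_option autoImplicit false

open Set Filter Topology Metric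

namespace Pool.Agent.TB

/-- a curve as a path -/
theorem RayJoin_path {V : Set ℂ} {p : ℂ} (h : Acc V p) :
    ∃ q ∈ V, ∃ P : Path p q, range P ⊆ V ∪ {p} := by
  obtain ⟨κ, hκ, h0, hV⟩ := h
  have hc : Continuous fun t : unitInterval => κ t := continuousOn_iff_continuous_domRestrict.1 hκ
  refine ⟨κ 1, hV 1 ⟨one_pos, le_rfl⟩, ⟨⟨fun t : unitInterval => κ t, hc⟩, ?_, ?_⟩, ?_⟩
  · simpa using h0
  · simp
  · rintro _ ⟨t, rfl⟩
    change κ t ∈ _
    rcases eq_or_lt_of_le t.2.1 with ht | ht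
    · right
      rw [mem_singleton_iff, ← h0, ← ht]
    · left
      exact hV t ⟨ht, t.2.2⟩

theorem join_access {f : ℂ → ℂ} {U : Set ℂ} {z₀ : ℂ} (B : Basin f U z₀) {x₁ x₂ : ℂ}
    (h₁ : Acc (Vset U) x₁) (h₂ : Acc (Vset U) x₂) :
    ∃ β : ℝ → ℂ, ContinuousOn β (Icc 0 1) ∧ β 0 = x₁ ∧ β 1 = x₂ ∧
      β '' Icc 0 1 ⊆ Vset U ∪ {x₁, x₂} := by
  obtain ⟨q₁, hq₁, P₁, hP₁⟩ := RayJoin_path h₁
  obtain ⟨q₂, hq₂, P₂, hP₂⟩ := RayJoin_path h₂
  have hpc : IsPathConnected (Vset U) := ((isOpen_V B).isConnected_iff_isPathConnected).1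
    (isConnected_V B)
  have hj := hpc.joinedIn q₁ hq₁ q₂ hq₂
  obtain ⟨P, hP⟩ := hj
  set Q : Path x₁ x₂ := (P₁.trans P).trans P₂.symm with hQ
  have hr : range Q ⊆ Vset U ∪ {x₁, x₂} := by
    rw [hQ, Path.trans_range, Path.trans_range, Path.symm_range]
    rintro z ((hz | hz) | hz)
    · rcases hP₁ hz with h | h
      · exact Or.inl h
      · exact Or.inr (Or.inl h)
    · obtain ⟨t, rfl⟩ := hz
      exact Or.inl (hP t)
    · rcases hP₂ hz with h | h
      · exact Or.inl h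
      · exact Or.inr (Or.inr h)
  refine ⟨fun t => Q.extend t, Q.extend.continuous.continuousOn, by simp, by simp, ?_⟩
  rintro _ ⟨t, -, rfl⟩
  apply hr
  rw [← Path.extend_range]
  exact mem_range_self t

end Pool.Agent.TB
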