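/-
Project TB (MP_d9e400_an). Module ConstBdry.
A bounded holomorphic function with constant limits on an arc is constant.

PROOF. Let ψ = φ - x. Choose N ≥ 1 with 2π/N < (β-α)/2, ω_k = ee(2πk/N), g w = ∏_{k<N} ψ(ω_k w) on Dk: holomorphic, and for
every ζ on the circle some ω_k ζ = ee θ with θ ∈ Ioo α β, that factor tends to 0 as w → ζ in Dk and the others are bounded, so
g → 0 at every boundary point. norm_le_one_of_boundary for g/ε, all ε: g = 0 on Dk. If ψ were not identically 0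
on Dk, its zeros would be isolated: choose w with all ψ(ω_k w) ≠ 0 (finitely many countable zero sets; or
AnalyticOnNhd.eq_zero_or_eq_zero_of_mul_eq_zero repeatedly; then ψ(ω_k ·) = 0 on Dk gives ψ = 0).
-/
import Mathlib
import Pool.Agent.TB.Defs
import Pool.Agent.TB.MaxBd
import Pool.Agent.TB.EE

set_option autoImplicit false

open Set Filter Topology Metric

namespace Pool.Agent.TB

theorem ConstBdry_prod {ι : Type} (s : Finset ι) {F : ι → ℂ → ℂ}
    (hF : ∀ i ∈ s, DifferentiableOn ℂ (F i) Dk) (h : ∀ w ∈ Dk, ∏ i ∈ s, F i w = 0) :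
    ∃ i ∈ s, ∀ w ∈ Dk, F i w = 0 := by
  classical
  induction s using Finset.induction_on with
  | empty =>
    have := h 0 (by simp)
    simp at this
  | insert a s ha ih =>
    have h1 : AnalyticOnNhd ℂ (F a) Dk :=
      (hF a (Finset.mem_insert_self a s)).analyticOnNhd Metric.isOpen_ball
    have h2 : AnalyticOnNhd ℂ (fun w => ∏ i ∈ s, F i w) Dk := by
      refine DifferentiableOn.analyticOnNhd ?_ Metric.isOpen_ball
      exact DifferentiableOn.fun_finsetProd fun i hi => hF i (Finset.mem_insert_of_mem hi)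
    have hpre : IsPreconnected Dk := (convex_ball (0 : ℂ) 1).isPreconnected
    rcases AnalyticOnNhd.eq_zero_or_eq_zero_of_mul_eq_zero h1 h2 (by
      intro w hw
      have := h w hw
      rwa [Finset.prod_insert ha] at this) hpre with h3 | h3
    · exact ⟨a, Finset.mem_insert_self a s, h3⟩
    · obtain ⟨i, hi, h4⟩ := ih (fun i hi => hF i (Finset.mem_insert_of_mem hi)) h3
      exact ⟨i, Finset.mem_insert_of_mem hi, h4⟩

/-- angles: some multiple of `2π/N` brings `t` into the arc -/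
theorem ConstBdry_angle {α β : ℝ} {N : ℕ} (hN : 0 < N) (hNab : 2 * Real.pi / N < β - α)
    (t : ℝ) : ∃ k ∈ Finset.range N, ∃ θ ∈ Ioo α β, ee (2 * Real.pi * k / N) * ee t = ee θ := by
  have hN' : (0 : ℝ) < N := by exact_mod_cast hN
  set s : ℝ := 2 * Real.pi / N with hs
  have hs0 : 0 < s := by positivity
  -- j with α < t + s j < β
  set j : ℤ := ⌊(α - t) / s⌋ + 1 with hj
  have hj1 : α < t + s * j := by
    have h1 : (α - t) / s < j := by
      rw [hj]
      push_cast
      exact Int.lt_floor_add_one _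
    rw [div_lt_iff₀ hs0] at h1
    linarith
  have hj2 : t + s * j < β := by
    have h1 : (j : ℝ) ≤ (α - t) / s + 1 := by
      rw [hj]
      push_cast
      linarith [Int.floor_le ((α - t) / s)]
    have h2 : s * j ≤ s * ((α - t) / s + 1) := mul_le_mul_of_nonneg_left h1 hs0.le
    have h3 : s * ((α - t) / s + 1) = α - t + s := by field_simp
    linarith
  have hNz : (N : ℤ) ≠ 0 := by exact_mod_cast hN.ne'
  have hNp : (0 : ℤ) < N := by exact_mod_cast hN
  have hm0 := Int.emod_nonneg j hNz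
  have hm1 := Int.emod_lt_of_pos j hNp
  refine ⟨(j % N).toNat, ?_, t + s * j, ⟨hj1, hj2⟩, ?_⟩
  · rw [Finset.mem_range]
    omega
  · rw [← ee_add, ee_eq_iff]
    refine ⟨-(j / N), ?_⟩
    have h4 : (((j % N).toNat : ℤ) : ℝ) = ((j % N : ℤ) : ℝ) := by
      rw [Int.toNat_of_nonneg hm0]
    have h5 : (((j % N).toNat : ℕ) : ℝ) = ((j % N : ℤ) : ℝ) := by exact_mod_cast h4
    have h6 : (j : ℝ) = ((j % N : ℤ) : ℝ) + N * ((j / N : ℤ) : ℝ) := by
      exact_mod_cast (Int.emod_add_mul_ediv j N).symm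
    rw [h5, h6, hs]
    push_cast
    field_simp
    ring

theorem const_of_arc {φ : ℂ → ℂ} (hd : DifferentiableOn ℂ φ Dk) {M : ℝ}
    (hM : ∀ w ∈ Dk, ‖φ w‖ ≤ M) {α β : ℝ} (hab : α < β) {x : ℂ}
    (hx : ∀ θ ∈ Ioo α β, Tendsto φ (𝓝[Dk] (ee θ)) (𝓝 x)) : ∀ w ∈ Dk, φ w = x := by
  obtain ⟨N, hN⟩ : ∃ N : ℕ, 0 < N ∧ 2 * Real.pi / N < β - α := by
    obtain ⟨n, hn⟩ := exists_nat_gt (2 * Real.pi / (β - α))
    have hba : 0 < β - α := by linarith
    have hn0 : (0 : ℝ) < n := lt_trans (by positivity) hn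
    refine ⟨n, by exact_mod_cast hn0, ?_⟩
    rw [div_lt_iff₀ hba] at hn
    rw [div_lt_iff₀ hn0]
    linarith
  obtain ⟨hN0, hNab⟩ := hN
  set ω : ℕ → ℂ := fun k => ee (2 * Real.pi * k / N) with hω
  have hωn : ∀ k, ‖ω k‖ = 1 := fun k => norm_ee _
  have hωmem : ∀ k, ∀ w ∈ Dk, ω k * w ∈ Dk := by
    intro k w hw
    have hw' : ‖w‖ < 1 := by simpa using hw
    have : ‖ω k * w‖ < 1 := by rw [norm_mul, hωn, one_mul]; exact hw'
    simpa using this
  set F : ℕ → ℂ → ℂ := fun k w => φ (ω k * w) - x with hF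
  have hFd : ∀ k, DifferentiableOn ℂ (F k) Dk := by
    intro k
    refine DifferentiableOn.sub_const ?_ x
    exact hd.comp ((differentiable_id.const_mul (ω k)).differentiableOn) (hωmem k)
  set M' : ℝ := max (M + ‖x‖) 1 with hM'
  have hM'1 : 1 ≤ M' := le_max_right _ _
  have hFM : ∀ k, ∀ w ∈ Dk, ‖F k w‖ ≤ M' := by
    intro k w hw
    calc ‖F k w‖ ≤ ‖φ (ω k * w)‖ + ‖x‖ := norm_sub_le _ _
      _ ≤ M + ‖x‖ := by linarith [hM _ (hωmem k w hw)]
      _ ≤ M' := le_max_left _ _
  set g : ℂ → ℂ := fun w => ∏ k ∈ Finset.range N, F k w with hg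
  have hgd : DifferentiableOn ℂ g Dk :=
    DifferentiableOn.fun_finsetProd fun k _ => hFd k
  -- boundary limits of g
  have hgb : ∀ ζ ∈ frontier Dk, Tendsto g (𝓝[Dk] ζ) (𝓝 0) := by
    intro ζ hζ
    have hζ1 : ‖ζ‖ = 1 := by
      rw [frontier_ball (0 : ℂ) one_ne_zero] at hζ
      simpa using hζ
    obtain ⟨t, -, -, rfl⟩ := exists_ee hζ1 0
    obtain ⟨k, hk, θ, hθ, hke⟩ := ConstBdry_angle hN0 hNab t
    have hlim : Tendsto (F k) (𝓝[Dk] (ee t)) (𝓝 0) := by
      have h1 : Tendsto (fun w => ω k * w) (𝓝[Dk] (ee t)) (𝓝[Dk] (ee θ)) := by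
        refine tendsto_nhdsWithin_iff.2 ⟨?_, ?_⟩
        · have h2 : Tendsto (fun w => ω k * w) (𝓝 (ee t)) (𝓝 (ω k * ee t)) :=
            (continuous_const.mul continuous_id).tendsto _
          rw [show ω k * ee t = ee θ from hke] at h2
          exact h2.mono_left nhdsWithin_le_nhds
        · have h3 : ∀ᶠ w in 𝓝[Dk] (ee t), w ∈ Dk := eventually_mem_nhdsWithin
          filter_upwards [h3] with w hw
          exact hωmem k w hw
      have h4 := ((hx θ hθ).comp h1).sub_const x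
      rw [sub_self] at h4
      exact h4
    have hnorm : Tendsto (fun w => ‖F k w‖ * M' ^ (N - 1)) (𝓝[Dk] (ee t)) (𝓝 0) := by
      have h5 := hlim.norm.mul_const (M' ^ (N - 1))
      simpa using h5
    refine squeeze_zero_norm' ?_ hnorm
    have h3 : ∀ᶠ w in 𝓝[Dk] (ee t), w ∈ Dk := eventually_mem_nhdsWithin
    filter_upwards [h3] with w hw
    rw [hg]
    simp only
    rw [← Finset.mul_prod_erase _ _ hk, norm_mul]
    refine mul_le_mul_of_nonneg_left ?_ (norm_nonneg _)
    rw [norm_prod]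
    calc ∏ i ∈ (Finset.range N).erase k, ‖F i w‖ ≤ ∏ _i ∈ (Finset.range N).erase k, M' :=
          Finset.prod_le_prod (fun i _ => norm_nonneg _) (fun i _ => hFM i w hw)
      _ = M' ^ (N - 1) := by
          rw [Finset.prod_const, Finset.card_erase_of_mem hk, Finset.card_range]
  have hg0 : ∀ w ∈ Dk, g w = 0 := by
    intro w hw
    by_contra hne
    have hpos : 0 < ‖g w‖ := norm_pos_iff.2 hne
    set ε : ℝ := ‖g w‖ / 2 with hε
    have hεp : 0 < ε := by positivity
    have hεc : (ε : ℂ) ≠ 0 := by exact_mod_cast hεp.ne'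
    have h6 := norm_le_one_of_boundary (Ω := Dk) Metric.isOpen_ball Metric.isBounded_ball
      (H := fun z => g z / ε) (hgd.div_const _) (by
        intro y hy e he
        have h7 := (hgb y hy).norm
        rw [norm_zero] at h7
        have h8 : ∀ᶠ z in 𝓝[Dk] y, ‖g z‖ < ε := h7.eventually (gt_mem_nhds hεp)
        filter_upwards [h8] with z hz
        rw [norm_div, Complex.norm_real, Real.norm_of_nonneg hεp.le, div_le_iff₀ hεp]
        nlinarith) w hw
    rw [norm_div, Complex.norm_real, Real.norm_of_nonneg hεp.le, div_le_iff₀ hεp] at h6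
    rw [hε] at h6
    linarith
  obtain ⟨k, -, hk⟩ := ConstBdry_prod (Finset.range N) (F := F) (fun i _ => hFd i) hg0
  intro w hw
  have hω0 : ω k ≠ 0 := by
    intro h
    have := hωn k
    rw [h, norm_zero] at this
    exact zero_ne_one this
  have hw2 : (ω k)⁻¹ * w ∈ Dk := by
    have hw' : ‖w‖ < 1 := by simpa using hw
    have : ‖(ω k)⁻¹ * w‖ < 1 := by rw [norm_mul, norm_inv, hωn, inv_one, one_mul]; exact hw'
    simpa using this
  have h9 := hk _ hw2
  rw [hF] at h9
  simp only at h9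
  rw [← mul_assoc, mul_inv_cancel₀ hω0, one_mul] at h9
  exact sub_eq_zero.1 h9

end Pool.Agent.TB
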