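/-
Project TB (MP_d9e400_an). Module LakesB.
Bounded components of the complement of closure U are never mapped into U.

PROOF. W = connectedComponentIn (closure U)ᶜ b, bounded. f '' W is open (f is open: not_eventually_const) and connected, and f '' W ⊆
(Vset U)ᶜ (mem_V_of_map, W ⊆ (Vset U)ᶜ). It does not meet frontier U (not_bdd_nhds with Y = f '' W, iterK). So f '' W is either
disjoint from closure U (what we want) or contained in U. Suppose f '' W ⊆ U. frontier W ⊆ frontier U is mapped into frontier U.
f '' (closure W) is compact and f '' (closure W) ∩ U = f '' W, so f '' W is closed and open in U: f '' W = U. So frontier U ⊆ closure U ⊆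
f '' closure W, and points of frontier U are not in f '' W = U, so frontier U ⊆ f '' frontier W. Let v = the common value of Φ on frontier W
(hconst). On frontier U: Φ (f y) = Bl c a (Φ y) (both sides are continuous on closure U — Bl is continuous on the closed disc — and agree on U
by hconj and hΦφ). So Φ is constant on frontier U. But it is not: every ζ on the circle has a cluster value y of φ at ζ
(φ bounded near ζ), y ∈ frontier U (mapCluster_frontier), and Φ y = ζ (limit of w = Φ(φ w) along the cluster filter). Contradiction.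
-/
import Mathlib
import Pool.Agent.TB.Defs
import Pool.Agent.TB.Extend
import Pool.Agent.TB.CircleA
import Pool.Agent.TB.CircleB
import Pool.Agent.TB.Top2
import Pool.Agent.TB.ConfA
import Pool.Agent.TB.Fibre
import Pool.Agent.TB.Lakes

set_option autoImplicit false

open Set Filter Topology Metric

namespace Pool.Agent.TB

private theorem LakesB_open {f : ℂ → ℂ} {U : Set ℂ} {z₀ : ℂ} (B : Basin f U z₀) {W : Set ℂ}
    (hW : IsOpen W) : IsOpen (f '' W) := by
  rw [isOpen_iff_mem_nhds]
  rintro _ ⟨w, hw, rfl⟩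
  have ha : AnalyticAt ℂ f w := B.hf.analyticAt w
  rcases ha.eventually_constant_or_nhds_le_map_nhds with h | h
  · exact absurd h (not_eventually_const B w)
  · exact h (image_mem_map (hW.mem_nhds hw))

theorem lake_image {f : ℂ → ℂ} {U : Set ℂ} {z₀ : ℂ} (B : Basin f U z₀) {φ : ℂ → ℂ}
    (hφ : Conf φ U) {d : ℕ} {c : ℂ} {a : Fin d → ℂ} (hd : BlData d c a)
    (hconj : ∀ w ∈ Dk, φ (Bl c a w) = f (φ w)) {Φ : ℂ → ℂ} (hΦ : ContinuousOn Φ (closure U))
    (hs : MapsTo Φ (frontier U) (Metric.sphere 0 1)) (hΦφ : ∀ w ∈ Dk, Φ (φ w) = w)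
    (hcl : ∀ y ∈ frontier U, MapClusterPt y (𝓝[Dk] (Φ y)) φ) {b : ℂ}
    (hb : b ∉ closure U) (hbd : Bornology.IsBounded (connectedComponentIn (closure U)ᶜ b))
    (hconst : ∀ y ∈ frontier (connectedComponentIn (closure U)ᶜ b),
      ∀ y' ∈ frontier (connectedComponentIn (closure U)ᶜ b), Φ y = Φ y') :
    Disjoint (f '' connectedComponentIn (closure U)ᶜ b) (closure U) := by
  obtain ⟨hW, hWU, hWV, hWf⟩ := Lakes_facts B hb hbd
  obtain ⟨W, hWdef⟩ : ∃ W, W = connectedComponentIn (closure U)ᶜ b := ⟨_, rfl⟩
  rw [← hWdef] at hW hWU hWV hWf hconst hbd ⊢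
  have hbW : b ∈ W := by rw [hWdef]; exact mem_connectedComponentIn hb
  have hWc : IsPreconnected W := by rw [hWdef]; exact isPreconnected_connectedComponentIn
  have hopen : IsOpen (f '' W) := LakesB_open B hW
  have hconn : IsPreconnected (f '' W) := hWc.image f B.hf.continuous.continuousOn
  obtain ⟨M, hM⟩ := iterK B
  have hK : f '' W ⊆ (Vset U)ᶜ := by
    rintro _ ⟨w, hw, rfl⟩ h
    exact hWV hw (mem_V_of_map B h)
  have hdis : Disjoint (f '' W) (frontier U) :=
    not_bdd_nhds B hopen (M := M) (fun n z hz => hM n z (hK hz))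
  have hcov : f '' W ⊆ U ∪ (closure U)ᶜ := by
    intro z hz
    by_cases h : z ∈ U
    · exact Or.inl h
    · refine Or.inr fun hc => ?_
      refine Set.disjoint_left.1 hdis hz ?_
      rw [B.isOpen.frontier_eq]
      exact ⟨hc, h⟩
  have hUU : Disjoint U (closure U)ᶜ := Set.disjoint_left.2 fun z hz h => h (subset_closure hz)
  rcases hconn.subset_or_subset B.isOpen isClosed_closure.isOpen_compl hUU hcov with h | h
  swap
  · exact Set.disjoint_left.2 fun z hz hc => h hz hc
  exfalso
  have hWcl : closure W = W ∪ frontier W := by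
    rw [closure_eq_self_union_frontier]
  have hcomp : IsCompact (f '' closure W) :=
    (Metric.isCompact_of_isClosed_isBounded isClosed_closure hbd.closure).image B.hf.continuous
  have hfr : ∀ w ∈ frontier W, f w ∈ frontier U := fun w hw => maps_frontier B (hWf hw)
  have hfU : ∀ z ∈ frontier U, z ∉ U := fun z hz => by
    rw [B.isOpen.frontier_eq] at hz
    exact hz.2
  have hUsub : U ⊆ f '' W := by
    have h1 : Disjoint (f '' W) (f '' closure W)ᶜ :=
      Set.disjoint_left.2 fun z hz h => h (image_mono subset_closure hz)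
    have h2 : U ⊆ f '' W ∪ (f '' closure W)ᶜ := by
      intro z hz
      by_cases hc : z ∈ f '' closure W
      · obtain ⟨w, hw, rfl⟩ := hc
        rw [hWcl] at hw
        rcases hw with hw | hw
        · exact Or.inl ⟨w, hw, rfl⟩
        · exact absurd hz (hfU _ (hfr w hw))
      · exact Or.inr hc
    rcases B.conn.isPreconnected.subset_or_subset hopen hcomp.isClosed.isOpen_compl h1 h2
      with h3 | h3
    · exact h3
    · exact absurd (image_mono subset_closure ⟨b, hbW, rfl⟩) (h3 (h ⟨b, hbW, rfl⟩))
  have hclU : closure U ⊆ f '' closure W :=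
    closure_minimal (hUsub.trans (image_mono subset_closure)) hcomp.isClosed
  have hfrU : ∀ y ∈ frontier U, ∃ w ∈ frontier W, f w = y := by
    intro y hy
    obtain ⟨w, hw, rfl⟩ := hclU (frontier_subset_closure hy)
    rw [hWcl] at hw
    rcases hw with hw | hw
    · exact absurd (h ⟨w, hw, rfl⟩) (hfU _ hy)
    · exact ⟨w, hw, rfl⟩
  obtain ⟨R, hR1, hR⟩ := Bl_analytic hd
  have hΦcl : MapsTo Φ (closure U) (Metric.ball 0 R) := by
    intro z hz
    rw [closure_eq_self_union_frontier] at hz
    rcases hz with hz | hz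
    · obtain ⟨w, hw, rfl⟩ := hφ.bij.surjOn hz
      rw [hΦφ w hw]
      exact Metric.ball_subset_ball hR1.le hw
    · have := hs hz
      rw [mem_sphere_zero_iff_norm] at this
      rw [mem_ball_zero_iff, this]
      exact hR1
  have hfun : EqOn (fun z => Φ (f z)) (fun z => Bl c a (Φ z)) (closure U) := by
    refine Set.EqOn.of_subset_closure (s := U) ?_ ?_ ?_ subset_closure subset_rfl
    · intro z hz
      obtain ⟨w, hw, rfl⟩ := hφ.bij.surjOn hz
      change Φ (f (φ w)) = Bl c a (Φ (φ w))
      rw [← hconj w hw, hΦφ w hw, hΦφ _ (Bl_mapsTo hd hw)]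
    · exact hΦ.comp B.hf.continuous.continuousOn (maps_closure B)
    · exact hR.continuousOn.comp hΦ hΦcl
  have hcst : ∀ y ∈ frontier U, ∀ y' ∈ frontier U, Φ y = Φ y' := by
    intro y hy y' hy'
    obtain ⟨w, hw, rfl⟩ := hfrU y hy
    obtain ⟨w', hw', rfl⟩ := hfrU y' hy'
    have e1 := hfun (frontier_subset_closure (hWf hw))
    have e2 := hfun (frontier_subset_closure (hWf hw'))
    simp only at e1 e2
    rw [e1, e2, hconst w hw w' hw']
  obtain ⟨y1, hy1, hy1'⟩ := (fibre_connected B hφ hΦ hΦφ hcl (ζ := 1) (by simp)).nonempty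
  obtain ⟨y2, hy2, hy2'⟩ := (fibre_connected B hφ hΦ hΦφ hcl (ζ := -1) (by simp)).nonempty
  have := hcst y1 hy1 y2 hy2
  rw [hy1', hy2'] at this
  norm_num at this

end Pool.Agent.TB
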