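/-
Project TB (MP_d9e400_an). Module LakesC.
The filled set minus the closure of U is forward invariant; the frontier of a bounded complementary
component lies in one impression and is not the whole frontier.
-/
import Mathlib
import Pool.Agent.TB.Defs
import Pool.Agent.TB.Lakes
import Pool.Agent.TB.LakesB
import Pool.Agent.TB.Fibre
import Pool.Agent.TB.Model
import Pool.Agent.TB.Riemann
import Pool.Agent.TB.Top3

set_option autoImplicit false

open Set Filter Topology Metric

namespace Pool.Agent.TB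

theorem lakes_main {f : ℂ → ℂ} {U : Set ℂ} {z₀ : ℂ} (B : Basin f U z₀) :
    ∃ φ : ℂ → ℂ, DifferentiableOn ℂ φ (Metric.ball 0 1) ∧ BijOn φ (Metric.ball 0 1) U ∧
      φ 0 = z₀ ∧
      ∀ b, b ∉ closure U → Bornology.IsBounded (connectedComponentIn (closure U)ᶜ b) →
        (∃ ζ : ℂ, ‖ζ‖ = 1 ∧ ∀ y ∈ frontier (connectedComponentIn (closure U)ᶜ b),
          ∀ ζ' : ℂ, ‖ζ'‖ = 1 → (MapClusterPt y (𝓝[Metric.ball 0 1] ζ') φ ↔ ζ' = ζ)) ∧
        frontier (connectedComponentIn (closure U)ᶜ b) ≠ frontier U ∧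
        (∀ n : ℕ, Disjoint (f^[n] '' connectedComponentIn (closure U)ᶜ b) (closure U)) := by
  obtain ⟨φ, hφ, h0⟩ := riemann (sc_U B) B.bdd B.mem
  obtain ⟨Φ, h1, h2, h3, h4, h5, h6⟩ := exists_extension B hφ h0
  obtain ⟨d, c, a, hd, hconj⟩ := exists_model B hφ h0
  refine ⟨φ, hφ.diff, hφ.bij, h0, fun b hb hbd => ?_⟩
  obtain ⟨hW, hWU, hWV, hWf⟩ := Lakes_facts B hb hbd
  have hl := lake_fibre B hφ h0 h1 h4 h5 h6 hb hbd
  -- the frontier of the component is nonempty
  have hne : (frontier (connectedComponentIn (closure U)ᶜ b)).Nonempty := by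
    rw [← frontier_compl]
    rw [frontier_compl, Set.nonempty_iff_ne_empty]
    intro he
    rcases isClopen_iff.1 (isClopen_iff_frontier_eq_empty.2 he) with h | h
    · have := mem_connectedComponentIn (F := (closure U)ᶜ) (x := b) hb
      rw [h] at this
      exact this
    · rw [h] at hbd
      exact NormedSpace.unbounded_univ ℝ ℂ hbd
  obtain ⟨y₀, hy₀⟩ := hne
  have huniq : ∀ y ∈ frontier U, ∀ ζ' : ℂ, ‖ζ'‖ = 1 →
      (MapClusterPt y (𝓝[Metric.ball 0 1] ζ') φ ↔ ζ' = Φ y) := by
    intro y hy ζ' hζ'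
    constructor
    · intro h
      exact boundary_value_unique B hφ h0 hζ' (by simpa using h4 hy) h (h6 y hy)
    · rintro rfl
      exact h6 y hy
  refine ⟨⟨Φ y₀, by simpa using h4 (hWf hy₀), fun y hy ζ' hζ' => ?_⟩, ?_, ?_⟩
  · rw [hl y₀ hy₀ y hy]
    exact huniq y (hWf hy) ζ' hζ'
  · intro he
    obtain ⟨y1, hy1, hy1'⟩ := (fibre_connected B hφ h1 h5 h6 (ζ := 1) (by simp)).nonempty
    obtain ⟨y2, hy2, hy2'⟩ := (fibre_connected B hφ h1 h5 h6 (ζ := -1) (by simp)).nonempty
    rw [← he] at hy1 hy2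
    have := hl y1 hy1 y2 hy2
    rw [hy1', hy2'] at this
    norm_num at this
  · have hstep : ∀ w, w ∉ closure U → w ∉ Vset U → f w ∉ closure U ∧ f w ∉ Vset U := by
      intro w hw hwV
      have hwb : Bornology.IsBounded (connectedComponentIn (closure U)ᶜ w) := by
        by_contra h
        exact hwV ⟨hw, h⟩
      refine ⟨fun h => ?_, fun h => hwV (mem_V_of_map B h)⟩
      have hlw := lake_fibre B hφ h0 h1 h4 h5 h6 hw hwb
      exact Set.disjoint_left.1 (lake_image B hφ hd hconj h1 h4 h5 h6 hw hwb hlw)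
        ⟨w, mem_connectedComponentIn hw, rfl⟩ h
    have hiter : ∀ n : ℕ, ∀ w, w ∉ closure U → w ∉ Vset U → f^[n] w ∉ closure U ∧
        f^[n] w ∉ Vset U := by
      intro n
      induction n with
      | zero => intro w h h'; exact ⟨h, h'⟩
      | succ n ih =>
        intro w h h'
        rw [Function.iterate_succ_apply]
        exact ih (f w) (hstep w h h').1 (hstep w h h').2
    intro n
    rw [Set.disjoint_left]
    rintro _ ⟨w, hw, rfl⟩ h
    exact (hiter n w (hWU hw) (hWV hw)).1 h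

end Pool.Agent.TB
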