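/-
Project TB (MP_d9e400_an). Module Decomp.
The frontier is the union of two proper subcontinua.

PROOF. F ζ := fibre over ζ, connected by hypothesis. A = {y ∈ frontier U | 0 ≤ (Φ y).re}, B = {y ∈ frontier U | (Φ y).re ≤ 0}.
They are compact; A ∪ B = frontier U; A ≠ frontier U since the fibre over -1 is nonempty. A is connected: it is the
preimage of the connected closed arc {‖ζ‖ = 1, 0 ≤ re ζ} under the map Φ : frontier U → circle, which is closed (compact
to Hausdorff), surjective with connected fibres (IsConnected/IsPreconnected.preimage_of_isClosedMap or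
preimage_of_isOpenMap style lemma for monotone closed maps; or by hand: a separation of A by closed sets induces one
of the arc).
-/
import Mathlib
import Pool.Agent.TB.Defs
import Pool.Agent.TB.Top1

set_option autoImplicit false

open Set Filter Topology Metric

namespace Pool.Agent.TB

private theorem Decomp_arc {f : ℂ → ℂ} {U : Set ℂ} {z₀ : ℂ} (B : Basin f U z₀) {Φ : ℂ → ℂ}
    (hΦ : ContinuousOn Φ (closure U)) (hs : MapsTo Φ (frontier U) (Metric.sphere 0 1))
    (hc : ∀ ζ ∈ Metric.sphere (0 : ℂ) 1, IsConnected {y | y ∈ frontier U ∧ Φ y = ζ})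
    {R : Set ℂ} (hR : IsClosed R) (hRs : R ⊆ Metric.sphere 0 1) (hRc : IsConnected R) :
    IsCompact {y | y ∈ frontier U ∧ Φ y ∈ R} ∧ IsConnected {y | y ∈ frontier U ∧ Φ y ∈ R} := by
  have hΦ' : ContinuousOn Φ (frontier U) := hΦ.mono frontier_subset_closure
  have hcl : IsClosed {y | y ∈ frontier U ∧ Φ y ∈ R} := hΦ'.preimage_isClosed_of_isClosed isClosed_frontier hR
  have hcomp : IsCompact (frontier U) :=
    Metric.isCompact_of_isClosed_isBounded isClosed_frontier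
      (B.bdd.closure.subset frontier_subset_closure)
  have hA : IsCompact {y | y ∈ frontier U ∧ Φ y ∈ R} :=
    hcomp.of_isClosed_subset hcl (fun y hy => hy.1)
  refine ⟨hA, ?_, ?_⟩
  · obtain ⟨ζ, hζ⟩ := hRc.nonempty
    obtain ⟨y, hy⟩ := (hc ζ (hRs hζ)).nonempty
    exact ⟨y, hy.1, by rw [hy.2]; exact hζ⟩
  · rw [isPreconnected_closed_iff]
    intro t t' ht ht' hsub h1 h2
    have hAt : IsCompact ({y | y ∈ frontier U ∧ Φ y ∈ R} ∩ t) := hA.inter_right ht
    have hAt' : IsCompact ({y | y ∈ frontier U ∧ Φ y ∈ R} ∩ t') := hA.inter_right ht'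
    have hI : IsClosed (Φ '' ({y | y ∈ frontier U ∧ Φ y ∈ R} ∩ t)) :=
      (hAt.image_of_continuousOn (hΦ'.mono (fun y hy => hy.1.1))).isClosed
    have hI' : IsClosed (Φ '' ({y | y ∈ frontier U ∧ Φ y ∈ R} ∩ t')) :=
      (hAt'.image_of_continuousOn (hΦ'.mono (fun y hy => hy.1.1))).isClosed
    have hcov : R ⊆ Φ '' ({y | y ∈ frontier U ∧ Φ y ∈ R} ∩ t) ∪
        Φ '' ({y | y ∈ frontier U ∧ Φ y ∈ R} ∩ t') := by
      intro ζ hζ
      obtain ⟨y, hy⟩ := (hc ζ (hRs hζ)).nonempty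
      have hyA : y ∈ {y | y ∈ frontier U ∧ Φ y ∈ R} := ⟨hy.1, by rw [hy.2]; exact hζ⟩
      rcases hsub hyA with h | h
      · exact Or.inl ⟨y, ⟨hyA, h⟩, hy.2⟩
      · exact Or.inr ⟨y, ⟨hyA, h⟩, hy.2⟩
    have hRp := isPreconnected_closed_iff.1 hRc.isPreconnected _ _ hI hI' hcov
    obtain ⟨y1, hy1, hy1t⟩ := h1
    obtain ⟨y2, hy2, hy2t⟩ := h2
    obtain ⟨ζ, hζR, ⟨a, ha, haζ⟩, ⟨b, hb, hbζ⟩⟩ :=
      hRp ⟨Φ y1, hy1.2, y1, ⟨hy1, hy1t⟩, rfl⟩ ⟨Φ y2, hy2.2, y2, ⟨hy2, hy2t⟩, rfl⟩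
    have hF := isPreconnected_closed_iff.1 (hc ζ (hRs hζR)).isPreconnected t t' ht ht' (by
      intro y hy
      exact hsub ⟨hy.1, by rw [hy.2]; exact hζR⟩)
    obtain ⟨y, hy, hyt⟩ := hF ⟨a, ⟨ha.1.1, haζ⟩, ha.2⟩ ⟨b, ⟨hb.1.1, hbζ⟩, hb.2⟩
    exact ⟨y, ⟨hy.1, by rw [hy.2]; exact hζR⟩, hyt⟩

theorem decomposable {f : ℂ → ℂ} {U : Set ℂ} {z₀ : ℂ} (B : Basin f U z₀) {Φ : ℂ → ℂ}
    (hΦ : ContinuousOn Φ (closure U)) (hs : MapsTo Φ (frontier U) (Metric.sphere 0 1))
    (hc : ∀ ζ ∈ Metric.sphere (0 : ℂ) 1, IsConnected {y | y ∈ frontier U ∧ Φ y = ζ}) :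
    ∃ A B : Set ℂ, IsCompact A ∧ IsConnected A ∧ IsCompact B ∧ IsConnected B ∧
      A ∪ B = frontier U ∧ A ≠ frontier U ∧ B ≠ frontier U := by
  have harc : ∀ s : ℝ, |s| = 1 → IsConnected {ζ : ℂ | ζ ∈ Metric.sphere (0 : ℂ) 1 ∧ 0 ≤ s * ζ.re} := by
    intro s hs1
    have hEq : {ζ : ℂ | ζ ∈ Metric.sphere (0 : ℂ) 1 ∧ 0 ≤ s * ζ.re} =
        (fun t : ℝ => (s : ℂ) * Complex.exp (t * Complex.I)) '' Icc (-(Real.pi / 2)) (Real.pi / 2) := by
      ext ζ
      simp only [mem_setOf_eq, mem_sphere_iff_norm, sub_zero, mem_image, mem_Icc]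
      have hss : s * s = 1 := by
        have := abs_mul_abs_self s
        rw [hs1] at this; linarith
      constructor
      · rintro ⟨h1, h2⟩
        have hn : ‖(s : ℂ) * ζ‖ = 1 := by
          rw [norm_mul, h1, Complex.norm_real, Real.norm_eq_abs, hs1, mul_one]
        have hre : 0 ≤ ((s : ℂ) * ζ).re := by simpa using h2
        refine ⟨Complex.arg ((s : ℂ) * ζ), ?_, ?_⟩
        · have := Complex.abs_arg_le_pi_div_two_iff.2 hre
          exact abs_le.1 this
        · have h3 := Complex.norm_mul_exp_arg_mul_I ((s : ℂ) * ζ)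
          rw [hn] at h3
          rw [Complex.ofReal_one, one_mul] at h3
          rw [h3, ← mul_assoc]
          have : (s : ℂ) * s = 1 := by exact_mod_cast hss
          rw [this, one_mul]
      · rintro ⟨t, ht, rfl⟩
        refine ⟨?_, ?_⟩
        · rw [norm_mul, Complex.norm_exp_ofReal_mul_I, Complex.norm_real, Real.norm_eq_abs, hs1,
            mul_one]
        · have h4 : ((s : ℂ) * Complex.exp (t * Complex.I)).re = s * Real.cos t := by
            rw [Complex.re_ofReal_mul, Complex.exp_ofReal_mul_I_re]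
          rw [h4, ← mul_assoc, hss, one_mul]
          exact Real.cos_nonneg_of_mem_Icc ht
    rw [hEq]
    refine IsConnected.image (isConnected_Icc (by linarith [Real.pi_pos])) _ ?_
    fun_prop
  have hcl : ∀ s : ℝ, IsClosed {ζ : ℂ | ζ ∈ Metric.sphere (0 : ℂ) 1 ∧ 0 ≤ s * ζ.re} := by
    intro s
    refine Metric.isClosed_sphere.inter ?_
    exact isClosed_le continuous_const (continuous_const.mul Complex.continuous_re)
  obtain ⟨a1, a2⟩ := Decomp_arc B hΦ hs hc (hcl 1) (fun ζ hζ => hζ.1) (harc 1 (by simp))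
  obtain ⟨b1, b2⟩ := Decomp_arc B hΦ hs hc (hcl (-1)) (fun ζ hζ => hζ.1) (harc (-1) (by simp))
  refine ⟨_, _, a1, a2, b1, b2, ?_, ?_, ?_⟩
  · ext y
    simp only [mem_union, mem_setOf_eq]
    constructor
    · rintro (h | h)
      · exact h.1
      · exact h.1
    · intro hy
      have h0 := hs hy
      rcases le_total 0 (Φ y).re with h | h
      · exact Or.inl ⟨hy, h0, by simpa using h⟩
      · exact Or.inr ⟨hy, h0, by simpa using h⟩
  · intro h
    obtain ⟨y, hy, hy1⟩ := (hc (-1) (by simp)).nonempty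
    rw [← h] at hy
    have := hy.2.2
    rw [hy1] at this
    norm_num at this
  · intro h
    obtain ⟨y, hy, hy1⟩ := (hc 1 (by simp)).nonempty
    rw [← h] at hy
    have := hy.2.2
    rw [hy1] at this
    norm_num at this

end Pool.Agent.TB
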