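/-
Project TB (MP_d9e400_an). Module LenA.
Short vertical segments.

PROOF. h is injective holomorphic on strip, so ∫∫_{strip} ‖h'‖² = area h(strip) < ∞ (MeasureTheory.lintegral_abs_det_fderiv_eq_addHaar_image, the
determinant of multiplication by h' as a real linear map is ‖h'‖²). Tonelli: J(τ) = ∫⁻_{0<y<π} ‖h'(τ+iy)‖² dy has
∫⁻ J(τ) dτ < ∞ over ℝ, so over (-∞,T) it cannot be ≥ ε²/(4π): the set {τ < T | J τ < ε²/(4π)} is nonempty (otherwise the integral
is infinite). For such τ, g = ‖h'(τ+iy)‖ satisfies g ≤ a/2 + g²/(2a) with a = ε/π, so ∫ g ≤ ε/2 + ε/8 < ε.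
-/
import Mathlib
import Pool.Agent.TB.Defs
import Pool.Agent.TB.StripA

set_option autoImplicit false

open Set Filter Topology Metric

namespace Pool.Agent.TB

theorem LenA_det (a : ℂ) :
    ((ContinuousLinearMap.toSpanSingleton ℂ a : ℂ →L[ℂ] ℂ).restrictScalars ℝ).det
      = Complex.normSq a := by
  have h1 : ((ContinuousLinearMap.toSpanSingleton ℂ a : ℂ →L[ℂ] ℂ).restrictScalars ℝ).det
      = LinearMap.det (((ContinuousLinearMap.toSpanSingleton ℂ a : ℂ →L[ℂ] ℂ) :
        ℂ →ₗ[ℂ] ℂ).restrictScalars ℝ) := rfl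
  rw [h1, LinearMap.det_restrictScalars, Algebra.norm_complex_apply, LinearMap.det_ring]
  simp

open MeasureTheory in
theorem LenA_area {h : ℂ → ℂ} (hd : DifferentiableOn ℂ h strip) (hi : InjOn h strip)
    (hb : Bornology.IsBounded (h '' strip)) :
    ∫⁻ u in strip, ENNReal.ofReal (Complex.normSq (deriv h u)) < ⊤ := by
  have hms : MeasurableSet strip := isOpen_strip.measurableSet
  have hf' : ∀ x ∈ strip, HasFDerivWithinAt h
      ((ContinuousLinearMap.toSpanSingleton ℂ (deriv h x) : ℂ →L[ℂ] ℂ).restrictScalars ℝ)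
      strip x := by
    intro x hx
    have h1 : HasDerivAt h (deriv h x) x :=
      (hd.differentiableAt (isOpen_strip.mem_nhds hx)).hasDerivAt
    exact (h1.hasFDerivAt.restrictScalars ℝ).hasFDerivWithinAt
  have h2 := lintegral_abs_det_fderiv_eq_addHaar_image volume hms hf' hi
  simp only [LenA_det, abs_of_nonneg (Complex.normSq_nonneg _)] at h2
  rw [h2]
  exact hb.measure_lt_top

/-- area argument: there are vertical segments arbitrarily far to the left whose images are short -/
theorem exists_short {h : ℂ → ℂ} (hd : DifferentiableOn ℂ h strip) (hi : InjOn h strip)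
    (hb : Bornology.IsBounded (h '' strip)) {ε : ℝ} (hε : 0 < ε) (T : ℝ) :
    ∃ τ < T, MeasureTheory.IntegrableOn (fun y : ℝ => ‖deriv h (τ + y * Complex.I)‖)
        (Ioo 0 Real.pi) ∧
      ∫ y in Ioo (0 : ℝ) Real.pi, ‖deriv h (τ + y * Complex.I)‖ < ε := by
  have hpi := Real.pi_pos
  have hA := LenA_area hd hi hb
  have hms : MeasurableSet strip := isOpen_strip.measurableSet
  set F : ℂ → ENNReal := strip.indicator fun u => ENNReal.ofReal (Complex.normSq (deriv h u)) with hF
  have hFm : Measurable F := by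
    apply Measurable.indicator _ hms
    exact ENNReal.measurable_ofReal.comp
      (Complex.continuous_normSq.measurable.comp (measurable_deriv h))
  rw [← MeasureTheory.lintegral_indicator hms, ← hF] at hA
  rw [← (Complex.volume_preserving_equiv_real_prod.symm).lintegral_comp_emb
    Complex.measurableEquivRealProd.symm.measurableEmbedding, MeasureTheory.Measure.volume_eq_prod,
    MeasureTheory.lintegral_prod (fun p => F (Complex.measurableEquivRealProd.symm p))
      (hFm.comp Complex.measurableEquivRealProd.symm.measurable).aemeasurable] at hA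
  set J : ℝ → ENNReal := fun τ => ∫⁻ y : ℝ, F (Complex.measurableEquivRealProd.symm (τ, y)) with hJ
  have hA' : ∫⁻ τ, J τ < ⊤ := hA
  -- formula for J
  have hJe : ∀ τ : ℝ, J τ = ∫⁻ y in Ioo (0 : ℝ) Real.pi,
      ENNReal.ofReal (Complex.normSq (deriv h (τ + y * Complex.I))) := by
    intro τ
    rw [hJ, ← MeasureTheory.lintegral_indicator measurableSet_Ioo]
    apply MeasureTheory.lintegral_congr
    intro y
    have e1 : Complex.measurableEquivRealProd.symm (τ, y) = (τ : ℂ) + y * Complex.I := by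
      rw [Complex.measurableEquivRealProd_symm_apply]
      apply Complex.ext <;> simp
    rw [e1, hF]
    by_cases hy : y ∈ Ioo (0 : ℝ) Real.pi
    · rw [indicator_of_mem hy, indicator_of_mem]
      simpa [strip] using hy
    · rw [indicator_of_notMem hy, indicator_of_notMem]
      simpa [strip] using hy
  set c : ℝ := ε ^ 2 / (4 * Real.pi) with hc
  have hcp : 0 < c := by positivity
  obtain ⟨τ, hτT, hτ⟩ : ∃ τ < T, J τ < ENNReal.ofReal c := by
    by_contra hcon
    push Not at hcon
    have h1 : ∫⁻ τ in Iio T, ENNReal.ofReal c ≤ ∫⁻ τ, J τ :=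
      (MeasureTheory.setLIntegral_mono' measurableSet_Iio fun τ hτ => hcon τ hτ).trans
        (MeasureTheory.setLIntegral_le_lintegral _ _)
    rw [MeasureTheory.setLIntegral_const, Real.volume_Iio, ENNReal.mul_top (by simpa using hcp)] at h1
    exact absurd hA' (not_lt.mpr h1)
  refine ⟨τ, hτT, ?_⟩
  rw [hJe τ] at hτ
  set g : ℝ → ℝ := fun y => ‖deriv h (τ + y * Complex.I)‖ with hg
  have hgm : Measurable g := by
    have h1 : Measurable fun y : ℝ => (τ : ℂ) + y * Complex.I := by fun_prop
    exact ((measurable_deriv h).comp h1).norm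
  have hg2 : ∀ y : ℝ, Complex.normSq (deriv h (τ + y * Complex.I)) = g y ^ 2 := fun y => by
    rw [hg, Complex.normSq_eq_norm_sq]
  simp only [hg2] at hτ
  have hi2 : MeasureTheory.IntegrableOn (fun y => g y ^ 2) (Ioo 0 Real.pi) := by
    refine ⟨(hgm.pow_const 2).aestronglyMeasurable, ?_⟩
    rw [MeasureTheory.hasFiniteIntegral_iff_ofReal (Eventually.of_forall fun y => sq_nonneg _)]
    exact hτ.trans ENNReal.ofReal_lt_top
  set a : ℝ := ε / Real.pi with ha
  have hap : 0 < a := by positivity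
  have hle : ∀ y, g y ≤ a / 2 + g y ^ 2 / (2 * a) := by
    intro y
    have h1 : a / 2 + g y ^ 2 / (2 * a) - g y = (g y - a) ^ 2 / (2 * a) := by
      field_simp
      ring
    have h2 : 0 ≤ (g y - a) ^ 2 / (2 * a) := by positivity
    linarith
  have hi3 : MeasureTheory.IntegrableOn (fun y => a / 2 + g y ^ 2 / (2 * a)) (Ioo 0 Real.pi) := by
    refine MeasureTheory.Integrable.add ?_ (hi2.div_const _)
    exact MeasureTheory.integrableOn_const (by simp) (by simp)
  have hi1 : MeasureTheory.IntegrableOn g (Ioo 0 Real.pi) := by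
    refine MeasureTheory.Integrable.mono' hi3 hgm.aestronglyMeasurable (Eventually.of_forall ?_)
    intro y
    rw [Real.norm_of_nonneg (norm_nonneg _)]
    exact hle y
  refine ⟨hi1, ?_⟩
  have hI2 : ∫ y in Ioo (0 : ℝ) Real.pi, g y ^ 2 < c := by
    rw [MeasureTheory.integral_eq_lintegral_of_nonneg_ae (Eventually.of_forall fun y => sq_nonneg _)
      (hgm.pow_const 2).aestronglyMeasurable]
    exact (ENNReal.lt_ofReal_iff_toReal_lt (hτ.trans ENNReal.ofReal_lt_top).ne).mp hτ
  have h5 : ∫ y in Ioo (0 : ℝ) Real.pi, g y ≤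
      ∫ y in Ioo (0 : ℝ) Real.pi, (a / 2 + g y ^ 2 / (2 * a)) :=
    MeasureTheory.setIntegral_mono hi1 hi3 hle
  have h6 : ∫ y in Ioo (0 : ℝ) Real.pi, (a / 2 + g y ^ 2 / (2 * a)) =
      Real.pi * (a / 2) + (∫ y in Ioo (0 : ℝ) Real.pi, g y ^ 2) / (2 * a) := by
    have hc1 : MeasureTheory.IntegrableOn (fun _ : ℝ => a / 2) (Ioo 0 Real.pi) :=
      MeasureTheory.integrableOn_const (by simp) (by simp)
    have h61 : ∫ y in Ioo (0 : ℝ) Real.pi, (a / 2) = Real.pi * (a / 2) := by
      simp [MeasureTheory.integral_const, Real.volume_Ioo, hpi.le, MeasureTheory.measureReal_def]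
    have h62 : ∫ y in Ioo (0 : ℝ) Real.pi, g y ^ 2 / (2 * a) =
        (∫ y in Ioo (0 : ℝ) Real.pi, g y ^ 2) / (2 * a) := MeasureTheory.integral_div _ _
    rw [MeasureTheory.integral_add hc1 (hi2.div_const _), h61, h62]
  have h7 : (∫ y in Ioo (0 : ℝ) Real.pi, g y ^ 2) / (2 * a) ≤ c / (2 * a) :=
    div_le_div_of_nonneg_right hI2.le (by positivity)
  have h8 : Real.pi * (a / 2) = ε / 2 := by rw [ha]; field_simp
  have h9 : c / (2 * a) = ε / 8 := by rw [hc, ha]; field_simp; ring
  calc ∫ y in Ioo (0 : ℝ) Real.pi, g y ≤ ε / 2 + ε / 8 := by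
        rw [← h8, ← h9]; linarith
    _ < ε := by linarith

end Pool.Agent.TB
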