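/-
Project TB (MP_d9e400_an). Module LengthArea.
Small crosscuts (length-area principle).

PROOF. h = φ ∘ ES ζ on strip (h '' strip ⊆ U bounded). exists_short with ε/2 (< ε): τ < T. u(y) = h(τ+iy) on (0,π) has derivative i h'(τ+iy),
integrable on (0,π): for 0 < y < y' < π: ‖u y - u y'‖ ≤ ∫_{y}^{y'} ‖h'‖ (intervalIntegral FTC on [y,y']), which tends to 0 as
y, y' → 0 (or → π) (Cauchy filter, e.g. intervalIntegral continuity of the primitive of an integrable function), so the limits a, b exist, and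
‖u y - a‖ ≤ ∫_0^π ‖h'‖ < ε.
-/
import Mathlib
import Pool.Agent.TB.Defs
import Pool.Agent.TB.LenA

set_option autoImplicit false

open Set Filter Topology Metric

namespace Pool.Agent.TB

theorem small_crosscuts {φ : ℂ → ℂ} {U : Set ℂ} (hφ : Conf φ U) (hb : Bornology.IsBounded U)
    {ζ : ℂ} (hζ : ‖ζ‖ = 1) {ε : ℝ} (hε : 0 < ε) (T : ℝ) :
    ∃ τ < T, ∃ a b : ℂ,
      Tendsto (fun y : ℝ => φ (ES ζ (τ + y * Complex.I))) (𝓝[>] (0 : ℝ)) (𝓝 a) ∧
      Tendsto (fun y : ℝ => φ (ES ζ (τ + y * Complex.I))) (𝓝[<] Real.pi) (𝓝 b) ∧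
      ∀ y ∈ Ioo (0 : ℝ) Real.pi, ‖φ (ES ζ (τ + y * Complex.I)) - a‖ < ε := by
  set h : ℂ → ℂ := fun u => φ (ES ζ u) with hh
  have hbij := ES_bijOn hζ
  have hd : DifferentiableOn ℂ h strip := hφ.diff.comp ES_diff hbij.mapsTo
  have hi : InjOn h strip := by
    intro x hx y hy hxy
    exact hbij.injOn hx hy (hφ.bij.injOn (hbij.mapsTo hx) (hbij.mapsTo hy) hxy)
  have hbd : Bornology.IsBounded (h '' strip) := hb.subset (by
    rintro _ ⟨x, hx, rfl⟩
    exact hφ.bij.mapsTo (hbij.mapsTo hx))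
  obtain ⟨τ, hτ, hint, hlt⟩ := exists_short hd hi hbd hε T
  have hmem : ∀ y ∈ Ioo (0 : ℝ) Real.pi, ((τ : ℂ) + y * Complex.I) ∈ strip := by
    intro y hy
    have e : ((τ : ℂ) + y * Complex.I).im = y := by simp
    show 0 < _ ∧ _ < _
    rw [e]
    exact hy
  set g : ℝ → ℂ := fun y => deriv h (τ + y * Complex.I) * Complex.I with hg
  have hpath : ∀ y : ℝ, HasDerivAt (fun y : ℝ => ((τ : ℂ) + y * Complex.I)) Complex.I y := by
    intro y
    have h1 := ((Complex.ofRealCLM.hasDerivAt (x := y)).mul_const Complex.I).const_add (τ : ℂ)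
    simpa using h1
  have hder : ∀ y ∈ Ioo (0 : ℝ) Real.pi,
      HasDerivAt (fun y : ℝ => h (τ + y * Complex.I)) (g y) y := by
    intro y hy
    have h1 : HasDerivAt h (deriv h (τ + y * Complex.I)) (τ + y * Complex.I) :=
      ((hd _ (hmem y hy)).differentiableAt (isOpen_strip.mem_nhds (hmem y hy))).hasDerivAt
    exact HasDerivAt.comp (h₂ := h) (h := fun y : ℝ => (τ : ℂ) + y * Complex.I) y h1 (hpath y)
  have hgc : ContinuousOn g (Ioo (0 : ℝ) Real.pi) := by
    refine ContinuousOn.mul ?_ continuousOn_const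
    refine (hd.deriv isOpen_strip).continuousOn.comp ?_ hmem
    exact (continuous_iff_continuousAt.mpr fun y => (hpath y).continuousAt).continuousOn
  have hnorm : ∀ y, ‖g y‖ = ‖deriv h (τ + y * Complex.I)‖ := by
    intro y
    rw [hg]
    simp only [norm_mul, Complex.norm_I, mul_one]
  have hgi : MeasureTheory.IntegrableOn g (Ioo (0 : ℝ) Real.pi) := by
    have hm : MeasureTheory.AEStronglyMeasurable g
        (MeasureTheory.volume.restrict (Ioo (0 : ℝ) Real.pi)) :=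
      hgc.aestronglyMeasurable measurableSet_Ioo
    refine (MeasureTheory.integrable_norm_iff hm).mp ?_
    simp only [hnorm]
    exact hint
  have hpi := Real.pi_pos
  have hgii : IntervalIntegrable g MeasureTheory.volume 0 Real.pi :=
    (intervalIntegrable_iff_integrableOn_Ioo_of_le hpi.le).mpr hgi
  have hc : Real.pi / 2 ∈ Ioo (0 : ℝ) Real.pi := ⟨by linarith, by linarith⟩
  have hsub : ∀ {p q : ℝ}, p ∈ Icc (0 : ℝ) Real.pi → q ∈ Icc (0 : ℝ) Real.pi →
      IntervalIntegrable g MeasureTheory.volume p q := by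
    intro p q hp hq
    refine hgii.mono_set ?_
    rw [uIcc_of_le hpi.le]
    exact uIcc_subset_Icc hp hq
  have hprim : ContinuousOn (fun y => ∫ t in (Real.pi / 2)..y, g t) (Icc (0 : ℝ) Real.pi) := by
    have h1 := intervalIntegral.continuousOn_primitive_interval' hgii
      (a := Real.pi / 2) (by rw [uIcc_of_le hpi.le]; exact Ioo_subset_Icc_self hc)
    rwa [uIcc_of_le hpi.le] at h1
  have hftc : ∀ y ∈ Ioo (0 : ℝ) Real.pi, h (τ + y * Complex.I) =
      h (τ + ((Real.pi / 2 : ℝ) : ℂ) * Complex.I) + ∫ t in (Real.pi / 2)..y, g t := by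
    intro y hy
    have h1 := intervalIntegral.integral_eq_sub_of_hasDerivAt
      (f := fun y : ℝ => h (τ + y * Complex.I)) (f' := g) (a := Real.pi / 2) (b := y)
      (fun x hx => hder x ((ordConnected_Ioo.uIcc_subset hc hy) hx))
      (hsub (Ioo_subset_Icc_self hc) (Ioo_subset_Icc_self hy))
    rw [h1]
    ring
  refine ⟨τ, hτ, h (τ + ((Real.pi / 2 : ℝ) : ℂ) * Complex.I) + ∫ t in (Real.pi / 2)..0, g t,
    h (τ + ((Real.pi / 2 : ℝ) : ℂ) * Complex.I) + ∫ t in (Real.pi / 2)..Real.pi, g t, ?_, ?_, ?_⟩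
  · have h1 : Tendsto (fun y => ∫ t in (Real.pi / 2)..y, g t) (𝓝[>] (0 : ℝ))
        (𝓝 (∫ t in (Real.pi / 2)..0, g t)) := by
      refine (hprim 0 ⟨le_rfl, hpi.le⟩).mono_left ?_
      refine nhdsWithin_le_of_mem ?_
      exact mem_of_superset (Ioo_mem_nhdsGT hpi) Ioo_subset_Icc_self
    refine (h1.const_add (h (τ + ((Real.pi / 2 : ℝ) : ℂ) * Complex.I))).congr' ?_
    filter_upwards [Ioo_mem_nhdsGT hpi] with y hy
    exact (hftc y hy).symm
  · have h1 : Tendsto (fun y => ∫ t in (Real.pi / 2)..y, g t) (𝓝[<] Real.pi)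
        (𝓝 (∫ t in (Real.pi / 2)..Real.pi, g t)) := by
      refine (hprim Real.pi ⟨hpi.le, le_rfl⟩).mono_left ?_
      refine nhdsWithin_le_of_mem ?_
      exact mem_of_superset (Ioo_mem_nhdsLT hpi) Ioo_subset_Icc_self
    refine (h1.const_add (h (τ + ((Real.pi / 2 : ℝ) : ℂ) * Complex.I))).congr' ?_
    filter_upwards [Ioo_mem_nhdsLT hpi] with y hy
    exact (hftc y hy).symm
  · intro y hy
    have e1 : φ (ES ζ (τ + y * Complex.I)) = h (τ + y * Complex.I) := rfl
    rw [e1, hftc y hy, add_sub_add_left_eq_sub,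
      intervalIntegral.integral_interval_sub_left
        (hsub (Ioo_subset_Icc_self hc) (Ioo_subset_Icc_self hy))
        (hsub (Ioo_subset_Icc_self hc) ⟨le_rfl, hpi.le⟩)]
    have h2 : ‖∫ t in (0 : ℝ)..y, g t‖ ≤ ∫ t in (0 : ℝ)..y, ‖g t‖ :=
      intervalIntegral.norm_integral_le_integral_norm hy.1.le
    have h3 : ∫ t in (0 : ℝ)..y, ‖g t‖ ≤ ∫ t in (0 : ℝ)..Real.pi, ‖g t‖ :=
      intervalIntegral.integral_mono_interval le_rfl hy.1.le hy.2.le
        (Eventually.of_forall fun t => norm_nonneg _) hgii.norm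
    have h4 : ∫ t in (0 : ℝ)..Real.pi, ‖g t‖ =
        ∫ t in Ioo (0 : ℝ) Real.pi, ‖deriv h (τ + t * Complex.I)‖ := by
      rw [intervalIntegral.integral_of_le hpi.le, MeasureTheory.integral_Ioc_eq_integral_Ioo]
      simp only [hnorm]
    linarith

end Pool.Agent.TB
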