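/-
Project TB (MP_d9e400_an). Module Peano.
Images of paths are uniformly locally path connected.

PROOF. X = β '' Icc 0 1 with the subspace topology is compact; the map [0,1] → X is a closed continuous surjection, hence a quotient map;
Topology.IsQuotientMap.locallyPathConnectedSpace: X is locally path connected. For x ∈ X there is δ_x > 0 with
X ∩ ball x δ_x contained in the path component of x in X ∩ ball x (ε/2) (neighbourhoods basis of path connected sets).
Lebesgue number lemma (lebesgue_number_lemma_of_metric for the compact X and the balls): δ > 0 such that x', y' ∈ X, ‖x'-y'‖ < δ are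
both in some ball x δ_x, so they are joined in X ∩ ball x (ε/2), on that path ‖γ t - x'‖ < ε.
-/
import Mathlib
import Pool.Agent.TB.Defs

set_option autoImplicit false

open Set Filter Topology Metric

namespace Pool.Agent.TB

theorem peano {β : ℝ → ℂ} (hβ : ContinuousOn β (Icc 0 1)) {ε : ℝ} (hε : 0 < ε) :
    ∃ δ : ℝ, 0 < δ ∧ ∀ x ∈ β '' Icc 0 1, ∀ y ∈ β '' Icc 0 1, ‖x - y‖ < δ →
      ∃ γ : ℝ → ℂ, ContinuousOn γ (Icc 0 1) ∧ γ 0 = x ∧ γ 1 = y ∧
        ∀ t ∈ Icc (0 : ℝ) 1, γ t ∈ β '' Icc 0 1 ∧ ‖γ t - x‖ ≤ ε := by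
  have hXc : IsCompact (β '' Icc 0 1) := isCompact_Icc.image_of_continuousOn hβ
  have : CompactSpace (β '' Icc 0 1) := isCompact_iff_compactSpace.1 hXc
  let g : Icc (0 : ℝ) 1 → (β '' Icc 0 1 : Set ℂ) := fun t => ⟨β t, mem_image_of_mem β t.2⟩
  have hgc : Continuous g := by
    refine Continuous.subtype_mk ?_ _
    exact continuousOn_iff_continuous_domRestrict.1 hβ
  have hgs : Function.Surjective g := by
    rintro ⟨x, t, ht, rfl⟩
    exact ⟨⟨t, ht⟩, rfl⟩
  have hgq : IsQuotientMap g := (hgc.isClosedMap).isQuotientMap hgc hgs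
  have hproj : IsQuotientMap (projIcc (0 : ℝ) 1 zero_le_one) := isQuotientMap_projIcc
  have : LocallyPathConnectedSpace (β '' Icc 0 1 : Set ℂ) :=
    (hgq.comp hproj).locallyPathConnectedSpace
  -- small path connected neighbourhoods
  have hV : ∀ x : (β '' Icc 0 1 : Set ℂ), ∃ V : Set (β '' Icc 0 1 : Set ℂ), V ∈ 𝓝 x ∧
      IsPathConnected V ∧ V ⊆ ball x (ε / 2) := by
    intro x
    obtain ⟨V, ⟨h1, h2⟩, h3⟩ := (LocallyPathConnectedSpace.path_connected_basis x).mem_iff.1
      (ball_mem_nhds x (half_pos hε))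
    exact ⟨V, h1, h2, h3⟩
  choose V hV1 hV2 hV3 using hV
  obtain ⟨δ, hδ, hL⟩ := lebesgue_number_lemma_of_metric
    (isCompact_univ (X := (β '' Icc 0 1 : Set ℂ))) (c := fun x => interior (V x))
    (fun _ => isOpen_interior)
    (fun x _ => mem_iUnion.2 ⟨x, mem_interior_iff_mem_nhds.2 (hV1 x)⟩)
  refine ⟨δ, hδ, fun x hx y hy hxy => ?_⟩
  obtain ⟨i, hi⟩ := hL ⟨x, hx⟩ (mem_univ _)
  have hxV : (⟨x, hx⟩ : (β '' Icc 0 1 : Set ℂ)) ∈ V i :=
    interior_subset (hi (mem_ball_self hδ))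
  have hyV : (⟨y, hy⟩ : (β '' Icc 0 1 : Set ℂ)) ∈ V i := by
    refine interior_subset (hi ?_)
    rw [mem_ball, Subtype.dist_eq, dist_comm, dist_eq_norm]
    exact hxy
  have hJ : JoinedIn (V i) ⟨x, hx⟩ ⟨y, hy⟩ := (hV2 i).joinedIn _ hxV _ hyV
  let p := hJ.somePath
  refine ⟨fun t => ((p.extend t : (β '' Icc 0 1 : Set ℂ)) : ℂ), ?_, ?_, ?_, ?_⟩
  · exact (continuous_subtype_val.comp p.continuous_extend).continuousOn
  · simp
  · simp
  · intro t ht
    refine ⟨(p.extend t).2, ?_⟩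
    have hmem : p.extend t ∈ V i := by
      have : p.extend t = p (projIcc 0 1 zero_le_one t) := rfl
      rw [this]
      exact hJ.somePath_mem _
    have h1 := hV3 i hmem
    have h2 := hV3 i hxV
    rw [mem_ball, Subtype.dist_eq] at h1 h2
    rw [← dist_eq_norm]
    calc dist ((p.extend t : (β '' Icc 0 1 : Set ℂ)) : ℂ) x
        ≤ dist ((p.extend t : (β '' Icc 0 1 : Set ℂ)) : ℂ) i + dist (i : ℂ) x := dist_triangle _ _ _
      _ ≤ ε / 2 + ε / 2 := add_le_add h1.le (by rw [dist_comm]; exact h2.le)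
      _ = ε := by ring

end Pool.Agent.TB
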