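/-
Project TB (MP_d9e400_an). Module ArcExt.
Boundary values on an arc contained in a path: continuous extension on the arc.

PROOF. Fix θ, ζ = ee θ; show: φ maps 𝓝[Dk] ζ to a Cauchy filter. d₀ = infDist (φ 0) (frontier U) > 0. Let 0 < ε < d₀/4. Peano: δ for (β, ε), ε' = min δ ε / 2.
small_crosscuts with ε' and T ≤ 0 so negative that θ ± 2 arctan e^T ∈ Ioo α₁ α₂: τ < T, a, b. By ES_lower a is a cluster value of φ at
ζ ee(2 arctan e^τ) = ee(θ + 2 arctan e^τ), so a ∈ β''; b ∈ β'' also (ES_upper). ‖a - b‖ ≤ ε' < δ: a path β' from b to a in β'' with ‖β' t - b‖ ≤ ε.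
sep with h = φ ∘ ES ζ, β' (β'' ⊆ frontier U is disjoint from U): Γ ⊆ closedBall a (2ε), n. The complement of closedBall a (2ε) is
connected and unbounded, so n = 0 outside closedBall a (2ε). φ 0 = h(iπ/2) (ES_center, re = 0 > τ) is outside (‖φ 0 - a‖ ≥ d₀), so n = 0 on the right side,
n ≠ 0 on the left side h{re u < τ}, which so is contained in closedBall a (2ε). ES_left (α = 0): eventually in 𝓝[Dk] ζ, φ w is in
closedBall a (2ε). As ε is arbitrary the filter map is Cauchy, ℂ complete: limit l. (𝓝[Dk] ζ is NeBot; if not needed, skip.)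
-/
import Mathlib
import Pool.Agent.TB.Defs
import Pool.Agent.TB.Sep
import Pool.Agent.TB.LengthArea
import Pool.Agent.TB.Peano
import Pool.Agent.TB.StripB
import Pool.Agent.TB.StripC
import Pool.Agent.TB.ConfA

set_option autoImplicit false

open Set Filter Topology Metric

namespace Pool.Agent.TB

theorem ArcExt_key {U : Set ℂ} {φ : ℂ → ℂ} (hφ : Conf φ U) (hb : Bornology.IsBounded U)
    {β : ℝ → ℂ} (hβ : ContinuousOn β (Icc 0 1))
    (hβU : β '' Icc 0 1 ⊆ frontier U) {α₁ α₂ : ℝ}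
    (h : ∀ θ ∈ Ioo α₁ α₂, ∀ y, MapClusterPt y (𝓝[Dk] (ee θ)) φ → y ∈ β '' Icc 0 1)
    {θ : ℝ} (hθ : θ ∈ Ioo α₁ α₂) {d₀ : ℝ} (hd₀ : Metric.ball (φ 0) d₀ ⊆ U)
    {ε : ℝ} (hε : 0 < ε) (hεd : 4 * ε < d₀) :
    ∃ a : ℂ, ∀ᶠ w in 𝓝[Dk] (ee θ), φ w ∈ closedBall a (2 * ε) := by
  have hUo : IsOpen U := conf_isOpen hφ
  have hζ : ‖ee θ‖ = 1 := norm_ee θ
  have hfr : ∀ x ∈ frontier U, x ∉ U := by
    intro x hx hxU
    rw [hUo.frontier_eq] at hx
    exact hx.2 hxU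
  obtain ⟨δ, hδ, hpe⟩ := peano hβ hε
  set ε' : ℝ := min δ ε / 2 with hε'
  have hm : 0 < min δ ε := lt_min hδ hε
  have hε'0 : 0 < ε' := by positivity
  have hε'δ : ε' < δ := by
    have := min_le_left δ ε
    rw [hε']; linarith
  have hε'ε : ε' < ε := by
    have := min_le_right δ ε
    rw [hε']; linarith
  -- the choice of `T`
  set η : ℝ := min (α₂ - θ) (θ - α₁) with hη
  have hη0 : 0 < η := lt_min (by linarith [hθ.2]) (by linarith [hθ.1])
  have hT : ∃ T : ℝ, ∀ τ ≤ T, 2 * Real.arctan (Real.exp τ) < η := by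
    have h1 : Tendsto (fun τ : ℝ => 2 * Real.arctan (Real.exp τ)) atBot (𝓝 0) := by
      have h2 : Tendsto (fun τ : ℝ => Real.arctan (Real.exp τ)) atBot (𝓝 (Real.arctan 0)) :=
        (Real.continuous_arctan.tendsto 0).comp Real.tendsto_exp_atBot
      simpa using h2.const_mul 2
    exact eventually_atBot.1 (h1.eventually (gt_mem_nhds hη0))
  obtain ⟨T₀, hT₀⟩ := hT
  obtain ⟨τ, hτ, a, b, ha, hb', hab⟩ := small_crosscuts hφ hb hζ hε'0 (min T₀ 0)
  have hτ0 : τ < 0 := lt_of_lt_of_le hτ (min_le_right _ _)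
  have hτη : 2 * Real.arctan (Real.exp τ) < η := hT₀ τ (le_of_lt (lt_of_lt_of_le hτ (min_le_left _ _)))
  have hτp : 0 < 2 * Real.arctan (Real.exp τ) := by
    have : 0 < Real.arctan (Real.exp τ) := Real.arctan_pos.2 (Real.exp_pos τ)
    linarith
  have hη1 : η ≤ α₂ - θ := min_le_left _ _
  have hη2 : η ≤ θ - α₁ := min_le_right _ _
  have hstr : ∀ y : ℝ, y ∈ Ioo (0 : ℝ) Real.pi → ((τ : ℂ) + y * Complex.I) ∈ strip := by
    intro y hy
    simpa [strip] using hy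
  have hDk : ∀ y : ℝ, y ∈ Ioo (0 : ℝ) Real.pi → ES (ee θ) ((τ : ℂ) + y * Complex.I) ∈ Dk := by
    intro y hy
    exact (ES_bijOn hζ).mapsTo (hstr y hy)
  have hlow : ∀ᶠ y : ℝ in 𝓝[>] (0 : ℝ), y ∈ Ioo (0 : ℝ) Real.pi := Ioo_mem_nhdsGT Real.pi_pos
  have hup : ∀ᶠ y : ℝ in 𝓝[<] Real.pi, y ∈ Ioo (0 : ℝ) Real.pi := Ioo_mem_nhdsLT Real.pi_pos
  have haβ : a ∈ β '' Icc 0 1 := by
    apply h (θ + 2 * Real.arctan (Real.exp τ)) ⟨by linarith [hθ.1], by linarith⟩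
    rw [ee_add]
    have h1 : Tendsto (fun y : ℝ => ES (ee θ) (τ + y * Complex.I)) (𝓝[>] (0 : ℝ))
        (𝓝[Dk] (ee θ * ee (2 * Real.arctan (Real.exp τ)))) :=
      tendsto_nhdsWithin_iff.2 ⟨(ES_lower hζ τ).1, hlow.mono fun y hy => hDk y hy⟩
    exact MapClusterPt.of_comp h1 (Tendsto.mapClusterPt ha)
  have hbβ : b ∈ β '' Icc 0 1 := by
    apply h (θ + -(2 * Real.arctan (Real.exp τ))) ⟨by linarith [hθ.1], by linarith [hθ.2]⟩
    rw [ee_add]
    have h1 : Tendsto (fun y : ℝ => ES (ee θ) (τ + y * Complex.I)) (𝓝[<] Real.pi)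
        (𝓝[Dk] (ee θ * ee (-(2 * Real.arctan (Real.exp τ))))) :=
      tendsto_nhdsWithin_iff.2 ⟨(ES_upper hζ τ).1, hup.mono fun y hy => hDk y hy⟩
    exact MapClusterPt.of_comp h1 (Tendsto.mapClusterPt hb')
  have hba : ‖b - a‖ ≤ ε' := by
    have h1 : Tendsto (fun y : ℝ => ‖φ (ES (ee θ) (τ + y * Complex.I)) - a‖) (𝓝[<] Real.pi)
        (𝓝 ‖b - a‖) := (hb'.sub_const a).norm
    exact le_of_tendsto h1 (hup.mono fun y hy => (hab y hy).le)
  obtain ⟨γ, hγ, hγ0, hγ1, hγt⟩ := hpe b hbβ a haβ (lt_of_le_of_lt hba hε'δ)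
  set hh : ℂ → ℂ := fun u => φ (ES (ee θ) u) with hhh
  have hhd : DifferentiableOn ℂ hh strip :=
    hφ.diff.comp ES_diff (ES_bijOn hζ).mapsTo
  have hhi : InjOn hh strip := hφ.bij.injOn.comp (ES_bijOn hζ).injOn (ES_bijOn hζ).mapsTo
  have hhU : ∀ u ∈ strip, hh u ∈ U := fun u hu => hφ.bij.mapsTo ((ES_bijOn hζ).mapsTo hu)
  have hdis : Disjoint (γ '' Icc 0 1) (hh '' strip) := by
    rw [Set.disjoint_left]
    rintro x ⟨t, ht, rfl⟩ ⟨u, hu, hux⟩
    apply hfr _ (hβU (hγt t ht).1)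
    rw [← hux]
    exact hhU u hu
  obtain ⟨-, n, -, hn2, hn3⟩ := sep hhd hhi τ ha hb' hγ hγ0 hγ1 hdis rfl
  have hΓ : γ '' Icc 0 1 ∪ hh '' {u | u ∈ strip ∧ u.re = τ} ⊆ closedBall a (2 * ε) := by
    rintro x (⟨t, ht, rfl⟩ | ⟨u, ⟨hu, hur⟩, rfl⟩)
    · rw [mem_closedBall, dist_eq_norm]
      have h1 := (hγt t ht).2
      have h2 : γ t - a = (γ t - b) + (b - a) := by ring
      rw [h2]
      have h3 := norm_add_le (γ t - b) (b - a)
      linarith
    · rw [mem_closedBall, dist_eq_norm]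
      have h1 : u = (τ : ℂ) + (u.im : ℂ) * Complex.I := by
        rw [← hur]; exact (Complex.re_add_im u).symm
      have h2 := hab u.im hu
      rw [← h1] at h2
      have : hh u - a = φ (ES (ee θ) u) - a := rfl
      rw [this]; linarith
  have hn0 : ∀ x, x ∉ closedBall a (2 * ε) → n x = 0 := by
    intro x hx
    have hxΓ : x ∈ (γ '' Icc 0 1 ∪ hh '' {u | u ∈ strip ∧ u.re = τ})ᶜ := fun hx' => hx (hΓ hx')
    apply hn2 x hxΓ
    have hxa : 2 * ε < ‖x - a‖ := by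
      rw [mem_closedBall, dist_eq_norm, not_le] at hx
      exact hx
    have hxa0 : 0 < ‖x - a‖ := by linarith
    set ray : Set ℂ := (fun t : ℝ => a + (t : ℂ) * (x - a)) '' Ici 1 with hray
    have hr1 : IsPreconnected ray := by
      apply isPreconnected_Ici.image
      exact Continuous.continuousOn (by fun_prop)
    have hr2 : x ∈ ray := ⟨1, by simp, by simp⟩
    have hr3 : ray ⊆ (γ '' Icc 0 1 ∪ hh '' {u | u ∈ strip ∧ u.re = τ})ᶜ := by
      rintro y ⟨t, ht, rfl⟩ hy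
      have h1 := hΓ hy
      rw [mem_closedBall, dist_eq_norm] at h1
      have h2 : (fun t : ℝ => a + (t : ℂ) * (x - a)) t - a = (t : ℂ) * (x - a) := by
        simp
      rw [h2, norm_mul, Complex.norm_real, Real.norm_eq_abs] at h1
      have ht1 : (1 : ℝ) ≤ t := ht
      have h3 : (1 : ℝ) ≤ |t| := le_trans ht1 (le_abs_self t)
      nlinarith
    have hr4 : ray ⊆ connectedComponentIn
        (γ '' Icc 0 1 ∪ hh '' {u | u ∈ strip ∧ u.re = τ})ᶜ x :=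
      hr1.subset_connectedComponentIn hr2 hr3
    intro hbd
    have hbd' := hbd.subset hr4
    obtain ⟨C, hC⟩ := hbd'.exists_norm_le
    obtain ⟨t, ht1, ht2⟩ : ∃ t : ℝ, 1 ≤ t ∧ C + ‖a‖ < t * ‖x - a‖ := by
      refine ⟨max 1 ((C + ‖a‖ + 1) / ‖x - a‖), le_max_left _ _, ?_⟩
      have h1 : (C + ‖a‖ + 1) / ‖x - a‖ * ‖x - a‖ = C + ‖a‖ + 1 := by
        field_simp
      have h2 : (C + ‖a‖ + 1) / ‖x - a‖ ≤ max 1 ((C + ‖a‖ + 1) / ‖x - a‖) := le_max_right _ _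
      have h3 := mul_le_mul_of_nonneg_right h2 hxa0.le
      linarith
    have h1 := hC (a + (t : ℂ) * (x - a)) ⟨t, ht1, rfl⟩
    have h2 : ‖(t : ℂ) * (x - a)‖ = t * ‖x - a‖ := by
      rw [norm_mul, Complex.norm_real, Real.norm_eq_abs, abs_of_nonneg (by linarith)]
    have h3 : ‖(t : ℂ) * (x - a)‖ ≤ ‖a + (t : ℂ) * (x - a)‖ + ‖a‖ := by
      have h4 : (t : ℂ) * (x - a) = (a + (t : ℂ) * (x - a)) - a := by ring
      calc ‖(t : ℂ) * (x - a)‖ = ‖(a + (t : ℂ) * (x - a)) - a‖ := by rw [← h4]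
        _ ≤ ‖a + (t : ℂ) * (x - a)‖ + ‖a‖ := norm_sub_le _ _
    linarith
  -- the centre
  have hc1 : ((Real.pi / 2 : ℝ) * Complex.I : ℂ) ∈ strip := by
    have := Real.pi_pos
    simp only [strip, Set.mem_ofPred_eq]
    constructor
    · simp; positivity
    · simp; linarith
  have hc2 : hh ((Real.pi / 2 : ℝ) * Complex.I) = φ 0 := by
    simp only [hhh]
    rw [ES_center]
  have hc3 : ((Real.pi / 2 : ℝ) * Complex.I : ℂ).re = 0 := by
    simp
  have haU : a ∉ U := hfr a (hβU haβ)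
  have hc4 : φ 0 ∉ closedBall a (2 * ε) := by
    intro hmem
    apply haU
    apply hd₀
    rw [mem_ball, dist_comm]
    rw [mem_closedBall] at hmem
    linarith
  have hc5 : n (hh ((Real.pi / 2 : ℝ) * Complex.I)) = 0 := by
    rw [hc2]; exact hn0 _ hc4
  refine ⟨a, ?_⟩
  have hel := ES_left hζ τ (α := 0) (by rw [abs_zero]; exact hτp)
  have hee0 : ee 0 = 1 := by simp [ee]
  rw [hee0, mul_one] at hel
  refine hel.mono ?_
  rintro w ⟨u, hu, rfl, hur⟩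
  by_contra hcon
  have h1 := hn3 u hu _ hc1 hur (by rw [hc3]; exact hτ0)
  rw [hc5] at h1
  exact h1 (hn0 _ hcon)

theorem arc_extension {U : Set ℂ} {φ : ℂ → ℂ} (hφ : Conf φ U) (hb : Bornology.IsBounded U)
    {β : ℝ → ℂ} (hβ : ContinuousOn β (Icc 0 1))
    (hβU : β '' Icc 0 1 ⊆ frontier U) {α₁ α₂ : ℝ}
    (h : ∀ θ ∈ Ioo α₁ α₂, ∀ y, MapClusterPt y (𝓝[Dk] (ee θ)) φ → y ∈ β '' Icc 0 1) :
    ∀ θ ∈ Ioo α₁ α₂, ∃ l, Tendsto φ (𝓝[Dk] (ee θ)) (𝓝 l) := by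
  intro θ hθ
  rcases eq_or_neBot (𝓝[Dk] (ee θ)) with hbot | hne
  · exact ⟨0, by rw [hbot]; exact tendsto_bot⟩
  have hUo : IsOpen U := conf_isOpen hφ
  have h0 : φ 0 ∈ U := hφ.bij.mapsTo (by simp)
  obtain ⟨d₀, hd₀, hball⟩ := Metric.isOpen_iff.1 hUo _ h0
  have hc : Cauchy (map φ (𝓝[Dk] (ee θ))) := by
    rw [Metric.cauchy_iff]
    refine ⟨hne.map φ, ?_⟩
    intro ε hε
    set ε₁ : ℝ := min (ε / 5) (d₀ / 5) with hε₁
    have hε₁0 : 0 < ε₁ := lt_min (by positivity) (by positivity)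
    have hε₁d : 4 * ε₁ < d₀ := by
      have := min_le_right (ε / 5) (d₀ / 5)
      rw [← hε₁] at this
      linarith
    have hε₁ε : 4 * ε₁ < ε := by
      have := min_le_left (ε / 5) (d₀ / 5)
      rw [← hε₁] at this
      linarith
    obtain ⟨a, ha⟩ := ArcExt_key hφ hb hβ hβU h hθ hball hε₁0 hε₁d
    refine ⟨closedBall a (2 * ε₁), ha, ?_⟩
    intro x hx y hy
    rw [mem_closedBall] at hx hy
    have := dist_triangle_right x y a
    linarith
  exact CompleteSpace.complete hc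

end Pool.Agent.TB
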