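/-
Project TB (MP_d9e400_an). Module Jordan.
Continuous extension of the conformal map makes the frontier a simple closed curve.

PROOF. Let g : circle → ℂ, g ζ = the limit of φ at ζ. g ζ ∈ frontier U (mapCluster_frontier; 𝓝[Dk] ζ is NeBot). g is continuous (the extension
of φ to the closed disc: extendFrom Dk φ is continuous on closure Dk = closedBall by continuousOn_extendFrom). g is
surjective onto frontier U (exists_cluster: a cluster value is the limit). g is injective: ζ ≠ ζ' with the same limit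
x would give RadLim φ at two different angles θ₁ < θ₂ < θ₁ + 2π (exists_ee): unique_ray. Circle compact, frontier U
Hausdorff: Continuous.homeoOfEquivCompactToT2. (Circle is the subtype/structure of unit complex numbers, (ζ : ℂ) with
‖ζ‖ = 1.)
-/
import Mathlib
import Pool.Agent.TB.Defs
import Pool.Agent.TB.ConfA
import Pool.Agent.TB.UniqueRay
import Pool.Agent.TB.EE

set_option autoImplicit false

open Set Filter Topology Metric

namespace Pool.Agent.TB

theorem jordan_neBot {ζ : ℂ} (hζ : ‖ζ‖ = 1) : (𝓝[Dk] ζ).NeBot := by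
  rw [← mem_closure_iff_nhdsWithin_neBot, closure_ball _ one_ne_zero, mem_closedBall_zero_iff, hζ]

theorem jordan_radLim {φ : ℂ → ℂ} {ζ x : ℂ} (hζ : ‖ζ‖ = 1) (h : Tendsto φ (𝓝[Dk] ζ) (𝓝 x)) :
    RadLim φ ζ x := by
  refine h.comp (tendsto_nhdsWithin_iff.mpr ⟨?_, ?_⟩)
  · have h1 : Tendsto (fun r : ℝ => (r : ℂ) * ζ) (𝓝 1) (𝓝 (((1 : ℝ) : ℂ) * ζ)) :=
      (Continuous.tendsto (by fun_prop) 1)
    rw [Complex.ofReal_one, one_mul] at h1
    exact h1.mono_left nhdsWithin_le_nhds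
  · have h1 : ∀ᶠ r : ℝ in 𝓝[<] 1, r ∈ Ioo (0 : ℝ) 1 := Ioo_mem_nhdsLT (by norm_num)
    filter_upwards [h1] with r hr
    rw [mem_ball_zero_iff, norm_mul, hζ, mul_one, Complex.norm_real, Real.norm_of_nonneg hr.1.le]
    exact hr.2

theorem jordan {f : ℂ → ℂ} {U : Set ℂ} {z₀ : ℂ} (B : Basin f U z₀) {φ : ℂ → ℂ}
    (hφ : Conf φ U) (h : ∀ ζ : ℂ, ‖ζ‖ = 1 → ∃ l, Tendsto φ (𝓝[Dk] ζ) (𝓝 l)) :
    Nonempty (frontier U ≃ₜ Circle) := by
  set Φ : ℂ → ℂ := extendFrom Dk φ with hΦ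
  have hlim : ∀ ζ : ℂ, ‖ζ‖ = 1 → Tendsto φ (𝓝[Dk] ζ) (𝓝 (Φ ζ)) := fun ζ hζ =>
    tendsto_extendFrom (h ζ hζ)
  have hcont : ContinuousOn Φ (closedBall 0 1) := by
    refine continuousOn_extendFrom ?_ ?_
    · rw [closure_ball _ one_ne_zero]
    · intro x hx
      rw [mem_closedBall_zero_iff] at hx
      rcases hx.lt_or_eq with h1 | h1
      · have hx' : x ∈ Dk := by simpa [Dk] using h1
        exact ⟨φ x, (hφ.diff.continuousOn.continuousWithinAt hx')⟩
      · exact h x h1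
  have hfr : ∀ ζ : ℂ, ‖ζ‖ = 1 → Φ ζ ∈ frontier U := by
    intro ζ hζ
    have := jordan_neBot hζ
    exact mapCluster_frontier hφ hζ (hlim ζ hζ).mapClusterPt
  set G : Circle → frontier U := fun ζ => ⟨Φ ζ, hfr ζ (Circle.norm_coe ζ)⟩ with hG
  have hGc : Continuous G := by
    refine Continuous.subtype_mk ?_ _
    refine hcont.comp_continuous (f := fun ζ : Circle => (ζ : ℂ)) (by fun_prop) fun ζ => ?_
    rw [mem_closedBall_zero_iff, Circle.norm_coe]
  have hGs : Function.Surjective G := by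
    rintro ⟨y, hy⟩
    obtain ⟨ζ, hζ, hc⟩ := exists_cluster hφ hy
    refine ⟨⟨ζ, by simp [Submonoid.unitSphere, hζ]⟩, ?_⟩
    apply Subtype.ext
    change Φ ζ = y
    have h1 : map φ (𝓝[Dk] ζ) ≤ 𝓝 (Φ ζ) := hlim ζ hζ
    have h2 : (𝓝 y ⊓ map φ (𝓝[Dk] ζ)).NeBot := hc
    have h3 : (𝓝 (Φ ζ) ⊓ 𝓝 y).NeBot := by
      refine h2.mono ?_
      rw [inf_comm]
      exact inf_le_inf_right _ h1
    exact eq_of_nhds_neBot h3
  have hGi : Function.Injective G := by
    intro ζ ζ' hζζ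
    by_contra hne
    have hx : Φ ζ = Φ ζ' := congrArg Subtype.val hζζ
    have hζ : ‖(ζ : ℂ)‖ = 1 := Circle.norm_coe ζ
    have hζ' : ‖(ζ' : ℂ)‖ = 1 := Circle.norm_coe ζ'
    have r1 : RadLim φ ζ (Φ ζ) := jordan_radLim hζ (hlim _ hζ)
    have r2 : RadLim φ ζ' (Φ ζ) := by
      rw [hx]
      exact jordan_radLim hζ' (hlim _ hζ')
    obtain ⟨θ₁, -, -, h1⟩ := exists_ee hζ 0
    obtain ⟨θ₂, h2, h3, h4⟩ := exists_ee hζ' θ₁
    rcases h2.lt_or_eq with h5 | h5
    · rw [h1] at r1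
      rw [h4, h1] at r2
      exact unique_ray B hφ h5 h3 r1 r2
    · apply hne
      apply Circle.coe_injective
      rw [h1, h4, h5]
  exact ⟨(Continuous.homeoOfEquivCompactToT2 (f := Equiv.ofBijective G ⟨hGi, hGs⟩) hGc).symm⟩

end Pool.Agent.TB
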