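/-
Project TB (MP_d9e400_an). Module Spread.
Continuous extension on an arc spreads to the whole circle.

PROOF. Step: if ‖ζ‖ = 1 and φ → l at ζ within Dk then φ → f l at Bl ζ within Dk. Bl is analytic at ζ with nonzero derivative
(deriv_Bl_ne_zero): continuous local inverse g near Bl ζ, g (Bl ζ) = ζ, Bl (g w) = w. For w ∈ Dk near Bl ζ: g w ∈ Dk, because ‖v‖ = 1 → ‖Bl v‖ = 1
and for ‖v‖ > 1, v near the circle, ‖Bl v‖ > 1 (each factor: |1 - conj a v|² - |v-a|² = (1-|a|²)(1-|v|²) < 0). So φ w = φ(Bl(g w)) =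
f(φ(g w)) → f l. Given ζ: arcs_cover: n, θ ∈ Ioo α₁ α₂ with Bl^[n] (ee θ) = ζ; apply the step n times starting from ee θ.
-/
import Mathlib
import Pool.Agent.TB.Defs
import Pool.Agent.TB.CircleA
import Pool.Agent.TB.CircleB
import Pool.Agent.TB.Injective

set_option autoImplicit false

open Set Filter Topology Metric

namespace Pool.Agent.TB

theorem Spread_factor {a v : ℂ} (ha : ‖a‖ < 1) (hv : 1 ≤ ‖v‖)
    (hne : 1 - (starRingEnd ℂ) a * v ≠ 0) : 1 ≤ ‖(v - a) / (1 - (starRingEnd ℂ) a * v)‖ := by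
  rw [norm_div, one_le_div (norm_pos_iff.2 hne)]
  apply le_of_sq_le_sq _ (norm_nonneg _)
  have key : ‖v - a‖ ^ 2 - ‖1 - (starRingEnd ℂ) a * v‖ ^ 2 = (1 - ‖a‖ ^ 2) * (‖v‖ ^ 2 - 1) := by
    simp only [← Complex.normSq_eq_norm_sq, Complex.normSq_apply, Complex.sub_re, Complex.sub_im,
      Complex.one_re, Complex.one_im, Complex.mul_re, Complex.mul_im, Complex.conj_re,
      Complex.conj_im]
    ring
  have h1 : 0 ≤ 1 - ‖a‖ ^ 2 := by nlinarith [norm_nonneg a]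
  have h2 : 0 ≤ ‖v‖ ^ 2 - 1 := by nlinarith
  nlinarith [mul_nonneg h1 h2]

theorem Spread_out {d : ℕ} {c : ℂ} {a : Fin d → ℂ} (hd : BlData d c a) {ζ : ℂ} (hζ : ‖ζ‖ = 1) :
    ∀ᶠ v in 𝓝 ζ, Bl c a v ∈ Dk → v ∈ Dk := by
  have h1 : ∀ i, ∀ᶠ v in 𝓝 ζ, 1 - (starRingEnd ℂ) (a i) * v ≠ 0 := by
    intro i
    have hc : Continuous (fun v : ℂ => 1 - (starRingEnd ℂ) (a i) * v) := by fun_prop
    apply hc.continuousAt.eventually_ne
    intro h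
    have h2 : (starRingEnd ℂ) (a i) * ζ = 1 := (sub_eq_zero.1 h).symm
    have h3 : ‖(starRingEnd ℂ) (a i) * ζ‖ = 1 := by rw [h2, norm_one]
    rw [norm_mul, hζ, mul_one, RCLike.norm_conj] at h3
    linarith [hd.ha i]
  filter_upwards [Filter.eventually_all.2 h1] with v hv hB
  by_contra hcon
  have hv1 : 1 ≤ ‖v‖ := by
    by_contra h
    push Not at h
    exact hcon (by simpa using h)
  have h2 : 1 ≤ ‖Bl c a v‖ := by
    unfold Bl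
    rw [norm_mul, hd.hc, one_mul, norm_prod]
    have h4 : ∏ i : Fin d, (1 : ℝ) ≤ ∏ i, ‖(v - a i) / (1 - (starRingEnd ℂ) (a i) * v)‖ :=
      Finset.prod_le_prod (fun i _ => zero_le_one) (fun i _ => Spread_factor (hd.ha i) hv1 (hv i))
    simpa using h4
  have h3 : ‖Bl c a v‖ < 1 := by simpa using hB
  linarith

theorem Spread_step {f : ℂ → ℂ} (hf : Differentiable ℂ f) {φ : ℂ → ℂ}
    {d : ℕ} {c : ℂ} {a : Fin d → ℂ} (hd : BlData d c a)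
    (hconj : ∀ w ∈ Dk, φ (Bl c a w) = f (φ w)) {ζ l : ℂ} (hζ : ‖ζ‖ = 1)
    (h : Tendsto φ (𝓝[Dk] ζ) (𝓝 l)) : Tendsto φ (𝓝[Dk] (Bl c a ζ)) (𝓝 (f l)) := by
  obtain ⟨R, hR, hRd⟩ := Bl_analytic hd
  have hmem : ball (0 : ℂ) R ∈ 𝓝 ζ := isOpen_ball.mem_nhds (by
    rw [mem_ball_zero_iff, hζ]; exact hR)
  have hs : HasStrictDerivAt (Bl c a) (deriv (Bl c a) ζ) ζ :=
    (hRd.analyticAt hmem).hasStrictDerivAt
  have hmap := hs.map_nhds_eq (deriv_Bl_ne_zero hd hζ)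
  intro N hN
  have h1 : Tendsto (fun v => f (φ v)) (𝓝[Dk] ζ) (𝓝 (f l)) :=
    (hf.continuous.tendsto l).comp h
  have h2 : ∀ᶠ v in 𝓝 ζ, v ∈ Dk → f (φ v) ∈ N := by
    have := h1.eventually hN
    rwa [eventually_nhdsWithin_iff] at this
  rw [Filter.mem_map, mem_nhdsWithin_iff_eventually, ← hmap, Filter.eventually_map]
  filter_upwards [h2, Spread_out hd hζ] with v hv1 hv2 hv3
  show φ (Bl c a v) ∈ N
  rw [hconj v (hv2 hv3)]
  exact hv1 (hv2 hv3)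

theorem spread {f : ℂ → ℂ} {U : Set ℂ} {z₀ : ℂ} (B : Basin f U z₀) {φ : ℂ → ℂ}
    (hφ : Conf φ U) {d : ℕ} {c : ℂ} {a : Fin d → ℂ} (hd : BlData d c a)
    (hconj : ∀ w ∈ Dk, φ (Bl c a w) = f (φ w)) {α₁ α₂ : ℝ} (hα : α₁ < α₂)
    (h : ∀ θ ∈ Ioo α₁ α₂, ∃ l, Tendsto φ (𝓝[Dk] (ee θ)) (𝓝 l)) :
    ∀ ζ : ℂ, ‖ζ‖ = 1 → ∃ l, Tendsto φ (𝓝[Dk] ζ) (𝓝 l) := by
  intro ζ hζ
  obtain ⟨n, hn⟩ := arcs_cover hd hα
  obtain ⟨θ, hθ, hθn⟩ := hn ζ hζ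
  have key : ∀ k : ℕ, ‖(Bl c a)^[k] (ee θ)‖ = 1 ∧
      ∃ l, Tendsto φ (𝓝[Dk] ((Bl c a)^[k] (ee θ))) (𝓝 l) := by
    intro k
    induction k with
    | zero => exact ⟨by simpa using norm_ee θ, by simpa using h θ hθ⟩
    | succ k ih =>
      obtain ⟨h1, l, hl⟩ := ih
      rw [Function.iterate_succ_apply']
      exact ⟨norm_Bl hd h1, f l, Spread_step B.hf hd hconj h1 hl⟩
  have := (key n).2
  rwa [hθn] at this

end Pool.Agent.TB
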