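/-
Project TB (MP_d9e400_an). Module Main.
Assembly of the theorem.
-/
import Mathlib
import Pool.Agent.TB.Defs
import Pool.Agent.TB.FatouBasin
import Pool.Agent.TB.PathPart
import Pool.Agent.TB.Riemann
import Pool.Agent.TB.Top3
import Pool.Agent.TB.Model
import Pool.Agent.TB.Fibre
import Pool.Agent.TB.Decomp
import Pool.Agent.TB.Lakes
import Pool.Agent.TB.LakesB

set_option autoImplicit false

open Set Filter Topology Metric

namespace Pool.Agent.TB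

/-- everything for a basin -/
theorem main_basin {f : ℂ → ℂ} {U : Set ℂ} {z₀ : ℂ} (B : Basin f U z₀) :
    ∃ Φ : ℂ → ℂ, ContinuousOn Φ (closure U) ∧ DifferentiableOn ℂ Φ U ∧
      BijOn Φ U (Metric.ball 0 1) ∧ MapsTo Φ (frontier U) (Metric.sphere 0 1) ∧
      (∀ ζ ∈ Metric.sphere (0 : ℂ) 1, IsConnected {y | y ∈ frontier U ∧ Φ y = ζ}) ∧
      (∀ b, b ∉ closure U → Bornology.IsBounded (connectedComponentIn (closure U)ᶜ b) →
        (∀ y ∈ frontier (connectedComponentIn (closure U)ᶜ b),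
          ∀ y' ∈ frontier (connectedComponentIn (closure U)ᶜ b), Φ y = Φ y') ∧
        Disjoint (f '' connectedComponentIn (closure U)ᶜ b) (closure U)) ∧
      (∀ γ : ℝ → ℂ, ContinuousOn γ (Icc 0 1) → MapsTo γ (Icc 0 1) (frontier U) →
        Φ (γ 0) ≠ Φ (γ 1) → Nonempty (frontier U ≃ₜ Circle)) := by
  obtain ⟨φ, hφ, h0⟩ := riemann (sc_U B) B.bdd B.mem
  obtain ⟨Φ, h1, h2, h3, h4, h5, h6⟩ := exists_extension B hφ h0
  obtain ⟨d, c, a, hd, hconj⟩ := exists_model B hφ h0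
  refine ⟨Φ, h1, h2, h3, h4, fun ζ hζ => ?_, fun b hb hbd => ?_,
    fun γ hγ hγU hn => path_part B hφ h0 h1 h5 hγ hγU hn⟩
  · exact fibre_connected B hφ h1 h5 h6 (by simpa using hζ)
  · have hl := lake_fibre B hφ h0 h1 h4 h5 h6 hb hbd
    exact ⟨hl, lake_image B hφ hd hconj h1 h4 h5 h6 hb hbd hl⟩

theorem main {f : ℂ → ℂ} (hf : Differentiable ℂ f) {F : Set ℂ}
    (hF : ∀ w : ℂ, w ∈ F ↔
        ∃ r : ℝ, 0 < r ∧
          ∀ φ : ℕ → ℕ, StrictMono φ →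
            ∃ ψ : ℕ → ℕ, StrictMono ψ ∧
              ((∃ g : ℂ → ℂ,
                  TendstoLocallyUniformlyOn (fun k => f^[φ (ψ k)]) g atTop (Metric.ball w r)) ∨
               (∀ K : Set ℂ, K ⊆ Metric.ball w r → IsCompact K →
                  ∀ M : ℝ, ∀ᶠ k in atTop, ∀ y ∈ K, M < ‖f^[φ (ψ k)] y‖)))
    {z : ℂ} (hz : z ∈ F) (hb : Bornology.IsBounded (connectedComponentIn F z))
    (hm : Set.MapsTo f (connectedComponentIn F z) (connectedComponentIn F z))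
    {z₀ : ℂ} (hz₀ : z₀ ∈ connectedComponentIn F z) (hfix : f z₀ = z₀) (hat : ‖deriv f z₀‖ < 1)
    {U : Set ℂ} (hU : U = connectedComponentIn F z) :
    (∃ Φ : ℂ → ℂ, ContinuousOn Φ (closure U) ∧ DifferentiableOn ℂ Φ U ∧
      BijOn Φ U (Metric.ball 0 1) ∧ MapsTo Φ (frontier U) (Metric.sphere 0 1) ∧
      (∀ ζ ∈ Metric.sphere (0 : ℂ) 1, IsConnected {y | y ∈ frontier U ∧ Φ y = ζ}) ∧
      (∀ b, b ∉ closure U → Bornology.IsBounded (connectedComponentIn (closure U)ᶜ b) →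
        (∀ y ∈ frontier (connectedComponentIn (closure U)ᶜ b),
          ∀ y' ∈ frontier (connectedComponentIn (closure U)ᶜ b), Φ y = Φ y') ∧
        Disjoint (f '' connectedComponentIn (closure U)ᶜ b) (closure U)) ∧
      (∀ γ : ℝ → ℂ, ContinuousOn γ (Icc 0 1) → MapsTo γ (Icc 0 1) (frontier U) →
        Φ (γ 0) ≠ Φ (γ 1) → Nonempty (frontier U ≃ₜ Circle))) ∧
    (∃ A B : Set ℂ, IsCompact A ∧ IsConnected A ∧ IsCompact B ∧ IsConnected B ∧
      A ∪ B = frontier U ∧ A ≠ frontier U ∧ B ≠ frontier U) := by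
  subst hU
  have B := basin_of_fatou hf hF hz hb hm hz₀ hfix hat
  obtain ⟨Φ, h1, h2, h3, h4, h5, h6, h7⟩ := main_basin B
  exact ⟨⟨Φ, h1, h2, h3, h4, h5, h6, h7⟩, decomposable B h1 h4 h5⟩

end Pool.Agent.TB
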