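/-
Project TB (MP_d9e400_an). Module Grid.
Squares of a grid outside a domain without holes can escape.

PROOF. Let q ∉ P and 𝒮 the set of squares reachable from q (including q). All elements of 𝒮 are ∉ P.
Suppose no element of 𝒮 is outside the box. Then q is in the box and not in P, so there is a ∈ sq s q with
a ∉ U. 𝒮 and P are finite; S = ⋃_{𝒮} sq s · and X = ⋃_P sq s · are compact, X ⊆ U, a ∈ S \ X.
Claim: every z ∈ S \ X has a neighbourhood contained in S. z lies in some Q = (i,j) ∈ 𝒮. No square that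
contains z is in P. If Q' = (i',j') also contains z then |i-i'| ≤ 1, |j-j'| ≤ 1, and (i',j) contains z too, so
Q, (i',j), Q' is a chain of squares outside P: Q' ∈ 𝒮. All points z' near z lie in a square that
contains z (take floors of z'.re/s, z'.im/s: if x is not an integer the floor is locally constant, if it is
an integer the floor is x or x - 1). So S ∩ Xᶜ is open and closed in Xᶜ, hence
connectedComponentIn Xᶜ a ⊆ S is bounded: contradiction with hU.hull X.
-/
import Mathlib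
import Pool.Agent.TB.Defs

set_option autoImplicit false

open Set Filter Topology Metric

namespace Pool.Agent.TB

/-- near `x` every point lies in a unit interval with integer end points containing `x` -/
private theorem Grid_near (x : ℝ) :
    ∀ᶠ x' in 𝓝 x, ∃ k : ℤ, (k : ℝ) ≤ x ∧ x ≤ k + 1 ∧ (k : ℝ) ≤ x' ∧ x' ≤ k + 1 := by
  have h1 : ((⌈x⌉ : ℤ) : ℝ) - 1 < x := by linarith [Int.ceil_lt_add_one x]
  have h2 : x < ((⌊x⌋ : ℤ) : ℝ) + 1 := Int.lt_floor_add_one x
  filter_upwards [Ioo_mem_nhds h1 h2] with x' hx'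
  rcases le_total x' x with h | h
  · refine ⟨⌈x⌉ - 1, ?_, ?_, ?_, ?_⟩
    · push_cast; exact h1.le
    · push_cast; linarith [Int.le_ceil x]
    · push_cast; exact hx'.1.le
    · push_cast; linarith [Int.le_ceil x]
  · exact ⟨⌊x⌋, Int.floor_le x, h2.le, (Int.floor_le x).trans h, hx'.2.le⟩

private theorem Grid_isClosed (s : ℝ) (q : ℤ × ℤ) : IsClosed (sq s q) := by
  have h : sq s q = ({z : ℂ | s * q.1 ≤ z.re} ∩ {z : ℂ | z.re ≤ s * (q.1 + 1)}) ∩
      ({z : ℂ | s * q.2 ≤ z.im} ∩ {z : ℂ | z.im ≤ s * (q.2 + 1)}) := by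
    ext z; simp only [sq, mem_ofPred_eq, mem_inter_iff]; tauto
  rw [h]
  exact ((isClosed_le continuous_const Complex.continuous_re).inter
    (isClosed_le Complex.continuous_re continuous_const)).inter
    ((isClosed_le continuous_const Complex.continuous_im).inter
    (isClosed_le Complex.continuous_im continuous_const))

private theorem Grid_isCompact (s : ℝ) (q : ℤ × ℤ) : IsCompact (sq s q) := by
  refine Metric.isCompact_of_isClosed_isBounded (Grid_isClosed s q) ?_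
  rw [isBounded_iff_forall_norm_le]
  refine ⟨(|s * q.1| + |s * (q.1 + 1)|) + (|s * q.2| + |s * (q.2 + 1)|), fun z hz => ?_⟩
  obtain ⟨h1, h2, h3, h4⟩ := hz
  have h5 : |z.re| ≤ |s * q.1| + |s * (q.1 + 1)| := by
    rw [abs_le]
    constructor
    · linarith [neg_abs_le (s * (q.1 : ℝ)), abs_nonneg (s * ((q.1 : ℝ) + 1))]
    · linarith [le_abs_self (s * ((q.1 : ℝ) + 1)), abs_nonneg (s * (q.1 : ℝ))]
  have h6 : |z.im| ≤ |s * q.2| + |s * (q.2 + 1)| := by
    rw [abs_le]
    constructor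
    · linarith [neg_abs_le (s * (q.2 : ℝ)), abs_nonneg (s * ((q.2 : ℝ) + 1))]
    · linarith [le_abs_self (s * ((q.2 : ℝ) + 1)), abs_nonneg (s * (q.2 : ℝ))]
  exact (Complex.norm_le_abs_re_add_abs_im z).trans (add_le_add h5 h6)

/-- `U` a domain without holes; every square of the grid of mesh `s` that is not one of the squares
of the box contained in `U` can be joined to the outside of the box by a chain of such squares -/
theorem grid_escape {U : Set ℂ} (hU : SC U) {s : ℝ} (hs : 0 < s) (N : ℤ) {P : Set (ℤ × ℤ)}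
    (hP : P = {q : ℤ × ℤ | (-N ≤ q.1 ∧ q.1 < N ∧ -N ≤ q.2 ∧ q.2 < N) ∧ sq s q ⊆ U}) :
    ∀ q ∉ P, ∃ q' : ℤ × ℤ, ¬ (-N ≤ q'.1 ∧ q'.1 < N ∧ -N ≤ q'.2 ∧ q'.2 < N) ∧
      Relation.ReflTransGen (fun u v : ℤ × ℤ => v ∉ P ∧
        ((v.1 = u.1 ∧ (v.2 = u.2 + 1 ∨ v.2 = u.2 - 1)) ∨
         (v.2 = u.2 ∧ (v.1 = u.1 + 1 ∨ v.1 = u.1 - 1)))) q q' := by
  intro q hq
  set r : ℤ × ℤ → ℤ × ℤ → Prop := fun u v : ℤ × ℤ => v ∉ P ∧
        ((v.1 = u.1 ∧ (v.2 = u.2 + 1 ∨ v.2 = u.2 - 1)) ∨
         (v.2 = u.2 ∧ (v.1 = u.1 + 1 ∨ v.1 = u.1 - 1))) with hr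
  by_contra hcon
  push Not at hcon
  have hbox : ∀ v, Relation.ReflTransGen r q v →
      (-N ≤ v.1 ∧ v.1 < N ∧ -N ≤ v.2 ∧ v.2 < N) := by
    intro v hv
    by_contra h
    exact hcon v (fun h1 h2 h3 => by
      by_contra h4
      exact h ⟨h1, h2, h3, not_le.1 h4⟩) hv
  have hboxfin : {v : ℤ × ℤ | -N ≤ v.1 ∧ v.1 < N ∧ -N ≤ v.2 ∧ v.2 < N}.Finite := by
    refine ((Set.finite_Ico (-N) N).prod (Set.finite_Ico (-N) N)).subset fun v hv => ?_
    exact ⟨⟨hv.1, hv.2.1⟩, ⟨hv.2.2.1, hv.2.2.2⟩⟩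
  set SS : Set (ℤ × ℤ) := {v | Relation.ReflTransGen r q v} with hSS
  have hSSfin : SS.Finite := hboxfin.subset fun v hv => hbox v hv
  have hPfin : P.Finite := hboxfin.subset fun v hv => by rw [hP] at hv; exact hv.1
  have hSSP : ∀ v ∈ SS, v ∉ P := by
    intro v hv
    rcases Relation.ReflTransGen.cases_tail hv with h | ⟨w, _, hw⟩
    · rw [h]; exact hq
    · exact hw.1
  have hqbox := hbox q Relation.ReflTransGen.refl
  obtain ⟨a, haq, haU⟩ : ∃ a ∈ sq s q, a ∉ U := by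
    by_contra h
    push Not at h
    exact hq (by rw [hP]; exact ⟨hqbox, h⟩)
  set X : Set ℂ := ⋃ p ∈ P, sq s p with hX
  set S : Set ℂ := ⋃ p ∈ SS, sq s p with hS
  have hXU : X ⊆ U := by
    rw [hX]
    refine iUnion₂_subset fun p hp => ?_
    rw [hP] at hp
    exact hp.2
  have hXc : IsCompact X := hPfin.isCompact_biUnion fun p _ => Grid_isCompact s p
  have hSc : IsCompact S := hSSfin.isCompact_biUnion fun p _ => Grid_isCompact s p
  have haS : a ∈ S := mem_iUnion₂.2 ⟨q, Relation.ReflTransGen.refl, haq⟩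
  have haX : a ∉ X := fun h => haU (hXU h)
  -- squares containing a common point outside X
  have hstep : ∀ z ∉ X, ∀ Q ∈ SS, z ∈ sq s Q → ∀ Q' : ℤ × ℤ, z ∈ sq s Q' → Q' ∈ SS := by
    intro z hz Q hQ hzQ Q' hzQ'
    have hnotP : ∀ T : ℤ × ℤ, z ∈ sq s T → T ∉ P := fun T hT hTP =>
      hz (mem_iUnion₂.2 ⟨T, hTP, hT⟩)
    obtain ⟨a1, a2, a3, a4⟩ := hzQ
    obtain ⟨b1, b2, b3, b4⟩ := hzQ'
    have hmid : z ∈ sq s (Q'.1, Q.2) := ⟨b1, b2, a3, a4⟩
    have hlt : ∀ i i' : ℤ, s * i ≤ s * (i' + 1) → i ≤ i' + 1 := by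
      intro i i' h
      have := le_of_mul_le_mul_left h hs
      exact_mod_cast this
    have c1 := hlt Q.1 Q'.1 (a1.trans b2)
    have c2 := hlt Q'.1 Q.1 (b1.trans a2)
    have c3 := hlt Q.2 Q'.2 (a3.trans b4)
    have c4 := hlt Q'.2 Q.2 (b3.trans a4)
    have hQmid : Relation.ReflTransGen r q (Q'.1, Q.2) := by
      by_cases h : Q'.1 = Q.1
      · have : (Q'.1, Q.2) = Q := by rw [h]
        rw [this]; exact hQ
      · refine Relation.ReflTransGen.tail hQ ⟨hnotP _ hmid, Or.inr ⟨rfl, ?_⟩⟩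
        simp only
        omega
    by_cases h : Q'.2 = Q.2
    · have : Q' = (Q'.1, Q.2) := by rw [← h]
      rw [this]; exact hQmid
    · refine Relation.ReflTransGen.tail hQmid ⟨hnotP _ ⟨b1, b2, b3, b4⟩, Or.inl ⟨rfl, ?_⟩⟩
      simp only
      omega
  have hint : ∀ z ∈ S, z ∉ X → z ∈ interior S := by
    intro z hzS hzX
    obtain ⟨Q, hQ, hzQ⟩ := mem_iUnion₂.1 hzS
    rw [mem_interior_iff_mem_nhds]
    have t1 : Tendsto (fun z' : ℂ => z'.re / s) (𝓝 z) (𝓝 (z.re / s)) :=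
      (Complex.continuous_re.div_const s).tendsto z
    have t2 : Tendsto (fun z' : ℂ => z'.im / s) (𝓝 z) (𝓝 (z.im / s)) :=
      (Complex.continuous_im.div_const s).tendsto z
    filter_upwards [t1.eventually (Grid_near _), t2.eventually (Grid_near _)] with z' h1 h2
    obtain ⟨k, k1, k2, k3, k4⟩ := h1
    obtain ⟨l, l1, l2, l3, l4⟩ := h2
    rw [le_div_iff₀ hs] at k1 k3 l1 l3
    rw [div_le_iff₀ hs] at k2 k4 l2 l4
    have e1 : z ∈ sq s (k, l) :=
      ⟨by simpa [mul_comm] using k1, by simpa [mul_comm] using k2,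
        by simpa [mul_comm] using l1, by simpa [mul_comm] using l2⟩
    have e2 : z' ∈ sq s (k, l) :=
      ⟨by simpa [mul_comm] using k3, by simpa [mul_comm] using k4,
        by simpa [mul_comm] using l3, by simpa [mul_comm] using l4⟩
    exact mem_iUnion₂.2 ⟨(k, l), hstep z hzX Q hQ hzQ (k, l) e1, e2⟩
  have hsub : connectedComponentIn Xᶜ a ⊆ interior S := by
    refine (isPreconnected_connectedComponentIn).subset_of_closure_inter_subset isOpen_interior
      ⟨a, mem_connectedComponentIn haX, hint a haS haX⟩ ?_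
    rintro z ⟨hz1, hz2⟩
    have hzS : z ∈ S := by
      have := closure_mono (interior_subset (s := S)) hz1
      rwa [hSc.isClosed.closure_eq] at this
    exact hint z hzS (connectedComponentIn_subset _ _ hz2)
  exact hU.hull X hXU hXc a haU (hSc.isBounded.subset (hsub.trans interior_subset))

end Pool.Agent.TB
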